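import Pool.Agent.Leo.Defs

/-!
# Leonard pairs and triples with fixed bases; antiautomorphisms
-/

namespace Pool.Agent.Leo

variable {K : Type*} [Field K] {V : Type*} [AddCommGroup V] [Module K V]

/-- matrix of `X` in the basis `a` -/
noncomputable abbrev mt {n : ℕ} (a : Module.Basis (Fin n) K V) (X : Module.End K V) :
    Matrix (Fin n) (Fin n) K := LinearMap.toMatrix a a X

/-- `X` is tridiagonal in the basis `a` -/
def Tri {n : ℕ} (a : Module.Basis (Fin n) K V) (X : Module.End K V) : Prop :=
  ∀ i j : Fin n, (i : ℕ) + 1 < j ∨ (j : ℕ) + 1 < i → mt a X i j = 0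

/-- Leonard pair `A, B` with eigenbases `a` (for `A`) and `b` (for `B`) -/
structure LP {d : ℕ} (a b : Module.Basis (Fin (d + 1)) K V) (A B : Module.End K V) : Prop where
  dA : (mt a A).IsDiag
  tB : IrredTridiag (mt a B)
  dB : (mt b B).IsDiag
  tA : IrredTridiag (mt b A)

/-- Leonard triple `A, B, C` with eigenbases `a`, `b`, `c` -/
structure LT {d : ℕ} (a b c : Module.Basis (Fin (d + 1)) K V) (A B C : Module.End K V) :
    Prop where
  dA : (mt a A).IsDiag
  aB : IrredTridiag (mt a B)
  aC : IrredTridiag (mt a C)
  dB : (mt b B).IsDiag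
  bA : IrredTridiag (mt b A)
  bC : IrredTridiag (mt b C)
  dC : (mt c C).IsDiag
  cA : IrredTridiag (mt c A)
  cB : IrredTridiag (mt c B)

theorem LP.symm {d : ℕ} {a b : Module.Basis (Fin (d + 1)) K V} {A B : Module.End K V}
    (h : LP a b A B) : LP b a B A := ⟨h.dB, h.tA, h.dA, h.tB⟩

section
variable {d : ℕ} {a b c : Module.Basis (Fin (d + 1)) K V} {A B C : Module.End K V}

theorem LT.pAB (h : LT a b c A B C) : LP a b A B := ⟨h.dA, h.aB, h.dB, h.bA⟩
theorem LT.pAC (h : LT a b c A B C) : LP a c A C := ⟨h.dA, h.aC, h.dC, h.cA⟩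
theorem LT.pBC (h : LT a b c A B C) : LP b c B C := ⟨h.dB, h.bC, h.dC, h.cB⟩
theorem LT.rot (h : LT a b c A B C) : LT b c a B C A :=
  ⟨h.dB, h.bC, h.bA, h.dC, h.cB, h.cA, h.dA, h.aB, h.aC⟩
theorem LT.swap (h : LT a b c A B C) : LT b a c B A C :=
  ⟨h.dB, h.bA, h.bC, h.dA, h.aB, h.aC, h.dC, h.cB, h.cA⟩

end

theorem IsAnti.symm {r : Module.End K V ≃ₗ[K] Module.End K V} {A B : Module.End K V}
    (h : IsAnti r A B) : IsAnti r B A := ⟨h.anti, h.fixB, h.fixA⟩

/-- bm: a Leonard triple has eigenbases of a common size `d+1` -/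
theorem LeonardTriple.bases {A B C : Module.End K V} (h : LeonardTriple A B C) :
    ∃ (d : ℕ) (a b c : Module.Basis (Fin (d + 1)) K V), LT a b c A B C := by
  obtain ⟨hn, ⟨n, a, h1, h2, h3⟩, ⟨n', b, h4, h5, h6⟩, ⟨n'', c, h7, h8, h9⟩⟩ := h
  have e1 : n = n' := by
    have := Fintype.card_congr (a.indexEquiv b); simpa using this
  have e2 : n = n'' := by
    have := Fintype.card_congr (a.indexEquiv c); simpa using this
  subst e1; subst e2
  obtain ⟨d, rfl⟩ : ∃ d, n = d + 1 := by
    rcases n with _ | d
    · exfalso
      have : Subsingleton V := (a.repr.toEquiv.trans (Equiv.refl _)).subsingleton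
      exact not_subsingleton V this
    · exact ⟨d, rfl⟩
  exact ⟨d, a, b, c, h1, h2, h3, h4, h5, h6, h7, h8, h9⟩

section
variable {d : ℕ} {a b : Module.Basis (Fin (d + 1)) K V} {A B : Module.End K V}

/-- a functional which intertwines `A` up to a scalar and kills `b 0` vanishes -/
private theorem ba_functional (h : LP a b A B) (φ : V →ₗ[K] K) (x : K)
    (hφ : ∀ w, φ (A w) = x * φ w) (h0 : φ (b 0) = 0) : φ = 0 := by
  have key : ∀ k : ℕ, ∀ hk : k < d + 1, φ (b ⟨k, hk⟩) = 0 := by
    intro k
    induction k using Nat.strong_induction_on with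
    | _ k ih =>
      intro hk
      rcases k with _ | k
      · exact h0
      · have hk' : k < d + 1 := by omega
        have hA : A (b ⟨k, hk'⟩) = ∑ i, mt b A i ⟨k, hk'⟩ • b i := by
          have := (b.sum_repr (A (b ⟨k, hk'⟩))).symm
          simpa [LinearMap.toMatrix_apply] using this
        have h1 : φ (A (b ⟨k, hk'⟩)) = 0 := by rw [hφ, ih k (by omega) hk', mul_zero]
        rw [hA, map_sum] at h1
        rw [Finset.sum_eq_single (⟨k + 1, hk⟩ : Fin (d + 1))] at h1
        · rw [map_smul, smul_eq_mul] at h1
          exact (mul_eq_zero.1 h1).resolve_left (h.tA.2 _ _ (Or.inr (by simp)))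
        · intro i _ hi
          rw [map_smul, smul_eq_mul]
          rcases lt_or_ge (i : ℕ) (k + 1) with h2 | h2
          · rw [show i = ⟨(i : ℕ), by omega⟩ from rfl, ih i h2 (by omega), mul_zero]
          · rw [h.tA.1 i ⟨k, hk'⟩ (Or.inr ?_), zero_mul]
            have : (i : ℕ) ≠ k + 1 := fun h3 => hi (Fin.ext h3)
            simp only; omega
        · simp
  exact b.ext fun i => key i i.2

private theorem ba_apply (h : LP a b A B) (w : V) (i : Fin (d + 1)) :
    a.repr (A w) i = mt a A i i * a.repr w i := by
  have := congrFun (LinearMap.toMatrix_mulVec_repr a a A w) i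
  rw [← this, Matrix.mulVec, dotProduct, Finset.sum_eq_single i]
  · intro j _ hj; rw [show LinearMap.toMatrix a a A i j = 0 from h.dA (Ne.symm hj), zero_mul]
  · simp

/-- ba: the first eigenvector of `B` is a cyclic vector for `A`: all its coordinates in the
eigenbasis of `A` are nonzero -/
theorem LP.coord_ne (h : LP a b A B) (i : Fin (d + 1)) : a.repr (b 0) i ≠ 0 := by
  intro h0
  have := ba_functional h (a.coord i) (mt a A i i) (fun w => by simpa using ba_apply h w i)
    (by simpa using h0)
  have h1 := congrArg (fun f => f (a i)) this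
  simp at h1

/-- bb: the eigenvalues of `A` are distinct -/
theorem LP.inj (h : LP a b A B) : Function.Injective (fun i : Fin (d + 1) => mt a A i i) := by
  intro i j hij
  by_contra hne
  simp only at hij
  have h1 := ba_functional h (a.repr (b 0) j • a.coord i - a.repr (b 0) i • a.coord j)
    (mt a A i i) (fun w => by
      simp only [LinearMap.sub_apply, LinearMap.smul_apply, Module.Basis.coord_apply, smul_eq_mul,
        ba_apply h w]
      rw [← hij]; ring) (by simp [mul_comm])
  have h2 := congrArg (fun f => f (a i)) h1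
  simp [Finsupp.single_apply, hne] at h2
  exact h.coord_ne j h2

/-- the action of `r` on matrix units -/
private theorem bd_units (dA : (mt a A).IsDiag)
    (inj : Function.Injective (fun i : Fin (d + 1) => mt a A i i))
    (R : Matrix (Fin (d + 1)) (Fin (d + 1)) K ≃ₗ[K] Matrix (Fin (d + 1)) (Fin (d + 1)) K)
    (hl : ∀ i, mt a A * R (Matrix.single i i 1) = mt a A i i • R (Matrix.single i i 1))
    (hr : ∀ i, R (Matrix.single i i 1) * mt a A = mt a A i i • R (Matrix.single i i 1))
    (hs : ∀ i, R (Matrix.single i i 1) * R (Matrix.single i i 1) = R (Matrix.single i i 1)) (i) :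
    R (Matrix.single i i 1) = Matrix.single i i 1 := by
  have e1 : ∀ p q, p ≠ i → R (Matrix.single i i 1) p q = 0 := by
    intro p q hp
    have := congrFun (congrFun (hl i) p) q
    rw [Matrix.mul_apply, Finset.sum_eq_single p, Matrix.smul_apply, smul_eq_mul] at this
    · have h1 : (mt a A p p - mt a A i i) * R (Matrix.single i i 1) p q = 0 := by
        rw [sub_mul, this, sub_self]
      exact (mul_eq_zero.1 h1).resolve_left (fun h => hp (inj (sub_eq_zero.1 h)))
    · intro k _ hk; rw [show mt a A p k = 0 from dA (Ne.symm hk), zero_mul]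
    · simp
  have e2 : ∀ p q, q ≠ i → R (Matrix.single i i 1) p q = 0 := by
    intro p q hq
    have := congrFun (congrFun (hr i) p) q
    rw [Matrix.mul_apply, Finset.sum_eq_single q, Matrix.smul_apply, smul_eq_mul] at this
    · have h1 : (mt a A q q - mt a A i i) * R (Matrix.single i i 1) p q = 0 := by
        rw [sub_mul, mul_comm, this, sub_self]
      exact (mul_eq_zero.1 h1).resolve_left (fun h => hq (inj (sub_eq_zero.1 h)))
    · intro k _ hk; rw [show mt a A k q = 0 from dA hk, mul_zero]
    · simp
  have e3 : R (Matrix.single i i 1) = Matrix.single i i (R (Matrix.single i i 1) i i) := by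
    ext p q
    rw [Matrix.single_apply]
    split_ifs with h
    · obtain ⟨rfl, rfl⟩ := h; rfl
    · by_cases hp : p = i
      · exact e2 p q (fun hq => h ⟨hp.symm, hq.symm⟩)
      · exact e1 p q hp
  set x := R (Matrix.single i i 1) i i with hx
  have h4 : x * x = x := by
    have := congrFun (congrFun (hs i) i) i
    rw [e3, Matrix.single_mul_single_same] at this
    simpa using this
  have h5 : x ≠ 0 := by
    intro h0
    have : R (Matrix.single i i 1) = 0 := by rw [e3, h0]; simp
    have := (R.map_eq_zero_iff).1 this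
    have := congrFun (congrFun this i) i
    simp at this
  rw [e3, mul_left_cancel₀ h5 (h4.trans (mul_one x).symm)]

/-- bc: an algebra automorphism of `End V` which fixes `A` and `B` is the identity -/
theorem LP.auto_eq_one (h : LP a b A B) (f : Module.End K V ≃ₗ[K] Module.End K V)
    (hm : ∀ X Y, f (X * Y) = f X * f Y) (fA : f A = A) (fB : f B = B) : f = 1 := by
  let R : Matrix (Fin (d + 1)) (Fin (d + 1)) K ≃ₗ[K] Matrix (Fin (d + 1)) (Fin (d + 1)) K :=
    ((LinearMap.toMatrix a a).symm.trans f).trans (LinearMap.toMatrix a a)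
  have hR : ∀ M, R M = LinearMap.toMatrix a a (f ((LinearMap.toMatrix a a).symm M)) := fun _ => rfl
  have hsy : ∀ M N, (LinearMap.toMatrix a a).symm (M * N) =
      (LinearMap.toMatrix a a).symm M * (LinearMap.toMatrix a a).symm N := by
    intro M N; simp [LinearMap.toMatrix_symm, Matrix.toLin_mul a a a, Module.End.mul_eq_comp]
  have hRm : ∀ M N, R (M * N) = R M * R N := by
    intro M N
    rw [hR, hR, hR, hsy, hm, ← LinearMap.toMatrix_mul]
  have hRA : R (mt a A) = mt a A := by rw [hR, LinearEquiv.symm_apply_apply, fA]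
  have hRB : R (mt a B) = mt a B := by rw [hR, LinearEquiv.symm_apply_apply, fB]
  have hdl : ∀ i, mt a A * Matrix.single i i 1 = mt a A i i • Matrix.single i i (1 : K) := by
    intro i; ext p q
    rw [Matrix.mul_apply, Finset.sum_eq_single p, Matrix.smul_apply, Matrix.single_apply]
    · by_cases hp : i = p
      · subst hp; rfl
      · simp [hp]
    · intro k _ hk; rw [show mt a A p k = 0 from h.dA (Ne.symm hk), zero_mul]
    · simp
  have hdr : ∀ i, Matrix.single i i 1 * mt a A = mt a A i i • Matrix.single i i (1 : K) := by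
    intro i; ext p q
    rw [Matrix.mul_apply, Finset.sum_eq_single q, Matrix.smul_apply, Matrix.single_apply]
    · by_cases hp : i = q
      · subst hp; simp [mul_comm]
      · simp [hp]
    · intro k _ hk; rw [show mt a A k q = 0 from h.dA hk, mul_zero]
    · simp
  have hP := bd_units h.dA h.inj R
    (fun i => by conv_lhs => rw [← hRA]
                 rw [← hRm, hdl, map_smul])
    (fun i => by conv_lhs => rw [← hRA]
                 rw [← hRm, hdr, map_smul])
    (fun i => by rw [← hRm, Matrix.single_mul_single_same, mul_one])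
  -- matrix units
  have hU : ∀ i j, R (Matrix.single i j 1) = Matrix.single i j (R (Matrix.single i j 1) i j) := by
    intro i j
    have h1 : R (Matrix.single i j 1) = Matrix.single i i 1 * R (Matrix.single i j 1) *
        Matrix.single j j 1 := by
      conv_lhs => rw [show (Matrix.single i j (1 : K)) = Matrix.single i i 1 *
        Matrix.single i j 1 * Matrix.single j j 1 by
          rw [Matrix.single_mul_single_same, Matrix.single_mul_single_same, mul_one, mul_one]]
      rw [hRm, hRm, hP, hP]
    rw [h1, Matrix.single_mul_mul_single, Matrix.single_apply_same, one_mul, mul_one]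
  have hM : ∀ M i j, R M i j = R (Matrix.single i j 1) i j * M i j := by
    intro M i j
    have h1 : Matrix.single i i 1 * M * Matrix.single j j (1 : K) =
        M i j • Matrix.single i j 1 := by
      ext p q
      simp only [Matrix.single_mul_mul_single, Matrix.smul_apply, Matrix.single_apply]
      split_ifs <;> simp
    have h2 := congrArg R h1
    rw [hRm, hRm, hP, hP, map_smul] at h2
    have h3 := congrFun (congrFun h2 i) j
    simp only [Matrix.single_mul_mul_single, Matrix.smul_apply, Matrix.single_apply] at h3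
    simp only [and_self, if_true, one_mul, mul_one, smul_eq_mul] at h3
    rw [h3, mul_comm]
  have hc : ∀ i j k, R (Matrix.single i j 1) i j * R (Matrix.single j k 1) j k =
      R (Matrix.single i k 1) i k := by
    intro i j k
    have h1 : R (Matrix.single i k 1) = R (Matrix.single i j 1) * R (Matrix.single j k 1) := by
      rw [← hRm, Matrix.single_mul_single_same, mul_one]
    have h2 := congrFun (congrFun h1 i) k
    rw [h2, hU i j, hU j k, Matrix.single_mul_single_same]; simp
  have hadj : ∀ i j : Fin (d + 1), (i : ℕ) + 1 = j ∨ (j : ℕ) + 1 = i →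
      R (Matrix.single i j 1) i j = 1 := by
    intro i j hij
    have h1 := hM (mt a B) i j
    rw [hRB] at h1
    exact (mul_right_cancel₀ (h.tB.2 i j hij) ((one_mul _).trans h1)).symm
  have hone : ∀ i, R (Matrix.single i i 1) i i = 1 := by intro i; rw [hP]; simp
  have h0 : ∀ k : ℕ, ∀ hk : k < d + 1, R (Matrix.single 0 ⟨k, hk⟩ 1) 0 ⟨k, hk⟩ = 1 := by
    intro k
    induction k with
    | zero => intro hk; exact hone 0
    | succ k ih =>
      intro hk
      rw [← hc 0 ⟨k, by omega⟩ ⟨k + 1, hk⟩, ih, one_mul]
      exact hadj _ _ (Or.inl rfl)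
  have h00 : ∀ k : ℕ, ∀ hk : k < d + 1, R (Matrix.single ⟨k, hk⟩ 0 1) ⟨k, hk⟩ 0 = 1 := by
    intro k hk
    have := hc 0 ⟨k, hk⟩ 0
    rw [h0, hone, one_mul] at this
    exact this
  have hall : ∀ i j, R (Matrix.single i j 1) i j = 1 := by
    intro i j
    rw [← hc i 0 j, show i = ⟨i, i.2⟩ from rfl, show j = ⟨j, j.2⟩ from rfl, h0, h00, one_mul]
  ext1 X
  apply (LinearMap.toMatrix a a).injective
  ext i j
  have h1 := hM (mt a X) i j
  rw [hall, one_mul, hR, LinearEquiv.symm_apply_apply] at h1
  exact h1

/-- bd: the shape of an antiautomorphism which fixes a multiplicity free diagonal map -/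
theorem anti_shape (dA : (mt a A).IsDiag)
    (inj : Function.Injective (fun i : Fin (d + 1) => mt a A i i))
    {r : Module.End K V ≃ₗ[K] Module.End K V} (hr : ∀ X Y, r (X * Y) = r Y * r X)
    (rA : r A = A) :
    ∃ D : Fin (d + 1) → K, (∀ i, D i ≠ 0) ∧
      ∀ X i j, mt a (r X) i j = D i * mt a X j i / D j := by
  let R : Matrix (Fin (d + 1)) (Fin (d + 1)) K ≃ₗ[K] Matrix (Fin (d + 1)) (Fin (d + 1)) K :=
    ((LinearMap.toMatrix a a).symm.trans r).trans (LinearMap.toMatrix a a)
  have hR : ∀ M, R M = LinearMap.toMatrix a a (r ((LinearMap.toMatrix a a).symm M)) := fun _ => rfl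
  have hsy : ∀ M N, (LinearMap.toMatrix a a).symm (M * N) =
      (LinearMap.toMatrix a a).symm M * (LinearMap.toMatrix a a).symm N := by
    intro M N; simp [LinearMap.toMatrix_symm, Matrix.toLin_mul a a a, Module.End.mul_eq_comp]
  have hRm : ∀ M N, R (M * N) = R N * R M := by
    intro M N
    rw [hR, hR, hR, hsy, hr, ← LinearMap.toMatrix_mul]
  have hRA : R (mt a A) = mt a A := by rw [hR, LinearEquiv.symm_apply_apply, rA]
  have hdl : ∀ i, mt a A * Matrix.single i i 1 = mt a A i i • Matrix.single i i (1 : K) := by
    intro i; ext p q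
    rw [Matrix.mul_apply, Finset.sum_eq_single p, Matrix.smul_apply, Matrix.single_apply]
    · by_cases hp : i = p
      · subst hp; rfl
      · simp [hp]
    · intro k _ hk; rw [show mt a A p k = 0 from dA (Ne.symm hk), zero_mul]
    · simp
  have hdr : ∀ i, Matrix.single i i 1 * mt a A = mt a A i i • Matrix.single i i (1 : K) := by
    intro i; ext p q
    rw [Matrix.mul_apply, Finset.sum_eq_single q, Matrix.smul_apply, Matrix.single_apply]
    · by_cases hp : i = q
      · subst hp; simp [mul_comm]
      · simp [hp]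
    · intro k _ hk; rw [show mt a A k q = 0 from dA hk, mul_zero]
    · simp
  have hP := bd_units dA inj R
    (fun i => by conv_lhs => rw [← hRA]
                 rw [← hRm, hdr, map_smul])
    (fun i => by conv_lhs => rw [← hRA]
                 rw [← hRm, hdl, map_smul])
    (fun i => by rw [← hRm, Matrix.single_mul_single_same, mul_one])
  have hU : ∀ i j, R (Matrix.single i j 1) = Matrix.single j i (R (Matrix.single i j 1) j i) := by
    intro i j
    have h1 : R (Matrix.single i j 1) = Matrix.single j j 1 * R (Matrix.single i j 1) *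
        Matrix.single i i 1 := by
      conv_lhs => rw [show (Matrix.single i j (1 : K)) = Matrix.single i i 1 *
        Matrix.single i j 1 * Matrix.single j j 1 by
          rw [Matrix.single_mul_single_same, Matrix.single_mul_single_same, mul_one, mul_one]]
      rw [hRm, hRm, hP, hP, mul_assoc]
    rw [h1, Matrix.single_mul_mul_single, Matrix.single_apply_same, one_mul, mul_one]
  have hM : ∀ M i j, R M j i = R (Matrix.single i j 1) j i * M i j := by
    intro M i j
    have h1 : Matrix.single i i 1 * M * Matrix.single j j (1 : K) =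
        M i j • Matrix.single i j 1 := by
      ext p q
      simp only [Matrix.single_mul_mul_single, Matrix.smul_apply, Matrix.single_apply]
      split_ifs <;> simp
    have h2 := congrArg R h1
    rw [hRm, hRm, hP, hP, map_smul, ← mul_assoc] at h2
    have h3 := congrFun (congrFun h2 j) i
    simp only [Matrix.single_mul_mul_single, Matrix.smul_apply, Matrix.single_apply] at h3
    simp only [and_self, if_true, one_mul, mul_one, smul_eq_mul] at h3
    rw [h3, mul_comm]
  have hc : ∀ i j k, R (Matrix.single i j 1) j i * R (Matrix.single j k 1) k j =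
      R (Matrix.single i k 1) k i := by
    intro i j k
    have h1 : R (Matrix.single i k 1) = R (Matrix.single j k 1) * R (Matrix.single i j 1) := by
      rw [← hRm, Matrix.single_mul_single_same, mul_one]
    have h2 := congrFun (congrFun h1 k) i
    rw [h2, hU i j, hU j k, Matrix.single_mul_single_same]; simp [mul_comm]
  have hone : ∀ i, R (Matrix.single i i 1) i i = 1 := by intro i; rw [hP]; simp
  have hne : ∀ i j, R (Matrix.single i j 1) j i ≠ 0 := by
    intro i j h0
    have := hc i j i
    rw [h0, zero_mul, hone] at this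
    exact zero_ne_one this
  refine ⟨fun i => R (Matrix.single 0 i 1) i 0, fun i => hne 0 i, fun X i j => ?_⟩
  have h1 := hM (mt a X) j i
  rw [hR, LinearEquiv.symm_apply_apply] at h1
  rw [show mt a (r X) i j = _ from h1]
  have h2 := hc 0 j i
  rw [eq_div_iff (hne 0 j)]
  simp only
  rw [← h2]; ring

/-- be: existence of the antiautomorphism -/
theorem exists_anti (dA : (mt a A).IsDiag) (tB : IrredTridiag (mt a B)) :
    ∃ r : Module.End K V ≃ₗ[K] Module.End K V, IsAnti r A B := by
  classical
  let D' : ℕ → K := fun k => Nat.rec 1 (fun k x => if h : k + 1 < d + 1 then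
    x * mt a B ⟨k + 1, h⟩ ⟨k, by omega⟩ / mt a B ⟨k, by omega⟩ ⟨k + 1, h⟩ else x) k
  have hD0 : D' 0 = 1 := rfl
  have hDs : ∀ k (h : k + 1 < d + 1), D' (k + 1) =
      D' k * mt a B ⟨k + 1, h⟩ ⟨k, by omega⟩ / mt a B ⟨k, by omega⟩ ⟨k + 1, h⟩ := by
    intro k h
    change (if h : k + 1 < d + 1 then
      D' k * mt a B ⟨k + 1, h⟩ ⟨k, by omega⟩ / mt a B ⟨k, by omega⟩ ⟨k + 1, h⟩ else D' k) = _
    rw [dif_pos h]
  have hDne : ∀ k, k < d + 1 → D' k ≠ 0 := by
    intro k
    induction k with
    | zero => intro _; rw [hD0]; exact one_ne_zero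
    | succ k ih =>
      intro hk
      rw [hDs k hk]
      exact div_ne_zero (mul_ne_zero (ih (by omega)) (tB.2 _ _ (Or.inr rfl)))
        (tB.2 _ _ (Or.inl rfl))
  -- the matrix map
  let T : Matrix (Fin (d + 1)) (Fin (d + 1)) K ≃ₗ[K] Matrix (Fin (d + 1)) (Fin (d + 1)) K :=
    { toFun := fun M => Matrix.of fun i j => D' i * M j i / D' j
      map_add' := by
        intro M N; ext i j
        simp only [Matrix.of_apply, Matrix.add_apply]; ring
      map_smul' := by
        intro c M; ext i j
        simp only [Matrix.of_apply, Matrix.smul_apply, smul_eq_mul, RingHom.id_apply]; ring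
      invFun := fun M => Matrix.of fun i j => D' i * M j i / D' j
      left_inv := by
        intro M; ext i j
        simp only [Matrix.of_apply]
        field_simp [hDne i i.2, hDne j j.2]
      right_inv := by
        intro M; ext i j
        simp only [Matrix.of_apply]
        field_simp [hDne i i.2, hDne j j.2] }
  have hT : ∀ M i j, T M i j = D' i * M j i / D' j := fun _ _ _ => rfl
  have hTm : ∀ M N, T (M * N) = T N * T M := by
    intro M N; ext i j
    rw [hT, Matrix.mul_apply, Matrix.mul_apply, Finset.mul_sum, Finset.sum_div]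
    apply Finset.sum_congr rfl
    intro k _
    rw [hT, hT]
    field_simp [hDne i i.2, hDne j j.2, hDne k k.2]
  have hsy : ∀ M N, (LinearMap.toMatrix a a).symm (M * N) =
      (LinearMap.toMatrix a a).symm M * (LinearMap.toMatrix a a).symm N := by
    intro M N; simp [LinearMap.toMatrix_symm, Matrix.toLin_mul a a a, Module.End.mul_eq_comp]
  refine ⟨((LinearMap.toMatrix a a).trans T).trans (LinearMap.toMatrix a a).symm, ?_, ?_, ?_⟩
  · intro X Y
    change (LinearMap.toMatrix a a).symm (T (mt a (X * Y))) =
      (LinearMap.toMatrix a a).symm (T (mt a Y)) * (LinearMap.toMatrix a a).symm (T (mt a X))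
    rw [← hsy, ← hTm, ← LinearMap.toMatrix_mul]
  · change (LinearMap.toMatrix a a).symm (T (mt a A)) = A
    rw [LinearEquiv.symm_apply_eq]
    ext i j
    rw [hT]
    by_cases hij : i = j
    · subst hij
      field_simp [hDne i i.2]
    · rw [show mt a A j i = 0 from dA (Ne.symm hij), mul_zero, zero_div]
      exact (dA hij).symm
  · change (LinearMap.toMatrix a a).symm (T (mt a B)) = B
    rw [LinearEquiv.symm_apply_eq]
    have key : ∀ k (h : k + 1 < d + 1), D' k * mt a B ⟨k + 1, h⟩ ⟨k, by omega⟩ =
        mt a B ⟨k, by omega⟩ ⟨k + 1, h⟩ * D' (k + 1) := by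
      intro k h
      rw [hDs k h]
      field_simp [tB.2 ⟨k, by omega⟩ ⟨k + 1, h⟩ (Or.inl rfl)]
    ext i j
    rw [hT, div_eq_iff (hDne j j.2)]
    change D' i * mt a B j i = mt a B i j * D' j
    rcases lt_trichotomy (i : ℕ) (j : ℕ) with h1 | h1 | h1
    · by_cases h2 : (i : ℕ) + 1 = j
      · obtain ⟨j, hj⟩ := j
        obtain ⟨i, hi⟩ := i
        simp only at h2
        subst h2
        exact key i hj
      · rw [tB.1 j i (Or.inr (by omega)), tB.1 i j (Or.inl (by omega)), mul_zero, zero_mul]
    · have : i = j := Fin.ext h1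
      subst this
      rw [mul_comm]
    · by_cases h2 : (j : ℕ) + 1 = i
      · obtain ⟨j, hj⟩ := j
        obtain ⟨i, hi⟩ := i
        simp only at h2
        subst h2
        have := key j hi
        simp only
        linear_combination -this
      · rw [tB.1 j i (Or.inl (by omega)), tB.1 i j (Or.inr (by omega)), mul_zero, zero_mul]

/-- bf: it is an involution -/
theorem LP.anti_sq (h : LP a b A B) {r : Module.End K V ≃ₗ[K] Module.End K V}
    (hr : IsAnti r A B) : r * r = 1 := by
  obtain ⟨D, hD, hX⟩ := anti_shape h.dA h.inj hr.anti hr.fixA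
  ext1 X
  apply (LinearMap.toMatrix a a).injective
  ext i j
  change mt a (r (r X)) i j = mt a X i j
  rw [hX, hX]
  field_simp [hD i, hD j]

/-- bg: uniqueness of the antiautomorphism -/
theorem LP.anti_unique (h : LP a b A B) {r r' : Module.End K V ≃ₗ[K] Module.End K V}
    (hr : IsAnti r A B) (hr' : IsAnti r' A B) : r = r' := by
  have h1 : r * r' = 1 := h.auto_eq_one (r * r')
    (fun X Y => by
      change r (r' (X * Y)) = r (r' X) * r (r' Y)
      rw [hr'.anti, hr.anti])
    (by change r (r' A) = A; rw [hr'.fixA, hr.fixA])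
    (by change r (r' B) = B; rw [hr'.fixB, hr.fixB])
  have h2 := h.anti_sq hr'
  calc r = r * (r' * r') := by rw [h2, mul_one]
    _ = r' := by rw [← mul_assoc, h1, one_mul]

end

end Pool.Agent.Leo
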