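import Pool.Agent.Leo.Struct

/-!
# A criterion for triples of Krawtchouk type: transcendental parameters at the infinite orders
-/

namespace Pool.Agent.Leo

open Real

section spec
variable {K L : Type*} [Field K] [CharZero K] [Field L]

/-- `x` specializes to `y` (integral relations), with witnesses in the subfield `E` -/
def Spec {n : ℕ} (E : IntermediateField ℚ K) (x : Fin n → K) (y : Fin n → L) : Prop :=
  ∃ (Λ : Type) (_ : CommRing Λ) (φ : Λ →+* K) (ψ : Λ →+* L) (p : Fin n → Λ),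
    (∀ a, φ a = 0 → ψ a = 0) ∧ (∀ a, φ a ∈ E) ∧ (∀ i, φ (p i) = x i) ∧ ∀ i, ψ (p i) = y i

/-- the elements of `K` which are algebraic over `ℚ(S)` -/
noncomputable def clo (S : Set K) : IntermediateField ℚ K :=
  (algebraicClosure (IntermediateField.adjoin ℚ S) K).restrictScalars ℚ

/-- pa -/
theorem Spec.mono {n : ℕ} {E E' : IntermediateField ℚ K} (hE : E ≤ E') {x : Fin n → K}
    {y : Fin n → L} (h : Spec E x y) : Spec E' x y := by
  obtain ⟨Λ, i, φ, ψ, p, h1, h2, h3, h4⟩ := h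
  exact ⟨Λ, i, φ, ψ, p, h1, fun a => hE (h2 a), h3, h4⟩

/-- pa: no parameter -/
theorem spec_nil (E : IntermediateField ℚ K) : Spec E (![] : Fin 0 → K) (![] : Fin 0 → L) := by
  refine ⟨ℤ, inferInstance, Int.castRingHom K, Int.castRingHom L, ![], ?_, ?_, ?_, ?_⟩
  · intro a ha
    have h0 : a = 0 := by simpa using ha
    rw [h0, map_zero]
  · intro a
    exact intCast_mem E a
  · intro i
    exact i.elim0
  · intro i
    exact i.elim0

private theorem pb_mem {z : K} {N : ℕ} (hN : 0 < N) (hz : IsPrimitiveRoot z N)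
    (a : Polynomial ℤ) : Polynomial.aeval z a ∈ clo (∅ : Set K) := by
  have h1 : IsAlgebraic ℚ z := (hz.isIntegral hN).tower_top.isAlgebraic
  have h2 : IsAlgebraic (IntermediateField.adjoin ℚ (∅ : Set K)) z := h1.tower_top _
  have h3 : z ∈ clo (∅ : Set K) := by
    rw [clo, IntermediateField.mem_restrictScalars]
    exact mem_algebraicClosure_iff.mpr h2
  rw [Polynomial.aeval_eq_sum_range]
  refine sum_mem fun i _ => ?_
  rw [zsmul_eq_mul]
  exact mul_mem (intCast_mem _ _) (pow_mem h3 i)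

private theorem pb_eval {F : Type*} [Field F] {N₀ m : ℕ} {z ρ : F} (hz : IsPrimitiveRoot z N₀)
    (_hmd : m ∣ N₀) (hN : 0 < N₀) (h : z ^ (N₀ / m) = ρ ∨ z ^ (N₀ / m) = ρ⁻¹) :
    Polynomial.aeval z (2 + Polynomial.X ^ (N₀ / m) + Polynomial.X ^ (N₀ - N₀ / m) : Polynomial ℤ)
      = 2 + ρ + ρ⁻¹ := by
  have hz0 : z ≠ 0 := hz.ne_zero hN.ne'
  have h1 : z ^ (N₀ - N₀ / m) = (z ^ (N₀ / m))⁻¹ := by
    apply eq_inv_of_mul_eq_one_left
    rw [← pow_add, Nat.sub_add_cancel (Nat.div_le_self _ _), hz.pow_eq_one]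
  have h2 : (Polynomial.aeval z) (2 : Polynomial ℤ) = (2 : F) := map_ofNat _ 2
  rw [map_add, map_add, h2, map_pow, map_pow, Polynomial.aeval_X, h1]
  rcases h with h | h
  · rw [h]
  · rw [h, inv_inv]; ring

private theorem pb_cos {N₀ m : ℕ} (hm : 0 < m) (hmd : m ∣ N₀) (hN : 0 < N₀) :
    Polynomial.aeval (Complex.exp (2 * π * Complex.I / N₀))
      (2 + Polynomial.X ^ (N₀ / m) + Polynomial.X ^ (N₀ - N₀ / m) : Polynomial ℤ)
      = ((4 * Real.cos (π / m) ^ 2 : ℝ) : ℂ) := by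
  have hξ : IsPrimitiveRoot (Complex.exp (2 * π * Complex.I / N₀)) N₀ :=
    Complex.isPrimitiveRoot_exp N₀ hN.ne'
  rw [pb_eval hξ hmd hN (Or.inl rfl), ← Complex.exp_nat_mul, ← Complex.exp_neg]
  have hm' : (m : ℂ) ≠ 0 := by exact_mod_cast hm.ne'
  have hN' : (N₀ : ℂ) ≠ 0 := by exact_mod_cast hN.ne'
  have h1 : ((N₀ / m : ℕ) : ℂ) * (2 * π * Complex.I / N₀) = 2 * (((π / m : ℝ) : ℂ) * Complex.I) := by
    rw [Nat.cast_div hmd hm']
    push_cast
    field_simp
  rw [h1]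
  push_cast
  rw [Complex.cos, two_mul (_ * Complex.I), Complex.exp_add, neg_add, Complex.exp_add]
  have h2 : -((π : ℂ) / m * Complex.I) = -(π / m : ℂ) * Complex.I := by ring
  rw [h2]
  have h3 : Complex.exp ((π : ℂ) / m * Complex.I) * Complex.exp (-(π / m : ℂ) * Complex.I) = 1 := by
    rw [← Complex.exp_add, neg_mul, add_neg_cancel, Complex.exp_zero]
  linear_combination (-2) * h3

/-- pb: one parameter of finite order -/
theorem spec_fin {m : ℕ} (hm : 0 < m) {ρ : K} (hρ : orderOf ρ = m) :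
    Spec (clo (∅ : Set K)) ![2 + ρ + ρ⁻¹] ![((4 * Real.cos (π / m) ^ 2 : ℝ) : ℂ)] := by
  have hρ' : IsPrimitiveRoot ρ m := hρ ▸ IsPrimitiveRoot.orderOf ρ
  have hξ : IsPrimitiveRoot (Complex.exp (2 * π * Complex.I / m)) m :=
    Complex.isPrimitiveRoot_exp m hm.ne'
  refine ⟨Polynomial ℤ, inferInstance,
    ((Polynomial.aeval ρ : Polynomial ℤ →ₐ[ℤ] K) : Polynomial ℤ →+* K),
    ((Polynomial.aeval (Complex.exp (2 * π * Complex.I / m)) : Polynomial ℤ →ₐ[ℤ] ℂ) :
      Polynomial ℤ →+* ℂ),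
    ![2 + Polynomial.X ^ (m / m) + Polynomial.X ^ (m - m / m)], ?_, ?_, ?_, ?_⟩
  · intro a ha
    exact (aeval_primitive_root hm hρ' hξ a).mp ha
  · intro a
    exact pb_mem hm hρ' a
  · intro i
    fin_cases i
    exact pb_eval hρ' dvd_rfl hm (Or.inl (by rw [Nat.div_self hm, pow_one]))
  · intro i
    fin_cases i
    exact pb_cos hm dvd_rfl hm

/-- pb: two parameters of finite order -/
theorem spec_fin_fin {m n : ℕ} (hm : 0 < m) (hn : 0 < n) {ρ σ : K}
    (hρ : orderOf ρ = m) (hσ : orderOf σ = n)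
    (hg : Nat.gcd m n = 1 ∨ Nat.gcd m n = 2 ∨ Nat.gcd m n = 3 ∨ Nat.gcd m n = 4 ∨
      Nat.gcd m n = 6) :
    Spec (clo (∅ : Set K)) ![2 + ρ + ρ⁻¹, 2 + σ + σ⁻¹]
      ![((4 * Real.cos (π / m) ^ 2 : ℝ) : ℂ), ((4 * Real.cos (π / n) ^ 2 : ℝ) : ℂ)] := by
  obtain ⟨ζ, hζ, hζρ, hζσ⟩ := exists_primitive hm hn hρ hσ hg
  have hN : 0 < Nat.lcm m n := Nat.lcm_pos hm hn
  have hmd : m ∣ Nat.lcm m n := Nat.dvd_lcm_left m n
  have hnd : n ∣ Nat.lcm m n := Nat.dvd_lcm_right m n
  have hξ : IsPrimitiveRoot (Complex.exp (2 * π * Complex.I / (Nat.lcm m n : ℕ)))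
      (Nat.lcm m n) := Complex.isPrimitiveRoot_exp _ hN.ne'
  refine ⟨Polynomial ℤ, inferInstance,
    ((Polynomial.aeval ζ : Polynomial ℤ →ₐ[ℤ] K) : Polynomial ℤ →+* K),
    ((Polynomial.aeval (Complex.exp (2 * π * Complex.I / (Nat.lcm m n : ℕ))) :
      Polynomial ℤ →ₐ[ℤ] ℂ) : Polynomial ℤ →+* ℂ),
    ![2 + Polynomial.X ^ (Nat.lcm m n / m) + Polynomial.X ^ (Nat.lcm m n - Nat.lcm m n / m),
      2 + Polynomial.X ^ (Nat.lcm m n / n) + Polynomial.X ^ (Nat.lcm m n - Nat.lcm m n / n)],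
    ?_, ?_, ?_, ?_⟩
  · intro a ha
    exact (aeval_primitive_root hN hζ hξ a).mp ha
  · intro a
    exact pb_mem hN hζ a
  · intro i
    fin_cases i
    · exact pb_eval hζ hmd hN hζρ
    · exact pb_eval hζ hnd hN hζσ
  · intro i
    fin_cases i
    · exact pb_cos hm hmd hN
    · exact pb_cos hn hnd hN

/-- pc: adding a transcendental parameter -/
theorem Spec.cons {n : ℕ} {E E' : IntermediateField ℚ K} {x : Fin n → K} {y : Fin n → L}
    (h : Spec E x y) (hE : E ≤ E') {z : K} (hz : Transcendental E z) (hz' : z ∈ E') (w : L) :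
    Spec E' (Matrix.vecCons z x) (Matrix.vecCons w y) := by
  obtain ⟨Λ, i, φ, ψ, p, h1, h2, h3, h4⟩ := h
  refine ⟨Polynomial Λ, inferInstance, Polynomial.eval₂RingHom φ z,
    Polynomial.eval₂RingHom ψ w, Matrix.vecCons Polynomial.X (fun i => Polynomial.C (p i)),
    ?_, ?_, ?_, ?_⟩
  · intro P hP
    let φE : Λ →+* E := φ.codRestrict E.toSubring (fun a => h2 a)
    have hcomp : (algebraMap E K).comp φE = φ := by
      ext a
      rfl
    have h5 : Polynomial.aeval z (P.map φE) = 0 := by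
      rw [Polynomial.aeval_def, Polynomial.eval₂_map, hcomp]
      exact hP
    have h6 : P.map φE = 0 := by
      by_contra hne
      exact hz ⟨_, hne, h5⟩
    have h7 : ∀ k, ψ (P.coeff k) = 0 := by
      intro k
      apply h1
      have h8 : (P.map φE).coeff k = 0 := by rw [h6, Polynomial.coeff_zero]
      rw [Polynomial.coeff_map] at h8
      have h9 : ((φE (P.coeff k) : E) : K) = 0 := by rw [h8]; rfl
      exact h9
    rw [Polynomial.coe_eval₂RingHom, Polynomial.eval₂_eq_sum_range]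
    apply Finset.sum_eq_zero
    intro k _
    rw [h7, zero_mul]
  · intro P
    rw [Polynomial.coe_eval₂RingHom, Polynomial.eval₂_eq_sum_range]
    exact sum_mem fun k _ => mul_mem (hE (h2 _)) (pow_mem hz' k)
  · intro i
    refine Fin.cases ?_ (fun j => ?_) i
    · simp
    · simp [h3]
  · intro i
    refine Fin.cases ?_ (fun j => ?_) i
    · simp
    · simp [h4]

/-- pc: permuting the parameters -/
theorem Spec.comp {n m : ℕ} {E : IntermediateField ℚ K} {x : Fin n → K} {y : Fin n → L}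
    (h : Spec E x y) (π' : Fin m → Fin n) : Spec E (x ∘ π') (y ∘ π') := by
  obtain ⟨Λ, i, φ, ψ, p, h1, h2, h3, h4⟩ := h
  exact ⟨Λ, i, φ, ψ, p ∘ π', h1, h2, fun i => h3 _, fun i => h4 _⟩

/-- Cartan matrix of a triangle in normal form -/
def cycM {R : Type*} [CommRing R] (y P Q : R) : Matrix (Fin 3) (Fin 3) R :=
  !![2, 1, y; P, 2, 1; P * Q * y, Q, 2]

/-- pd: reduction to the normal form of a triangle -/
theorem wordM_cyc_norm {F : Type*} [Field F] {N : Matrix (Fin 3) (Fin 3) F}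
    (hd : ∀ i, N i i = 2) (h01 : N 0 1 ≠ 0) (h12 : N 1 2 ≠ 0)
    (hcyc : N 0 1 * N 1 2 * N 2 0 = N 0 2 * N 2 1 * N 1 0) (ω : List (Fin 3)) :
    wordM N ω = 1 ↔ wordM (cycM (N 0 2 / (N 0 1 * N 1 2)) (N 0 1 * N 1 0)
      (N 1 2 * N 2 1)) ω = 1 := by
  apply wordM_rescale (x := ![1, Units.mk0 _ h01, Units.mk0 _ h01 * Units.mk0 _ h12])
  have e1 : N 0 2 / (N 0 1 * N 1 2) * (N 0 1 * N 1 2) = N 0 2 :=
    div_mul_cancel₀ _ (mul_ne_zero h01 h12)
  intro i j
  fin_cases i <;> fin_cases j <;> simp [cycM, hd] <;> first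
    | ring1
    | (linear_combination e1)
    | (linear_combination (N 1 0 * N 2 1) * e1 - hcyc)

private theorem pd_word {R : Type*} [CommRing R] (N : Matrix (Fin 3) (Fin 3) R)
    (e : Equiv.Perm (Fin 3)) (he : ∀ i, e (e i) = i) (ω : List (Fin 3)) :
    wordM (N.submatrix e e) (ω.map e) = (wordM N ω).submatrix e e := by
  have hs : ∀ i, sigM (N.submatrix e e) (e i) = (sigM N i).submatrix e e := by
    intro i
    ext p q
    simp only [sigM, Matrix.submatrix_apply, Matrix.of_apply, he]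
    have h1 : (p = q) ↔ (e p = e q) := e.injective.eq_iff.symm
    have h2 : (p = e i) ↔ (e p = i) := by
      constructor
      · intro h
        rw [h, he]
      · intro h
        rw [← h, he]
    simp only [h1, h2]
  induction ω with
  | nil =>
    simp [wordM]
  | cons a ω ih =>
    have e1 : wordM (N.submatrix e e) ((a :: ω).map e)
        = sigM (N.submatrix e e) (e a) * wordM (N.submatrix e e) (ω.map e) := by
      simp [wordM]
    have e2 : wordM N (a :: ω) = sigM N a * wordM N ω := by simp [wordM]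
    rw [e1, e2, ih, hs, Matrix.submatrix_mul_equiv]

/-- pd: relabelling -/
theorem wordM_swap {R : Type*} [CommRing R] (N : Matrix (Fin 3) (Fin 3) R) (ω : List (Fin 3)) :
    wordM N ω = 1 ↔
      wordM (N.submatrix (Equiv.swap (0 : Fin 3) 2) (Equiv.swap (0 : Fin 3) 2))
        (ω.map (Equiv.swap (0 : Fin 3) 2)) = 1 := by
  rw [pd_word N (Equiv.swap (0 : Fin 3) 2) (fun i => by simp)]
  constructor
  · intro h
    rw [h, Matrix.submatrix_one_equiv]
  · intro h
    have h1 := congrArg (fun M : Matrix (Fin 3) (Fin 3) R =>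
      M.submatrix (Equiv.swap (0 : Fin 3) 2) (Equiv.swap (0 : Fin 3) 2)) h
    simp only [Matrix.submatrix_submatrix, Matrix.submatrix_one_equiv] at h1
    have h2 : (⇑(Equiv.swap (0 : Fin 3) 2) ∘ ⇑(Equiv.swap (0 : Fin 3) 2)) = id := by
      ext i
      simp
    rw [h2, Matrix.submatrix_id_id] at h1
    exact h1

omit [CharZero K] in
private theorem pe_transfer {Λ : Type} [CommRing Λ] {φ : Λ →+* K} {ψ : Λ →+* L}
    (h : ∀ a, φ a = 0 → ψ a = 0) (M : Matrix (Fin 3) (Fin 3) Λ) {ω : List (Fin 3)}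
    (hω : wordM (M.map φ) ω = 1) : wordM (M.map ψ) ω = 1 := by
  rw [← wordM_map] at hω ⊢
  ext i j
  have h1 := congrFun (congrFun hω i) j
  rw [Matrix.map_apply] at h1 ⊢
  by_cases hij : i = j
  · subst hij
    rw [Matrix.one_apply_eq] at h1 ⊢
    have h2 := h (wordM M ω i i - 1) (by rw [map_sub, h1, map_one, sub_self])
    rw [map_sub, map_one, sub_eq_zero] at h2
    exact h2
  · rw [Matrix.one_apply_ne hij] at h1 ⊢
    exact h _ h1

/-- pe: transfer of the normal form of a triangle -/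
theorem Spec.wordM_cyc {E : IntermediateField ℚ K} {y P Q : K} {y' P' Q' : L}
    (h : Spec E ![y, P, Q] ![y', P', Q']) {ω : List (Fin 3)}
    (hω : wordM (cycM y P Q) ω = 1) : wordM (cycM y' P' Q') ω = 1 := by
  obtain ⟨Λ, i, φ, ψ, p, h1, h2, h3, h4⟩ := h
  have a0 : φ (p 0) = y := h3 0
  have a1 : φ (p 1) = P := h3 1
  have a2 : φ (p 2) = Q := h3 2
  have b0 : ψ (p 0) = y' := h4 0
  have b1 : ψ (p 1) = P' := h4 1
  have b2 : ψ (p 2) = Q' := h4 2
  have f2 : φ 2 = 2 := map_ofNat φ 2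
  have g2 : ψ 2 = 2 := map_ofNat ψ 2
  have e1 : (cycM (p 0) (p 1) (p 2)).map φ = cycM y P Q := by
    ext i j
    fin_cases i <;> fin_cases j <;> simp [cycM, a0, a1, a2, f2]
  have e2 : (cycM (p 0) (p 1) (p 2)).map ψ = cycM y' P' Q' := by
    ext i j
    fin_cases i <;> fin_cases j <;> simp [cycM, b0, b1, b2, g2]
  rw [← e2]
  apply pe_transfer h1
  rw [e1]
  exact hω

/-- pe: transfer of the normal form of a chain -/
theorem Spec.wordM_chain {E : IntermediateField ℚ K} {P Q : K} {P' Q' : L}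
    (h : Spec E ![P, Q] ![P', Q']) (hP : P ≠ 0) (hP' : P' ≠ 0) (hQ : Q = 0 ↔ Q' = 0)
    {ω : List (Fin 3)} (hω : wordM (chainM (nrm P) P (nrm Q) Q) ω = 1) :
    wordM (chainM (nrm P') P' (nrm Q') Q') ω = 1 := by
  obtain ⟨Λ, i, φ, ψ, p, h1, h2, h3, h4⟩ := h
  have a0 : φ (p 0) = P := h3 0
  have a1 : φ (p 1) = Q := h3 1
  have b0 : ψ (p 0) = P' := h4 0
  have b1 : ψ (p 1) = Q' := h4 1
  have n1 : nrm P = 1 := if_neg hP
  have n2 : nrm P' = 1 := if_neg hP'
  obtain ⟨c, c1, c2⟩ : ∃ c : Λ, φ c = nrm Q ∧ ψ c = nrm Q' := by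
    by_cases hq : Q = 0
    · refine ⟨0, ?_, ?_⟩
      · rw [map_zero, nrm, if_pos hq]
      · rw [map_zero, nrm, if_pos (hQ.mp hq)]
    · refine ⟨1, ?_, ?_⟩
      · rw [map_one, nrm, if_neg hq]
      · rw [map_one, nrm, if_neg (fun h => hq (hQ.mpr h))]
  have f2 : φ 2 = 2 := map_ofNat φ 2
  have g2 : ψ 2 = 2 := map_ofNat ψ 2
  have e1 : (chainM 1 (p 0) c (p 1)).map φ = chainM (nrm P) P (nrm Q) Q := by
    ext i j
    fin_cases i <;> fin_cases j <;> simp [chainM, a0, a1, c1, n1, f2]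
  have e2 : (chainM 1 (p 0) c (p 1)).map ψ = chainM (nrm P') P' (nrm Q') Q' := by
    ext i j
    fin_cases i <;> fin_cases j <;> simp [chainM, b0, b1, c2, n2, g2]
  rw [← e2]
  apply pe_transfer h1
  rw [e1]
  exact hω

private theorem pf_cos {m : ℕ} (hm : m ≠ 1) : Real.cos (π / m) = 0 ↔ m = 2 := by
  rcases Nat.lt_or_ge m 3 with h | h
  · interval_cases m
    · simp
    · exact absurd rfl hm
    · simp
  · have h3 : (3 : ℝ) ≤ m := by exact_mod_cast h
    have hpos : 0 < Real.cos (π / m) := by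
      apply Real.cos_pos_of_mem_Ioo
      constructor
      · have h4 : 0 < π / m := div_pos Real.pi_pos (by linarith)
        have := Real.pi_pos
        linarith
      · rw [div_lt_div_iff₀ (by linarith) (by norm_num)]
        nlinarith [Real.pi_pos]
    constructor
    · intro h4
      exact absurd h4 hpos.ne'
    · intro h4
      omega

private theorem pf_chain {N : Matrix (Fin 3) (Fin 3) K} {G : Matrix (Fin 3) (Fin 3) L}
    (hd : ∀ i, N i i = 2) (hd' : ∀ i, G i i = 2) (h01 : N 0 1 = 0) (h10 : N 1 0 = 0)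
    (g01 : G 0 1 = 0) (g10 : G 1 0 = 0) (z12 : N 1 2 = 0 ↔ N 2 1 = 0)
    (z12' : G 1 2 = 0 ↔ G 2 1 = 0) {E : IntermediateField ℚ K}
    (hS : Spec E ![N 0 2 * N 2 0, N 1 2 * N 2 1] ![G 0 2 * G 2 0, G 1 2 * G 2 1])
    (hQ : N 0 2 * N 2 0 ≠ 0) (hQ' : G 0 2 * G 2 0 ≠ 0)
    (hz : N 1 2 * N 2 1 = 0 ↔ G 1 2 * G 2 1 = 0) {ω : List (Fin 3)} (hω : wordM N ω = 1) :
    wordM G ω = 1 := by
  have z02 : N 0 2 = 0 ↔ N 2 0 = 0 :=
    ⟨fun h => absurd h (left_ne_zero_of_mul hQ), fun h => absurd h (right_ne_zero_of_mul hQ)⟩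
  have z02' : G 0 2 = 0 ↔ G 2 0 = 0 :=
    ⟨fun h => absurd h (left_ne_zero_of_mul hQ'), fun h => absurd h (right_ne_zero_of_mul hQ')⟩
  rw [wordM_chain_norm hd' g01 g10 z02' z12' ω]
  rw [wordM_chain_norm hd h01 h10 z02 z12 ω] at hω
  exact hS.wordM_chain hQ hQ' hz hω

/-- pf: transfer to the real numbers, one transcendental parameter -/
theorem wordM_transfer_inf {N : Matrix (Fin 3) (Fin 3) K} (hd : ∀ i, N i i = 2)
    (z01 : N 0 1 = 0 ↔ N 1 0 = 0) (z12 : N 1 2 = 0 ↔ N 2 1 = 0)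
    (hcyc : N 0 1 * N 1 2 * N 2 0 = N 0 2 * N 2 1 * N 1 0)
    {E : IntermediateField ℚ K} {m n : ℕ} (hm : m ≠ 1) (hn : n ≠ 1)
    (hS : Spec E ![N 0 1 * N 1 0, N 1 2 * N 2 1]
      ![((4 * Real.cos (π / m) ^ 2 : ℝ) : ℂ), ((4 * Real.cos (π / n) ^ 2 : ℝ) : ℂ)])
    (hP : N 0 1 * N 1 0 = 0 ↔ m = 2) (hR : N 1 2 * N 2 1 = 0 ↔ n = 2)
    (hQ : Transcendental E (N 0 2 * N 2 0)) {ω : List (Fin 3)} (hω : wordM N ω = 1) :
    wordM (gramM (Real.cos (π / m)) 1 (Real.cos (π / n))) ω = 1 := by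
  have hQ0 : N 0 2 * N 2 0 ≠ 0 := by
    intro h
    apply hQ
    rw [h]
    exact isAlgebraic_zero
  have cm := pf_cos hm
  have cn := pf_cos hn
  have cm' : (Real.cos (π / m) : ℂ) = 0 ↔ m = 2 := by rw [← cm]; exact Complex.ofReal_eq_zero
  have cn' : (Real.cos (π / n) : ℂ) = 0 ↔ n = 2 := by rw [← cn]; exact Complex.ofReal_eq_zero
  rw [wordM_ofReal]
  set G := (gramM (Real.cos (π / m)) 1 (Real.cos (π / n))).map (fun x => (x : ℂ)) with hG
  have gd : ∀ i, G i i = 2 := by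
    intro i
    fin_cases i <;> simp [hG, gramM]
  have g01 : G 0 1 = -(2 * (Real.cos (π / m) : ℂ)) := by simp [hG, gramM]
  have g10 : G 1 0 = -(2 * (Real.cos (π / m) : ℂ)) := by simp [hG, gramM]
  have g02 : G 0 2 = -2 := by simp [hG, gramM]
  have g20 : G 2 0 = -2 := by simp [hG, gramM]
  have g12 : G 1 2 = -(2 * (Real.cos (π / n) : ℂ)) := by simp [hG, gramM]
  have g21 : G 2 1 = -(2 * (Real.cos (π / n) : ℂ)) := by simp [hG, gramM]
  have eP : ((4 * Real.cos (π / m) ^ 2 : ℝ) : ℂ) = G 0 1 * G 1 0 := by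
    rw [g01, g10]; push_cast; ring
  have eR : ((4 * Real.cos (π / n) ^ 2 : ℝ) : ℂ) = G 1 2 * G 2 1 := by
    rw [g12, g21]; push_cast; ring
  rw [eP, eR] at hS
  have eP' : ((4 * Real.cos (π / m) ^ 2 : ℝ) : ℂ) = G 1 0 * G 0 1 := by
    rw [g01, g10]; push_cast; ring
  have eQ : G 0 2 * G 2 0 = 4 := by rw [g02, g20]; norm_num
  have zP : G 0 1 * G 1 0 = 0 ↔ m = 2 := by
    rw [← cm', g01, g10]
    simp
  have zR : G 1 2 * G 2 1 = 0 ↔ n = 2 := by
    rw [← cn', g12, g21]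
    simp
  by_cases hm2 : m = 2
  · have h01 : N 0 1 = 0 := by
      rcases mul_eq_zero.mp (hP.mpr hm2) with h | h
      · exact h
      · exact z01.mpr h
    have h10 : N 1 0 = 0 := z01.mp h01
    have c0 : (Real.cos (π / m) : ℂ) = 0 := cm'.mpr hm2
    have h1 := hS.cons (E' := ⊤) le_top hQ trivial (G 0 2 * G 2 0)
    have h2 := h1.comp ![0, 2]
    have e1 : (Matrix.vecCons (N 0 2 * N 2 0) ![N 0 1 * N 1 0, N 1 2 * N 2 1]) ∘ ![0, 2]
        = ![N 0 2 * N 2 0, N 1 2 * N 2 1] := by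
      ext i
      fin_cases i <;> rfl
    have e2 : (Matrix.vecCons (G 0 2 * G 2 0) ![G 0 1 * G 1 0, G 1 2 * G 2 1]) ∘ ![0, 2]
        = ![G 0 2 * G 2 0, G 1 2 * G 2 1] := by
      ext i
      fin_cases i <;> rfl
    rw [e1, e2] at h2
    refine pf_chain hd gd h01 h10 ?_ ?_ z12 ?_ h2 hQ0 ?_ ?_ hω
    · rw [g01, c0, mul_zero, neg_zero]
    · rw [g10, c0, mul_zero, neg_zero]
    · rw [g12, g21]
    · rw [eQ]; norm_num
    · rw [hR, zR]
  by_cases hn2 : n = 2
  · have h12 : N 1 2 = 0 := by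
      rcases mul_eq_zero.mp (hR.mpr hn2) with h | h
      · exact h
      · exact z12.mpr h
    have h21 : N 2 1 = 0 := z12.mp h12
    have c0 : (Real.cos (π / n) : ℂ) = 0 := cn'.mpr hn2
    have h1 := hS.cons (E' := ⊤) le_top hQ trivial (G 0 2 * G 2 0)
    have h2 := h1.comp ![0, 1]
    rw [wordM_swap] at hω ⊢
    have s0 : Equiv.swap (0 : Fin 3) 2 0 = 2 := Equiv.swap_apply_left _ _
    have s2 : Equiv.swap (0 : Fin 3) 2 2 = 0 := Equiv.swap_apply_right _ _
    have s1 : Equiv.swap (0 : Fin 3) 2 1 = 1 := by decide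
    have e1 : (Matrix.vecCons (N 0 2 * N 2 0) ![N 0 1 * N 1 0, N 1 2 * N 2 1]) ∘ ![0, 1]
        = ![N 2 0 * N 0 2, N 1 0 * N 0 1] := by
      ext i
      fin_cases i
      · exact mul_comm _ _
      · exact mul_comm _ _
    have e2 : (Matrix.vecCons (G 0 2 * G 2 0) ![G 0 1 * G 1 0, G 1 2 * G 2 1]) ∘ ![0, 1]
        = ![G 2 0 * G 0 2, G 1 0 * G 0 1] := by
      ext i
      fin_cases i
      · exact mul_comm _ _
      · exact mul_comm _ _
    rw [e1, e2] at h2
    refine pf_chain (N := N.submatrix (Equiv.swap (0 : Fin 3) 2) (Equiv.swap (0 : Fin 3) 2))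
      (G := G.submatrix (Equiv.swap (0 : Fin 3) 2) (Equiv.swap (0 : Fin 3) 2))
      (E := ⊤) (fun i => hd _) (fun i => gd _) ?_ ?_ ?_ ?_ ?_ ?_ ?_ ?_ ?_ ?_ hω
    all_goals simp only [Matrix.submatrix_apply, s0, s1, s2]
    · exact h21
    · exact h12
    · rw [g21, c0, mul_zero, neg_zero]
    · rw [g12, c0, mul_zero, neg_zero]
    · exact z01.symm
    · rw [g10, g01]
    · exact h2
    · rw [mul_comm]; exact hQ0
    · rw [mul_comm, eQ]; norm_num
    · rw [mul_comm, hP, mul_comm (G 1 0), zP]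
  · have hP0 : N 0 1 * N 1 0 ≠ 0 := fun h => hm2 (hP.mp h)
    have hR0 : N 1 2 * N 2 1 ≠ 0 := fun h => hn2 (hR.mp h)
    have hP0' : G 0 1 * G 1 0 ≠ 0 := fun h => hm2 (zP.mp h)
    have hR0' : G 1 2 * G 2 1 ≠ 0 := fun h => hn2 (zR.mp h)
    have h01 := left_ne_zero_of_mul hP0
    have h12 := left_ne_zero_of_mul hR0
    have k01 := left_ne_zero_of_mul hP0'
    have k12 := left_ne_zero_of_mul hR0'
    have hPE : N 0 1 * N 1 0 ∈ E := by
      obtain ⟨Λ, i, φ, ψ, p, h1, h2, h3, h4⟩ := hS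
      have h5 := h3 0
      have h6 := h2 (p 0)
      rw [h5] at h6
      exact h6
    have hRE : N 1 2 * N 2 1 ∈ E := by
      obtain ⟨Λ, i, φ, ψ, p, h1, h2, h3, h4⟩ := hS
      have h5 := h3 1
      have h6 := h2 (p 1)
      rw [h5] at h6
      exact h6
    have hy : Transcendental E (N 0 2 / (N 0 1 * N 1 2)) := by
      intro hy
      apply hQ
      have e1 : N 0 2 * N 2 0 = (N 0 2 / (N 0 1 * N 1 2)) ^ 2 *
          (((⟨N 0 1 * N 1 0, hPE⟩ : E) : K) * ((⟨N 1 2 * N 2 1, hRE⟩ : E) : K)) := by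
        change N 0 2 * N 2 0 = (N 0 2 / (N 0 1 * N 1 2)) ^ 2 *
          ((N 0 1 * N 1 0) * (N 1 2 * N 2 1))
        field_simp
        linear_combination (N 0 2) * hcyc
      rw [e1]
      exact (hy.pow 2).mul ((isAlgebraic_algebraMap (⟨N 0 1 * N 1 0, hPE⟩ : E)).mul
        (isAlgebraic_algebraMap (⟨N 1 2 * N 2 1, hRE⟩ : E)))
    have h1 := hS.cons (E' := ⊤) le_top hy trivial (G 0 2 / (G 0 1 * G 1 2))
    rw [wordM_cyc_norm gd k01 k12 (by rw [g01, g12, g20, g02, g21, g10]; ring) ω]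
    rw [wordM_cyc_norm hd h01 h12 hcyc ω] at hω
    exact h1.wordM_cyc hω

/-- pf: the real matrix is a Cartan matrix of the Coxeter matrix -/
theorem geo_inf {m n : ℕ} (hm : m ≠ 1) (hn : n ≠ 1) (M : CoxeterMatrix (Fin 3))
    (h01 : M 0 1 = m) (h02 : M 0 2 = 0) (h12 : M 1 2 = n) :
    Geo M (gramM (Real.cos (π / m)) 1 (Real.cos (π / n))) := by
  have h10 : M 1 0 = m := by rw [M.symmetric 1 0]; exact h01
  have h20 : M 2 0 = 0 := by rw [M.symmetric 2 0]; exact h02
  have h21 : M 2 1 = n := by rw [M.symmetric 2 1]; exact h12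
  refine ⟨?_, ?_, ?_, ?_⟩
  · intro i
    fin_cases i <;> simp [gramM]
  · intro i j
    fin_cases i <;> fin_cases j <;> simp [gramM]
  · intro i j hij h0
    fin_cases i <;> fin_cases j <;>
      first
        | exact absurd rfl hij
        | exact absurd h02 h0
        | exact absurd h20 h0
        | simp [gramM, h01, h12, h10, h21]
  · intro i j hij h0
    fin_cases i <;> fin_cases j
    · exact absurd rfl hij
    · have h1 : m = 0 := by rw [← h01]; exact h0
      simp [gramM, h1]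
    · simp [gramM]
    · have h1 : m = 0 := by rw [← h10]; exact h0
      simp [gramM, h1]
    · exact absurd rfl hij
    · have h1 : n = 0 := by rw [← h12]; exact h0
      simp [gramM, h1]
    · simp [gramM]
    · have h1 : n = 0 := by rw [← h21]; exact h0
      simp [gramM, h1]
    · exact absurd rfl hij

/-- pg: algebraic independence and closures -/
theorem transcendental_clo {ι : Type*} {x : ι → K} (hx : AlgebraicIndependent ℚ x)
    {S : Set ι} {i : ι} (hi : i ∉ S) : Transcendental (clo (x '' S)) (x i) := by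
  have h1 : Transcendental (Algebra.adjoin ℚ (x '' S)) (x i) := hx.transcendental_adjoin hi
  have h2 : Transcendental (IntermediateField.adjoin ℚ (x '' S)) (x i) :=
    IntermediateField.transcendental_adjoin_iff.2 h1
  have h3 : Transcendental (algebraicClosure (IntermediateField.adjoin ℚ (x '' S)) K) (x i) :=
    h2.algebraicClosure
  exact h3

private theorem pg_mem {S : Set K} {x : K} :
    x ∈ clo S ↔ IsAlgebraic (IntermediateField.adjoin ℚ S) x := by
  unfold clo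
  rw [IntermediateField.mem_restrictScalars, mem_algebraicClosure_iff]

private theorem pg_alg {E E' : IntermediateField ℚ K} (h : E ≤ E') {x : K}
    (hx : IsAlgebraic E x) : IsAlgebraic E' x := by
  obtain ⟨p, hp, hpx⟩ := hx
  refine ⟨p.map (IntermediateField.inclusion h).toRingHom, ?_, ?_⟩
  · intro h0
    apply hp
    exact (Polynomial.map_eq_zero_iff (IntermediateField.inclusion h).toRingHom.injective).1 h0
  · rw [Polynomial.aeval_def, Polynomial.eval₂_map]
    rw [Polynomial.aeval_def] at hpx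
    exact hpx

/-- pg -/
theorem clo_mono {S T : Set K} (h : S ⊆ T) : clo S ≤ clo T := by
  intro x hx
  exact pg_mem.2 (pg_alg (IntermediateField.adjoin.mono ℚ S T h) (pg_mem.1 hx))

private theorem pg_map (E : IntermediateField ℚ K) (x : K) (F : Polynomial ℤ) :
    Polynomial.aeval x (F.map (Int.castRingHom E)) = Polynomial.aeval x F := by
  rw [Polynomial.aeval_def, Polynomial.aeval_def, Polynomial.eval₂_map]
  congr 1

/-- pg: an element is algebraic over the field of a nonconstant polynomial in it -/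
theorem mem_clo_of_aeval {S : Set K} {x : K} {F : Polynomial ℤ} (hF : 0 < F.natDegree)
    (h : Polynomial.aeval x F ∈ S) : x ∈ clo S := by
  rw [pg_mem]
  have ht : Polynomial.aeval x F ∈ IntermediateField.adjoin ℚ S :=
    IntermediateField.subset_adjoin ℚ S h
  refine ⟨F.map (Int.castRingHom (IntermediateField.adjoin ℚ S)) -
    Polynomial.C ⟨Polynomial.aeval x F, ht⟩, ?_, ?_⟩
  · intro h0
    have h1 : F.map (Int.castRingHom (IntermediateField.adjoin ℚ S)) =
      Polynomial.C ⟨Polynomial.aeval x F, ht⟩ := sub_eq_zero.1 h0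
    have h2 := congrArg Polynomial.natDegree h1
    rw [Polynomial.natDegree_C, Polynomial.natDegree_map_eq_of_injective
      (RingHom.injective_int (Int.castRingHom (IntermediateField.adjoin ℚ S)))] at h2
    omega
  · rw [map_sub, pg_map, Polynomial.aeval_C]
    exact sub_self _

/-- pg: if a polynomial value is transcendental then so is the argument -/
theorem transcendental_of_aeval {E : IntermediateField ℚ K} {x : K} {F : Polynomial ℤ}
    (h : Transcendental E (Polynomial.aeval x F)) : Transcendental E x := by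
  rw [← pg_map E x F] at h
  exact (transcendental_aeval_iff.1 h).1

end spec

section
variable {K : Type*} [Field K] {V : Type*} [AddCommGroup V] [Module K V]

/-- ph: the trace of a map that is diagonal on the matrix units -/
theorem trace_diag {d : ℕ} (a : Module.Basis (Fin (d + 1)) K V)
    (φ : Module.End K V ≃ₗ[K] Module.End K V) (c : Fin (d + 1) → Fin (d + 1) → K)
    (hφ : ∀ X i j, mt a (φ X) i j = c i j * mt a X i j) :
    LinearMap.trace K (Module.End K V) φ.toLinearMap = ∑ i, ∑ j, c i j := by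
  classical
  have hb : ∀ p : Fin (d + 1) × Fin (d + 1),
      LinearMap.toMatrix
        ((Matrix.stdBasis K (Fin (d + 1)) (Fin (d + 1))).map (LinearMap.toMatrix a a).symm)
        ((Matrix.stdBasis K (Fin (d + 1)) (Fin (d + 1))).map (LinearMap.toMatrix a a).symm)
        φ.toLinearMap p p = c p.1 p.2 := by
    intro p
    obtain ⟨i, j⟩ := p
    rw [LinearMap.toMatrix_apply]
    simp only [Module.Basis.map_apply, Module.Basis.map_repr, LinearEquiv.trans_apply,
      LinearEquiv.symm_symm, LinearEquiv.coe_coe]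
    have h1 : ∀ M : Matrix (Fin (d + 1)) (Fin (d + 1)) K,
        (Matrix.stdBasis K (Fin (d + 1)) (Fin (d + 1))).repr M (i, j) = M i j := by
      intro M
      simp [Matrix.stdBasis]
    rw [h1]
    change mt a (φ _) i j = _
    rw [hφ]
    change c i j * (LinearMap.toMatrix a a ((LinearMap.toMatrix a a).symm _)) i j = _
    rw [LinearEquiv.apply_symm_apply, Matrix.stdBasis_eq_single]
    simp
  rw [LinearMap.trace_eq_matrix_trace K
    ((Matrix.stdBasis K (Fin (d + 1)) (Fin (d + 1))).map (LinearMap.toMatrix a a).symm)]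
  rw [Matrix.trace, ← Fintype.sum_prod_type']
  exact Finset.sum_congr rfl fun p _ => hb p

private noncomputable def phD : ℕ → Polynomial ℤ
  | 0 => 2
  | 1 => Polynomial.X - 2
  | (k + 2) => (Polynomial.X - 2) * phD (k + 1) - phD k

private theorem phD_eval {F : Type*} [Field F] {ρ : F} (h : ρ ≠ 0) :
    ∀ k, Polynomial.aeval (2 + ρ + ρ⁻¹) (phD k) = ρ ^ k + ρ⁻¹ ^ k
  | 0 => by
    rw [phD, map_ofNat]
    simp only [pow_zero]
    norm_num
  | 1 => by
    rw [phD, map_sub, map_ofNat, Polynomial.aeval_X]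
    ring
  | (k + 2) => by
    rw [phD, map_sub, map_mul, map_sub, map_ofNat, Polynomial.aeval_X, phD_eval h (k + 1),
      phD_eval h k]
    have h1 : ρ * ρ⁻¹ = 1 := mul_inv_cancel₀ h
    linear_combination (ρ ^ k + ρ⁻¹ ^ k) * h1

private noncomputable def phF : ℕ → Polynomial ℤ
  | 0 => 1
  | (d + 1) => phF d + (1 + ∑ k ∈ Finset.range (d + 1), phD (k + 1))

private theorem phF_eval {F : Type*} [Field F] {ρ : F} (h : ρ ≠ 0) :
    ∀ d, Polynomial.aeval (2 + ρ + ρ⁻¹) (phF d) =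
      ∑ i : Fin (d + 1), ∑ j : Fin (d + 1), ρ ^ (j : ℕ) / ρ ^ (i : ℕ)
  | 0 => by
    rw [phF, map_one]
    simp
  | (d + 1) => by
    rw [phF, map_add, map_add, map_one, map_sum, phF_eval h d]
    rw [Fin.sum_univ_castSucc (n := d + 1)]
    simp only [Fin.sum_univ_castSucc (n := d + 1), Fin.val_castSucc, Fin.val_last]
    rw [Finset.sum_add_distrib]
    have h1 : ∑ x : Fin (d + 1), ρ ^ (d + 1) / ρ ^ (x : ℕ) =
        ∑ k ∈ Finset.range (d + 1), ρ ^ (k + 1) := by
      rw [Fin.sum_univ_eq_sum_range (fun x => ρ ^ (d + 1) / ρ ^ x),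
        ← Finset.sum_range_reflect (fun k => ρ ^ (k + 1))]
      refine Finset.sum_congr rfl fun x hx => ?_
      have hx' := Finset.mem_range.1 hx
      rw [div_eq_iff (pow_ne_zero _ h), ← pow_add]
      congr 1
      omega
    have h2 : ∑ x : Fin (d + 1), ρ ^ (x : ℕ) / ρ ^ (d + 1) =
        ∑ k ∈ Finset.range (d + 1), ρ⁻¹ ^ (k + 1) := by
      rw [Fin.sum_univ_eq_sum_range (fun x => ρ ^ x / ρ ^ (d + 1)),
        ← Finset.sum_range_reflect (fun k => ρ⁻¹ ^ (k + 1))]
      refine Finset.sum_congr rfl fun x hx => ?_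
      have hx' := Finset.mem_range.1 hx
      rw [div_eq_iff (pow_ne_zero _ h), inv_pow, inv_mul_eq_div, eq_div_iff (pow_ne_zero _ h),
        ← pow_add]
      congr 1
      omega
    rw [h1, h2, div_self (pow_ne_zero _ h)]
    have h3 : ∑ x ∈ Finset.range (d + 1), Polynomial.aeval (2 + ρ + ρ⁻¹) (phD (x + 1)) =
        ∑ k ∈ Finset.range (d + 1), ρ ^ (k + 1) + ∑ k ∈ Finset.range (d + 1), ρ⁻¹ ^ (k + 1) := by
      rw [← Finset.sum_add_distrib]
      exact Finset.sum_congr rfl fun k _ => phD_eval h (k + 1)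
    rw [h3]
    ring

/-- ph: the sum of the powers of `ρ` as a polynomial in `2 + ρ + ρ⁻¹` -/
theorem exists_poly (d : ℕ) (hd : 1 ≤ d) : ∃ F : Polynomial ℤ, 0 < F.natDegree ∧
    ∀ (K : Type*) [Field K] (ρ : K), ρ ≠ 0 →
      Polynomial.aeval (2 + ρ + ρ⁻¹) F =
        ∑ i : Fin (d + 1), ∑ j : Fin (d + 1), ρ ^ (j : ℕ) / ρ ^ (i : ℕ) := by
  refine ⟨phF d, ?_, fun F _ ρ hρ => phF_eval hρ d⟩
  rw [Nat.pos_iff_ne_zero]
  intro h0
  obtain ⟨c, hc⟩ := Polynomial.natDegree_eq_zero.1 h0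
  have e1 := phF_eval (F := ℚ) (ρ := 1) one_ne_zero d
  have e2 := phF_eval (F := ℚ) (ρ := -1) (by norm_num) d
  rw [← hc] at e1 e2
  have hs : ∀ ρ : ℚ, ρ * ρ = 1 → (∑ i : Fin (d + 1), ∑ j : Fin (d + 1), ρ ^ (j : ℕ) / ρ ^ (i : ℕ)) =
      (∑ i ∈ Finset.range (d + 1), ρ ^ i) ^ 2 := by
    intro ρ hρ
    have hρ0 : ρ ≠ 0 := by rintro rfl; simp at hρ
    rw [sq, Finset.sum_mul_sum, ← Fin.sum_univ_eq_sum_range
      (fun i => ∑ j ∈ Finset.range (d + 1), ρ ^ i * ρ ^ j)]
    refine Finset.sum_congr rfl fun i _ => ?_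
    rw [← Fin.sum_univ_eq_sum_range (fun j => ρ ^ (i : ℕ) * ρ ^ j)]
    refine Finset.sum_congr rfl fun j _ => ?_
    have h3 : ρ ^ (i : ℕ) * ρ ^ (i : ℕ) = 1 := by rw [← mul_pow, hρ, one_pow]
    rw [div_eq_iff (pow_ne_zero _ hρ0)]
    linear_combination (-ρ ^ (j : ℕ)) * h3
  rw [hs 1 (by norm_num)] at e1
  rw [hs (-1) (by norm_num)] at e2
  simp only [Polynomial.aeval_C] at e1 e2
  rw [e1] at e2
  rw [neg_one_geom_sum] at e2
  simp only [one_pow, Finset.sum_const, Finset.card_range, nsmul_eq_mul, mul_one] at e2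
  have h5 : (2 : ℚ) ≤ ((d + 1 : ℕ) : ℚ) := by exact_mod_cast Nat.succ_le_succ hd
  split_ifs at e2 <;> nlinarith

variable {A B C : Module.End K V} {r s t : Module.End K V ≃ₗ[K] Module.End K V}

private theorem pi_rel {d : ℕ} {a b c : Module.Basis (Fin (d + 1)) K V} {α β γ : K}
    (h : Setup a b c A B C r s t α β γ) (hγ : γ ≠ 0) {e f f' : K}
    (hC : C = e • 1 + f • A + f' • B + (γ / 2) • (A * B - B * A)) {u : Fin (d + 1) → K}
    (hu : ∀ i, u i ≠ 0) (hX : ∀ X i j, mt a ((r * s) X) i j = u i / u j * mt a X i j)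
    {i j : Fin (d + 1)} (hij : (i : ℕ) + 1 = j ∨ (j : ℕ) + 1 = i) :
    f' + γ / 2 * (mt a A i i - mt a A j j) ≠ 0 ∧
    f' - γ / 2 * (mt a A i i - mt a A j j) ≠ 0 ∧
    u i / u j * (f' + γ / 2 * (mt a A i i - mt a A j j))
      = f' - γ / 2 * (mt a A i i - mt a A j j) ∧
    f' ^ 2 - γ ^ 2 / 4 * (mt a A i i - mt a A j j) ^ 2 = γ / β := by
  have hC' : C = e • 1 + f • A + f' • B + (0 : K) • (A * B + B * A)
      + (γ / 2) • (A * B - B * A) := by
    rw [zero_smul, add_zero]; exact hC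
  have := h.expr_entries hγ hu hX hC' hij
  simpa using this

private theorem pi_const {d : ℕ} {a b : Module.Basis (Fin (d + 1)) K V} (h : LP a b A B) {δ : K}
    (hA : ∀ i j : Fin (d + 1), (i : ℕ) + 1 = j → (mt a A i i - mt a A j j) ^ 2 = δ)
    (hd : 1 ≤ d) :
    ∀ (k : ℕ) (hk : k + 1 < d + 1),
      mt a A ⟨k, by omega⟩ ⟨k, by omega⟩ - mt a A ⟨k + 1, hk⟩ ⟨k + 1, hk⟩ =
        mt a A ⟨0, by omega⟩ ⟨0, by omega⟩ - mt a A ⟨1, by omega⟩ ⟨1, by omega⟩ := by
  intro k
  induction k with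
  | zero => intro _; rfl
  | succ k ih =>
    intro hk
    have h1 := ih (by omega)
    rw [← h1]
    have e1 := hA ⟨k, by omega⟩ ⟨k + 1, by omega⟩ rfl
    have e2 := hA ⟨k + 1, by omega⟩ ⟨k + 1 + 1, hk⟩ rfl
    rw [← e1] at e2
    rcases sq_eq_sq_iff_eq_or_eq_neg.1 e2 with h3 | h3
    · exact h3
    · exfalso
      have h4 : mt a A ⟨k, by omega⟩ ⟨k, by omega⟩ =
          mt a A ⟨k + 1 + 1, hk⟩ ⟨k + 1 + 1, hk⟩ := by
        linear_combination h3
      have := h.inj h4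
      simp only [Fin.mk.injEq] at this
      omega

private theorem pi_korder {d : ℕ} {a b c : Module.Basis (Fin (d + 1)) K V} {α β γ : K}
    (h : Setup a b c A B C r s t α β γ) (hd : 1 ≤ d) (hγ : γ ≠ 0)
    {e f f' : K} (hC : C = e • 1 + f • A + f' • B + (γ / 2) • (A * B - B * A)) :
    ∃ ρ : K, ρ ≠ 0 ∧ ρ ≠ 1 ∧ orderOf (r * s) = orderOf ρ ∧
      4 * (f' * (β * f' / γ)) = 2 + ρ + ρ⁻¹ ∧
      LinearMap.trace K (Module.End K V) (r * s).toLinearMap =
        ∑ i : Fin (d + 1), ∑ j : Fin (d + 1), ρ ^ (j : ℕ) / ρ ^ (i : ℕ) := by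
  obtain ⟨u, hu, hX⟩ := ratio_exists h.lt h.hr h.hs
  have hβ := (h.nondegenerate hd hγ).2.1
  have h2 := h.h2
  obtain ⟨δ, hδ, hγδ, hA⟩ := h.gapA hd hγ hC
  have hconst := pi_const h.lt.pAB hA hd
  set i0 : Fin (d + 1) := ⟨0, by omega⟩ with hi0
  set i1 : Fin (d + 1) := ⟨1, by omega⟩ with hi1
  have r0 := pi_rel h hγ hC hu hX (i := i0) (j := i1) (Or.inl rfl)
  set Δ := mt a A i0 i0 - mt a A i1 i1 with hΔ
  have hΔ2 : Δ ^ 2 = δ := hA i0 i1 rfl
  have hΔ0 : Δ ≠ 0 := by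
    intro h3
    rw [h3] at hΔ2
    apply hδ
    rw [← hΔ2]; ring
  have hq : ∀ i j : Fin (d + 1), (i : ℕ) + 1 = j → u i / u j = u i0 / u i1 := by
    intro i j hij
    obtain ⟨i, hi⟩ := i
    obtain ⟨j, hj⟩ := j
    simp only at hij
    subst hij
    have r1 := pi_rel h hγ hC hu hX (i := ⟨i, hi⟩) (j := ⟨i + 1, hj⟩) (Or.inl rfl)
    rw [hconst i hj] at r1
    have e1 : u ⟨i, hi⟩ / u ⟨i + 1, hj⟩ * (f' + γ / 2 * Δ) =
        u i0 / u i1 * (f' + γ / 2 * Δ) := by
      rw [r0.2.2.1]; exact r1.2.2.1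
    exact mul_right_cancel₀ r0.1 e1
  have hρ0 : u i0 / u i1 ≠ 0 := div_ne_zero (hu _) (hu _)
  refine ⟨u i0 / u i1, hρ0, ?_, ?_, ?_, ?_⟩
  · intro h1
    have h3 := r0.2.2.1
    rw [h1, one_mul] at h3
    have h4 : γ * Δ = 0 := by
      have h5 : γ / 2 * Δ = -(γ / 2 * Δ) := by linear_combination h3
      have h6 : γ / 2 * Δ + γ / 2 * Δ = 0 := by linear_combination h5
      have h7 : γ / 2 * Δ + γ / 2 * Δ = γ * Δ := by field_simp; ring
      rw [← h7]; exact h6
    exact (mul_ne_zero hγ hΔ0) h4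
  · rw [orderOf_eq_orderOf_iff]
    intro m
    rw [ratio_pow hu hX m]
    constructor
    · intro h1
      exact h1 i0 i1 rfl
    · intro h1 i j hij
      rw [hq i j hij]
      exact h1
  · have h5 := h.ratio_add hu hX (i := i0) (j := i1) (Or.inl rfl)
    have h6 : (u i0 / u i1)⁻¹ = u i1 / u i0 := inv_div _ _
    rw [h6]
    have h7 : (2 : K) + u i0 / u i1 + u i1 / u i0 = 2 + (u i0 / u i1 + u i1 / u i0) := by ring
    have h4 : (4 : K) ≠ 0 := by
      have : (4 : K) = 2 * 2 := by norm_num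
      rw [this]; exact mul_ne_zero h2 h2
    rw [h7, h5, ← hΔ, hΔ2]
    have h8 : f' ^ 2 = γ / β + γ ^ 2 * δ / 4 := by
      have : γ / β = f' ^ 2 - γ ^ 2 * δ / 4 := by
        rw [div_eq_iff hβ]
        rw [mul_comm]
        exact hγδ
      rw [this]; ring
    have h9 : 4 * (f' * (β * f' / γ)) = 4 * β / γ * f' ^ 2 := by ring
    rw [h9, h8]
    field_simp
    ring
  · have hpow : ∀ (k : ℕ) (hk : k < d + 1), u ⟨k, hk⟩ * (u i0 / u i1) ^ k = u i0 := by
      intro k
      induction k with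
      | zero => intro hk; rw [pow_zero, mul_one]
      | succ k ih =>
        intro hk
        have h1 := hq ⟨k, by omega⟩ ⟨k + 1, hk⟩ rfl
        have h3 : u ⟨k + 1, hk⟩ * (u i0 / u i1) = u ⟨k, by omega⟩ := by
          rw [← h1]
          have := hu ⟨k + 1, hk⟩
          field_simp
        rw [pow_succ', ← mul_assoc, h3]
        exact ih (by omega)
    rw [trace_diag a (r * s) (fun i j => u i / u j) hX]
    refine Finset.sum_congr rfl (fun i _ => Finset.sum_congr rfl (fun j _ => ?_))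
    have h1 := hpow i i.2
    have h3 := hpow j j.2
    have h4 := pow_ne_zero (i : ℕ) hρ0
    have h5 := hu i
    have h6 := hu j
    simp only [Fin.eta] at h1 h3
    rw [div_eq_div_iff h6 h4]
    rw [h1, mul_comm, h3]

private theorem pi_comm (r t : Module.End K V ≃ₗ[K] Module.End K V) :
    orderOf (r * t) = orderOf (t * r) := by
  rw [orderOf_eq_orderOf_iff]
  intro n
  have key : ∀ x y : Module.End K V ≃ₗ[K] Module.End K V, (x * y) ^ n = 1 → (y * x) ^ n = 1 := by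
    intro x y hxy
    have e : y * x = y * (x * y) * y⁻¹ := by group
    rw [e, conj_pow, hxy, mul_one, mul_inv_cancel]
  exact ⟨key r t, key t r⟩

private theorem pi_trace_comm (r t : Module.End K V ≃ₗ[K] Module.End K V) :
    LinearMap.trace K (Module.End K V) (r * t).toLinearMap =
      LinearMap.trace K (Module.End K V) (t * r).toLinearMap := by
  have h1 : (r * t).toLinearMap = r.toLinearMap * t.toLinearMap := rfl
  have h2 : (t * r).toLinearMap = t.toLinearMap * r.toLinearMap := rfl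
  rw [h1, h2]
  exact LinearMap.trace_mul_comm K _ _

private theorem pi_span [CharZero K] (h : LeonardTriple A B C) (hr : IsAnti r A B)
    (hs : IsAnti s A C) (ht : IsAnti t B C) (hrs : r ≠ s)
    (hK : A * B - B * A ∈ Submodule.span K ({1, A, B, C} : Set (Module.End K V)) ∨
      orderOf (r * s) = 2 ∨ orderOf (r * t) = 2 ∨ orderOf (s * t) = 2)
    {d : ℕ} {a b c : Module.Basis (Fin (d + 1)) K V} {α β γ : K}
    (hS : Setup a b c A B C r s t α β γ) (hd : 1 ≤ d) :
    A * B - B * A ∈ Submodule.span K ({1, A, B, C} : Set (Module.End K V)) := by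
  rcases hK with hK | hK
  · exact hK
  · have hfr : Module.finrank K V = d + 1 := by
      rw [Module.finrank_eq_card_basis a, Fintype.card_fin]
    have hdim : ((Module.finrank K V : ℕ) : K) ≠ 0 := by
      rw [hfr]
      exact Nat.cast_ne_zero.2 (Nat.succ_ne_zero d)
    rcases structure_general two_ne_zero hdim h hr hs ht (by omega) with h1 | h1
    · exact absurd h1.1 hrs
    · obtain ⟨_, _, _, _, _, _, _, _, _, _, _, _, _, _, _, h2⟩ := h1
      rcases h2 with h2 | h2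
      · exact h2.1
      · exfalso
        obtain ⟨_, h3, _, _, _, _, _, _, _, h4⟩ := h2
        have h5 := h4 2 (by norm_num) (by
          rcases hK with hK | hK | hK
          · left; rw [← hK]; exact pow_orderOf_eq_one _
          · right; left; rw [← hK]; exact pow_orderOf_eq_one _
          · right; right; rw [← hK]; exact pow_orderOf_eq_one _)
        omega

/-- pi: the data of a triple of Krawtchouk type needed for the criterion -/
theorem kraw_data [CharZero K] (h : LeonardTriple A B C) (hr : IsAnti r A B)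
    (hs : IsAnti s A C) (ht : IsAnti t B C) (hrs : r ≠ s)
    (hK : A * B - B * A ∈ Submodule.span K ({1, A, B, C} : Set (Module.End K V)) ∨
      orderOf (r * s) = 2 ∨ orderOf (r * t) = 2 ∨ orderOf (s * t) = 2) :
    ∃ (N : Matrix (Fin 3) (Fin 3) K) (ρ σ τ : K) (F : Polynomial ℤ),
      (∀ i, N i i = 2) ∧ (N 0 1 = 0 ↔ N 1 0 = 0) ∧ (N 1 2 = 0 ↔ N 2 1 = 0) ∧
      N 0 1 * N 1 2 * N 2 0 = N 0 2 * N 2 1 * N 1 0 ∧
      (∀ ω : List (Fin 3), wordG r s t ω = 1 → wordM N ω = 1) ∧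
      ρ ≠ 0 ∧ ρ ≠ 1 ∧ σ ≠ 0 ∧ σ ≠ 1 ∧ τ ≠ 0 ∧ τ ≠ 1 ∧
      orderOf (r * s) = orderOf ρ ∧ orderOf (r * t) = orderOf σ ∧
      orderOf (s * t) = orderOf τ ∧
      N 0 1 * N 1 0 = 2 + ρ + ρ⁻¹ ∧ N 0 2 * N 2 0 = 2 + σ + σ⁻¹ ∧
      N 1 2 * N 2 1 = 2 + τ + τ⁻¹ ∧
      0 < F.natDegree ∧
      LinearMap.trace K (Module.End K V) (r * s).toLinearMap =
        Polynomial.aeval (2 + ρ + ρ⁻¹) F ∧
      LinearMap.trace K (Module.End K V) (r * t).toLinearMap =
        Polynomial.aeval (2 + σ + σ⁻¹) F ∧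
      LinearMap.trace K (Module.End K V) (s * t).toLinearMap =
        Polynomial.aeval (2 + τ + τ⁻¹) F := by
  obtain ⟨d, a, b, c, α, β, γ, hS⟩ := exists_setup two_ne_zero h hr hs ht
  obtain ⟨hd, hα, hβ, hγ, -⟩ := hS.of_ne (Or.inl hrs)
  have hsp := pi_span h hr hs ht hrs hK hS hd
  obtain ⟨e, f, f', hC⟩ := zl_kraw hS hd hsp
  obtain ⟨g, g', k, k', hkd, hg, hk', hkk⟩ := hS.kdata hd hγ hC
  obtain ⟨-, ⟨e2, hB⟩, ⟨e3, hA⟩⟩ := hS.kexpr hkd
  obtain ⟨ρ, a1, a2, a3, a4, a5⟩ := pi_korder hS hd hγ hC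
  obtain ⟨σ, b1, b2, b3, b4, b5⟩ := pi_korder hS.rot hd hα hA
  obtain ⟨τ, c1, c2, c3, c4, c5⟩ := pi_korder hS.rot.rot hd hβ hB
  obtain ⟨F, hF, hFρ⟩ := exists_poly d hd
  have h2 : (2 : K) ≠ 0 := two_ne_zero
  have q1 : 4 * (f' * g) = 2 + ρ + ρ⁻¹ := by rw [hg]; exact a4
  have q2 : 4 * (f * k') = 2 + σ + σ⁻¹ := by
    rw [← b4]
    have : f = γ * k' / α := by
      rw [hk']; field_simp
    rw [this]; ring
  have q3 : 4 * (g' * k) = 2 + τ + τ⁻¹ := by rw [hkk]; exact c4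
  have z2 : ∀ x : K, -(2 * x) = 0 ↔ x = 0 := fun x => by
    rw [neg_eq_zero, mul_eq_zero]
    exact ⟨fun h => h.resolve_left h2, Or.inr⟩
  have m01 : cartM f f' g g' k k' 0 1 = -(2 * f') := rfl
  have m02 : cartM f f' g g' k k' 0 2 = -(2 * f) := rfl
  have m10 : cartM f f' g g' k k' 1 0 = -(2 * g) := rfl
  have m12 : cartM f f' g g' k k' 1 2 = -(2 * g') := rfl
  have m20 : cartM f f' g g' k k' 2 0 = -(2 * k') := rfl
  have m21 : cartM f f' g g' k k' 2 1 = -(2 * k) := rfl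
  refine ⟨cartM f f' g g' k k', ρ, σ, τ, F, ?_, ?_, ?_, ?_,
    fun ω hω => hS.word_trivial hd hγ hkd hω, a1, a2, b1, b2, c1, c2, a3, ?_, c3, ?_, ?_, ?_, hF,
    ?_, ?_, ?_⟩
  · intro i
    fin_cases i <;> rfl
  · rw [m01, m10, z2, z2]
    exact hkd.zA
  · rw [m12, m21, z2, z2]
    exact hkd.zC
  · rw [m01, m12, m20, m02, m21, m10]
    linear_combination 8 * hkd.cyc
  · rw [pi_comm]; exact b3
  · rw [m01, m10, ← q1]; ring
  · rw [m02, m20, ← q2]; ring
  · rw [m12, m21, ← q3]; ring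
  · rw [a5, hFρ K ρ a1]
  · rw [pi_trace_comm, b5, hFρ K σ b1]
  · rw [c5, hFρ K τ c1]

/-- the orders of `rs`, `rt`, `st` (`0` for infinite order) -/
noncomputable def ords (r s t : Module.End K V ≃ₗ[K] Module.End K V) : Fin 3 → ℕ :=
  ![orderOf (r * s), orderOf (r * t), orderOf (s * t)]

/-- the traces of `rs`, `rt`, `st` as linear maps of the space `End V` -/
noncomputable def trs (r s t : Module.End K V ≃ₗ[K] Module.End K V) : Fin 3 → K :=
  ![LinearMap.trace K (Module.End K V) (r * s).toLinearMap,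
    LinearMap.trace K (Module.End K V) (r * t).toLinearMap,
    LinearMap.trace K (Module.End K V) (s * t).toLinearMap]

private theorem pj_sw {R : Type*} (x y : R) : (![x, y] ∘ ![(1 : Fin 2), 0]) = ![y, x] := by
  ext i
  fin_cases i <;> rfl


private theorem pj_spec [CharZero K] {ι : Type*} {x : ι → K} {S : Set ι} {m n : ℕ} {ρ τ : K}
    {F : Polynomial ℤ} (hF : 0 < F.natDegree)
    (hX : ∀ i (T : Set ι), i ∉ T → Transcendental (clo (x '' T)) (x i))
    (hρ : orderOf ρ = m) (hτ : orderOf τ = n) (i : m = 0 → ι) (j : n = 0 → ι)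
    (hi : ∀ h, i h ∈ S) (hj : ∀ h, j h ∈ S)
    (xi : ∀ h, x (i h) = Polynomial.aeval (2 + ρ + ρ⁻¹) F)
    (xj : ∀ h, x (j h) = Polynomial.aeval (2 + τ + τ⁻¹) F)
    (hij : ∀ h h', i h ≠ j h')
    (hg : m ≠ 0 → n ≠ 0 → Nat.gcd m n = 1 ∨ Nat.gcd m n = 2 ∨ Nat.gcd m n = 3 ∨
      Nat.gcd m n = 4 ∨ Nat.gcd m n = 6) :
    Spec (clo (x '' S)) ![2 + ρ + ρ⁻¹, 2 + τ + τ⁻¹]
      ![((4 * Real.cos (π / m) ^ 2 : ℝ) : ℂ), ((4 * Real.cos (π / n) ^ 2 : ℝ) : ℂ)] := by
  have hne : ∀ T : Set ι, clo (∅ : Set K) ≤ clo (x '' T) :=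
    fun T => clo_mono (Set.empty_subset _)
  have g0 : ∀ (h : m = 0) (T : Set ι), i h ∉ T →
      Transcendental (clo (x '' T)) (2 + ρ + ρ⁻¹) := by
    intro h T hT
    have h1 := hX _ T hT
    rw [xi h] at h1
    exact transcendental_of_aeval h1
  have g2 : ∀ (h : n = 0) (T : Set ι), j h ∉ T →
      Transcendental (clo (x '' T)) (2 + τ + τ⁻¹) := by
    intro h T hT
    have h1 := hX _ T hT
    rw [xj h] at h1
    exact transcendental_of_aeval h1
  have m0 : ∀ (h : m = 0) (T : Set ι), i h ∈ T → 2 + ρ + ρ⁻¹ ∈ clo (x '' T) :=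
    fun h T hT => mem_clo_of_aeval hF ⟨i h, hT, xi h⟩
  have m2 : ∀ (h : n = 0) (T : Set ι), j h ∈ T → 2 + τ + τ⁻¹ ∈ clo (x '' T) :=
    fun h T hT => mem_clo_of_aeval hF ⟨j h, hT, xj h⟩
  have g0' : ∀ (h : m = 0), Transcendental (clo (∅ : Set K)) (2 + ρ + ρ⁻¹) := by
    intro h
    have := g0 h ∅ (Set.notMem_empty _)
    rwa [Set.image_empty] at this
  have g2' : ∀ (h : n = 0), Transcendental (clo (∅ : Set K)) (2 + τ + τ⁻¹) := by
    intro h
    have := g2 h ∅ (Set.notMem_empty _)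
    rwa [Set.image_empty] at this
  generalize hu : ((4 * Real.cos (π / m) ^ 2 : ℝ) : ℂ) = u
  generalize hv : ((4 * Real.cos (π / n) ^ 2 : ℝ) : ℂ) = v
  by_cases hm : m = 0
  · by_cases hn : n = 0
    · have e1 : Spec (clo (x '' {i hm})) ![2 + ρ + ρ⁻¹] ![u] :=
        Spec.cons (spec_nil (L := ℂ) (clo (∅ : Set K))) (hne _) (g0' hm)
          (m0 hm _ (Set.mem_singleton _)) u
      have e2 : Spec (clo (x '' S)) ![2 + τ + τ⁻¹, 2 + ρ + ρ⁻¹] ![v, u] :=
        Spec.cons e1 (clo_mono (Set.image_mono (Set.singleton_subset_iff.2 (hi hm))))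
          (g2 hn _ (fun hh => hij hm hn (Set.mem_singleton_iff.1 hh).symm)) (m2 hn _ (hj hn)) v
      have e3 := e2.comp ![(1 : Fin 2), 0]
      rwa [pj_sw, pj_sw] at e3
    · have e1 : Spec (clo (∅ : Set K)) ![2 + τ + τ⁻¹] ![v] := by
        rw [← hv]
        exact spec_fin (Nat.pos_of_ne_zero hn) hτ
      exact Spec.cons e1 (hne _) (g0' hm) (m0 hm _ (hi hm)) u
  · by_cases hn : n = 0
    · have e1 : Spec (clo (∅ : Set K)) ![2 + ρ + ρ⁻¹] ![u] := by
        rw [← hu]
        exact spec_fin (Nat.pos_of_ne_zero hm) hρ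
      have e2 : Spec (clo (x '' S)) ![2 + τ + τ⁻¹, 2 + ρ + ρ⁻¹] ![v, u] :=
        Spec.cons e1 (hne _) (g2' hn) (m2 hn _ (hj hn)) v
      have e3 := e2.comp ![(1 : Fin 2), 0]
      rwa [pj_sw, pj_sw] at e3
    · rw [← hu, ← hv]
      exact (spec_fin_fin (Nat.pos_of_ne_zero hm) (Nat.pos_of_ne_zero hn) hρ hτ
        (hg hm hn)).mono (hne _)


private theorem pj_two {F : Type*} [Field F] [CharZero F] {ρ : F} (h0 : ρ ≠ 0) (h1 : ρ ≠ 1) :
    2 + ρ + ρ⁻¹ = 0 ↔ orderOf ρ = 2 := by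
  have e1 : 2 + ρ + ρ⁻¹ = 0 ↔ ρ = -1 := by
    constructor
    · intro h
      have h2 : (ρ + 1) ^ 2 = 0 := by
        have h3 : ρ * ρ⁻¹ = 1 := mul_inv_cancel₀ h0
        linear_combination ρ * h - h3
      have h4 := pow_eq_zero_iff (two_ne_zero) |>.1 h2
      linear_combination h4
    · rintro rfl
      norm_num
  rw [e1]
  constructor
  · rintro rfl
    rw [orderOf_neg_one, ringChar.eq_zero]
    simp
  · intro h
    have h2 : ρ ^ 2 = 1 := by rw [← h]; exact pow_orderOf_eq_one ρ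
    rcases mul_eq_zero.1 (show (ρ - 1) * (ρ + 1) = 0 by linear_combination h2) with h3 | h3
    · exact absurd (sub_eq_zero.1 h3) h1
    · exact eq_neg_of_add_eq_zero_left h3

/-- pj: the case that `rt` has infinite order -/
theorem criterion_mid [CharZero K] (h : LeonardTriple A B C) (hr : IsAnti r A B)
    (hs : IsAnti s A C) (ht : IsAnti t B C) (hrs : r ≠ s)
    (hK : A * B - B * A ∈ Submodule.span K ({1, A, B, C} : Set (Module.End K V)) ∨
      orderOf (r * s) = 2 ∨ orderOf (r * t) = 2 ∨ orderOf (s * t) = 2)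
    (h0 : orderOf (r * t) = 0)
    (hg : orderOf (r * s) ≠ 0 → orderOf (s * t) ≠ 0 →
      Nat.gcd (orderOf (r * s)) (orderOf (s * t)) = 1 ∨
      Nat.gcd (orderOf (r * s)) (orderOf (s * t)) = 2 ∨
      Nat.gcd (orderOf (r * s)) (orderOf (s * t)) = 3 ∨
      Nat.gcd (orderOf (r * s)) (orderOf (s * t)) = 4 ∨
      Nat.gcd (orderOf (r * s)) (orderOf (s * t)) = 6)
    (hI : AlgebraicIndependent ℚ (fun i : {i : Fin 3 // ords r s t i = 0} => trs r s t i)) :
    IsCoxeterTriple r s t := by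
  obtain ⟨N, ρ, σ, τ, F, hd, z01, z12, hcyc, hw, hρ0, hρ1, hσ0, hσ1, hτ0, hτ1, oρ, oσ, oτ,
    P01, P02, P12, hF, T01, T02, T12⟩ := kraw_data h hr hs ht hrs hK
  obtain ⟨d, a, b, c, hl⟩ := h.bases
  have rr : r * r = 1 := hl.pAB.anti_sq hr
  have ss : s * s = 1 := hl.pAC.anti_sq hs
  have tt : t * t = 1 := hl.pBC.anti_sq ht
  have hX : ∀ (i : {i : Fin 3 // ords r s t i = 0}) (T : Set {i : Fin 3 // ords r s t i = 0}),
      i ∉ T → Transcendental (clo ((fun i : {i : Fin 3 // ords r s t i = 0} => trs r s t i) '' T))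
        (trs r s t i) := fun i T hi => transcendental_clo hI hi
  have g1 : Transcendental (clo ((fun i : {i : Fin 3 // ords r s t i = 0} =>
      trs r s t i) '' {i | i.1 ≠ 1})) (2 + σ + σ⁻¹) := by
    have h1 := hX ⟨1, h0⟩ {i | i.1 ≠ 1} (fun hh => hh rfl)
    have h2 : trs r s t (1 : Fin 3) = Polynomial.aeval (2 + σ + σ⁻¹) F := T02
    rw [h2] at h1
    exact transcendental_of_aeval h1
  have hm1 : orderOf (r * s) ≠ 1 := by
    rw [oρ]
    exact fun hh => hρ1 (orderOf_eq_one_iff.1 hh)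
  have hn1 : orderOf (s * t) ≠ 1 := by
    rw [oτ]
    exact fun hh => hτ1 (orderOf_eq_one_iff.1 hh)
  obtain ⟨M, M01, M02, M12⟩ := exists_coxeterMatrix hm1 (q := 0) (by norm_num) hn1
  refine isCoxeterTriple_of_words M rr ss tt M01 (M02.trans h0.symm) M12 fun ω hω => ?_
  have hS := pj_spec (x := fun i : {i : Fin 3 // ords r s t i = 0} => trs r s t i)
    (S := {i | i.1 ≠ 1}) hF hX oρ.symm oτ.symm (fun hm => ⟨0, hm⟩) (fun hn => ⟨2, hn⟩)
    (fun _ => (by decide : (0 : Fin 3) ≠ 1)) (fun _ => (by decide : (2 : Fin 3) ≠ 1))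
    (fun _ => T01) (fun _ => T12)
    (fun _ _ hh => (by decide : (0 : Fin 3) ≠ 2) (congrArg Subtype.val hh)) hg
  rw [← P01, ← P12] at hS
  refine (geo_inf hm1 hn1 M M01 M02 M12).faithful ?_
  refine wordM_transfer_inf hd z01 z12 hcyc hm1 hn1 hS ?_ ?_ ?_ (hw ω hω)
  · rw [P01, oρ]
    exact pj_two hρ0 hρ1
  · rw [P12, oτ]
    exact pj_two hτ0 hτ1
  · rw [P02]
    exact g1

omit [Field K] in
private theorem pk_order {G : Type*} [Group G] {x y : G} (hx : x * x = 1) (hy : y * y = 1) :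
    orderOf (y * x) = orderOf (x * y) := by
  have h1 : y * x = (x * y)⁻¹ := by
    rw [mul_inv_rev]
    rw [inv_eq_of_mul_eq_one_left hx, inv_eq_of_mul_eq_one_left hy]
  rw [h1, orderOf_inv]

private theorem pk_diagTri {A B C : Module.End K V} (h : DiagTri A B C) : DiagTri A C B := by
  obtain ⟨n, b, h1, h2, h3⟩ := h
  exact ⟨n, b, h1, h3, h2⟩

private theorem pk_trace (x y : Module.End K V ≃ₗ[K] Module.End K V) :
    LinearMap.trace K (Module.End K V) (x * y).toLinearMap =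
      LinearMap.trace K (Module.End K V) (y * x).toLinearMap :=
  LinearMap.trace_mul_comm K x.toLinearMap y.toLinearMap

private theorem pk_index [CharZero K] {r s t r' s' t' : Module.End K V ≃ₗ[K] Module.End K V}
    (e : Equiv.Perm (Fin 3)) (ho : ∀ i, ords r' s' t' i = ords r s t (e i))
    (ht : ∀ i, trs r' s' t' i = trs r s t (e i))
    (hI : AlgebraicIndependent ℚ (fun i : {i : Fin 3 // ords r s t i = 0} => trs r s t i)) :
    AlgebraicIndependent ℚ (fun i : {i : Fin 3 // ords r' s' t' i = 0} => trs r' s' t' i) := by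
  have h1 := hI.comp (fun i : {i : Fin 3 // ords r' s' t' i = 0} =>
    (⟨e i, by rw [← ho]; exact i.2⟩ : {i : Fin 3 // ords r s t i = 0})) (by
      intro i j hij
      exact Subtype.ext (e.injective (congrArg Subtype.val hij)))
  have h2 : (fun i : {i : Fin 3 // ords r' s' t' i = 0} => trs r' s' t' i) =
      (fun i : {i : Fin 3 // ords r s t i = 0} => trs r s t i) ∘
        (fun i : {i : Fin 3 // ords r' s' t' i = 0} =>
          (⟨e i, by rw [← ho]; exact i.2⟩ : {i : Fin 3 // ords r s t i = 0})) := by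
    funext i
    exact ht i
  rw [h2]
  exact h1

/-- pk: the criterion -/
theorem criterion [CharZero K] (h : LeonardTriple A B C) (hr : IsAnti r A B)
    (hs : IsAnti s A C) (ht : IsAnti t B C) (hrs : r ≠ s)
    (hK : A * B - B * A ∈ Submodule.span K ({1, A, B, C} : Set (Module.End K V)) ∨
      orderOf (r * s) = 2 ∨ orderOf (r * t) = 2 ∨ orderOf (s * t) = 2)
    (h0 : ∃ i, ords r s t i = 0 ∨ ords r s t i = 2)
    (hg : ∀ i j, i ≠ j → ords r s t i ≠ 0 → ords r s t j ≠ 0 →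
      Nat.gcd (ords r s t i) (ords r s t j) ∈ ({1, 2, 3, 4, 6} : Set ℕ))
    (hI : AlgebraicIndependent ℚ (fun i : {i : Fin 3 // ords r s t i = 0} => trs r s t i)) :
    IsCoxeterTriple r s t := by
  obtain ⟨d, a, b, c, α, β, γ, hS⟩ := exists_setup two_ne_zero h hr hs ht
  obtain ⟨hd, hα, hβ, hγ, -, hrt, hst⟩ := hS.of_ne (Or.inl hrs)
  have rr : r * r = 1 := hS.lt.pAB.anti_sq hr
  have ss : s * s = 1 := hS.lt.pAC.anti_sq hs
  have tt : t * t = 1 := hS.lt.pBC.anti_sq ht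
  have hgg : ∀ i j, i ≠ j → ords r s t i ≠ 0 → ords r s t j ≠ 0 →
      Nat.gcd (ords r s t i) (ords r s t j) = 1 ∨ Nat.gcd (ords r s t i) (ords r s t j) = 2 ∨
      Nat.gcd (ords r s t i) (ords r s t j) = 3 ∨ Nat.gcd (ords r s t i) (ords r s t j) = 4 ∨
      Nat.gcd (ords r s t i) (ords r s t j) = 6 := by
    intro i j hij hi hj
    have := hg i j hij hi hj
    simpa only [Set.mem_insert_iff, Set.mem_singleton_iff] using this
  have osr : orderOf (s * r) = orderOf (r * s) := pk_order rr ss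
  have otr : orderOf (t * r) = orderOf (r * t) := pk_order rr tt
  have ots : orderOf (t * s) = orderOf (s * t) := pk_order ss tt
  by_cases h1 : orderOf (r * t) = 0
  · exact criterion_mid h hr hs ht hrs hK h1
      (fun ha hb => hgg 0 2 (by decide) ha hb) hI
  by_cases h2 : orderOf (r * s) = 0
  · have hL : LeonardTriple B A C := ⟨h.nontriv, h.triB, h.triA, pk_diagTri h.triC⟩
    have hK' : B * A - A * B ∈ Submodule.span K ({1, B, A, C} : Set (Module.End K V)) ∨
        orderOf (r * t) = 2 ∨ orderOf (r * s) = 2 ∨ orderOf (t * s) = 2 := by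
      rcases hK with hK | hK | hK | hK
      · left
        have e1 : ({1, B, A, C} : Set (Module.End K V)) = {1, A, B, C} := by
          rw [Set.insert_comm B A]
        rw [e1, ← neg_sub]
        exact Submodule.neg_mem _ hK
      · exact Or.inr (Or.inr (Or.inl hK))
      · exact Or.inr (Or.inl hK)
      · exact Or.inr (Or.inr (Or.inr (ots.trans hK)))
    have o' : ∀ i, ords r t s i = ords r s t (Equiv.swap (0 : Fin 3) 1 i) := by
      intro i
      fin_cases i
      · rfl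
      · rfl
      · exact ots
    have t' : ∀ i, trs r t s i = trs r s t (Equiv.swap (0 : Fin 3) 1 i) := by
      intro i
      fin_cases i
      · rfl
      · rfl
      · exact pk_trace t s
    exact (criterion_mid hL hr.symm ht hs hrt hK' h2
      (fun ha hb => by
        rw [ots] at hb ⊢
        exact hgg 1 2 (by decide) ha hb) (pk_index _ o' t' hI)).perm.2
  by_cases h3 : orderOf (s * t) = 0
  · have hL : LeonardTriple A C B := ⟨h.nontriv, pk_diagTri h.triA, h.triC, h.triB⟩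
    have hK' : A * C - C * A ∈ Submodule.span K ({1, A, C, B} : Set (Module.End K V)) ∨
        orderOf (s * r) = 2 ∨ orderOf (s * t) = 2 ∨ orderOf (r * t) = 2 := by
      rcases hK with hK | hK | hK | hK
      · left
        obtain ⟨e, f, f', hB⟩ := (hS.rot.krawtchouk_rot hd hα).1
          ((hS.krawtchouk_rot hd hγ).1 (zl_kraw hS hd hK))
        have hP : A * C - C * A = (2 / β * e) • (1 : Module.End K V) + (2 / β * f') • A
            + (2 / β * f) • C + (-(2 / β)) • B := by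
          conv_rhs => rw [hB]
          match_scalars <;> field_simp <;> ring
        rw [hP]
        exact Submodule.add_mem _ (Submodule.add_mem _ (Submodule.add_mem _
          (Submodule.smul_mem _ _ (Submodule.subset_span (by simp)))
          (Submodule.smul_mem _ _ (Submodule.subset_span (by simp))))
          (Submodule.smul_mem _ _ (Submodule.subset_span (by simp))))
          (Submodule.smul_mem _ _ (Submodule.subset_span (by simp)))
      · exact Or.inr (Or.inl (osr.trans hK))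
      · exact Or.inr (Or.inr (Or.inr hK))
      · exact Or.inr (Or.inr (Or.inl hK))
    have o' : ∀ i, ords s r t i = ords r s t (Equiv.swap (1 : Fin 3) 2 i) := by
      intro i
      fin_cases i
      · exact osr
      · rfl
      · rfl
    have t' : ∀ i, trs s r t i = trs r s t (Equiv.swap (1 : Fin 3) 2 i) := by
      intro i
      fin_cases i
      · exact pk_trace s r
      · rfl
      · rfl
    exact (criterion_mid hL hs hr ht.symm hrs.symm hK' h3
      (fun ha hb => by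
        rw [osr] at ha ⊢
        exact hgg 0 1 (by decide) ha hb) (pk_index _ o' t' hI)).perm.2.perm.1
  have k0 : ords r s t 0 ≠ 0 := h2
  have k1 : ords r s t 1 ≠ 0 := h1
  have k2 : ords r s t 2 ≠ 0 := h3
  obtain ⟨i, hi⟩ := h0
  fin_cases i
  · exact (coxeter_of_some_order_two h hr hs ht (Nat.pos_of_ne_zero h1) (Nat.pos_of_ne_zero h3)
      (Or.inl ⟨hi.resolve_left k0, rfl, rfl⟩) (hgg 1 2 (by decide) k1 k2)).2
  · exact (coxeter_of_some_order_two h hr hs ht (Nat.pos_of_ne_zero h2) (Nat.pos_of_ne_zero h3)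
      (Or.inr (Or.inl ⟨hi.resolve_left k1, rfl, rfl⟩)) (hgg 0 2 (by decide) k0 k2)).2
  · exact (coxeter_of_some_order_two h hr hs ht (Nat.pos_of_ne_zero h2) (Nat.pos_of_ne_zero h1)
      (Or.inr (Or.inr ⟨hi.resolve_left k2, rfl, rfl⟩)) (hgg 0 1 (by decide) k0 k1)).2

end

end Pool.Agent.Leo
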