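import Mathlib

/-!
# Leonard triples and the group generated by their three antiautomorphisms

Definitions used in the hand-ins on MP_ba5c5f_al.
-/

namespace Pool.Agent.Leo

/-- A square matrix is *irreducible tridiagonal*: the entries at distance more than `1` from the
diagonal are zero, the entries at distance exactly `1` from the diagonal are nonzero. -/
def IrredTridiag {K : Type*} [Zero K] {n : ℕ} (M : Matrix (Fin n) (Fin n) K) : Prop :=
  (∀ i j : Fin n, (i : ℕ) + 1 < j ∨ (j : ℕ) + 1 < i → M i j = 0) ∧
  (∀ i j : Fin n, (i : ℕ) + 1 = j ∨ (j : ℕ) + 1 = i → M i j ≠ 0)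

section

variable {K : Type*} [Field K] {V : Type*} [AddCommGroup V] [Module K V]

/-- Some basis of `V` makes the matrix of `A` diagonal and the matrices of `B` and `C`
irreducible tridiagonal. -/
def DiagTri (A B C : Module.End K V) : Prop :=
  ∃ (n : ℕ) (b : Module.Basis (Fin n) K V), (LinearMap.toMatrix b b A).IsDiag ∧
    IrredTridiag (LinearMap.toMatrix b b B) ∧ IrredTridiag (LinearMap.toMatrix b b C)

/-- `A, B, C` is a Leonard triple on the nonzero space `V`. -/
structure LeonardTriple (A B C : Module.End K V) : Prop where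
  nontriv : Nontrivial V
  triA : DiagTri A B C
  triB : DiagTri B A C
  triC : DiagTri C A B

/-- `r` is an antiautomorphism of the algebra `End V` which fixes `A` and `B`
(for a Leonard pair `A, B` there is exactly one). -/
structure IsAnti (r : Module.End K V ≃ₗ[K] Module.End K V) (A B : Module.End K V) : Prop where
  anti : ∀ X Y, r (X * Y) = r Y * r X
  fixA : r A = A
  fixB : r B = B

end

/-- The group generated by `r, s, t` is a Coxeter group with Coxeter generators `r, s, t`:
it has the presentation with the relations `r² = s² = t² = 1` and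
`(rs)^(order of rs) = (rt)^(order of rt) = (st)^(order of st) = 1` (no relation for an infinite
order, `orderOf` is then `0`), i.e. the homomorphism from the Coxeter group of this Coxeter matrix
which sends the simple reflections to `r, s, t` exists and is injective. -/
def IsCoxeterTriple {G : Type*} [Group G] (r s t : G) : Prop :=
  ∃ M : CoxeterMatrix (Fin 3),
    M 0 1 = orderOf (r * s) ∧ M 0 2 = orderOf (r * t) ∧ M 1 2 = orderOf (s * t) ∧
    ∃ f : M.Group →* G, Function.Injective f ∧
      f (M.simple 0) = r ∧ f (M.simple 1) = s ∧ f (M.simple 2) = t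

section
variable {R : Type*} [CommRing R]

/-- the reflection `x ↦ x - (∑ j, N i j * x j) e_i` as a matrix acting on columns -/
def sigM (N : Matrix (Fin 3) (Fin 3) R) (i : Fin 3) : Matrix (Fin 3) (Fin 3) R :=
  Matrix.of fun p q => (if p = q then 1 else 0) - if p = i then N i q else 0

/-- product of the reflections along a word -/
def wordM (N : Matrix (Fin 3) (Fin 3) R) (ω : List (Fin 3)) : Matrix (Fin 3) (Fin 3) R :=
  (ω.map (sigM N)).prod

/-- product of `r, s, t` along a word in the letters `0, 1, 2` -/
def wordG {G : Type*} [Monoid G] (r s t : G) (ω : List (Fin 3)) : G :=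
  (ω.map ![r, s, t]).prod

/-- the Cartan matrix of the data -/
def cartM {R : Type*} [CommRing R] (f f' g g' k k' : R) : Matrix (Fin 3) (Fin 3) R :=
  !![2, -(2 * f'), -(2 * f); -(2 * g), 2, -(2 * g'); -(2 * k'), -(2 * k), 2]

end

section

variable {K : Type*} [Field K] {V : Type*} [AddCommGroup V] [Module K V]

/-- The three reflections on the span of `1, A, B, C`, and the condition that the three
mirrors are in general position. -/
structure KData (A B C : Module.End K V)
    (r s t : Module.End K V ≃ₗ[K] Module.End K V) (f f' g g' k k' : K) : Prop where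
  eC : ∃ ε : K, r C = -C + (2 * f) • A + (2 * f') • B + ε • 1
  eB : ∃ ε : K, s B = -B + (2 * g) • C + (2 * g') • A + ε • 1
  eA : ∃ ε : K, t A = -A + (2 * k) • B + (2 * k') • C + ε • 1
  zA : f' = 0 ↔ g = 0
  zC : g' = 0 ↔ k = 0
  zB : f = 0 ↔ k' = 0
  cyc : f * g * k = f' * g' * k'
  det : 1 - f' * g - g' * k - k' * f - 2 * (f * g * k) ≠ 0

/-- The rule for the powers of `g` (`g = rs` for the map `A`): in every basis which makes `A`
diagonal with eigenvalues `θ` and `B`, `C` irreducible tridiagonal, `g ^ m = 1` holds if and only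
if all consecutive eigenvalues satisfy `ρ + ρ⁻¹ = 2 + c (θ i - θ j)²` with an `m`-th root of
unity `ρ`. -/
def OrderRule (A B C : Module.End K V) (g : Module.End K V ≃ₗ[K] Module.End K V) (c : K) :
    Prop :=
  ∀ (n : ℕ) (a : Module.Basis (Fin n) K V) (θ : Fin n → K),
    LinearMap.toMatrix a a A = Matrix.diagonal θ →
    IrredTridiag (LinearMap.toMatrix a a B) → IrredTridiag (LinearMap.toMatrix a a C) →
    ∀ m : ℕ, g ^ m = 1 ↔ ∀ i j : Fin n, (i : ℕ) + 1 = j →
      ∃ ρ : K, ρ ≠ 0 ∧ ρ ^ m = 1 ∧ ρ + ρ⁻¹ = 2 + c * (θ i - θ j) ^ 2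

/-- the trace of a linear map of the space `End V` -/
noncomputable def trEnd (x : Module.End K V ≃ₗ[K] Module.End K V) : K :=
  LinearMap.trace K (Module.End K V) x.toLinearMap

/-- `A, B, C` is a Leonard triple, `r, s, t` are its antiautomorphisms and `p, q, l` are the
orders of `rs, rt, st` (`0` for infinite order) -/
structure TripleOf (A B C : Module.End K V) (r s t : Module.End K V ≃ₗ[K] Module.End K V)
    (p q l : ℕ) : Prop where
  triple : LeonardTriple A B C
  antiR : IsAnti r A B
  antiS : IsAnti s A C
  antiT : IsAnti t B C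
  ordRS : orderOf (r * s) = p
  ordRT : orderOf (r * t) = q
  ordST : orderOf (s * t) = l

/-- the commutator `[A, B]` lies in the span of `1, A, B, C` -/
def InSpan (A B C : Module.End K V) : Prop :=
  A * B - B * A ∈ Submodule.span K ({1, A, B, C} : Set (Module.End K V))

end

/-- the products `rs`, `rt`, `st` -/
def prods {G : Type*} [Mul G] (r s t : G) (i : Fin 3) : G := ![r * s, r * t, s * t] i

/-- the same words are trivial in `r, s, t` and in `r', s', t'` (so the two generated groups are
isomorphic with `r, s, t` corresponding to `r', s', t'`) -/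
def SameWords {G G' : Type*} [Monoid G] [Monoid G'] (r s t : G) (r' s' t' : G') : Prop :=
  ∀ w : List (Fin 3), wordG r s t w = 1 ↔ wordG r' s' t' w = 1

/-- the orders `p, q, l` are finite and Euclidean -/
def Euclid (p q l : ℕ) : Prop :=
  p ≠ 0 ∧ q ≠ 0 ∧ l ≠ 0 ∧ (1 : ℚ) / p + 1 / q + 1 / l = 1

/-- over the field `K` there is, in dimension `n`, a Leonard triple for which `rs, rt, st` have
the orders `p, q, l` (`0` for infinite) and for which `Q` holds for the pair of statements:
`[A, B]` is in the span of `1, A, B, C`; `G` is a Coxeter group with generators `r, s, t` -/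
def Occurs (K : Type) [Field K] (n p q l : ℕ) (Q : Prop → Prop → Prop) : Prop :=
  ∃ (V : Type) (_ : AddCommGroup V) (_ : Module K V) (A B C : Module.End K V)
    (r s t : Module.End K V ≃ₗ[K] Module.End K V),
    Module.finrank K V = n ∧ TripleOf A B C r s t p q l ∧ Q (InSpan A B C) (IsCoxeterTriple r s t)

end Pool.Agent.Leo
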