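import Pool.Agent.Leo.Refl

/-!
# Comparison of reflection representations over a field of characteristic zero with the real one
-/

namespace Pool.Agent.Leo

open Real

/-- ga: the kernels of the evaluations at two primitive `n`-th roots of unity agree -/
theorem aeval_primitive_root {K L : Type*} [Field K] [CharZero K] [Field L] [CharZero L] {n : ℕ}
    (hn : 0 < n) {ζ : K} {ξ : L} (hζ : IsPrimitiveRoot ζ n) (hξ : IsPrimitiveRoot ξ n)
    (F : Polynomial ℤ) : Polynomial.aeval ζ F = 0 ↔ Polynomial.aeval ξ F = 0 := by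
  have h1 : Polynomial.aeval ζ F = 0 ↔ Polynomial.cyclotomic n ℤ ∣ F := by
    rw [Polynomial.cyclotomic_eq_minpoly hζ hn]
    exact minpoly.isIntegrallyClosed_dvd_iff (hζ.isIntegral hn) F
  have h2 : Polynomial.aeval ξ F = 0 ↔ Polynomial.cyclotomic n ℤ ∣ F := by
    rw [Polynomial.cyclotomic_eq_minpoly hξ hn]
    exact minpoly.isIntegrallyClosed_dvd_iff (hξ.isIntegral hn) F
  exact h1.trans h2.symm

/-- gb: simultaneous primitive root -/
theorem exists_primitive {K : Type*} [Field K] {m n : ℕ} (hm : 0 < m) (hn : 0 < n) {ρ σ : K}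
    (hρ : orderOf ρ = m) (hσ : orderOf σ = n)
    (hg : Nat.gcd m n = 1 ∨ Nat.gcd m n = 2 ∨ Nat.gcd m n = 3 ∨ Nat.gcd m n = 4 ∨
      Nat.gcd m n = 6) :
    ∃ ζ : K, IsPrimitiveRoot ζ (Nat.lcm m n) ∧
      (ζ ^ (Nat.lcm m n / m) = ρ ∨ ζ ^ (Nat.lcm m n / m) = ρ⁻¹) ∧
      (ζ ^ (Nat.lcm m n / n) = σ ∨ ζ ^ (Nat.lcm m n / n) = σ⁻¹) := by
  have hρ' : IsPrimitiveRoot ρ m := hρ ▸ IsPrimitiveRoot.orderOf ρ
  have hσ' : IsPrimitiveRoot σ n := hσ ▸ IsPrimitiveRoot.orderOf σ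
  have hη := hρ'.pow_mul_pow_lcm hσ' hm.ne' hn.ne'
  set η : K := ρ ^ (m / Nat.factorizationLCMLeft m n) * σ ^ (n / Nat.factorizationLCMRight m n)
    with hηdef
  have hN : 0 < Nat.lcm m n := Nat.lcm_pos hm hn
  have hmd : m ∣ Nat.lcm m n := Nat.dvd_lcm_left m n
  have hnd : n ∣ Nat.lcm m n := Nat.dvd_lcm_right m n
  have hηm : IsPrimitiveRoot (η ^ (Nat.lcm m n / m)) m := by
    apply hη.pow hN
    exact (Nat.div_mul_cancel hmd).symm
  have hηn : IsPrimitiveRoot (η ^ (Nat.lcm m n / n)) n := by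
    apply hη.pow hN
    exact (Nat.div_mul_cancel hnd).symm
  haveI : NeZero m := ⟨hm.ne'⟩
  haveI : NeZero n := ⟨hn.ne'⟩
  obtain ⟨k, -, hk, hkρ⟩ := hηm.isPrimitiveRoot_iff.mp hρ'
  obtain ⟨l, -, hl, hlσ⟩ := hηn.isPrimitiveRoot_iff.mp hσ'
  have hkg : k.Coprime (Nat.gcd m n) := Nat.Coprime.coprime_dvd_right (Nat.gcd_dvd_left m n) hk
  have hlg : l.Coprime (Nat.gcd m n) := Nat.Coprime.coprime_dvd_right (Nat.gcd_dvd_right m n) hl
  have hpm : ∀ t : ℕ, (η ^ (Nat.lcm m n / m)) ^ t = (η ^ (Nat.lcm m n / m)) ^ (t % m) := by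
    intro t
    conv_lhs => rw [← Nat.mod_add_div t m, pow_add, pow_mul, hηm.pow_eq_one, one_pow, mul_one]
  have hpn : ∀ t : ℕ, (η ^ (Nat.lcm m n / n)) ^ t = (η ^ (Nat.lcm m n / n)) ^ (t % n) := by
    intro t
    conv_lhs => rw [← Nat.mod_add_div t n, pow_add, pow_mul, hηn.pow_eq_one, one_pow, mul_one]
  -- the general construction
  have key : ∀ l' : ℕ, l'.Coprime n → k ≡ l' [MOD Nat.gcd m n] →
      ∃ ζ : K, IsPrimitiveRoot ζ (Nat.lcm m n) ∧ ζ ^ (Nat.lcm m n / m) = ρ ∧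
        ζ ^ (Nat.lcm m n / n) = (η ^ (Nat.lcm m n / n)) ^ l' := by
    intro l' hl' hmod
    obtain ⟨j, hj1, hj2⟩ := Nat.chineseRemainder' hmod
    have hjm : j.Coprime m := by
      rw [Nat.Coprime, hj1.gcd_eq]
      exact hk
    have hjn : j.Coprime n := by
      rw [Nat.Coprime, hj2.gcd_eq]
      exact hl'
    have hjN : j.Coprime (Nat.lcm m n) :=
      Nat.Coprime.coprime_dvd_right (Nat.lcm_dvd_mul m n) (Nat.Coprime.mul_right hjm hjn)
    refine ⟨η ^ j, hη.pow_of_coprime j hjN, ?_, ?_⟩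
    · rw [← pow_mul, mul_comm j, pow_mul, hpm j, hj1, ← hpm k, hkρ]
    · rw [← pow_mul, mul_comm j, pow_mul, hpn j, hj2, ← hpn l']
  have hcase : k ≡ l [MOD Nat.gcd m n] ∨ (k + l) % Nat.gcd m n = 0 := by
    have h0 : ∀ g : ℕ, (g = 1 ∨ g = 2 ∨ g = 3 ∨ g = 4 ∨ g = 6) → k.Coprime g → l.Coprime g →
        k ≡ l [MOD g] ∨ (k + l) % g = 0 := by
      intro g hg hk hl
      have h1 : Nat.gcd (k % g) g = 1 := by
        rw [← Nat.gcd_rec, Nat.gcd_comm]; exact hk
      have h2 : Nat.gcd (l % g) g = 1 := by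
        rw [← Nat.gcd_rec, Nat.gcd_comm]; exact hl
      obtain ⟨a, ha⟩ : ∃ a, a = k % g := ⟨_, rfl⟩
      obtain ⟨b, hb⟩ : ∃ b, b = l % g := ⟨_, rfl⟩
      have ha2 : a < g := by rw [ha]; apply Nat.mod_lt; omega
      have hb2 : b < g := by rw [hb]; apply Nat.mod_lt; omega
      rw [← ha] at h1
      rw [← hb] at h2
      unfold Nat.ModEq
      rcases hg with rfl | rfl | rfl | rfl | rfl
      · left; omega
      · interval_cases a <;> simp at h1 <;> interval_cases b <;> simp at h2 <;> omega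
      · interval_cases a <;> simp at h1 <;> interval_cases b <;> simp at h2 <;> omega
      · interval_cases a <;> simp at h1 <;> interval_cases b <;> simp at h2 <;> omega
      · interval_cases a <;> simp at h1 <;> interval_cases b <;> simp at h2 <;> omega
    exact h0 _ hg hkg hlg
  rcases hcase with hc | hc
  · obtain ⟨ζ, h1, h2, h3⟩ := key l hl hc
    exact ⟨ζ, h1, Or.inl h2, Or.inl (h3.trans hlσ)⟩
  · have hl' : ((n - 1) * l).Coprime n := by
      apply Nat.Coprime.mul_left _ hl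
      obtain ⟨n', hn'⟩ : ∃ n', n = n' + 1 := ⟨n - 1, by omega⟩
      rw [hn', Nat.add_sub_cancel]
      simp
    have hmod : k ≡ (n - 1) * l [MOD Nat.gcd m n] := by
      apply Nat.ModEq.add_right_cancel' l
      have h1 : (n - 1) * l + l = n * l := by
        obtain ⟨n', rfl⟩ : ∃ n', n = n' + 1 := ⟨n - 1, by omega⟩
        simp only [Nat.add_sub_cancel]
        ring
      rw [h1]
      have h2 : n * l ≡ 0 [MOD Nat.gcd m n] :=
        (Nat.modEq_zero_iff_dvd).mpr (Dvd.dvd.mul_right (Nat.gcd_dvd_right m n) l)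
      have h3 : k + l ≡ 0 [MOD Nat.gcd m n] := by
        rw [Nat.modEq_zero_iff_dvd]
        exact Nat.dvd_of_mod_eq_zero hc
      exact h3.trans h2.symm
    obtain ⟨ζ, h1, h2, h3⟩ := key _ hl' hmod
    refine ⟨ζ, h1, Or.inl h2, Or.inr ?_⟩
    rw [h3]
    apply eq_inv_of_mul_eq_one_left
    rw [← hlσ, ← pow_add]
    have h4 : (n - 1) * l + l = n * l := by
      obtain ⟨n', rfl⟩ : ∃ n', n = n' + 1 := ⟨n - 1, by omega⟩
      simp only [Nat.add_sub_cancel]
      ring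
    rw [h4, pow_mul, hηn.pow_eq_one, one_pow]

section
variable {R : Type*} [CommRing R]

/-- Cartan matrix of a chain `0 - 2 - 1` -/
def chainM (x y x' y' : R) : Matrix (Fin 3) (Fin 3) R := !![2, 0, -x; 0, 2, -x'; -y, -y', 2]

/-- real symmetric Cartan matrix -/
noncomputable def gramM (x y z : ℝ) : Matrix (Fin 3) (Fin 3) ℝ :=
  !![2, -(2 * x), -(2 * y); -(2 * x), 2, -(2 * z); -(2 * y), -(2 * z), 2]

/-- the normalised entries: `(1, p)` or `(0, 0)` if `p = 0` -/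
noncomputable def nrm {K : Type*} [Field K] (p : K) : K := by
  classical exact if p = 0 then 0 else 1

end

/-- gc: reduction to the normalised form -/
theorem wordM_chain_norm {K : Type*} [Field K] {N : Matrix (Fin 3) (Fin 3) K}
    (hd : ∀ i, N i i = 2) (h01 : N 0 1 = 0) (h10 : N 1 0 = 0)
    (z02 : N 0 2 = 0 ↔ N 2 0 = 0) (z12 : N 1 2 = 0 ↔ N 2 1 = 0) (ω : List (Fin 3)) :
    wordM N ω = 1 ↔ wordM (chainM (nrm (N 0 2 * N 2 0)) (N 0 2 * N 2 0)
      (nrm (N 1 2 * N 2 1)) (N 1 2 * N 2 1)) ω = 1 := by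
  classical
  -- the scaling factor of one outer vertex
  have key : ∀ a b : K, (a = 0 ↔ b = 0) → ∃ u : Kˣ, -nrm (a * b) = (u : K) * a ∧
      -(a * b) * (u : K) = b := by
    intro a b hab
    by_cases ha : a = 0
    · have hb : b = 0 := hab.mp ha
      refine ⟨1, ?_, ?_⟩
      · rw [ha, hb]; simp [nrm]
      · rw [ha, hb]; simp
    · have hb : b ≠ 0 := fun h => ha (hab.mpr h)
      refine ⟨Units.mk0 (-a⁻¹) (neg_ne_zero.mpr (inv_ne_zero ha)), ?_, ?_⟩
      · rw [Units.val_mk0, nrm, if_neg (mul_ne_zero ha hb)]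
        field_simp
      · rw [Units.val_mk0]
        field_simp
  obtain ⟨u, hu1, hu2⟩ := key _ _ z02
  obtain ⟨v, hv1, hv2⟩ := key _ _ z12
  apply wordM_rescale (x := ![u, v, 1])
  intro i j
  fin_cases i <;> fin_cases j <;> simp [chainM, hd, h01, h10] <;> first
    | ring1
    | (linear_combination hu1)
    | (linear_combination hu2)
    | (linear_combination hv1)
    | (linear_combination hv2)

private theorem gd_iff {F : Type*} [Field F] (c d P Q : Polynomial ℤ) (ω : List (Fin 3)) (z : F) :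
    wordM (chainM (Polynomial.aeval z c)
      (Polynomial.aeval z P) (Polynomial.aeval z d) (Polynomial.aeval z Q)) ω = 1 ↔
      ∀ i j, Polynomial.aeval z (wordM (chainM c P d Q) ω i j
        - (1 : Matrix (Fin 3) (Fin 3) (Polynomial ℤ)) i j) = 0 := by
  have hmap : chainM (Polynomial.aeval z c)
      (Polynomial.aeval z P) (Polynomial.aeval z d) (Polynomial.aeval z Q)
      = (chainM c P d Q).map
        (((Polynomial.aeval z : Polynomial ℤ →ₐ[ℤ] F) : Polynomial ℤ →+* F)) := by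
    have h2 : (Polynomial.aeval z) (2 : Polynomial ℤ) = (2 : F) := map_ofNat _ 2
    ext i j
    fin_cases i <;> fin_cases j <;> simp [chainM, h2]
  rw [hmap, ← wordM_map]
  have h2 : ∀ i j, (Polynomial.aeval z) ((1 : Matrix (Fin 3) (Fin 3) (Polynomial ℤ)) i j)
      = (1 : Matrix (Fin 3) (Fin 3) F) i j := by
    intro i j
    by_cases hij : i = j
    · subst hij; simp
    · rw [Matrix.one_apply_ne hij, Matrix.one_apply_ne hij, map_zero]
  constructor
  · intro h i j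
    have h1 := congrFun (congrFun h i) j
    rw [map_sub, sub_eq_zero, h2]
    exact h1
  · intro h
    ext i j
    have h1 := h i j
    rw [map_sub, sub_eq_zero, h2] at h1
    exact h1

/-- gd: transfer of the normalised form between two fields -/
theorem wordM_chain_transfer {K L : Type*} [Field K] [CharZero K] [Field L] [CharZero L]
    {n : ℕ} (hn : 0 < n) {ζ : K} {ξ : L} (hζ : IsPrimitiveRoot ζ n) (hξ : IsPrimitiveRoot ξ n)
    (P Q : Polynomial ℤ) (ω : List (Fin 3)) :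
    wordM (chainM (nrm (Polynomial.aeval ζ P)) (Polynomial.aeval ζ P)
      (nrm (Polynomial.aeval ζ Q)) (Polynomial.aeval ζ Q)) ω = 1 ↔
    wordM (chainM (nrm (Polynomial.aeval ξ P)) (Polynomial.aeval ξ P)
      (nrm (Polynomial.aeval ξ Q)) (Polynomial.aeval ξ Q)) ω = 1 := by
  have hP := aeval_primitive_root hn hζ hξ P
  have hQ := aeval_primitive_root hn hζ hξ Q
  -- the normalised entries come from integers
  have hnrm : ∀ F : Polynomial ℤ, ∃ c : Polynomial ℤ, Polynomial.aeval ζ c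
      = nrm (Polynomial.aeval ζ F) ∧ Polynomial.aeval ξ c = nrm (Polynomial.aeval ξ F) := by
    intro F
    have hF := aeval_primitive_root hn hζ hξ F
    by_cases h : Polynomial.aeval ζ F = 0
    · have h' := hF.mp h
      exact ⟨0, by rw [nrm, if_pos h, map_zero], by rw [nrm, if_pos h', map_zero]⟩
    · have h' : Polynomial.aeval ξ F ≠ 0 := fun h' => h (hF.mpr h')
      exact ⟨1, by rw [nrm, if_neg h, map_one], by rw [nrm, if_neg h', map_one]⟩
  obtain ⟨c, hc1, hc2⟩ := hnrm P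
  obtain ⟨d, hd1, hd2⟩ := hnrm Q
  rw [← hc1, ← hd1, ← hc2, ← hd2, gd_iff c d P Q ω ζ, gd_iff c d P Q ω ξ]
  constructor
  · intro h i j
    exact (aeval_primitive_root hn hζ hξ _).mp (h i j)
  · intro h i j
    exact (aeval_primitive_root hn hζ hξ _).mpr (h i j)

/-- ge: injectivity of real words in complex words -/
theorem wordM_ofReal (N : Matrix (Fin 3) (Fin 3) ℝ) (ω : List (Fin 3)) :
    wordM N ω = 1 ↔ wordM (N.map (fun x => (x : ℂ))) ω = 1 := by
  have h1 : wordM (N.map (fun x => (x : ℂ))) ω = (wordM N ω).map (fun x => (x : ℂ)) :=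
    (wordM_map Complex.ofRealHom N ω).symm
  rw [h1]
  constructor
  · intro h
    rw [h]
    ext i j
    by_cases hij : i = j
    · subst hij; simp
    · simp [Matrix.one_apply_ne hij]
  · intro h
    ext i j
    have h2 := congrFun (congrFun h i) j
    by_cases hij : i = j
    · subst hij
      rw [Matrix.map_apply, Matrix.one_apply_eq] at h2
      rw [Matrix.one_apply_eq]
      exact_mod_cast h2
    · rw [Matrix.map_apply, Matrix.one_apply_ne hij] at h2
      rw [Matrix.one_apply_ne hij]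
      exact_mod_cast h2

private theorem gf_eval {F : Type*} [Field F] {N₀ m : ℕ} {z ρ : F} (hz : IsPrimitiveRoot z N₀)
    (hmd : m ∣ N₀) (hN : 0 < N₀) (h : z ^ (N₀ / m) = ρ ∨ z ^ (N₀ / m) = ρ⁻¹) :
    Polynomial.aeval z (2 + Polynomial.X ^ (N₀ / m) + Polynomial.X ^ (N₀ - N₀ / m) : Polynomial ℤ)
      = 2 + ρ + ρ⁻¹ := by
  have hz0 : z ≠ 0 := hz.ne_zero hN.ne'
  have h1 : z ^ (N₀ - N₀ / m) = (z ^ (N₀ / m))⁻¹ := by
    apply eq_inv_of_mul_eq_one_left
    rw [← pow_add, Nat.sub_add_cancel (Nat.div_le_self _ _), hz.pow_eq_one]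
  have h2 : (Polynomial.aeval z) (2 : Polynomial ℤ) = (2 : F) := map_ofNat _ 2
  rw [map_add, map_add, h2, map_pow, map_pow, Polynomial.aeval_X, h1]
  rcases h with h | h
  · rw [h]
  · rw [h, inv_inv]; ring

private theorem gf_cos {N₀ m : ℕ} (hm : 0 < m) (hmd : m ∣ N₀) (hN : 0 < N₀) :
    Polynomial.aeval (Complex.exp (2 * π * Complex.I / N₀))
      (2 + Polynomial.X ^ (N₀ / m) + Polynomial.X ^ (N₀ - N₀ / m) : Polynomial ℤ)
      = ((4 * Real.cos (π / m) ^ 2 : ℝ) : ℂ) := by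
  have hξ : IsPrimitiveRoot (Complex.exp (2 * π * Complex.I / N₀)) N₀ :=
    Complex.isPrimitiveRoot_exp N₀ hN.ne'
  rw [gf_eval hξ hmd hN (Or.inl rfl), ← Complex.exp_nat_mul, ← Complex.exp_neg]
  have hm' : (m : ℂ) ≠ 0 := by exact_mod_cast hm.ne'
  have hN' : (N₀ : ℂ) ≠ 0 := by exact_mod_cast hN.ne'
  have h1 : ((N₀ / m : ℕ) : ℂ) * (2 * π * Complex.I / N₀) = 2 * (((π / m : ℝ) : ℂ) * Complex.I) := by
    rw [Nat.cast_div hmd hm']
    push_cast
    field_simp
  rw [h1]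
  push_cast
  rw [Complex.cos, two_mul (_ * Complex.I), Complex.exp_add, neg_add, Complex.exp_add]
  have h2 : -((π : ℂ) / m * Complex.I) = -(π / m : ℂ) * Complex.I := by ring
  rw [h2]
  have h3 : Complex.exp ((π : ℂ) / m * Complex.I) * Complex.exp (-(π / m : ℂ) * Complex.I) = 1 := by
    rw [← Complex.exp_add, neg_mul, add_neg_cancel, Complex.exp_zero]
  linear_combination (-2) * h3

/-- gf: the transfer from a field of characteristic zero to the real numbers -/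
theorem wordM_transfer {K : Type*} [Field K] [CharZero K] {N : Matrix (Fin 3) (Fin 3) K}
    (hd : ∀ i, N i i = 2) (h01 : N 0 1 = 0) (h10 : N 1 0 = 0)
    (z02 : N 0 2 = 0 ↔ N 2 0 = 0) (z12 : N 1 2 = 0 ↔ N 2 1 = 0)
    {m n : ℕ} (hm : 2 ≤ m) (hn : 2 ≤ n) {ρ σ : K}
    (hρ : orderOf ρ = m) (hσ : orderOf σ = n)
    (hg : Nat.gcd m n = 1 ∨ Nat.gcd m n = 2 ∨ Nat.gcd m n = 3 ∨ Nat.gcd m n = 4 ∨
      Nat.gcd m n = 6)
    (h02 : N 0 2 * N 2 0 = 2 + ρ + ρ⁻¹) (h12 : N 1 2 * N 2 1 = 2 + σ + σ⁻¹)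
    {ω : List (Fin 3)} (hω : wordM N ω = 1) :
    wordM (gramM 0 (Real.cos (π / m)) (Real.cos (π / n))) ω = 1 := by
  have hm0 : 0 < m := by omega
  have hn0 : 0 < n := by omega
  obtain ⟨ζ, hζ, hζρ, hζσ⟩ := exists_primitive hm0 hn0 hρ hσ hg
  have hN : 0 < Nat.lcm m n := Nat.lcm_pos hm0 hn0
  set N₀ := Nat.lcm m n with hN₀
  have hmd : m ∣ N₀ := Nat.dvd_lcm_left m n
  have hnd : n ∣ N₀ := Nat.dvd_lcm_right m n
  have hξ : IsPrimitiveRoot (Complex.exp (2 * π * Complex.I / N₀)) N₀ :=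
    Complex.isPrimitiveRoot_exp N₀ hN.ne'
  set ξ := Complex.exp (2 * π * Complex.I / N₀) with hξdef
  let P : Polynomial ℤ := 2 + Polynomial.X ^ (N₀ / m) + Polynomial.X ^ (N₀ - N₀ / m)
  let Q : Polynomial ℤ := 2 + Polynomial.X ^ (N₀ / n) + Polynomial.X ^ (N₀ - N₀ / n)
  have hP1 : Polynomial.aeval ζ P = 2 + ρ + ρ⁻¹ := gf_eval hζ hmd hN hζρ
  have hQ1 : Polynomial.aeval ζ Q = 2 + σ + σ⁻¹ := gf_eval hζ hnd hN hζσ
  have hP2 : Polynomial.aeval ξ P = ((4 * Real.cos (π / m) ^ 2 : ℝ) : ℂ) :=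
    gf_cos hm0 hmd hN
  have hQ2 : Polynomial.aeval ξ Q = ((4 * Real.cos (π / n) ^ 2 : ℝ) : ℂ) :=
    gf_cos hn0 hnd hN
  have h1 := (wordM_chain_norm hd h01 h10 z02 z12 ω).mp hω
  rw [h02, h12, ← hP1, ← hQ1] at h1
  have h2 := (wordM_chain_transfer hN hζ hξ P Q ω).mp h1
  rw [hP2, hQ2] at h2
  rw [wordM_ofReal]
  set G := (gramM 0 (Real.cos (π / m)) (Real.cos (π / n))).map (fun x => (x : ℂ)) with hG
  have g02 : G 0 2 = -(2 * (Real.cos (π / m) : ℂ)) := by simp [hG, gramM]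
  have g20 : G 2 0 = -(2 * (Real.cos (π / m) : ℂ)) := by simp [hG, gramM]
  have g12 : G 1 2 = -(2 * (Real.cos (π / n) : ℂ)) := by simp [hG, gramM]
  have g21 : G 2 1 = -(2 * (Real.cos (π / n) : ℂ)) := by simp [hG, gramM]
  have e1 : G 0 2 * G 2 0 = ((4 * Real.cos (π / m) ^ 2 : ℝ) : ℂ) := by
    rw [g02, g20]; push_cast; ring
  have e2 : G 1 2 * G 2 1 = ((4 * Real.cos (π / n) ^ 2 : ℝ) : ℂ) := by
    rw [g12, g21]; push_cast; ring
  apply (wordM_chain_norm (N := G) _ _ _ _ _ ω).mpr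
  · rw [e1, e2]
    exact h2
  · intro i
    fin_cases i <;> simp [hG, gramM]
  · simp [hG, gramM]
  · simp [hG, gramM]
  · rw [g02, g20]
  · rw [g12, g21]

/-- gg: the determinant condition in the real case -/
theorem cos_sq_add_cos_sq {K : Type*} [Field K] [CharZero K]
    {m n : ℕ} (hm : 2 ≤ m) (hn : 2 ≤ n) {ρ σ : K}
    (hρ : orderOf ρ = m) (hσ : orderOf σ = n)
    (hg : Nat.gcd m n = 1 ∨ Nat.gcd m n = 2 ∨ Nat.gcd m n = 3 ∨ Nat.gcd m n = 4 ∨
      Nat.gcd m n = 6)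
    (hs : (2 + ρ + ρ⁻¹) + (2 + σ + σ⁻¹) ≠ 4) : (1 : ℚ) / m + 1 / n ≠ 1 / 2 := by
  intro h
  have hm' : (m : ℚ) ≠ 0 := by positivity
  have hn' : (n : ℚ) ≠ 0 := by positivity
  have h1 : (2 : ℚ) * (m + n) = m * n := by
    field_simp at h
    linarith
  have h2 : 2 * (m + n) = m * n := by exact_mod_cast h1
  have hcase : (m = 3 ∧ n = 6) ∨ (m = 4 ∧ n = 4) ∨ (m = 6 ∧ n = 3) := by
    have hm2 : m ≠ 2 := by rintro rfl; omega
    have hn2 : n ≠ 2 := by rintro rfl; omega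
    have hm6 : m ≤ 6 := by
      by_contra hcon
      have h3 : 7 ≤ m := by omega
      have h4 : 3 ≤ n := by omega
      nlinarith
    have hn6 : n ≤ 6 := by
      by_contra hcon
      have h3 : 7 ≤ n := by omega
      have h4 : 3 ≤ m := by omega
      nlinarith
    interval_cases m <;> interval_cases n <;> omega
  apply hs
  have q3 : ∀ z : K, orderOf z = 3 → z + z⁻¹ = -1 := by
    intro z hz
    have hp : IsPrimitiveRoot z 3 := hz ▸ IsPrimitiveRoot.orderOf z
    have hz0 : z ≠ 0 := hp.ne_zero (by norm_num)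
    have h3 : z ^ 3 = 1 := hp.pow_eq_one
    have hz1 : z ≠ 1 := by
      intro h1
      rw [h1, orderOf_one] at hz
      omega
    have h4 : (z - 1) * (z ^ 2 + z + 1) = 0 := by linear_combination h3
    have h5 : z ^ 2 + z + 1 = 0 := (mul_eq_zero.mp h4).resolve_left (sub_ne_zero.mpr hz1)
    field_simp
    linear_combination h5
  have q4 : ∀ z : K, orderOf z = 4 → z + z⁻¹ = 0 := by
    intro z hz
    have hp : IsPrimitiveRoot z 4 := hz ▸ IsPrimitiveRoot.orderOf z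
    have hz0 : z ≠ 0 := hp.ne_zero (by norm_num)
    have h3 : z ^ 4 = 1 := hp.pow_eq_one
    have hz1 : z ^ 2 ≠ 1 := by
      intro h1
      have := orderOf_dvd_of_pow_eq_one h1
      rw [hz] at this
      omega
    have h4 : (z ^ 2 - 1) * (z ^ 2 + 1) = 0 := by linear_combination h3
    have h5 : z ^ 2 + 1 = 0 := (mul_eq_zero.mp h4).resolve_left (sub_ne_zero.mpr hz1)
    field_simp
    linear_combination h5
  have q6 : ∀ z : K, orderOf z = 6 → z + z⁻¹ = 1 := by
    intro z hz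
    have hp : IsPrimitiveRoot z 6 := hz ▸ IsPrimitiveRoot.orderOf z
    have hz0 : z ≠ 0 := hp.ne_zero (by norm_num)
    have h3 : z ^ 6 = 1 := hp.pow_eq_one
    have hz1 : z ^ 3 ≠ 1 := by
      intro h1
      have := orderOf_dvd_of_pow_eq_one h1
      rw [hz] at this
      omega
    have hz2 : z ^ 2 ≠ 1 := by
      intro h1
      have := orderOf_dvd_of_pow_eq_one h1
      rw [hz] at this
      omega
    have h4 : (z ^ 3 - 1) * (z ^ 3 + 1) = 0 := by linear_combination h3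
    have h5 : z ^ 3 + 1 = 0 := (mul_eq_zero.mp h4).resolve_left (sub_ne_zero.mpr hz1)
    have h6 : (z + 1) * (z ^ 2 - z + 1) = 0 := by linear_combination h5
    have h7 : z + 1 ≠ 0 := by
      intro h8
      apply hz2
      have h9 : z = -1 := eq_neg_of_add_eq_zero_left h8
      rw [h9]; ring
    have h8 : z ^ 2 - z + 1 = 0 := (mul_eq_zero.mp h6).resolve_left h7
    field_simp
    linear_combination h8
  rcases hcase with ⟨rfl, rfl⟩ | ⟨rfl, rfl⟩ | ⟨rfl, rfl⟩
  · linear_combination q3 ρ hρ + q6 σ hσ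
  · linear_combination q4 ρ hρ + q4 σ hσ
  · linear_combination q6 ρ hρ + q3 σ hσ

end Pool.Agent.Leo
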