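import Pool.Agent.Leo.Refl

/-!
# The geometric representation of a Coxeter group of rank three is faithful

Theorem of Tits (Vinberg for weights `≤ -2` at the infinite orders).
-/

namespace Pool.Agent.Leo

open Real

/-- the real Cartan matrices of a Coxeter matrix -/
structure Geo (M : CoxeterMatrix (Fin 3)) (N : Matrix (Fin 3) (Fin 3) ℝ) : Prop where
  diag : ∀ i, N i i = 2
  symm : ∀ i j, N i j = N j i
  fin : ∀ i j, i ≠ j → M i j ≠ 0 → N i j = -2 * Real.cos (π / M i j)
  inf : ∀ i j, i ≠ j → M i j = 0 → N i j ≤ -2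

/-- Chebyshev recursion -/
noncomputable def cheb (c : ℝ) : ℕ → ℝ
  | 0 => 0
  | 1 => 1
  | (k + 2) => 2 * c * cheb c (k + 1) - cheb c k

/-- ia -/
theorem cheb_cos (x : ℝ) (k : ℕ) : cheb (Real.cos x) k * Real.sin x = Real.sin (k * x) := by
  induction k using Nat.twoStepInduction with
  | zero => simp [cheb]
  | one => simp [cheb]
  | more k h1 h2 =>
    have e : cheb (Real.cos x) (k + 2) =
        2 * Real.cos x * cheb (Real.cos x) (k + 1) - cheb (Real.cos x) k := rfl
    rw [e, sub_mul, mul_assoc, h1, h2]
    push_cast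
    have e1 : ((k : ℝ) + 2) * x = ((k : ℝ) + 1) * x + x := by ring
    have e2 : (k : ℝ) * x = ((k : ℝ) + 1) * x - x := by ring
    rw [e1, e2, Real.sin_add, Real.sin_sub]
    ring

/-- ib -/
theorem cheb_nonneg_fin {m : ℕ} (hm : 2 ≤ m) {k : ℕ} (hk : k ≤ m) :
    0 ≤ cheb (Real.cos (π / m)) k := by
  have hm0 : (0 : ℝ) < m := by
    have : 0 < m := by omega
    exact_mod_cast this
  have hx0 : 0 < π / m := div_pos Real.pi_pos hm0
  have hx1 : π / m < π := by
    rw [div_lt_iff₀ hm0]
    have : (1 : ℝ) < m := by
      have : 1 < m := by omega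
      exact_mod_cast this
    nlinarith [Real.pi_pos]
  have hs : 0 < Real.sin (π / m) := Real.sin_pos_of_pos_of_lt_pi hx0 hx1
  have h1 := cheb_cos (π / m) k
  have h2 : 0 ≤ Real.sin (k * (π / m)) := by
    apply Real.sin_nonneg_of_nonneg_of_le_pi
    · positivity
    · rw [mul_div_assoc', div_le_iff₀ hm0]
      have : (k : ℝ) ≤ m := by exact_mod_cast hk
      nlinarith [Real.pi_pos]
  by_contra hcon
  push Not at hcon
  have := mul_neg_of_neg_of_pos hcon hs
  linarith

/-- ic -/
theorem cheb_nonneg_inf {c : ℝ} (hc : 1 ≤ c) (k : ℕ) :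
    0 ≤ cheb c k ∧ cheb c k + 1 ≤ cheb c (k + 1) := by
  induction k with
  | zero => simp [cheb]
  | succ k ih =>
    obtain ⟨h1, h2⟩ := ih
    have e : cheb c (k + 1 + 1) = 2 * c * cheb c (k + 1) - cheb c k := rfl
    refine ⟨by linarith, ?_⟩
    rw [e]
    have h3 : 0 ≤ cheb c (k + 1) := by linarith
    nlinarith

section
variable {N : Matrix (Fin 3) (Fin 3) ℝ} {i j : Fin 3} {c : ℝ}

private theorem id_single (N : Matrix (Fin 3) (Fin 3) ℝ) (i q : Fin 3) :
    (sigM N i).mulVec (Pi.single q 1) = Pi.single q 1 - N i q • Pi.single i (1 : ℝ) := by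
  ext p
  rw [Matrix.mulVec_single_one]
  simp only [Matrix.col_apply, sigM, Matrix.of_apply, Pi.sub_apply, Pi.smul_apply, smul_eq_mul,
    Pi.single_apply]
  by_cases h : p = i <;> simp [h]

private theorem id_cons (N : Matrix (Fin 3) (Fin 3) ℝ) (x : Fin 3) (ω : List (Fin 3)) :
    wordM N (x :: ω) = sigM N x * wordM N ω := by
  simp [wordM]

private theorem id_append (N : Matrix (Fin 3) (Fin 3) ℝ) (ω ω' : List (Fin 3)) :
    wordM N (ω ++ ω') = wordM N ω * wordM N ω' := by
  simp [wordM]

/-- id: an alternating product applied to a simple root -/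
theorem wordM_alternating (hij : i ≠ j) (hi : N i i = 2) (hj : N j j = 2)
    (h1 : N i j = -(2 * c)) (h2 : N j i = -(2 * c)) (k : ℕ) :
    (wordM N (CoxeterSystem.alternatingWord i j k)).mulVec (Pi.single i 1) =
      if Even k then cheb c (k + 1) • Pi.single i 1 + cheb c k • Pi.single j 1
      else cheb c k • Pi.single i 1 + cheb c (k + 1) • Pi.single j 1 := by
  induction k with
  | zero =>
    simp only [CoxeterSystem.alternatingWord, wordM, cheb, List.map_nil, List.prod_nil,
      Matrix.one_mulVec, Even.zero, if_true, one_smul, zero_smul, add_zero]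
  | succ k ih =>
    rw [CoxeterSystem.alternatingWord_succ', id_cons, ← Matrix.mulVec_mulVec, ih]
    have e : cheb c (k + 1 + 1) = 2 * c * cheb c (k + 1) - cheb c k := rfl
    by_cases hk : Even k
    · have hk' : ¬ Even (k + 1) := by simp [hk, parity_simps]
      rw [if_pos hk, if_pos hk, if_neg hk', Matrix.mulVec_add, Matrix.mulVec_smul,
        Matrix.mulVec_smul, id_single, id_single, h2, hj, e]
      module
    · have hk' : Even (k + 1) := by simp [hk, parity_simps]
      rw [if_neg hk, if_neg hk, if_pos hk', Matrix.mulVec_add, Matrix.mulVec_smul,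
        Matrix.mulVec_smul, id_single, id_single, h1, hi, e]
      module

private theorem ie_word (N : Matrix (Fin 3) (Fin 3) ℝ) (i j : Fin 3) (k : ℕ) :
    wordM N (CoxeterSystem.alternatingWord i j (2 * k)) = (sigM N i * sigM N j) ^ k := by
  induction k with
  | zero => simp [CoxeterSystem.alternatingWord, wordM]
  | succ k ih =>
    have h1 : ¬ Even (2 * k + 1) := by simp [parity_simps]
    have h2 : Even (2 * k) := by simp
    rw [show 2 * (k + 1) = 2 * k + 1 + 1 by ring, CoxeterSystem.alternatingWord_succ',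
      CoxeterSystem.alternatingWord_succ', if_neg h1, if_pos h2, id_cons, id_cons, ih, pow_succ',
      mul_assoc]

private theorem ie_apply {N : Matrix (Fin 3) (Fin 3) ℝ} {i j : Fin 3} {c : ℝ}
    (hij : i ≠ j) (hi : N i i = 2) (hj : N j j = 2)
    (h1 : N i j = -(2 * c)) (h2 : N j i = -(2 * c)) (k : ℕ) :
    ((sigM N i * sigM N j) ^ k).mulVec (Pi.single i 1) =
      cheb c (2 * k + 1) • Pi.single i 1 + cheb c (2 * k) • Pi.single j 1 := by
  rw [← ie_word, wordM_alternating hij hi hj h1 h2, if_pos (by simp)]

private theorem ie_sin {m : ℕ} (hm : 2 ≤ m) : 0 < Real.sin (π / m) := by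
  have hm0 : (0 : ℝ) < m := by
    have : 0 < m := by omega
    exact_mod_cast this
  have hx1 : π / m < π := by
    rw [div_lt_iff₀ hm0]
    have : (1 : ℝ) < m := by
      have : 1 < m := by omega
      exact_mod_cast this
    nlinarith [Real.pi_pos]
  exact Real.sin_pos_of_pos_of_lt_pi (div_pos Real.pi_pos hm0) hx1

private theorem ie_cheb {m : ℕ} (hm : 2 ≤ m) :
    cheb (Real.cos (π / m)) (2 * m) = 0 ∧ cheb (Real.cos (π / m)) (2 * m + 1) = 1 := by
  have hs := (ie_sin hm).ne'
  have hm0 : (m : ℝ) ≠ 0 := by
    have : m ≠ 0 := by omega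
    exact_mod_cast this
  have h1 := cheb_cos (π / m) (2 * m)
  have h2 := cheb_cos (π / m) (2 * m + 1)
  have e1 : ((2 * m : ℕ) : ℝ) * (π / m) = 2 * π := by
    push_cast
    field_simp
  have e2 : ((2 * m + 1 : ℕ) : ℝ) * (π / m) = π / m + 2 * π := by
    push_cast
    field_simp
    ring
  rw [e1, Real.sin_two_pi] at h1
  rw [e2, Real.sin_add_two_pi] at h2
  constructor
  · rcases mul_eq_zero.1 h1 with h | h
    · exact h
    · exact absurd h hs
  · exact mul_right_cancel₀ hs (by rw [h2, one_mul])

private theorem ie_third (i j : Fin 3) (hij : i ≠ j) :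
    ∃ l : Fin 3, ∀ p : Fin 3, p = i ∨ p = j ∨ p = l := by
  revert i j
  decide

private theorem ie_one {A : Matrix (Fin 3) (Fin 3) ℝ}
    (h : ∀ p, A.mulVec (Pi.single p 1) = Pi.single p 1) : A = 1 := by
  ext p q
  have := congrFun (h q) p
  rw [Matrix.mulVec_single_one] at this
  simp only [Matrix.col_apply] at this
  rw [this, Matrix.one_apply, Pi.single_apply]

/-- ie: the dihedral relation -/
theorem sigM_mul_pow (hij : i ≠ j) (hi : N i i = 2) (hj : N j j = 2) {m : ℕ} (hm : 2 ≤ m)
    (h1 : N i j = -(2 * Real.cos (π / m))) (h2 : N j i = -(2 * Real.cos (π / m))) :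
    (sigM N i * sigM N j) ^ m = 1 := by
  obtain ⟨c0, c1⟩ := ie_cheb hm
  set c := Real.cos (π / m) with hc
  have hs := ie_sin hm
  have hc1 : 1 - c ^ 2 ≠ 0 := by
    have := Real.sin_sq_add_cos_sq (π / m)
    rw [← hc] at this
    have h3 := pow_pos hs 2
    nlinarith
  -- the two involutions
  have si : sigM N i * sigM N i = 1 := by
    apply ie_one
    intro p
    rw [← Matrix.mulVec_mulVec, id_single, Matrix.mulVec_sub, Matrix.mulVec_smul, id_single,
      id_single, hi]
    module
  have sj : sigM N j * sigM N j = 1 := by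
    apply ie_one
    intro p
    rw [← Matrix.mulVec_mulVec, id_single, Matrix.mulVec_sub, Matrix.mulVec_smul, id_single,
      id_single, hj]
    module
  have fi : ((sigM N i * sigM N j) ^ m).mulVec (Pi.single i 1) = Pi.single i 1 := by
    rw [ie_apply hij hi hj h1 h2, c0, c1]
    simp
  have fj' : ((sigM N j * sigM N i) ^ m).mulVec (Pi.single j 1) = Pi.single j 1 := by
    rw [ie_apply hij.symm hj hi h2 h1, c0, c1]
    simp
  have inv : ∀ k : ℕ, (sigM N i * sigM N j) ^ k * (sigM N j * sigM N i) ^ k = 1 := by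
    intro k
    induction k with
    | zero => simp
    | succ k ih =>
      rw [pow_succ, pow_succ']
      calc (sigM N i * sigM N j) ^ k * (sigM N i * sigM N j) *
            (sigM N j * sigM N i * (sigM N j * sigM N i) ^ k)
          = (sigM N i * sigM N j) ^ k * (sigM N i * (sigM N j * sigM N j) * sigM N i) *
            (sigM N j * sigM N i) ^ k := by simp only [mul_assoc]
        _ = 1 := by rw [sj, mul_one, si, mul_one, ih]
  have fj : ((sigM N i * sigM N j) ^ m).mulVec (Pi.single j 1) = Pi.single j 1 := by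
    nth_rewrite 1 [← fj']
    rw [Matrix.mulVec_mulVec, inv, Matrix.one_mulVec]
  obtain ⟨l, hl⟩ := ie_third i j hij
  -- the fixed vector
  set a : ℝ := -(N i l + c * N j l) / (2 * (1 - c ^ 2)) with ha
  set b : ℝ := -(N j l + c * N i l) / (2 * (1 - c ^ 2)) with hb
  have ei : N i l + 2 * a - 2 * c * b = 0 := by
    rw [ha, hb]
    field_simp
    ring
  have ej : N j l - 2 * c * a + 2 * b = 0 := by
    rw [ha, hb]
    field_simp
    ring
  set u : Fin 3 → ℝ := Pi.single l 1 + a • Pi.single i 1 + b • Pi.single j 1 with hu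
  have ui : (sigM N i).mulVec u = u := by
    rw [hu, Matrix.mulVec_add, Matrix.mulVec_add, Matrix.mulVec_smul, Matrix.mulVec_smul,
      id_single, id_single, id_single, hi, h1]
    have : N i l = -2 * a + 2 * c * b := by linarith
    rw [this]
    module
  have uj : (sigM N j).mulVec u = u := by
    rw [hu, Matrix.mulVec_add, Matrix.mulVec_add, Matrix.mulVec_smul, Matrix.mulVec_smul,
      id_single, id_single, id_single, hj, h2]
    have : N j l = 2 * c * a - 2 * b := by linarith
    rw [this]
    module
  have fu : ∀ k : ℕ, ((sigM N i * sigM N j) ^ k).mulVec u = u := by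
    intro k
    induction k with
    | zero => simp
    | succ k ih =>
      rw [pow_succ, ← Matrix.mulVec_mulVec, ← Matrix.mulVec_mulVec, uj, ui, ih]
  have fl : ((sigM N i * sigM N j) ^ m).mulVec (Pi.single l 1) = Pi.single l 1 := by
    have e : (Pi.single l 1 : Fin 3 → ℝ) = u - a • Pi.single i 1 - b • Pi.single j 1 := by
      rw [hu]
      module
    rw [e, Matrix.mulVec_sub, Matrix.mulVec_sub, Matrix.mulVec_smul, Matrix.mulVec_smul, fu, fi,
      fj]
  apply ie_one
  intro p
  rcases hl p with rfl | rfl | rfl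
  · exact fi
  · exact fj
  · exact fl

private theorem if_cheb {N : Matrix (Fin 3) (Fin 3) ℝ} {i j : Fin 3} {c : ℝ}
    (hij : i ≠ j) (hi : N i i = 2) (hj : N j j = 2)
    (h1 : N i j = -(2 * c)) (h2 : N j i = -(2 * c)) {k : ℕ}
    (hk : (sigM N i * sigM N j) ^ k = 1) : cheb c (2 * k + 1) = 1 ∧ cheb c (2 * k) = 0 := by
  have h := ie_apply hij hi hj h1 h2 k
  rw [hk, Matrix.one_mulVec] at h
  have a1 := congrFun h i
  have a2 := congrFun h j
  simp only [Pi.add_apply, Pi.smul_apply, Pi.single_apply, smul_eq_mul, if_true, mul_one,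
    if_neg hij, if_neg hij.symm, mul_zero, add_zero, zero_add] at a1 a2
  exact ⟨a1.symm, a2.symm⟩

/-- if: the exact order, finite case -/
theorem sigM_mul_pow_dvd (hij : i ≠ j) (hi : N i i = 2) (hj : N j j = 2) {m : ℕ} (hm : 2 ≤ m)
    (h1 : N i j = -(2 * Real.cos (π / m))) (h2 : N j i = -(2 * Real.cos (π / m))) {k : ℕ}
    (hk : (sigM N i * sigM N j) ^ k = 1) : m ∣ k := by
  obtain ⟨c1, c0⟩ := if_cheb hij hi hj h1 h2 hk
  have hs := (ie_sin hm).ne'
  have hm0 : (m : ℝ) ≠ 0 := by
    have : m ≠ 0 := by omega
    exact_mod_cast this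
  have e1 := cheb_cos (π / m) (2 * k)
  have e2 := cheb_cos (π / m) (2 * k + 1)
  rw [c0, zero_mul] at e1
  rw [c1, one_mul] at e2
  have e3 : ((2 * k + 1 : ℕ) : ℝ) * (π / m) = ((2 * k : ℕ) : ℝ) * (π / m) + π / m := by
    push_cast
    ring
  rw [e3, Real.sin_add, ← e1, zero_mul, zero_add] at e2
  have e4 : Real.cos (((2 * k : ℕ) : ℝ) * (π / m)) = 1 :=
    mul_right_cancel₀ hs (by rw [← e2, one_mul])
  rw [Real.cos_eq_one_iff] at e4
  obtain ⟨n, hn⟩ := e4
  have e5 : (n : ℝ) * m = k := by
    push_cast at hn
    have hp := Real.pi_ne_zero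
    field_simp at hn
    linarith
  have e6 : (n : ℤ) * m = k := by exact_mod_cast e5
  have : (m : ℤ) ∣ (k : ℤ) := ⟨n, by rw [← e6]; ring⟩
  exact_mod_cast this

/-- ig: the exact order, infinite case -/
theorem sigM_mul_pow_inf (hij : i ≠ j) (hi : N i i = 2) (hj : N j j = 2) (hc : 1 ≤ c)
    (h1 : N i j = -(2 * c)) (h2 : N j i = -(2 * c)) {k : ℕ}
    (hk : (sigM N i * sigM N j) ^ k = 1) : k = 0 := by
  obtain ⟨-, c0⟩ := if_cheb hij hi hj h1 h2 hk
  have hge : ∀ n : ℕ, (n : ℝ) ≤ cheb c n := by
    intro n
    induction n with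
    | zero => simp [cheb]
    | succ n ih =>
      have := (cheb_nonneg_inf hc n).2
      push_cast
      linarith
  have h := hge (2 * k)
  rw [c0] at h
  push_cast at h
  have h3 : (0 : ℝ) ≤ k := Nat.cast_nonneg k
  have h4 : (k : ℝ) = 0 := by linarith
  exact_mod_cast h4

end

section
variable {M : CoxeterMatrix (Fin 3)} {N : Matrix (Fin 3) (Fin 3) ℝ}

/-- ih: words with the same product in the Coxeter group have the same matrix -/
theorem Geo.wordM_congr (h : Geo M N) {ω ω' : List (Fin 3)}
    (hw : M.toCoxeterSystem.wordProd ω = M.toCoxeterSystem.wordProd ω') :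
    wordM N ω = wordM N ω' := by
  have hl : M.IsLiftable (sigM N) := by
    intro i j
    by_cases hij : i = j
    · subst hij
      rw [M.diagonal, pow_one]
      exact sigM_sq h.diag i
    · by_cases hm : M i j = 0
      · rw [hm, pow_zero]
      · have h2 : 2 ≤ M i j := by
          have := M.off_diagonal i j hij
          omega
        have e := h.fin i j hij hm
        exact sigM_mul_pow hij (h.diag i) (h.diag j) h2 (by rw [e]; ring)
          (by rw [h.symm j i, e]; ring)
  have key : ∀ η : List (Fin 3),
      M.toCoxeterSystem.lift ⟨sigM N, hl⟩ (M.toCoxeterSystem.wordProd η) = wordM N η := by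
    intro η
    induction η with
    | nil => simp [wordM]
    | cons x η ih =>
      rw [CoxeterSystem.wordProd_cons, map_mul, ih, CoxeterSystem.lift_apply_simple]
      simp [wordM]
  rw [← key ω, ← key ω', hw]

private theorem ii_suffix (i j : Fin 3) (m d : ℕ) :
    ∃ p : List (Fin 3), p.length = d ∧
      CoxeterSystem.alternatingWord i j (m + d) = p ++ CoxeterSystem.alternatingWord i j m := by
  induction d with
  | zero => exact ⟨[], rfl, rfl⟩
  | succ d ih =>
    obtain ⟨p, hp, e⟩ := ih
    refine ⟨(if Even (m + d) then j else i) :: p, by simp [hp], ?_⟩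
    rw [show m + (d + 1) = m + d + 1 by ring, CoxeterSystem.alternatingWord_succ', e]
    rfl

/-- ii: a reduced decomposition with an alternating suffix of maximal length; `j` is a right
descent of `w` and `i` is not -/
theorem exists_alternating_suffix (M : CoxeterMatrix (Fin 3)) (w : M.Group) {i j : Fin 3}
    (hij : i ≠ j) (hj : M.toCoxeterSystem.IsRightDescent w j)
    (hi : ¬ M.toCoxeterSystem.IsRightDescent w i) :
    ∃ (v : M.Group) (k : ℕ), 1 ≤ k ∧ (M i j ≠ 0 → k + 1 ≤ M i j) ∧
      w = v * M.toCoxeterSystem.wordProd (CoxeterSystem.alternatingWord i j k) ∧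
      M.toCoxeterSystem.length v + k = M.toCoxeterSystem.length w ∧
      ¬ M.toCoxeterSystem.IsRightDescent v i ∧ ¬ M.toCoxeterSystem.IsRightDescent v j := by
  classical
  set cs := M.toCoxeterSystem with hcs
  let Q : ℕ → Prop := fun k => ∃ v : M.Group,
    w = v * cs.wordProd (CoxeterSystem.alternatingWord i j k) ∧ cs.length v + k = cs.length w
  have hQ1 : Q 1 := by
    refine ⟨w * cs.simple j, ?_, ?_⟩
    · rw [show CoxeterSystem.alternatingWord i j 1 = [j] from rfl, CoxeterSystem.wordProd_singleton,
        CoxeterSystem.simple_mul_simple_cancel_right]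
    · exact cs.isRightDescent_iff.1 hj
  have hbound : ∀ k, Q k → k ≤ cs.length w := by
    rintro k ⟨v, -, h⟩
    omega
  set k := Nat.findGreatest Q (cs.length w) with hk
  have hw1 : 1 ≤ cs.length w := hbound 1 hQ1
  have hQk : Q k := Nat.findGreatest_spec hw1 hQ1
  have hk1 : 1 ≤ k := Nat.le_findGreatest hw1 hQ1
  have hmax : ¬ Q (k + 1) := by
    intro h
    have h1 := hbound _ h
    have h2 : k + 1 ≤ k := Nat.le_findGreatest h1 h
    omega
  clear_value k
  obtain ⟨v, hv, hlen⟩ := hQk
  have hy : ¬ cs.IsRightDescent v (if Even k then j else i) := by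
    intro hd
    apply hmax
    refine ⟨v * cs.simple (if Even k then j else i), ?_, ?_⟩
    · rw [CoxeterSystem.alternatingWord_succ', CoxeterSystem.wordProd_cons, ← mul_assoc,
        CoxeterSystem.simple_mul_simple_cancel_right]
      exact hv
    · have := cs.isRightDescent_iff.1 hd
      omega
  have hy' : ¬ cs.IsRightDescent v (if Even k then i else j) := by
    intro hd
    obtain ⟨k', rfl⟩ : ∃ k', k = k' + 1 := ⟨k - 1, by omega⟩
    have e1 : (if Even k' then j else i) = (if Even (k' + 1) then i else j) := by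
      by_cases h : Even k'
      · have h' : ¬ Even (k' + 1) := by simp [h, parity_simps]
        rw [if_pos h, if_neg h']
      · have h' : Even (k' + 1) := by simp [h, parity_simps]
        rw [if_neg h, if_pos h']
    rw [CoxeterSystem.alternatingWord_succ', CoxeterSystem.wordProd_cons, ← mul_assoc, e1] at hv
    have h1 := cs.length_mul_le (v * cs.simple (if Even (k' + 1) then i else j))
      (cs.wordProd (CoxeterSystem.alternatingWord i j k'))
    rw [← hv] at h1
    have h2 := cs.length_wordProd_le (CoxeterSystem.alternatingWord i j k')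
    rw [CoxeterSystem.length_alternatingWord] at h2
    have h3 := cs.isRightDescent_iff.1 hd
    omega
  refine ⟨v, k, hk1, ?_, hv, hlen, ?_, ?_⟩
  · intro hm
    by_contra hcon
    have hmk : M i j ≤ k := by omega
    obtain ⟨d, hd⟩ := Nat.exists_eq_add_of_le hmk
    obtain ⟨p, hp, e⟩ := ii_suffix i j (M i j) d
    rw [← hd] at e
    obtain ⟨m', hm'⟩ : ∃ m', M i j = m' + 1 := ⟨M i j - 1, by omega⟩
    have hb := cs.wordProd_braidWord_eq i j
    have hb2 : cs.wordProd (CoxeterSystem.alternatingWord i j (M i j)) =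
        cs.wordProd (CoxeterSystem.alternatingWord i j m') * cs.simple i := by
      rw [← CoxeterSystem.wordProd_concat]
      have : CoxeterSystem.braidWord M j i = (CoxeterSystem.alternatingWord i j m').concat i := by
        unfold CoxeterSystem.braidWord
        rw [M.symmetric j i, hm']
        rfl
      rw [← this, ← hb]
    apply hi
    rw [CoxeterSystem.isRightDescent_iff]
    have e2 : w * cs.simple i = v * cs.wordProd p *
        cs.wordProd (CoxeterSystem.alternatingWord i j m') := by
      rw [hv, e, CoxeterSystem.wordProd_append, hb2]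
      simp only [mul_assoc]
      rw [CoxeterSystem.simple_mul_simple_self, mul_one]
    have h1 := cs.length_mul_le (v * cs.wordProd p)
      (cs.wordProd (CoxeterSystem.alternatingWord i j m'))
    have h2 := cs.length_mul_le v (cs.wordProd p)
    have h3 := cs.length_wordProd_le p
    have h4 := cs.length_wordProd_le (CoxeterSystem.alternatingWord i j m')
    rw [CoxeterSystem.length_alternatingWord] at h4
    rw [← e2] at h1
    rcases cs.length_mul_simple w i with h | h
    · omega
    · exact h
  · by_cases h : Even k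
    · simpa [h] using hy'
    · simpa [h] using hy
  · by_cases h : Even k
    · simpa [h] using hy
    · simpa [h] using hy'

/-- ij: positivity -/
theorem Geo.nonneg (h : Geo M N) (ω : List (Fin 3)) (i : Fin 3)
    (hi : ¬ M.toCoxeterSystem.IsRightDescent (M.toCoxeterSystem.wordProd ω) i) (p : Fin 3) :
    0 ≤ wordM N ω p i := by
  suffices H : ∀ n : ℕ, ∀ (ω : List (Fin 3)) (i : Fin 3),
      M.toCoxeterSystem.length (M.toCoxeterSystem.wordProd ω) = n →
      ¬ M.toCoxeterSystem.IsRightDescent (M.toCoxeterSystem.wordProd ω) i → ∀ p : Fin 3,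
      0 ≤ wordM N ω p i from H _ ω i rfl hi p
  intro n
  induction n using Nat.strong_induction_on with
  | _ n IH =>
    intro ω i hn hi p
    by_cases hw : M.toCoxeterSystem.wordProd ω = 1
    · have e : wordM N ω = wordM N [] := h.wordM_congr (by rw [hw, CoxeterSystem.wordProd_nil])
      rw [e]
      simp only [wordM, List.map_nil, List.prod_nil, Matrix.one_apply]
      split_ifs <;> norm_num
    · obtain ⟨j, hj⟩ := M.toCoxeterSystem.exists_rightDescent_of_ne_one hw
      have hij : i ≠ j := by
        rintro rfl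
        exact hi hj
      obtain ⟨v, k, hk1, hkM, hv, hlen, hvi, hvj⟩ := exists_alternating_suffix M _ hij hj hi
      obtain ⟨η, rfl⟩ := M.toCoxeterSystem.wordProd_surjective v
      have e : wordM N ω = wordM N (η ++ CoxeterSystem.alternatingWord i j k) :=
        h.wordM_congr (by rw [hv, CoxeterSystem.wordProd_append])
      have hlt : M.toCoxeterSystem.length (M.toCoxeterSystem.wordProd η) < n := by omega
      have Hi := IH _ hlt η i rfl hvi p
      have Hj := IH _ hlt η j rfl hvj p
      have e1 : wordM N ω p i = (wordM N ω).mulVec (Pi.single i 1) p := by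
        rw [Matrix.mulVec_single_one]
        rfl
      have ei : (wordM N η).mulVec (Pi.single i 1) p = wordM N η p i := by
        rw [Matrix.mulVec_single_one]
        rfl
      have ej : (wordM N η).mulVec (Pi.single j 1) p = wordM N η p j := by
        rw [Matrix.mulVec_single_one]
        rfl
      obtain ⟨c, h1, hc0, hc1⟩ : ∃ c : ℝ, N i j = -(2 * c) ∧ 0 ≤ cheb c k ∧
          0 ≤ cheb c (k + 1) := by
        by_cases hm : M i j = 0
        · have := h.inf i j hij hm
          refine ⟨-(N i j / 2), by ring, ?_, ?_⟩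
          · exact (cheb_nonneg_inf (by linarith) k).1
          · exact (cheb_nonneg_inf (by linarith) (k + 1)).1
        · have h3 := hkM hm
          have h2 : 2 ≤ M i j := by omega
          refine ⟨Real.cos (π / M i j), ?_, ?_, ?_⟩
          · rw [h.fin i j hij hm]
            ring
          · exact cheb_nonneg_fin h2 (by omega)
          · exact cheb_nonneg_fin h2 (by omega)
      have h2 : N j i = -(2 * c) := by rw [h.symm j i, h1]
      rw [e1, e, id_append, ← Matrix.mulVec_mulVec,
        wordM_alternating hij (h.diag i) (h.diag j) h1 h2]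
      by_cases hk : Even k
      · rw [if_pos hk, Matrix.mulVec_add, Matrix.mulVec_smul, Matrix.mulVec_smul]
        simp only [Pi.add_apply, Pi.smul_apply, smul_eq_mul]
        rw [ei, ej]
        positivity
      · rw [if_neg hk, Matrix.mulVec_add, Matrix.mulVec_smul, Matrix.mulVec_smul]
        simp only [Pi.add_apply, Pi.smul_apply, smul_eq_mul]
        rw [ei, ej]
        positivity

/-- ik: faithfulness -/
theorem Geo.faithful (h : Geo M N) {ω : List (Fin 3)} (hω : wordM N ω = 1) :
    M.toCoxeterSystem.wordProd ω = 1 := by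
  by_contra hw
  obtain ⟨i, hi⟩ := M.toCoxeterSystem.exists_rightDescent_of_ne_one hw
  have hi' : ¬ M.toCoxeterSystem.IsRightDescent
      (M.toCoxeterSystem.wordProd (ω ++ [i])) i := by
    rw [CoxeterSystem.wordProd_append, CoxeterSystem.wordProd_singleton]
    exact M.toCoxeterSystem.isRightDescent_iff_not_isRightDescent_mul.1 hi
  have := h.nonneg (ω ++ [i]) i hi' i
  rw [id_append, hω, one_mul] at this
  simp only [wordM, List.map_cons, List.map_nil, List.prod_cons, List.prod_nil, mul_one, sigM,
    Matrix.of_apply, if_true, h.diag i] at this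
  norm_num at this

end

end Pool.Agent.Leo
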