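import Pool.Agent.Leo.Words
import Pool.Agent.Leo.Tits
import Pool.Agent.Leo.Gal

/-!
# Realization of the non-affine Coxeter groups of rank three
-/

namespace Pool.Agent.Leo

open Real

private noncomputable def yaW (m : ℕ) : ℝ := if m = 0 then 2 else Real.cos (π / m)

private theorem ya_w {m : ℕ} (hm : m ≠ 1) : 0 ≤ yaW m ∧ yaW m ^ 2 ≠ 1 ∧ (m = 0 → yaW m = 2) ∧
    (m ≠ 0 → yaW m = Real.cos (π / m) ∧ 0 < π / m ∧ π / m ≤ π / 2) := by
  by_cases h0 : m = 0
  · subst h0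
    simp [yaW]
    norm_num
  · have h2 : 2 ≤ m := by omega
    have hpi := Real.pi_pos
    have hmr : (2 : ℝ) ≤ m := by exact_mod_cast h2
    have h1 : 0 < π / m := by positivity
    have h3 : π / m ≤ π / 2 := div_le_div_of_nonneg_left hpi.le (by norm_num) hmr
    have hc : 0 ≤ Real.cos (π / m) := Real.cos_nonneg_of_mem_Icc ⟨by linarith, h3⟩
    have hs : 0 < Real.sin (π / m) := Real.sin_pos_of_pos_of_lt_pi h1 (by linarith)
    have hw : yaW m = Real.cos (π / m) := by simp [yaW, h0]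
    refine ⟨by rw [hw]; exact hc, ?_, fun h => absurd h h0, fun _ => ⟨hw, h1, h3⟩⟩
    rw [hw]
    have := Real.sin_sq_add_cos_sq (π / m)
    nlinarith [mul_pos hs hs]

private theorem ya_id (a b c : ℝ) :
    1 - Real.cos a ^ 2 - Real.cos b ^ 2 - Real.cos c ^ 2 -
      2 * (Real.cos a * Real.cos b * Real.cos c) =
    -4 * Real.cos ((a + b + c) / 2) * Real.cos ((-a + b + c) / 2) *
      Real.cos ((a - b + c) / 2) * Real.cos ((a + b - c) / 2) := by
  have h1 : 2 * (Real.cos ((a + b + c) / 2) * Real.cos ((-a + b + c) / 2)) =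
      Real.cos (b + c) + Real.cos a := by
    have e1 : b + c = (a + b + c) / 2 + (-a + b + c) / 2 := by ring
    have e2 : a = (a + b + c) / 2 - (-a + b + c) / 2 := by ring
    rw [e1]
    conv_rhs => rw [e2]
    rw [Real.cos_add, Real.cos_sub]
    ring_nf
  have h2 : 2 * (Real.cos ((a - b + c) / 2) * Real.cos ((a + b - c) / 2)) =
      Real.cos a + Real.cos (b - c) := by
    have e1 : a = (a - b + c) / 2 + (a + b - c) / 2 := by ring
    have e2 : b - c = (a + b - c) / 2 - (a - b + c) / 2 := by ring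
    rw [e2]
    conv_rhs => rw [e1]
    rw [Real.cos_add, Real.cos_sub]
    ring_nf
  have h3 : -4 * Real.cos ((a + b + c) / 2) * Real.cos ((-a + b + c) / 2) *
      Real.cos ((a - b + c) / 2) * Real.cos ((a + b - c) / 2) =
      -((2 * (Real.cos ((a + b + c) / 2) * Real.cos ((-a + b + c) / 2))) *
        (2 * (Real.cos ((a - b + c) / 2) * Real.cos ((a + b - c) / 2)))) := by ring
  rw [h3, h1, h2, Real.cos_add, Real.cos_sub]
  have hb := Real.sin_sq_add_cos_sq b
  have hc := Real.sin_sq_add_cos_sq c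
  have hb' : Real.sin b ^ 2 = 1 - Real.cos b ^ 2 := by linarith
  have hc' : Real.sin c ^ 2 = 1 - Real.cos c ^ 2 := by linarith
  have h4 : (Real.cos b * Real.cos c - Real.sin b * Real.sin c + Real.cos a) *
      (Real.cos a + (Real.cos b * Real.cos c + Real.sin b * Real.sin c)) =
      Real.cos b ^ 2 * Real.cos c ^ 2 - Real.sin b ^ 2 * Real.sin c ^ 2 +
        2 * Real.cos a * (Real.cos b * Real.cos c) + Real.cos a ^ 2 := by ring
  rw [h4, hb', hc']
  ring

/-- ya: the weights -/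
theorem exists_weights (M : CoxeterMatrix (Fin 3))
    (hM : M 0 1 ≠ 0 → M 0 2 ≠ 0 → M 1 2 ≠ 0 →
      (1 : ℚ) / M 0 1 + 1 / M 0 2 + 1 / M 1 2 ≠ 1) :
    ∃ x y z : ℝ, Geo M (gramM x y z) ∧ x ^ 2 ≠ 1 ∧ y ^ 2 ≠ 1 ∧ z ^ 2 ≠ 1 ∧
      1 - x ^ 2 - y ^ 2 - z ^ 2 - 2 * (x * y * z) ≠ 0 := by
  obtain ⟨h1a, h1b, h1c, h1d⟩ := ya_w (M.off_diagonal 0 1 (by decide))
  obtain ⟨h2a, h2b, h2c, h2d⟩ := ya_w (M.off_diagonal 0 2 (by decide))
  obtain ⟨h3a, h3b, h3c, h3d⟩ := ya_w (M.off_diagonal 1 2 (by decide))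
  have s10 : M 1 0 = M 0 1 := M.isSymm.apply 0 1
  have s20 : M 2 0 = M 0 2 := M.isSymm.apply 0 2
  have s21 : M 2 1 = M 1 2 := M.isSymm.apply 1 2
  refine ⟨yaW (M 0 1), yaW (M 0 2), yaW (M 1 2), ?_, h1b, h2b, h3b, ?_⟩
  · refine ⟨?_, ?_, ?_, ?_⟩
    · intro i
      fin_cases i <;> simp [gramM]
    · intro i j
      fin_cases i <;> fin_cases j <;> simp [gramM]
    · intro i j hij hm
      fin_cases i <;> fin_cases j <;>
        first
        | exact absurd rfl hij
        | (simp only [Fin.zero_eta, Fin.mk_one, Fin.reduceFinMk, s10, s20, s21] at hm ⊢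
           simp [gramM, yaW, hm])
    · intro i j hij hm
      fin_cases i <;> fin_cases j <;>
        first
        | exact absurd rfl hij
        | (simp only [Fin.zero_eta, Fin.mk_one, Fin.reduceFinMk, s10, s20, s21] at hm ⊢
           simp [gramM, yaW, hm]
           try norm_num)
  · by_cases hf : M 0 1 ≠ 0 ∧ M 0 2 ≠ 0 ∧ M 1 2 ≠ 0
    · have hne := hM hf.1 hf.2.1 hf.2.2
      obtain ⟨e1, p1, q1⟩ := h1d hf.1
      obtain ⟨e2, p2, q2⟩ := h2d hf.2.1
      obtain ⟨e3, p3, q3⟩ := h3d hf.2.2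
      rw [e1, e2, e3, ya_id]
      have hsum : π / (M 0 1 : ℕ) + π / (M 0 2 : ℕ) + π / (M 1 2 : ℕ) ≠ π := by
        intro h0
        apply hne
        have h4 : ((1 : ℚ) / (M 0 1 : ℕ) + 1 / (M 0 2 : ℕ) + 1 / (M 1 2 : ℕ) : ℝ) = 1 := by
          have h5 : π * (((1 : ℚ) / (M 0 1 : ℕ) + 1 / (M 0 2 : ℕ) + 1 / (M 1 2 : ℕ) : ℝ)) =
              π * 1 := by
            rw [mul_one]
            refine Eq.trans ?_ h0
            push_cast
            ring
          exact mul_left_cancel₀ Real.pi_ne_zero h5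
        have h6 : (((1 : ℚ) / (M 0 1 : ℕ) + 1 / (M 0 2 : ℕ) + 1 / (M 1 2 : ℕ) : ℚ) : ℝ) =
            ((1 : ℚ) : ℝ) := by
          push_cast at h4 ⊢
          exact h4
        exact_mod_cast h6
      have hpi := Real.pi_pos
      refine mul_ne_zero (mul_ne_zero (mul_ne_zero (mul_ne_zero (by norm_num) ?_) ?_) ?_) ?_
      · intro h0
        apply hsum
        by_contra hcon
        rcases lt_or_gt_of_ne hcon with hlt | hgt
        · have := Real.cos_pos_of_mem_Ioo (x := (π / (M 0 1 : ℕ) + π / (M 0 2 : ℕ) +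
            π / (M 1 2 : ℕ)) / 2) ⟨by linarith, by linarith⟩
          linarith
        · have := Real.cos_neg_of_pi_div_two_lt_of_lt (x := (π / (M 0 1 : ℕ) +
            π / (M 0 2 : ℕ) + π / (M 1 2 : ℕ)) / 2) (by linarith) (by linarith)
          linarith
      · exact (Real.cos_pos_of_mem_Ioo ⟨by linarith, by linarith⟩).ne'
      · exact (Real.cos_pos_of_mem_Ioo ⟨by linarith, by linarith⟩).ne'
      · exact (Real.cos_pos_of_mem_Ioo ⟨by linarith, by linarith⟩).ne'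
    · have hlt : 1 - yaW (M 0 1) ^ 2 - yaW (M 0 2) ^ 2 - yaW (M 1 2) ^ 2 -
          2 * (yaW (M 0 1) * yaW (M 0 2) * yaW (M 1 2)) < 0 := by
        have hm : 0 ≤ yaW (M 0 1) * yaW (M 0 2) * yaW (M 1 2) :=
          mul_nonneg (mul_nonneg h1a h2a) h3a
        have hor : M 0 1 = 0 ∨ M 0 2 = 0 ∨ M 1 2 = 0 := by
          by_contra hcon
          push Not at hcon
          exact hf hcon
        rcases hor with h0 | h0 | h0
        · have := h1c h0
          nlinarith [sq_nonneg (yaW (M 0 2)), sq_nonneg (yaW (M 1 2))]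
        · have := h2c h0
          nlinarith [sq_nonneg (yaW (M 0 1)), sq_nonneg (yaW (M 1 2))]
        · have := h3c h0
          nlinarith [sq_nonneg (yaW (M 0 1)), sq_nonneg (yaW (M 0 2))]
      exact hlt.ne

/-- yb: three elements of `sl₂` with a given Gram matrix -/
theorem exists_roots {x y z : ℝ} (hx : x ^ 2 ≠ 1)
    (hd : 1 - x ^ 2 - y ^ 2 - z ^ 2 - 2 * (x * y * z) ≠ 0) :
    ∃ n : Fin 3 → Matrix (Fin 2) (Fin 2) ℂ, (∀ i, (n i).trace = 0) ∧
      ∀ i j, (n i * n j).trace = ((gramM x y z i j : ℝ) : ℂ) := by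
  have h1 : (((1 - x ^ 2 : ℝ)) : ℂ) ≠ 0 := by
    rw [Complex.ofReal_ne_zero]
    intro h
    apply hx
    linarith
  obtain ⟨u, hu⟩ := exists_quadratic_eq_zero (a := ((1 - x ^ 2 : ℝ) : ℂ))
    (b := ((2 * (z + x * y) : ℝ) : ℂ)) (c := ((1 - y ^ 2 : ℝ) : ℂ)) h1 (by
      obtain ⟨s, hs⟩ := IsAlgClosed.exists_pow_nat_eq (discrim ((1 - x ^ 2 : ℝ) : ℂ)
        ((2 * (z + x * y) : ℝ) : ℂ) ((1 - y ^ 2 : ℝ) : ℂ)) (n := 2) (by norm_num)
      exact ⟨s, by rw [← hs, sq]⟩)
  push_cast at hu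
  refine ⟨![!![1, 0; 0, -1], !![-(x : ℂ), 1; 1 - (x : ℂ) ^ 2, (x : ℂ)],
    !![-(y : ℂ), u; -(2 * ((z : ℂ) + x * y)) - (1 - (x : ℂ) ^ 2) * u, (y : ℂ)]], ?_, ?_⟩
  · intro i
    fin_cases i <;> simp [Matrix.trace_fin_two]
  · intro i j
    fin_cases i <;> fin_cases j <;>
      simp [Matrix.trace_fin_two, Matrix.mul_apply, Fin.sum_univ_two, gramM]
    all_goals first
      | ring1
      | linear_combination 2 * hu
      | linear_combination (-2) * hu
      | norm_num

/-- three elements of `sl₂(ℂ)` with the Gram matrix of `x, y, z` in general position -/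
structure Roots (x y z : ℝ) (n : Fin 3 → Matrix (Fin 2) (Fin 2) ℂ) : Prop where
  tr : ∀ i, (n i).trace = 0
  gram : ∀ i j, (n i * n j).trace = ((gramM x y z i j : ℝ) : ℂ)
  hx : x ^ 2 ≠ 1
  hy : y ^ 2 ≠ 1
  hz : z ^ 2 ≠ 1
  det : 1 - x ^ 2 - y ^ 2 - z ^ 2 - 2 * (x * y * z) ≠ 0

/-- commutator of matrices -/
def lb (X Y : Matrix (Fin 2) (Fin 2) ℂ) : Matrix (Fin 2) (Fin 2) ℂ := X * Y - Y * X

section
variable {x y z : ℝ} {n : Fin 3 → Matrix (Fin 2) (Fin 2) ℂ}

omit x y z n in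
private theorem yc_ent {X : Matrix (Fin 2) (Fin 2) ℂ} (h : X.trace = 0) : X 1 1 = -X 0 0 := by
  rw [Matrix.trace_fin_two] at h
  linear_combination h

omit x y z n in
private theorem yc_swap (X Y : Matrix (Fin 2) (Fin 2) ℂ) : lb X Y = -lb Y X := by
  simp [lb]

omit x y z n in
private theorem yc_lbtr (X Y : Matrix (Fin 2) (Fin 2) ℂ) : (lb X Y).trace = 0 := by
  rw [lb, Matrix.trace_sub, Matrix.trace_mul_comm, sub_self]

omit x y z n in
private theorem yc_tr {X Y Z : Matrix (Fin 2) (Fin 2) ℂ} (hX : X.trace = 0) (hY : Y.trace = 0)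
    (hZ : Z.trace = 0) : (lb X Y * lb X Z).trace =
      2 * ((X * Y).trace * (X * Z).trace - (X * X).trace * (Y * Z).trace) := by
  simp only [lb, Matrix.trace_fin_two, Matrix.mul_apply, Matrix.sub_apply, Fin.sum_univ_two,
    yc_ent hX, yc_ent hY, yc_ent hZ]
  ring

/-- yc: the three commutators and their norms (`A = [n0,n1]`, `B = [n0,n2]`, `C = [n1,n2]`) -/
theorem Roots.norms (h : Roots x y z n) :
    (lb (n 0) (n 1) * lb (n 0) (n 1)).trace ≠ 0 ∧
    (lb (n 0) (n 2) * lb (n 0) (n 2)).trace ≠ 0 ∧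
    (lb (n 1) (n 2) * lb (n 1) (n 2)).trace ≠ 0 ∧
    (lb (lb (n 0) (n 1)) (lb (n 0) (n 2)) * lb (lb (n 0) (n 1)) (lb (n 0) (n 2))).trace ≠ 0 ∧
    (lb (lb (n 0) (n 1)) (lb (n 1) (n 2)) * lb (lb (n 0) (n 1)) (lb (n 1) (n 2))).trace ≠ 0 ∧
    (lb (lb (n 0) (n 2)) (lb (n 1) (n 2)) * lb (lb (n 0) (n 2)) (lb (n 1) (n 2))).trace ≠ 0 := by
  have t0 := h.tr 0
  have t1 := h.tr 1
  have t2 := h.tr 2
  have g00 : (n 0 * n 0).trace = 2 := by rw [h.gram]; simp [gramM]
  have g11 : (n 1 * n 1).trace = 2 := by rw [h.gram]; simp [gramM]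
  have g22 : (n 2 * n 2).trace = 2 := by rw [h.gram]; simp [gramM]
  have g01 : (n 0 * n 1).trace = -(2 * x) := by rw [h.gram]; simp [gramM]
  have g10 : (n 1 * n 0).trace = -(2 * x) := by rw [h.gram]; simp [gramM]
  have g02 : (n 0 * n 2).trace = -(2 * y) := by rw [h.gram]; simp [gramM]
  have g20 : (n 2 * n 0).trace = -(2 * y) := by rw [h.gram]; simp [gramM]
  have g12 : (n 1 * n 2).trace = -(2 * z) := by rw [h.gram]; simp [gramM]
  have g21 : (n 2 * n 1).trace = -(2 * z) := by rw [h.gram]; simp [gramM]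
  have hx : (x : ℂ) ^ 2 ≠ 1 := by exact_mod_cast h.hx
  have hy : (y : ℂ) ^ 2 ≠ 1 := by exact_mod_cast h.hy
  have hz : (z : ℂ) ^ 2 ≠ 1 := by exact_mod_cast h.hz
  have hd : 1 - (x : ℂ) ^ 2 - (y : ℂ) ^ 2 - (z : ℂ) ^ 2 - 2 * ((x : ℂ) * y * z) ≠ 0 := by
    exact_mod_cast h.det
  have aa := yc_tr t0 t1 t1
  rw [g01, g00, g11] at aa
  have bb := yc_tr t0 t2 t2
  rw [g02, g00, g22] at bb
  have cc := yc_tr t1 t2 t2
  rw [g12, g11, g22] at cc
  have ab := yc_tr t0 t1 t2
  rw [g01, g02, g00, g12] at ab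
  have ac := yc_tr t1 t0 t2
  rw [g10, g12, g11, g02] at ac
  have bc := yc_tr t2 t0 t1
  rw [g20, g21, g22, g01] at bc
  have ac' : (lb (n 0) (n 1) * lb (n 1) (n 2)).trace =
      -(2 * (-(2 * (x : ℂ)) * -(2 * (z : ℂ)) - 2 * -(2 * (y : ℂ)))) := by
    rw [← ac, yc_swap (n 0) (n 1), neg_mul, Matrix.trace_neg]
  have bc' : (lb (n 0) (n 2) * lb (n 1) (n 2)).trace =
      2 * (-(2 * (y : ℂ)) * -(2 * (z : ℂ)) - 2 * -(2 * (x : ℂ))) := by
    rw [← bc, yc_swap (n 0) (n 2), yc_swap (n 1) (n 2), neg_mul_neg]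
  have T : ∀ X Y : Matrix (Fin 2) (Fin 2) ℂ, (lb X Y).trace = 0 := yc_lbtr
  refine ⟨?_, ?_, ?_, ?_, ?_, ?_⟩
  · rw [aa]
    intro h0
    apply hx
    linear_combination h0 / 8
  · rw [bb]
    intro h0
    apply hy
    linear_combination h0 / 8
  · rw [cc]
    intro h0
    apply hz
    linear_combination h0 / 8
  · rw [yc_tr (T _ _) (T _ _) (T _ _), ab, aa, bb]
    intro h0
    apply hd
    linear_combination (-1 / 128) * h0
  · rw [yc_tr (T _ _) (T _ _) (T _ _), ac', aa, cc]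
    intro h0
    apply hd
    linear_combination (-1 / 128) * h0
  · rw [yc_tr (T _ _) (T _ _) (T _ _), bc', bb, cc]
    intro h0
    apply hd
    linear_combination (-1 / 128) * h0

private def yd_D (X Y Z : Matrix (Fin 2) (Fin 2) ℂ) : ℂ :=
  4 * (Y 0 1 * X 1 0 * Z 0 0 - X 0 0 * Y 0 1 * Z 1 0 + Y 0 0 * X 0 1 * Z 1 0 -
    Z 0 1 * X 1 0 * Y 0 0 + X 0 0 * Z 0 1 * Y 1 0 - Z 0 0 * X 0 1 * Y 1 0)

omit x y z n in
private theorem yd_lb {X Y Z : Matrix (Fin 2) (Fin 2) ℂ} (hX : X.trace = 0) (hY : Y.trace = 0)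
    (hZ : Z.trace = 0) : lb (lb X Y) (lb X Z) = yd_D X Y Z • X := by
  ext i j
  fin_cases i <;> fin_cases j <;>
    simp only [lb, yd_D, Matrix.mul_apply, Matrix.sub_apply, Fin.sum_univ_two, Matrix.smul_apply,
      smul_eq_mul, Fin.zero_eta, Fin.mk_one, yc_ent hX, yc_ent hY, yc_ent hZ] <;>
    ring

/-- yd: the brackets of the commutators are nonzero multiples of the roots -/
theorem Roots.brackets (h : Roots x y z n) :
    (∃ c : ℂ, c ≠ 0 ∧ lb (lb (n 0) (n 1)) (lb (n 0) (n 2)) = c • n 0) ∧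
    (∃ c : ℂ, c ≠ 0 ∧ lb (lb (n 0) (n 1)) (lb (n 1) (n 2)) = c • n 1) ∧
    (∃ c : ℂ, c ≠ 0 ∧ lb (lb (n 0) (n 2)) (lb (n 1) (n 2)) = c • n 2) := by
  have t0 := h.tr 0
  have t1 := h.tr 1
  have t2 := h.tr 2
  obtain ⟨-, -, -, m1, m2, m3⟩ := h.norms
  have key : ∀ (L N : Matrix (Fin 2) (Fin 2) ℂ) (c : ℂ), L = c • N → (L * L).trace ≠ 0 →
      ∃ c : ℂ, c ≠ 0 ∧ L = c • N := by
    intro L N c hL hn
    refine ⟨c, ?_, hL⟩
    rintro rfl
    apply hn
    rw [hL, zero_smul, zero_mul, Matrix.trace_zero]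
  refine ⟨key _ _ _ (yd_lb t0 t1 t2) m1, key _ _ (-yd_D (n 1) (n 0) (n 2)) ?_ m2,
    key _ _ (yd_D (n 2) (n 0) (n 1)) ?_ m3⟩
  · rw [yc_swap (n 0) (n 1), neg_smul, ← yd_lb t1 t0 t2]
    simp only [lb]
    noncomm_ring
  · rw [yc_swap (n 0) (n 2), yc_swap (n 1) (n 2), ← yd_lb t2 t0 t1]
    simp only [lb]
    noncomm_ring

omit x y z in
private theorem ye_cramer (hn : ∀ i, (n i).trace = 0) (hD : yd_D (n 0) (n 1) (n 2) ≠ 0)
    (X : Matrix (Fin 2) (Fin 2) ℂ) (hX : X.trace = 0) : ∃! v : Fin 3 → ℂ, X = ∑ i, v i • n i := by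
  set Q : Matrix (Fin 3) (Fin 3) ℂ := !![n 0 0 0, n 1 0 0, n 2 0 0; n 0 0 1, n 1 0 1, n 2 0 1;
    n 0 1 0, n 1 1 0, n 2 1 0] with hQ
  have hdet : Q.det ≠ 0 := by
    intro h0
    apply hD
    rw [Matrix.det_fin_three] at h0
    simp [hQ] at h0
    unfold yd_D
    linear_combination (-4) * h0
  have hu : IsUnit Q.det := isUnit_iff_ne_zero.2 hdet
  have hiff : ∀ v : Fin 3 → ℂ, X = ∑ i, v i • n i ↔ Q.mulVec v = ![X 0 0, X 0 1, X 1 0] := by
    intro v
    constructor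
    · intro hv
      rw [hv]
      ext k
      fin_cases k <;>
        simp [hQ, Matrix.mulVec, dotProduct, Fin.sum_univ_three, Matrix.add_apply,
          Matrix.smul_apply, mul_comm]
    · intro hv
      have e0 := congrFun hv 0
      have e1 := congrFun hv 1
      have e2 := congrFun hv 2
      simp [hQ, Matrix.mulVec, dotProduct, Fin.sum_univ_three] at e0 e1 e2
      ext i j
      fin_cases i <;> fin_cases j <;>
        simp [Fin.sum_univ_three, Matrix.add_apply, Matrix.smul_apply, yc_ent hX,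
          yc_ent (hn 0), yc_ent (hn 1), yc_ent (hn 2)]
      · linear_combination -e0
      · linear_combination -e1
      · linear_combination -e2
      · linear_combination e0
  refine ⟨(Q⁻¹).mulVec ![X 0 0, X 0 1, X 1 0], ?_, ?_⟩
  · show X = _
    rw [hiff, Matrix.mulVec_mulVec, Matrix.mul_nonsing_inv _ hu, Matrix.one_mulVec]
  · intro w hw
    have hw' := (hiff w).1 hw
    rw [← hw', Matrix.mulVec_mulVec, Matrix.nonsing_inv_mul _ hu, Matrix.one_mulVec]

/-- ye: every traceless matrix is a unique combination of the three roots -/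
theorem Roots.span (h : Roots x y z n) (X : Matrix (Fin 2) (Fin 2) ℂ) (hX : X.trace = 0) :
    ∃! v : Fin 3 → ℂ, X = ∑ i, v i • n i := by
  obtain ⟨⟨c, hc, hc1⟩, -, -⟩ := h.brackets
  have hD : yd_D (n 0) (n 1) (n 2) ≠ 0 := by
    intro h0
    have h1 := yd_lb (h.tr 0) (h.tr 1) (h.tr 2)
    rw [hc1, h0, zero_smul] at h1
    have h2 : n 0 = 0 := by
      rcases smul_eq_zero.1 h1 with h3 | h3
      · exact absurd h3 hc
      · exact h3
    have h3 := h.gram 0 0
    rw [h2] at h3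
    simp [gramM] at h3
  exact ye_cramer h.tr hD X hX

end

private theorem yf_unit {A P D : Matrix (Fin 2) (Fin 2) ℂ} (hP : P.det ≠ 0) (h : A * P = P * D) :
    ∃ g : (Matrix (Fin 2) (Fin 2) ℂ)ˣ,
      (g : Matrix (Fin 2) (Fin 2) ℂ) * A * (g⁻¹ : (Matrix (Fin 2) (Fin 2) ℂ)ˣ) = D := by
  have hu : IsUnit P := (Matrix.isUnit_iff_isUnit_det P).2 (isUnit_iff_ne_zero.2 hP)
  obtain ⟨u, hu⟩ := hu
  refine ⟨u⁻¹, ?_⟩
  rw [inv_inv, hu, mul_assoc, h, ← mul_assoc, ← hu, u.inv_mul, one_mul]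

private theorem yf_diag {A : Matrix (Fin 2) (Fin 2) ℂ} (hA : A.trace = 0)
    (h1 : (A * A).trace ≠ 0) :
    ∃ (g : (Matrix (Fin 2) (Fin 2) ℂ)ˣ) (x : ℂ), x ≠ 0 ∧
      (g : Matrix (Fin 2) (Fin 2) ℂ) * A * (g⁻¹ : (Matrix (Fin 2) (Fin 2) ℂ)ˣ) =
        !![x, 0; 0, -x] := by
  have hA' : A 1 1 = -A 0 0 := by
    rw [Matrix.trace_fin_two] at hA
    linear_combination hA
  have h2 : (A * A).trace = 2 * (A 0 0 ^ 2 + A 0 1 * A 1 0) := by
    simp only [Matrix.trace_fin_two, Matrix.mul_apply, Fin.sum_univ_two, hA']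
    ring
  rw [h2] at h1
  have h3 := right_ne_zero_of_mul h1
  by_cases hq : A 0 1 = 0
  · rw [hq, zero_mul, add_zero] at h3
    have hp : A 0 0 ≠ 0 := fun h0 => h3 (by rw [h0]; ring)
    obtain ⟨g, hg⟩ := yf_unit (A := A) (P := !![2 * A 0 0, 0; A 1 0, 1])
      (D := !![A 0 0, 0; 0, -A 0 0]) (by simp [Matrix.det_fin_two_of, hp]) (by
        ext i j
        fin_cases i <;> fin_cases j <;>
          simp [Matrix.mul_apply, Fin.sum_univ_two, hA', hq] <;> ring)
    exact ⟨g, A 0 0, hp, hg⟩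
  · obtain ⟨x, hx⟩ := IsAlgClosed.exists_pow_nat_eq (A 0 0 ^ 2 + A 0 1 * A 1 0) (n := 2)
      (by norm_num)
    have hx0 : x ≠ 0 := by
      rintro rfl
      apply h3
      rw [← hx]
      ring
    obtain ⟨g, hg⟩ := yf_unit (A := A) (P := !![A 0 1, A 0 1; x - A 0 0, -x - A 0 0])
      (D := !![x, 0; 0, -x]) (by
        rw [Matrix.det_fin_two_of]
        have : A 0 1 * (-x - A 0 0) - A 0 1 * (x - A 0 0) = -2 * (A 0 1 * x) := by ring
        rw [this]
        exact mul_ne_zero (by norm_num) (mul_ne_zero hq hx0)) (by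
        ext i j
        fin_cases i <;> fin_cases j
        · simp [Matrix.mul_apply, Fin.sum_univ_two, hA']
          ring
        · simp [Matrix.mul_apply, Fin.sum_univ_two, hA']
          ring
        · simp [Matrix.mul_apply, Fin.sum_univ_two, hA']
          linear_combination -hx
        · simp [Matrix.mul_apply, Fin.sum_univ_two, hA']
          linear_combination -hx)
    exact ⟨g, x, hx0, hg⟩

/-- yf: simultaneous normal form in `sl₂(ℂ)` -/
theorem exists_diag {A B C : Matrix (Fin 2) (Fin 2) ℂ} (hA : A.trace = 0)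
    (hB : B.trace = 0) (hC : C.trace = 0) (h1 : (A * A).trace ≠ 0)
    (h2 : (lb A B * lb A B).trace ≠ 0) (h3 : (lb A C * lb A C).trace ≠ 0) :
    ∃ (g : (Matrix (Fin 2) (Fin 2) ℂ)ˣ) (x : ℂ), x ≠ 0 ∧
      (g : Matrix (Fin 2) (Fin 2) ℂ) * A * (g⁻¹ : (Matrix (Fin 2) (Fin 2) ℂ)ˣ) =
        !![x, 0; 0, -x] ∧
      ∀ i j, i ≠ j →
        ((g : Matrix (Fin 2) (Fin 2) ℂ) * B * (g⁻¹ : (Matrix (Fin 2) (Fin 2) ℂ)ˣ)) i j ≠ 0 ∧
        ((g : Matrix (Fin 2) (Fin 2) ℂ) * C * (g⁻¹ : (Matrix (Fin 2) (Fin 2) ℂ)ˣ)) i j ≠ 0 := by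
  obtain ⟨g, x, hx, hg⟩ := yf_diag hA h1
  refine ⟨g, x, hx, hg, ?_⟩
  have key : ∀ Y : Matrix (Fin 2) (Fin 2) ℂ, Y.trace = 0 → (lb A Y * lb A Y).trace ≠ 0 →
      ∀ i j, i ≠ j →
        ((g : Matrix (Fin 2) (Fin 2) ℂ) * Y * (g⁻¹ : (Matrix (Fin 2) (Fin 2) ℂ)ˣ)) i j ≠ 0 := by
    intro Y hY hn
    have e1 : (g : Matrix (Fin 2) (Fin 2) ℂ) * (lb A Y * lb A Y) *
        (g⁻¹ : (Matrix (Fin 2) (Fin 2) ℂ)ˣ) =
        lb ((g : Matrix (Fin 2) (Fin 2) ℂ) * A * (g⁻¹ : (Matrix (Fin 2) (Fin 2) ℂ)ˣ))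
          ((g : Matrix (Fin 2) (Fin 2) ℂ) * Y * (g⁻¹ : (Matrix (Fin 2) (Fin 2) ℂ)ˣ)) *
        lb ((g : Matrix (Fin 2) (Fin 2) ℂ) * A * (g⁻¹ : (Matrix (Fin 2) (Fin 2) ℂ)ˣ))
          ((g : Matrix (Fin 2) (Fin 2) ℂ) * Y * (g⁻¹ : (Matrix (Fin 2) (Fin 2) ℂ)ˣ)) := by
      have hgg : ((g⁻¹ : (Matrix (Fin 2) (Fin 2) ℂ)ˣ) : Matrix (Fin 2) (Fin 2) ℂ) *
          (g : Matrix (Fin 2) (Fin 2) ℂ) = 1 := g.inv_mul
      set G : Matrix (Fin 2) (Fin 2) ℂ := (g : Matrix (Fin 2) (Fin 2) ℂ)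
      set H : Matrix (Fin 2) (Fin 2) ℂ := ((g⁻¹ : (Matrix (Fin 2) (Fin 2) ℂ)ˣ) :
        Matrix (Fin 2) (Fin 2) ℂ)
      have e2 : ∀ P R : Matrix (Fin 2) (Fin 2) ℂ, (G * P * H) * (G * R * H) =
          G * (P * R) * H := by
        intro P R
        calc (G * P * H) * (G * R * H) = G * P * (H * G) * (R * H) := by
              simp only [mul_assoc]
          _ = G * (P * R) * H := by rw [hgg]; simp only [mul_assoc, one_mul]
      simp only [lb, e2, ← mul_sub, ← sub_mul]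
    have e3 : (lb ((g : Matrix (Fin 2) (Fin 2) ℂ) * A * (g⁻¹ : (Matrix (Fin 2) (Fin 2) ℂ)ˣ))
          ((g : Matrix (Fin 2) (Fin 2) ℂ) * Y * (g⁻¹ : (Matrix (Fin 2) (Fin 2) ℂ)ˣ)) *
        lb ((g : Matrix (Fin 2) (Fin 2) ℂ) * A * (g⁻¹ : (Matrix (Fin 2) (Fin 2) ℂ)ˣ))
          ((g : Matrix (Fin 2) (Fin 2) ℂ) * Y * (g⁻¹ : (Matrix (Fin 2) (Fin 2) ℂ)ˣ))).trace ≠
        0 := by
      rw [← e1, Matrix.trace_units_conj]
      exact hn
    rw [hg] at e3
    set Z := (g : Matrix (Fin 2) (Fin 2) ℂ) * Y * (g⁻¹ : (Matrix (Fin 2) (Fin 2) ℂ)ˣ)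
    have e4 : (lb !![x, 0; 0, -x] Z * lb !![x, 0; 0, -x] Z).trace =
        -8 * x ^ 2 * (Z 0 1 * Z 1 0) := by
      simp only [lb, Matrix.trace_fin_two, Matrix.mul_apply, Matrix.sub_apply, Fin.sum_univ_two,
        Matrix.of_apply, Matrix.cons_val', Matrix.cons_val_zero, Matrix.cons_val_one,
        Matrix.cons_val_fin_one]
      ring
    rw [e4] at e3
    have e5 := right_ne_zero_of_mul e3
    intro i j hij
    fin_cases i <;> fin_cases j
    · exact absurd rfl hij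
    · exact left_ne_zero_of_mul e5
    · exact right_ne_zero_of_mul e5
    · exact absurd rfl hij
  intro i j hij
  exact ⟨key B hB h2 i j hij, key C hC h3 i j hij⟩

/-- the irreducible representation of `gl₂(ℂ)` on binary forms of degree `d` -/
structure Rep2 (d : ℕ) (V : Type) [AddCommGroup V] [Module ℂ V] where
  act : Matrix (Fin 2) (Fin 2) ℂ →ₗ[ℂ] Module.End ℂ V
  e : Module.Basis (Fin (d + 1)) ℂ V
  lie : ∀ X Y, act (X * Y - Y * X) = act X * act Y - act Y * act X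
  mat : ∀ X (i j : Fin (d + 1)), mt e (act X) i j =
    if i = j then ((d : ℂ) - ((i : ℕ) : ℂ)) * X 0 0 + ((i : ℕ) : ℂ) * X 1 1
    else if (i : ℕ) = j + 1 then ((d : ℂ) - ((j : ℕ) : ℂ)) * X 1 0
    else if (j : ℕ) = i + 1 then ((j : ℕ) : ℂ) * X 0 1 else 0
  conj : ∀ g : (Matrix (Fin 2) (Fin 2) ℂ)ˣ, ∃ T : V ≃ₗ[ℂ] V, ∀ X : Matrix (Fin 2) (Fin 2) ℂ,
    act ((g : Matrix (Fin 2) (Fin 2) ℂ) * X * (g⁻¹ : (Matrix (Fin 2) (Fin 2) ℂ)ˣ)) =
      T.toLinearMap ∘ₗ act X ∘ₗ T.symm.toLinearMap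

open MvPolynomial in
private noncomputable def ygD (X : Matrix (Fin 2) (Fin 2) ℂ) :
    Derivation ℂ (MvPolynomial (Fin 2) ℂ) (MvPolynomial (Fin 2) ℂ) :=
  mkDerivation ℂ (fun j => ∑ i, X i j • (MvPolynomial.X i : MvPolynomial (Fin 2) ℂ))

open MvPolynomial in
private noncomputable def ygF (g : Matrix (Fin 2) (Fin 2) ℂ) :
    MvPolynomial (Fin 2) ℂ →ₐ[ℂ] MvPolynomial (Fin 2) ℂ :=
  aeval (fun j => ∑ i, g i j • (MvPolynomial.X i : MvPolynomial (Fin 2) ℂ))

open MvPolynomial in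
private noncomputable def ygm (d i : ℕ) : MvPolynomial (Fin 2) ℂ :=
  (MvPolynomial.X 0) ^ (d - i) * (MvPolynomial.X 1) ^ i

open MvPolynomial in
private theorem ygm_eq (d i : ℕ) : ygm d i =
    monomial (Finsupp.single 0 (d - i) + Finsupp.single 1 i) (1 : ℂ) := by
  unfold ygm
  rw [X_pow_eq_monomial, X_pow_eq_monomial, monomial_mul, one_mul]

open MvPolynomial in
private theorem ygm_mem {d i : ℕ} (hi : i ≤ d) : ygm d i ∈ homogeneousSubmodule (Fin 2) ℂ d := by
  rw [mem_homogeneousSubmodule, ygm_eq]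
  apply isHomogeneous_monomial
  rw [map_add, Finsupp.degree_single, Finsupp.degree_single]
  omega

open MvPolynomial in
private theorem ygD_X (X : Matrix (Fin 2) (Fin 2) ℂ) (j : Fin 2) :
    ygD X (MvPolynomial.X j) = ∑ i, X i j • (MvPolynomial.X i : MvPolynomial (Fin 2) ℂ) :=
  mkDerivation_X _ _ _

open MvPolynomial in
private theorem ygF_X (g : Matrix (Fin 2) (Fin 2) ℂ) (j : Fin 2) :
    ygF g (MvPolynomial.X j) = ∑ i, g i j • (MvPolynomial.X i : MvPolynomial (Fin 2) ℂ) :=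
  aeval_X _ _

private theorem yg_lie (X Y : Matrix (Fin 2) (Fin 2) ℂ) :
    ygD (X * Y - Y * X) = ⁅ygD X, ygD Y⁆ := by
  apply MvPolynomial.derivation_ext
  intro j
  rw [Derivation.commutator_apply, ygD_X, ygD_X, ygD_X]
  simp only [Fin.sum_univ_two, map_add, Derivation.map_smul, ygD_X, Matrix.sub_apply,
    Matrix.mul_apply]
  module

private theorem ygD_m (X : Matrix (Fin 2) (Fin 2) ℂ) {d i : ℕ} (hi : i ≤ d) :
    ygD X (ygm d i) = (((d : ℂ) - (i : ℂ)) * X 0 0 + (i : ℂ) * X 1 1) • ygm d i +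
      (((d : ℂ) - (i : ℂ)) * X 1 0) • ygm d (i + 1) + ((i : ℂ) * X 0 1) • ygm d (i - 1) := by
  obtain ⟨k, rfl⟩ := Nat.exists_eq_add_of_le' hi
  unfold ygm
  rw [Derivation.leibniz, Derivation.leibniz_pow, Derivation.leibniz_pow, ygD_X, ygD_X]
  simp only [Fin.sum_univ_two, Nat.add_sub_cancel, smul_eq_mul, nsmul_eq_mul]
  have e1 : ((k + i : ℕ) : ℂ) - (i : ℂ) = (k : ℂ) := by push_cast; ring
  rw [e1]
  rcases Nat.eq_zero_or_pos k with hk | hk
  · subst hk
    rcases Nat.eq_zero_or_pos i with h0 | h0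
    · subst h0
      simp
    · obtain ⟨i, rfl⟩ := Nat.exists_eq_add_of_le' h0
      have e2 : 0 + (i + 1) - (i + 1 - 1) = 1 := by omega
      rw [e2]
      simp only [MvPolynomial.smul_eq_C_mul, Nat.add_sub_cancel]
      push_cast
      simp only [map_add, map_mul, map_zero, map_one, map_natCast]
      ring
  · obtain ⟨k, rfl⟩ := Nat.exists_eq_add_of_le' hk
    have e3 : k + 1 + i - (i + 1) = k := by omega
    rw [e3]
    rcases Nat.eq_zero_or_pos i with h0 | h0
    · subst h0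
      simp only [MvPolynomial.smul_eq_C_mul, Nat.add_sub_cancel]
      push_cast
      simp only [map_add, map_mul, map_zero, map_one, map_natCast]
      ring
    · obtain ⟨i, rfl⟩ := Nat.exists_eq_add_of_le' h0
      have e2 : k + 1 + (i + 1) - (i + 1 - 1) = k + 2 := by omega
      rw [e2]
      simp only [MvPolynomial.smul_eq_C_mul, Nat.add_sub_cancel]
      push_cast
      simp only [map_add, map_mul, map_zero, map_one, map_natCast]
      ring

open MvPolynomial in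
private theorem yg_span (d : ℕ) {p : MvPolynomial (Fin 2) ℂ}
    (hp : p ∈ homogeneousSubmodule (Fin 2) ℂ d) :
    p = ∑ i : Fin (d + 1), coeff (Finsupp.single 0 (d - (i : ℕ)) + Finsupp.single 1 (i : ℕ)) p •
      ygm d i := by
  rw [mem_homogeneousSubmodule] at hp
  ext m
  rw [coeff_sum]
  simp only [coeff_smul, ygm_eq, coeff_monomial, smul_eq_mul, mul_ite, mul_one, mul_zero]
  by_cases hm : m.degree = d
  · have h2 : m.degree = m 0 + m 1 := by
      rw [Finsupp.degree_eq_sum, Fin.sum_univ_two]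
    have h3 : m 1 < d + 1 := by omega
    have h4 : Finsupp.single 0 (d - m 1) + Finsupp.single 1 (m 1) = m := by
      ext k
      fin_cases k
      · simp
        omega
      · simp
    rw [Finset.sum_eq_single (⟨m 1, h3⟩ : Fin (d + 1))]
    · simp only [h4, if_true]
    · intro b _ hb
      rw [if_neg]
      intro h5
      apply hb
      apply Fin.ext
      have := DFunLike.congr_fun h5 1
      simpa using this
    · intro h5
      exact absurd (Finset.mem_univ _) h5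
  · have h5 : coeff m p = 0 := hp.coeff_eq_zero hm
    rw [h5, Finset.sum_eq_zero]
    intro i _
    rw [if_neg]
    intro h6
    apply hm
    rw [← h6, map_add, Finsupp.degree_single, Finsupp.degree_single]
    have := i.2
    omega

open MvPolynomial in
private theorem ygD_mem (X : Matrix (Fin 2) (Fin 2) ℂ) (d : ℕ) {p : MvPolynomial (Fin 2) ℂ}
    (hp : p ∈ homogeneousSubmodule (Fin 2) ℂ d) : ygD X p ∈ homogeneousSubmodule (Fin 2) ℂ d := by
  rw [yg_span d hp, map_sum]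
  refine Submodule.sum_mem _ (fun i _ => ?_)
  rw [Derivation.map_smul, ygD_m X (Nat.lt_succ_iff.1 i.2)]
  refine Submodule.smul_mem _ _ (Submodule.add_mem _ (Submodule.add_mem _ ?_ ?_) ?_)
  · exact Submodule.smul_mem _ _ (ygm_mem (Nat.lt_succ_iff.1 i.2))
  · by_cases h : (i : ℕ) = d
    · rw [h, sub_self, zero_mul, zero_smul]
      exact Submodule.zero_mem _
    · have := i.2
      exact Submodule.smul_mem _ _ (ygm_mem (by omega))
  · have := i.2
    exact Submodule.smul_mem _ _ (ygm_mem (by omega))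

open MvPolynomial in
private noncomputable def ygA (d : ℕ) (X : Matrix (Fin 2) (Fin 2) ℂ) :
    Module.End ℂ (homogeneousSubmodule (Fin 2) ℂ d) :=
  (ygD X).toLinearMap.restrict (fun _ hp => ygD_mem X d hp)

open MvPolynomial in
private theorem yg_coeff (d i k : ℕ) :
    coeff (Finsupp.single 0 (d - i) + Finsupp.single 1 i) (ygm d k) =
      if k = i then 1 else 0 := by
  rw [ygm_eq, coeff_monomial]
  by_cases h : k = i
  · subst h
    simp
  · rw [if_neg h, if_neg]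
    intro h1
    apply h
    have := DFunLike.congr_fun h1 1
    simpa using this

open MvPolynomial in
private noncomputable def ygB (d : ℕ) :
    Module.Basis (Fin (d + 1)) ℂ (homogeneousSubmodule (Fin 2) ℂ d) :=
  Module.Basis.mk (v := fun i : Fin (d + 1) =>
    (⟨ygm d i, ygm_mem (Nat.lt_succ_iff.1 i.2)⟩ : homogeneousSubmodule (Fin 2) ℂ d)) (by
      rw [Fintype.linearIndependent_iff]
      intro c hc i
      have h1 := congrArg (fun v : homogeneousSubmodule (Fin 2) ℂ d =>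
        coeff (Finsupp.single 0 (d - (i : ℕ)) + Finsupp.single 1 (i : ℕ))
          (v : MvPolynomial (Fin 2) ℂ)) hc
      simp only [Submodule.coe_sum, Submodule.coe_smul, coeff_sum, coeff_smul, yg_coeff,
        Submodule.coe_zero, coeff_zero, smul_eq_mul, mul_ite, mul_one, mul_zero] at h1
      rw [Finset.sum_eq_single i] at h1
      · simpa using h1
      · intro b _ hb
        rw [if_neg]
        intro h2
        exact hb (Fin.ext h2)
      · intro h2
        exact absurd (Finset.mem_univ _) h2) (by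
      rintro ⟨p, hp⟩ -
      have h1 : (⟨p, hp⟩ : homogeneousSubmodule (Fin 2) ℂ d) = ∑ i : Fin (d + 1),
          coeff (Finsupp.single 0 (d - (i : ℕ)) + Finsupp.single 1 (i : ℕ)) p •
            (⟨ygm d i, ygm_mem (Nat.lt_succ_iff.1 i.2)⟩ : homogeneousSubmodule (Fin 2) ℂ d) := by
        apply Subtype.ext
        rw [Submodule.coe_sum]
        exact yg_span d hp
      rw [h1]
      exact Submodule.sum_mem _ (fun i _ => Submodule.smul_mem _ _
        (Submodule.subset_span ⟨i, rfl⟩)))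

open MvPolynomial in
private theorem ygB_coe (d : ℕ) (i : Fin (d + 1)) :
    ((ygB d i : homogeneousSubmodule (Fin 2) ℂ d) : MvPolynomial (Fin 2) ℂ) = ygm d i := by
  rw [ygB, Module.Basis.mk_apply]

open MvPolynomial in
private theorem ygB_repr (d : ℕ) (v : homogeneousSubmodule (Fin 2) ℂ d) (i : Fin (d + 1)) :
    (ygB d).repr v i = coeff (Finsupp.single 0 (d - (i : ℕ)) + Finsupp.single 1 (i : ℕ))
      (v : MvPolynomial (Fin 2) ℂ) := by
  have h1 : v = ∑ i : Fin (d + 1), coeff (Finsupp.single 0 (d - (i : ℕ)) +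
      Finsupp.single 1 (i : ℕ)) (v : MvPolynomial (Fin 2) ℂ) • ygB d i := by
    apply Subtype.ext
    rw [Submodule.coe_sum]
    simp only [Submodule.coe_smul, ygB_coe]
    exact yg_span d v.2
  have h2 := (ygB d).repr_sum_self (fun i : Fin (d + 1) =>
    coeff (Finsupp.single 0 (d - (i : ℕ)) + Finsupp.single 1 (i : ℕ))
      (v : MvPolynomial (Fin 2) ℂ))
  rw [← h1] at h2
  exact congrFun h2 i

private theorem yg_mat (d : ℕ) (X : Matrix (Fin 2) (Fin 2) ℂ) (i j : Fin (d + 1)) :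
    mt (ygB d) (ygA d X) i j =
    if i = j then ((d : ℂ) - ((i : ℕ) : ℂ)) * X 0 0 + ((i : ℕ) : ℂ) * X 1 1
    else if (i : ℕ) = j + 1 then ((d : ℂ) - ((j : ℕ) : ℂ)) * X 1 0
    else if (j : ℕ) = i + 1 then ((j : ℕ) : ℂ) * X 0 1 else 0 := by
  rw [mt, LinearMap.toMatrix_apply, ygB_repr]
  have h1 : ((ygA d X (ygB d j) : MvPolynomial.homogeneousSubmodule (Fin 2) ℂ d) :
      MvPolynomial (Fin 2) ℂ) = ygD X (ygm d j) := by
    rw [← ygB_coe]
    rfl
  rw [h1, ygD_m X (Nat.lt_succ_iff.1 j.2)]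
  simp only [MvPolynomial.coeff_add, MvPolynomial.coeff_smul, yg_coeff, smul_eq_mul]
  by_cases h2 : i = j
  · subst h2
    rw [if_pos rfl, if_pos rfl, if_neg (by omega)]
    by_cases h3 : (i : ℕ) = 0
    · rw [h3]
      simp
    · rw [if_neg (by omega)]
      ring
  · have h2' : (j : ℕ) ≠ i := fun h => h2 (Fin.ext h.symm)
    rw [if_neg h2, if_neg h2']
    by_cases h3 : (i : ℕ) = j + 1
    · rw [if_pos h3, if_pos h3.symm, if_neg (by omega)]
      ring
    · rw [if_neg h3, if_neg (fun h => h3 h.symm)]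
      by_cases h4 : (j : ℕ) = i + 1
      · rw [if_pos h4, if_pos (by omega)]
        ring
      · rw [if_neg h4]
        by_cases h5 : (j : ℕ) = 0
        · rw [h5]
          simp
        · rw [if_neg (by omega)]
          ring

open MvPolynomial in
private theorem ygF_mem (g : Matrix (Fin 2) (Fin 2) ℂ) (d : ℕ) {p : MvPolynomial (Fin 2) ℂ}
    (hp : p ∈ homogeneousSubmodule (Fin 2) ℂ d) : ygF g p ∈ homogeneousSubmodule (Fin 2) ℂ d := by
  rw [mem_homogeneousSubmodule] at hp ⊢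
  have h := hp.aeval (fun j => ∑ i, g i j • (MvPolynomial.X i : MvPolynomial (Fin 2) ℂ)) (n := 1)
    (fun j => by
      rw [← mem_homogeneousSubmodule]
      refine Submodule.sum_mem _ (fun i _ => Submodule.smul_mem _ _ ?_)
      rw [mem_homogeneousSubmodule]
      exact isHomogeneous_X _ _)
  rw [one_mul] at h
  exact h

private theorem ygF_mul (g h : Matrix (Fin 2) (Fin 2) ℂ) (p : MvPolynomial (Fin 2) ℂ) :
    ygF g (ygF h p) = ygF (g * h) p := by
  have h1 : (ygF g).comp (ygF h) = ygF (g * h) := by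
    apply MvPolynomial.algHom_ext
    intro j
    rw [AlgHom.comp_apply, ygF_X, ygF_X]
    simp only [Fin.sum_univ_two, map_add, map_smul, ygF_X, Matrix.mul_apply]
    module
  rw [← h1, AlgHom.comp_apply]

private theorem ygF_one (p : MvPolynomial (Fin 2) ℂ) : ygF 1 p = p := by
  have h1 : ygF 1 = AlgHom.id ℂ (MvPolynomial (Fin 2) ℂ) := by
    apply MvPolynomial.algHom_ext
    intro j
    rw [ygF_X]
    simp only [Matrix.one_apply, ite_smul, one_smul, zero_smul, Finset.sum_ite_eq',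
      Finset.mem_univ, if_true, AlgHom.id_apply]
  rw [h1, AlgHom.id_apply]

private theorem yg_int {g Y Z : Matrix (Fin 2) (Fin 2) ℂ} (h : Z * g = g * Y)
    (p : MvPolynomial (Fin 2) ℂ) : ygF g (ygD Y p) = ygD Z (ygF g p) := by
  induction p using MvPolynomial.induction_on with
  | C a =>
    have h1 : ∀ X : Matrix (Fin 2) (Fin 2) ℂ, ygD X (MvPolynomial.C a) = 0 := fun X =>
      (ygD X).map_algebraMap a
    have h2 : ygF g (MvPolynomial.C a) = MvPolynomial.C a := (ygF g).commutes a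
    rw [h1, h2, h1, map_zero]
  | add p q hp hq => simp only [map_add, hp, hq]
  | mul_X p i hp =>
    have base : ygF g (ygD Y (MvPolynomial.X i)) = ygD Z (ygF g (MvPolynomial.X i)) := by
      rw [ygD_X, ygF_X]
      simp only [map_add, map_smul, Derivation.map_smul, ygF_X, ygD_X, Fin.sum_univ_two]
      have e := fun k => congrFun (congrFun h k) i
      simp only [Matrix.mul_apply, Fin.sum_univ_two] at e
      have e0 := e 0
      have e1 := e 1
      simp only [smul_add, smul_smul]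
      have : ∀ a b c d : ℂ, a • (MvPolynomial.X 0 : MvPolynomial (Fin 2) ℂ) +
          b • MvPolynomial.X 1 + (c • MvPolynomial.X 0 + d • MvPolynomial.X 1) =
          (a + c) • MvPolynomial.X 0 + (b + d) • MvPolynomial.X 1 := by
        intros
        module
      rw [this, this]
      congr 2
      · linear_combination -e0
      · linear_combination -e1
    rw [Derivation.leibniz, map_mul, Derivation.leibniz, map_add, smul_eq_mul, smul_eq_mul,
      smul_eq_mul, smul_eq_mul, map_mul, map_mul, base, hp]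

private theorem yg_conj (d : ℕ) (g : (Matrix (Fin 2) (Fin 2) ℂ)ˣ) :
    ∃ T : (MvPolynomial.homogeneousSubmodule (Fin 2) ℂ d) ≃ₗ[ℂ]
      (MvPolynomial.homogeneousSubmodule (Fin 2) ℂ d), ∀ X : Matrix (Fin 2) (Fin 2) ℂ,
    ygA d ((g : Matrix (Fin 2) (Fin 2) ℂ) * X * (g⁻¹ : (Matrix (Fin 2) (Fin 2) ℂ)ˣ)) =
      T.toLinearMap ∘ₗ ygA d X ∘ₗ T.symm.toLinearMap := by
  refine ⟨LinearEquiv.ofLinear
    ((ygF (g : Matrix (Fin 2) (Fin 2) ℂ)).toLinearMap.restrict (fun _ hp => ygF_mem _ d hp))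
    ((ygF ((g⁻¹ : (Matrix (Fin 2) (Fin 2) ℂ)ˣ) : Matrix (Fin 2) (Fin 2) ℂ)).toLinearMap.restrict
      (fun _ hp => ygF_mem _ d hp)) ?_ ?_, ?_⟩
  · apply LinearMap.ext
    intro p
    apply Subtype.ext
    show ygF (g : Matrix (Fin 2) (Fin 2) ℂ)
      (ygF ((g⁻¹ : (Matrix (Fin 2) (Fin 2) ℂ)ˣ) : Matrix (Fin 2) (Fin 2) ℂ)
        (p : MvPolynomial (Fin 2) ℂ)) = p
    rw [ygF_mul, g.mul_inv, ygF_one]
  · apply LinearMap.ext
    intro p
    apply Subtype.ext
    show ygF ((g⁻¹ : (Matrix (Fin 2) (Fin 2) ℂ)ˣ) : Matrix (Fin 2) (Fin 2) ℂ)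
      (ygF (g : Matrix (Fin 2) (Fin 2) ℂ) (p : MvPolynomial (Fin 2) ℂ)) = p
    rw [ygF_mul, g.inv_mul, ygF_one]
  · intro X
    apply LinearMap.ext
    intro p
    apply Subtype.ext
    show ygD ((g : Matrix (Fin 2) (Fin 2) ℂ) * X * (g⁻¹ : (Matrix (Fin 2) (Fin 2) ℂ)ˣ))
      (p : MvPolynomial (Fin 2) ℂ) = ygF (g : Matrix (Fin 2) (Fin 2) ℂ) (ygD X
        (ygF ((g⁻¹ : (Matrix (Fin 2) (Fin 2) ℂ)ˣ) : Matrix (Fin 2) (Fin 2) ℂ)
          (p : MvPolynomial (Fin 2) ℂ)))
    rw [yg_int (g := (g : Matrix (Fin 2) (Fin 2) ℂ)) (Y := X)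
      (Z := (g : Matrix (Fin 2) (Fin 2) ℂ) * X * (g⁻¹ : (Matrix (Fin 2) (Fin 2) ℂ)ˣ)) (by
        rw [mul_assoc, g.inv_mul, mul_one]), ygF_mul, g.mul_inv, ygF_one]

/-- yg: existence of this representation -/
theorem exists_rep (d : ℕ) :
    ∃ (V : Type) (_ : AddCommGroup V) (_ : Module ℂ V), Nonempty (Rep2 d V) := by
  refine ⟨MvPolynomial.homogeneousSubmodule (Fin 2) ℂ d, inferInstance, inferInstance, ⟨?_⟩⟩
  exact
    { act :=
        { toFun := fun X => ygA d X
          map_add' := fun X Y => by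
            ext p
            have : ygD (X + Y) = ygD X + ygD Y := by
              apply MvPolynomial.derivation_ext
              intro j
              simp only [ygD, MvPolynomial.mkDerivation_X, Derivation.add_apply,
                Matrix.add_apply, add_smul, Finset.sum_add_distrib]
            simp [ygA, this]
          map_smul' := fun c X => by
            ext p
            have : ygD (c • X) = c • ygD X := by
              apply MvPolynomial.derivation_ext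
              intro j
              simp only [ygD, MvPolynomial.mkDerivation_X, Derivation.smul_apply,
                Matrix.smul_apply, Finset.smul_sum, smul_smul, smul_eq_mul]
            simp [ygA, this] }
      e := ygB d
      lie := fun X Y => by
        apply LinearMap.ext
        intro p
        apply Subtype.ext
        have := congrArg (fun D : Derivation ℂ (MvPolynomial (Fin 2) ℂ)
          (MvPolynomial (Fin 2) ℂ) => D (p : MvPolynomial (Fin 2) ℂ)) (yg_lie X Y)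
        simpa [ygA, Derivation.commutator_apply] using this
      mat := yg_mat d
      conj := fun g => yg_conj d g }

section
variable {d : ℕ} {V : Type} [AddCommGroup V] [Module ℂ V] (ρ : Rep2 d V)

/-- yh: the representation is injective on traceless matrices -/
theorem Rep2.inj (hd : 1 ≤ d) {X : Matrix (Fin 2) (Fin 2) ℂ} (hX : ρ.act X = 0)
    (ht : X.trace = 0) : X = 0 := by
  have h0 : ∀ i j : Fin (d + 1), mt ρ.e (ρ.act X) i j = 0 := by
    intro i j
    rw [hX, mt, map_zero]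
    rfl
  have hd0 : (d : ℂ) ≠ 0 := by exact_mod_cast (by omega : d ≠ 0)
  have a := h0 0 0
  rw [ρ.mat, if_pos rfl] at a
  have b := h0 ⟨1, by omega⟩ 0
  rw [ρ.mat, if_neg (by simp [Fin.ext_iff]), if_pos (by simp)] at b
  have c := h0 0 ⟨1, by omega⟩
  rw [ρ.mat, if_neg (by simp [Fin.ext_iff]), if_neg (by simp), if_pos (by simp)] at c
  simp [hd0] at a b c
  have e : X 1 1 = 0 := by
    rw [Matrix.trace_fin_two, a] at ht
    simpa using ht
  ext i j
  fin_cases i <;> fin_cases j <;> simp [a, b, c, e]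

/-- yi: the diagonalizing basis -/
theorem Rep2.diagTri {A B C : Matrix (Fin 2) (Fin 2) ℂ} (hA : A.trace = 0)
    (hB : B.trace = 0) (hC : C.trace = 0) (h1 : (A * A).trace ≠ 0)
    (h2 : (lb A B * lb A B).trace ≠ 0) (h3 : (lb A C * lb A C).trace ≠ 0) :
    DiagTri (ρ.act A) (ρ.act B) (ρ.act C) := by
  obtain ⟨g, x, hx, hg, hBC⟩ := exists_diag hA hB hC h1 h2 h3
  obtain ⟨T, hT⟩ := ρ.conj g
  have key : ∀ X : Matrix (Fin 2) (Fin 2) ℂ,
      LinearMap.toMatrix (ρ.e.map T.symm) (ρ.e.map T.symm) (ρ.act X) =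
        mt ρ.e (ρ.act ((g : Matrix (Fin 2) (Fin 2) ℂ) * X *
          (g⁻¹ : (Matrix (Fin 2) (Fin 2) ℂ)ˣ))) := by
    intro X
    ext i j
    rw [hT X, mt, LinearMap.toMatrix_apply, LinearMap.toMatrix_apply]
    simp
  have tri : ∀ Y : Matrix (Fin 2) (Fin 2) ℂ,
      (∀ i j, i ≠ j → ((g : Matrix (Fin 2) (Fin 2) ℂ) * Y *
        (g⁻¹ : (Matrix (Fin 2) (Fin 2) ℂ)ˣ)) i j ≠ 0) →
      IrredTridiag (LinearMap.toMatrix (ρ.e.map T.symm) (ρ.e.map T.symm) (ρ.act Y)) := by
    intro Y hY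
    rw [key]
    constructor
    · intro i j hij
      rw [ρ.mat, if_neg (by intro h; rw [h] at hij; omega), if_neg (by omega),
        if_neg (by omega)]
    · intro i j hij
      rw [ρ.mat, if_neg (by intro h; rw [h] at hij; omega)]
      have hi := i.2
      have hj := j.2
      by_cases h : (i : ℕ) = j + 1
      · rw [if_pos h]
        refine mul_ne_zero ?_ (hY 1 0 (by decide))
        rw [sub_ne_zero]
        exact_mod_cast (by omega : d ≠ (j : ℕ))
      · rw [if_neg h, if_pos (by omega)]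
        refine mul_ne_zero ?_ (hY 0 1 (by decide))
        exact_mod_cast (by omega : (j : ℕ) ≠ 0)
  refine ⟨d + 1, ρ.e.map T.symm, ?_, tri B (fun i j hij => (hBC i j hij).1),
    tri C (fun i j hij => (hBC i j hij).2)⟩
  intro i j hij
  rw [key, hg, ρ.mat, if_neg hij]
  simp

variable {x y z : ℝ} {n : Fin 3 → Matrix (Fin 2) (Fin 2) ℂ}

/-- yj: the Leonard triple -/
theorem Rep2.leonard (h : Roots x y z n) :
    LeonardTriple (ρ.act (lb (n 0) (n 1))) (ρ.act (lb (n 0) (n 2))) (ρ.act (lb (n 1) (n 2))) := by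
  obtain ⟨m1, m2, m3, m4, m5, m6⟩ := h.norms
  have T : ∀ X Y : Matrix (Fin 2) (Fin 2) ℂ, (lb X Y).trace = 0 := yc_lbtr
  have S : ∀ X Y : Matrix (Fin 2) (Fin 2) ℂ, lb Y X * lb Y X = lb X Y * lb X Y := by
    intro X Y
    rw [yc_swap Y X, neg_mul_neg]
  refine ⟨⟨⟨ρ.e 0, 0, ρ.e.ne_zero 0⟩⟩, ρ.diagTri (T _ _) (T _ _) (T _ _) m1 m4 m5,
    ρ.diagTri (T _ _) (T _ _) (T _ _) m2 ?_ m6, ρ.diagTri (T _ _) (T _ _) (T _ _) m3 ?_ ?_⟩
  · rw [S]
    exact m4
  · rw [S]
    exact m5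
  · rw [S]
    exact m6

variable {r s t : Module.End ℂ V ≃ₗ[ℂ] Module.End ℂ V}

omit d V x y z n r s t [AddCommGroup V] [Module ℂ V] in
private theorem yk_orth (X Y : Matrix (Fin 2) (Fin 2) ℂ) : (X * lb X Y).trace = 0 := by
  rw [lb, mul_sub, Matrix.trace_sub, ← mul_assoc, ← mul_assoc, Matrix.trace_mul_comm (X * Y) X,
    ← mul_assoc, sub_self]

omit d V x y z n r s t [AddCommGroup V] [Module ℂ V] in
private theorem yk_orth' (X Y : Matrix (Fin 2) (Fin 2) ℂ) : (Y * lb X Y).trace = 0 := by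
  rw [yc_swap, mul_neg, Matrix.trace_neg, yk_orth, neg_zero]

omit x y z n r s t in
private theorem yk_main {r : Module.End ℂ V ≃ₗ[ℂ] Module.End ℂ V}
    {A B N : Matrix (Fin 2) (Fin 2) ℂ} (hr : IsAnti r (ρ.act A) (ρ.act B))
    (hA : A.trace = 0) (hB : B.trace = 0) (hN : N.trace = 0) (hNN : (N * N).trace = 2)
    {c : ℂ} (hc : c ≠ 0) (e : lb A B = c • N) (oA : (N * A).trace = 0) (oB : (N * B).trace = 0)
    (X : Matrix (Fin 2) (Fin 2) ℂ) (hX : X.trace = 0) :
    r (ρ.act X) = ρ.act (X - (N * X).trace • N) := by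
  have hD : yd_D (![A, B, N] 0) (![A, B, N] 1) (![A, B, N] 2) ≠ 0 := by
    show yd_D A B N ≠ 0
    have h1 : yd_D A B N = -2 * (lb A B * N).trace := by
      simp only [yd_D, lb, Matrix.trace_fin_two, Matrix.mul_apply, Matrix.sub_apply,
        Fin.sum_univ_two, yc_ent hA, yc_ent hB, yc_ent hN]
      ring
    rw [h1, e, smul_mul_assoc, Matrix.trace_smul, hNN, smul_eq_mul]
    intro h0
    apply hc
    linear_combination (-1 / 4) * h0
  obtain ⟨v, hv, -⟩ := ye_cramer (n := ![A, B, N]) (by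
    intro i
    fin_cases i
    · exact hA
    · exact hB
    · exact hN) hD X hX
  simp only [Fin.sum_univ_three] at hv
  change X = v 0 • A + v 1 • B + v 2 • N at hv
  have rN : r (ρ.act N) = -ρ.act N := by
    have h1 : ρ.act (lb A B) = ρ.act A * ρ.act B - ρ.act B * ρ.act A := ρ.lie A B
    have h2 : r (ρ.act (lb A B)) = -ρ.act (lb A B) := by
      rw [h1, map_sub, hr.anti, hr.anti, hr.fixA, hr.fixB]
      abel
    rw [e, map_smul, map_smul, ← smul_neg] at h2
    have h3 := congrArg (fun z => c⁻¹ • z) h2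
    simpa [smul_smul, inv_mul_cancel₀ hc] using h3
  have h4 : (N * X).trace = 2 * v 2 := by
    rw [hv, mul_add, mul_add, mul_smul_comm, mul_smul_comm, mul_smul_comm, Matrix.trace_add,
      Matrix.trace_add, Matrix.trace_smul, Matrix.trace_smul, Matrix.trace_smul, oA, oB, hNN]
    simp [mul_comm]
  rw [h4]
  conv_lhs => rw [hv]
  conv_rhs => rw [hv]
  simp only [map_add, map_sub, map_smul, hr.fixA, hr.fixB, rN]
  module

/-- yk: the antiautomorphisms act as reflections -/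
theorem Rep2.reflect (h : Roots x y z n)
    (hr : IsAnti r (ρ.act (lb (n 0) (n 1))) (ρ.act (lb (n 0) (n 2))))
    (hs : IsAnti s (ρ.act (lb (n 0) (n 1))) (ρ.act (lb (n 1) (n 2))))
    (ht : IsAnti t (ρ.act (lb (n 0) (n 2))) (ρ.act (lb (n 1) (n 2)))) (i : Fin 3)
    (X : Matrix (Fin 2) (Fin 2) ℂ) (hX : X.trace = 0) :
    (![r, s, t] i) (ρ.act X) = ρ.act (X - (n i * X).trace • n i) := by
  have t0 := h.tr 0
  have t1 := h.tr 1
  have t2 := h.tr 2
  have g : ∀ i, (n i * n i).trace = 2 := by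
    intro i
    rw [h.gram]
    fin_cases i <;> simp [gramM]
  obtain ⟨⟨c0, hc0, e0⟩, ⟨c1, hc1, e1⟩, ⟨c2, hc2, e2⟩⟩ := h.brackets
  have o01 : (n 0 * lb (n 0) (n 1)).trace = 0 := yk_orth _ _
  have o02 : (n 0 * lb (n 0) (n 2)).trace = 0 := yk_orth _ _
  have o11 : (n 1 * lb (n 0) (n 1)).trace = 0 := yk_orth' _ _
  have o12 : (n 1 * lb (n 1) (n 2)).trace = 0 := yk_orth _ _
  have o22 : (n 2 * lb (n 0) (n 2)).trace = 0 := yk_orth' _ _
  have o23 : (n 2 * lb (n 1) (n 2)).trace = 0 := yk_orth' _ _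
  fin_cases i
  · exact yk_main ρ hr (yc_lbtr _ _) (yc_lbtr _ _) t0 (g 0) hc0 e0 o01 o02 X hX
  · exact yk_main ρ hs (yc_lbtr _ _) (yc_lbtr _ _) t1 (g 1) hc1 e1 o11 o12 X hX
  · exact yk_main ρ ht (yc_lbtr _ _) (yc_lbtr _ _) t2 (g 2) hc2 e2 o22 o23 X hX

/-- yl: words act through the geometric representation -/
theorem Rep2.word (h : Roots x y z n)
    (hr : IsAnti r (ρ.act (lb (n 0) (n 1))) (ρ.act (lb (n 0) (n 2))))
    (hs : IsAnti s (ρ.act (lb (n 0) (n 1))) (ρ.act (lb (n 1) (n 2))))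
    (ht : IsAnti t (ρ.act (lb (n 0) (n 2))) (ρ.act (lb (n 1) (n 2)))) (ω : List (Fin 3))
    (v : Fin 3 → ℂ) :
    wordG r s t ω (ρ.act (∑ i, v i • n i)) =
      ρ.act (∑ i, ((wordM (gramM x y z) ω).map (fun u => (u : ℂ))).mulVec v i • n i) := by
  induction ω generalizing v with
  | nil =>
    have h1 : ((1 : Matrix (Fin 3) (Fin 3) ℝ).map (fun u => (u : ℂ))) = 1 := by
      rw [Matrix.map_one _ (by simp) (by simp)]
    simp only [wordG, wordM, List.map_nil, List.prod_nil, h1, Matrix.one_mulVec]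
    rfl
  | cons i ω ih =>
    have hG : wordG r s t (i :: ω) = ![r, s, t] i * wordG r s t ω := by
      simp [wordG]
    have hM : wordM (gramM x y z) (i :: ω) = sigM (gramM x y z) i * wordM (gramM x y z) ω := by
      simp [wordM]
    rw [hG, hM]
    show (![r, s, t] i) (wordG r s t ω (ρ.act (∑ i, v i • n i))) = _
    rw [ih v]
    set w := ((wordM (gramM x y z) ω).map (fun u => (u : ℂ))).mulVec v with hw
    have ht0 : (∑ i, w i • n i).trace = 0 := by
      rw [Matrix.trace_sum]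
      simp [h.tr]
    rw [ρ.reflect h hr hs ht i _ ht0]
    congr 1
    have h1 : ((sigM (gramM x y z) i * wordM (gramM x y z) ω).map (fun u => (u : ℂ))).mulVec v =
        ((sigM (gramM x y z) i).map (fun u => (u : ℂ))).mulVec w := by
      rw [hw, Matrix.mulVec_mulVec]
      congr 1
      exact Matrix.map_mul (f := Complex.ofRealHom)
    rw [h1]
    have h2 : (n i * ∑ j, w j • n j).trace = ∑ j, ((gramM x y z i j : ℝ) : ℂ) * w j := by
      rw [Finset.mul_sum, Matrix.trace_sum]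
      refine Finset.sum_congr rfl (fun j _ => ?_)
      rw [mul_smul_comm, Matrix.trace_smul, h.gram, smul_eq_mul, mul_comm]
    have h3 : ∀ p, ((sigM (gramM x y z) i).map (fun u => (u : ℂ))).mulVec w p =
        w p - (if p = i then ∑ j, ((gramM x y z i j : ℝ) : ℂ) * w j else 0) := by
      intro p
      have hc : ∀ q, (((if p = q then (1 : ℝ) else 0 : ℝ)) : ℂ) = if p = q then 1 else 0 := by
        intro q
        split_ifs <;> simp
      simp only [Matrix.mulVec, dotProduct, Matrix.map_apply, sigM, Matrix.of_apply]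
      by_cases hp : p = i
      · subst hp
        simp [sub_mul, Finset.sum_sub_distrib, hc]
      · simp [hp, hc]
    simp only [h3, sub_smul, Finset.sum_sub_distrib, ite_smul, zero_smul]
    rw [h2]
    simp

/-- ym: trivial words, both directions -/
theorem Rep2.word_iff (hd : 1 ≤ d) (h : Roots x y z n)
    (hr : IsAnti r (ρ.act (lb (n 0) (n 1))) (ρ.act (lb (n 0) (n 2))))
    (hs : IsAnti s (ρ.act (lb (n 0) (n 1))) (ρ.act (lb (n 1) (n 2))))
    (ht : IsAnti t (ρ.act (lb (n 0) (n 2))) (ρ.act (lb (n 1) (n 2)))) (ω : List (Fin 3)) :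
    (wordG r s t ω = 1 → wordM (gramM x y z) ω = 1) ∧
    (Even ω.length → wordM (gramM x y z) ω = 1 → wordG r s t ω = 1) := by
  have key : ∀ v : Fin 3 → ℂ, (∑ i, v i • n i).trace = 0 := by
    intro v
    rw [Matrix.trace_sum]
    simp [h.tr]
  constructor
  · intro hω
    have h1 : ∀ v : Fin 3 → ℂ,
        ((wordM (gramM x y z) ω).map (fun u => (u : ℂ))).mulVec v = v := by
      intro v
      have h2 := ρ.word h hr hs ht ω v
      rw [hω] at h2
      have h3 : ρ.act ((∑ i, v i • n i) - ∑ i,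
          ((wordM (gramM x y z) ω).map (fun u => (u : ℂ))).mulVec v i • n i) = 0 := by
        rw [map_sub, ← h2]
        exact sub_self _
      have h4 := ρ.inj hd h3 (by rw [Matrix.trace_sub, key, key, sub_zero])
      obtain ⟨w, -, hw⟩ := h.span (∑ i, v i • n i) (key v)
      have h5 := hw v rfl
      have h6 := hw _ (sub_eq_zero.1 h4)
      rw [h6, h5]
    have h2 : (wordM (gramM x y z) ω).map (fun u => (u : ℂ)) = 1 := by
      apply Matrix.ext_of_mulVec_single
      intro i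
      rw [h1, Matrix.one_mulVec]
    ext i j
    have h3 := congrFun (congrFun h2 i) j
    rw [Matrix.map_apply] at h3
    by_cases hij : i = j
    · subst hij
      rw [Matrix.one_apply_eq] at h3 ⊢
      exact_mod_cast h3
    · rw [Matrix.one_apply_ne hij] at h3 ⊢
      exact_mod_cast h3
  · intro hev hω
    obtain ⟨d', a, b, c, hLT⟩ := (ρ.leonard h).bases
    have hm := (wordG_mul (A' := 0) (B' := 0) (C' := 0) hr hs.symm ht ω).1 hev
    have hfix : ∀ v : Fin 3 → ℂ, wordG r s t ω (ρ.act (∑ i, v i • n i)) =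
        ρ.act (∑ i, v i • n i) := by
      intro v
      have h1 : ((1 : Matrix (Fin 3) (Fin 3) ℝ).map (fun u => (u : ℂ))) = 1 := by
        rw [Matrix.map_one _ (by simp) (by simp)]
      rw [ρ.word h hr hs ht ω v, hω, h1, Matrix.one_mulVec]
    have hfix' : ∀ X : Matrix (Fin 2) (Fin 2) ℂ, X.trace = 0 →
        wordG r s t ω (ρ.act X) = ρ.act X := by
      intro X hX
      obtain ⟨v, hv, -⟩ := h.span X hX
      have := hfix v
      rw [← hv] at this
      exact this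
    exact hLT.pAB.auto_eq_one _ hm (hfix' _ (yc_lbtr _ _)) (hfix' _ (yc_lbtr _ _))

end

private theorem yn_list {G : Type*} [Monoid G] (f : Fin 3 → G) (i j : Fin 3) (m : ℕ) :
    (((List.replicate m [i, j]).flatten).map f).prod = (f i * f j) ^ m := by
  induction m with
  | zero => simp
  | succ m ih =>
    rw [List.replicate_succ, List.flatten_cons, List.map_append, List.prod_append, ih, pow_succ']
    simp

private theorem yn_len (i j : Fin 3) (m : ℕ) :
    Even ((List.replicate m [i, j]).flatten).length := by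
  rw [List.length_flatten]
  simp

private theorem yn_geo {M : CoxeterMatrix (Fin 3)} {N : Matrix (Fin 3) (Fin 3) ℝ}
    (hg : Geo M N) {i j : Fin 3} (hij : i ≠ j) (m : ℕ) :
    (sigM N i * sigM N j) ^ m = 1 ↔ M i j ∣ m := by
  by_cases h0 : M i j = 0
  · have hinf := hg.inf i j hij h0
    constructor
    · intro h
      have := sigM_mul_pow_inf (c := -(N i j) / 2) hij (hg.diag i) (hg.diag j) (by linarith)
        (by ring) (by rw [hg.symm j i]; ring) h
      rw [this]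
      exact dvd_zero _
    · intro h
      rw [h0, zero_dvd_iff] at h
      rw [h, pow_zero]
  · have h1 : M i j ≠ 1 := M.off_diagonal i j hij
    have h2 : 2 ≤ M i j := by omega
    have e1 : N i j = -(2 * Real.cos (π / M i j)) := by rw [hg.fin i j hij h0]; ring
    have e2 : N j i = -(2 * Real.cos (π / M i j)) := by rw [hg.symm j i, e1]
    constructor
    · intro h
      exact sigM_mul_pow_dvd hij (hg.diag i) (hg.diag j) h2 e1 e2 h
    · rintro ⟨k, rfl⟩
      rw [pow_mul, sigM_mul_pow hij (hg.diag i) (hg.diag j) h2 e1 e2, one_pow]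

/-- yn: the realization theorem -/
theorem realization (M : CoxeterMatrix (Fin 3))
    (hM : M 0 1 ≠ 0 → M 0 2 ≠ 0 → M 1 2 ≠ 0 →
      (1 : ℚ) / M 0 1 + 1 / M 0 2 + 1 / M 1 2 ≠ 1) (n : ℕ) (hn : 2 ≤ n) :
    ∃ (V : Type) (_ : AddCommGroup V) (_ : Module ℂ V) (A B C : Module.End ℂ V)
      (r s t : Module.End ℂ V ≃ₗ[ℂ] Module.End ℂ V),
      Module.finrank ℂ V = n ∧ LeonardTriple A B C ∧ IsAnti r A B ∧ IsAnti s A C ∧
      IsAnti t B C ∧ orderOf (r * s) = M 0 1 ∧ orderOf (r * t) = M 0 2 ∧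
      orderOf (s * t) = M 1 2 ∧ IsCoxeterTriple r s t := by
  obtain ⟨x, y, z, hgeo, hx, hy, hz, hdet⟩ := exists_weights M hM
  obtain ⟨v, hv1, hv2⟩ := exists_roots hx hdet
  have hR : Roots x y z v := ⟨hv1, hv2, hx, hy, hz, hdet⟩
  obtain ⟨d, rfl⟩ : ∃ d, n = d + 1 := ⟨n - 1, by omega⟩
  have hd : 1 ≤ d := by omega
  obtain ⟨V, i1, i2, ⟨ρ⟩⟩ := exists_rep d
  have hL := ρ.leonard hR
  obtain ⟨d', a, b, c, hlt⟩ := hL.bases
  obtain ⟨r, hr⟩ := exists_anti hlt.dA hlt.aB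
  obtain ⟨s, hs⟩ := exists_anti hlt.dA hlt.aC
  obtain ⟨t, ht⟩ := exists_anti hlt.dB hlt.bC
  have hw := ρ.word_iff hd hR hr hs ht
  have key : ∀ i j : Fin 3, i ≠ j → orderOf (![r, s, t] i * ![r, s, t] j) = M i j := by
    intro i j hij
    have h1 : ∀ m : ℕ, (![r, s, t] i * ![r, s, t] j) ^ m = 1 ↔ M i j ∣ m := by
      intro m
      rw [← yn_geo hgeo hij m, ← yn_list ![r, s, t] i j m, ← yn_list (sigM (gramM x y z)) i j m]
      exact ⟨(hw _).1, (hw _).2 (yn_len i j m)⟩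
    apply Nat.dvd_antisymm
    · rw [orderOf_dvd_iff_pow_eq_one]
      exact (h1 _).2 dvd_rfl
    · exact (h1 _).1 (pow_orderOf_eq_one _)
  have k01 : orderOf (r * s) = M 0 1 := key 0 1 (by decide)
  have k02 : orderOf (r * t) = M 0 2 := key 0 2 (by decide)
  have k12 : orderOf (s * t) = M 1 2 := key 1 2 (by decide)
  refine ⟨V, i1, i2, _, _, _, r, s, t, ?_, hL, hr, hs, ht, k01, k02, k12, ?_⟩
  · rw [Module.finrank_eq_card_basis ρ.e, Fintype.card_fin]
  · exact isCoxeterTriple_of_words M (hlt.pAB.anti_sq hr) (hlt.pAC.anti_sq hs)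
      (hlt.pBC.anti_sq ht) k01.symm k02.symm k12.symm
      (fun ω hω => hgeo.faithful ((hw ω).1 hω))

end Pool.Agent.Leo
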