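import Pool.Agent.Leo.Three
import Pool.Agent.Leo.Real

/-!
# The theorems on the group generated by the three antiautomorphisms of a Leonard triple
-/

namespace Pool.Agent.Leo

variable {K : Type*} [Field K] {V : Type*} [AddCommGroup V] [Module K V]

section
variable {A B C : Module.End K V} {r s t : Module.End K V ≃ₗ[K] Module.End K V}

/-- za: from a Leonard triple to the setup -/
theorem exists_setup (h2 : (2 : K) ≠ 0) (h : LeonardTriple A B C) (hr : IsAnti r A B)
    (hs : IsAnti s A C) (ht : IsAnti t B C) :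
    ∃ (d : ℕ) (a b c : Module.Basis (Fin (d + 1)) K V) (α β γ : K),
      Setup a b c A B C r s t α β γ := by
  obtain ⟨d, a, b, c, hl⟩ := h.bases
  obtain ⟨γ, hγ⟩ := exists_scalar h2 hl hr
  obtain ⟨α, hα⟩ := exists_scalar h2 hl.rot ht
  obtain ⟨β, hβ⟩ := exists_scalar h2 hl.rot.rot hs.symm
  exact ⟨d, a, b, c, α, β, γ, ⟨h2, hl, hr, hs.symm, ht, hγ, hα, hβ⟩⟩

private theorem zb_anti_eq_one {a : Module.Basis (Fin (0 + 1)) K V}
    {r : Module.End K V ≃ₗ[K] Module.End K V} (hr : ∀ X Y, r (X * Y) = r Y * r X) : r = 1 := by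
  have r1 : r 1 = 1 := by
    obtain ⟨X, hX⟩ := r.surjective 1
    have h1 := hr X 1
    rw [mul_one, hX, mul_one] at h1
    exact h1.symm
  apply LinearEquiv.ext
  intro X
  have hX : X = (mt a X 0 0) • (1 : Module.End K V) := by
    apply (LinearMap.toMatrix a a).injective
    ext i j
    have hi : i = 0 := Fin.fin_one_eq_zero i
    have hj : j = 0 := Fin.fin_one_eq_zero j
    subst hi
    subst hj
    simp [mt]
  rw [hX, map_smul, r1]
  simp

/-- zb: `r ≠ s` gives dimension at least two and nonzero scalars -/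
theorem Setup.of_ne {d : ℕ} {a b c : Module.Basis (Fin (d + 1)) K V} {α β γ : K}
    (h : Setup a b c A B C r s t α β γ) (hrs : r ≠ s ∨ r ≠ t ∨ s ≠ t) :
    1 ≤ d ∧ α ≠ 0 ∧ β ≠ 0 ∧ γ ≠ 0 ∧ r ≠ s ∧ r ≠ t ∧ s ≠ t := by
  have hd : 1 ≤ d := by
    by_contra hd
    have hd0 : d = 0 := by omega
    subst hd0
    have e1 : r = 1 := zb_anti_eq_one (a := a) h.hr.anti
    have e2 : s = 1 := zb_anti_eq_one (a := a) h.hs.anti
    have e3 : t = 1 := zb_anti_eq_one (a := a) h.ht.anti
    rw [e1, e2, e3] at hrs
    simp at hrs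
  have hγ : γ ≠ 0 := by
    intro hγ
    obtain ⟨e1, e2⟩ := h.degenerate hd hγ
    subst e1
    subst e2
    simp at hrs
  obtain ⟨hα, hβ, e1, e2, e3⟩ := h.nondegenerate hd hγ
  exact ⟨hd, hα, hβ, hγ, e1, e2, e3⟩

private theorem zc_geo {m n : ℕ} (hm : 2 ≤ m) (hn : 2 ≤ n) (M : CoxeterMatrix (Fin 3))
    (h01 : M 0 1 = 2) (h02 : M 0 2 = m) (h12 : M 1 2 = n) :
    Geo M (gramM 0 (Real.cos (Real.pi / m)) (Real.cos (Real.pi / n))) := by
  have h10 : M 1 0 = 2 := by rw [M.symmetric 1 0]; exact h01
  have h20 : M 2 0 = m := by rw [M.symmetric 2 0]; exact h02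
  have h21 : M 2 1 = n := by rw [M.symmetric 2 1]; exact h12
  refine ⟨?_, ?_, ?_, ?_⟩
  · intro i
    fin_cases i <;> simp [gramM]
  · intro i j
    fin_cases i <;> fin_cases j <;> simp [gramM]
  · intro i j hij _
    fin_cases i <;> fin_cases j <;>
      first
        | exact absurd rfl hij
        | simp [gramM, h01, h02, h12, h10, h20, h21]
  · intro i j hij h0
    exfalso
    fin_cases i <;> fin_cases j <;>
      first
        | exact absurd rfl hij
        | (simp [h01, h02, h12, h10, h20, h21] at h0; try omega)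

/-- zc: if `rs` has order two and the two other orders are finite with gcd 1, 2, 3, 4 or 6,
then the group is a Coxeter group -/
theorem coxeter_of_order_two [CharZero K] (h : LeonardTriple A B C) (hr : IsAnti r A B)
    (hs : IsAnti s A C) (ht : IsAnti t B C) {m n : ℕ} (hm : 0 < m) (hn : 0 < n)
    (h1 : orderOf (r * s) = 2) (h2 : orderOf (r * t) = m) (h3 : orderOf (s * t) = n)
    (hg : Nat.gcd m n = 1 ∨ Nat.gcd m n = 2 ∨ Nat.gcd m n = 3 ∨ Nat.gcd m n = 4 ∨
      Nat.gcd m n = 6) :
    (1 : ℚ) / m + 1 / n ≠ 1 / 2 ∧ IsCoxeterTriple r s t := by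
  obtain ⟨d, a, b, c, α, β, γ, S⟩ := exists_setup (two_ne_zero : (2 : K) ≠ 0) h hr hs ht
  have rr : r * r = 1 := S.lt.pAB.anti_sq hr
  have ss : s * s = 1 := S.lt.pAC.anti_sq hs
  have tt : t * t = 1 := S.lt.pBC.anti_sq ht
  have hrs : r ≠ s := by
    intro e
    rw [← e, rr, orderOf_one] at h1
    omega
  obtain ⟨hd, hα, hβ, hγ, -, hrt, hst⟩ := S.of_ne (Or.inl hrs)
  obtain ⟨e, f, hC⟩ := S.order_two hd hγ (by rw [← h1]; exact pow_orderOf_eq_one _)
  have hC' : C = e • 1 + f • A + (0 : K) • B + (γ / 2) • (A * B - B * A) := by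
    rw [zero_smul, add_zero]
    exact hC
  obtain ⟨g, g', k, k', hk, hg1, hk1, hkk⟩ := S.kdata hd hγ hC'
  obtain ⟨ρ, σ, τ, hρ0, hρ1, hσ0, hσ1, hτ0, hτ1, oρ, oσ, oτ, eρ, eσ, eτ⟩ :=
    S.korders hd hγ hk hg1 hk1 hkk
  have g0 : g = 0 := by rw [hg1]; simp
  have hdet := hk.det
  have oσ' : orderOf σ = m := by rw [← oσ, h2]
  have oτ' : orderOf τ = n := by rw [← oτ, h3]
  have hm2 : 2 ≤ m := by
    have : m ≠ 1 := by
      intro hm1
      rw [hm1] at oσ'
      exact hσ1 (orderOf_eq_one_iff.mp oσ')
    omega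
  have hn2 : 2 ≤ n := by
    have : n ≠ 1 := by
      intro hn1
      rw [hn1] at oτ'
      exact hτ1 (orderOf_eq_one_iff.mp oτ')
    omega
  refine ⟨cos_sq_add_cos_sq hm2 hn2 oσ' oτ' hg ?_, ?_⟩
  · intro hbad
    apply hdet
    rw [← eσ, ← eτ] at hbad
    rw [g0]
    have h4 : (4 : K) ≠ 0 := by norm_num
    apply mul_left_cancel₀ h4
    linear_combination (-1 : K) * hbad
  · obtain ⟨M, hM01, hM02, hM12⟩ := exists_coxeterMatrix (p := 2) (q := m) (l := n)
      (by norm_num) (by omega) (by omega)
    have hgeo := zc_geo hm2 hn2 M hM01 hM02 hM12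
    refine isCoxeterTriple_of_words M rr ss tt (by rw [hM01, h1]) (by rw [hM02, h2])
      (by rw [hM12, h3]) ?_
    intro ω hω
    have hw := S.word_trivial hd hγ hk hω
    apply hgeo.faithful
    refine wordM_transfer (N := cartM f 0 g g' k k') ?_ ?_ ?_ ?_ ?_ hm2 hn2 oσ' oτ' hg ?_ ?_ hw
    · intro i
      fin_cases i <;> simp [cartM]
    · simp [cartM]
    · simp [cartM, g0]
    · have hz := hk.zB
      simp only [cartM, Matrix.of_apply, Matrix.cons_val', Matrix.cons_val_zero,
        Matrix.cons_val_one, Matrix.cons_val, Matrix.cons_val_fin_one, neg_eq_zero,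
        mul_eq_zero]
      constructor
      · rintro (h0 | h0)
        · exact Or.inl h0
        · exact Or.inr (hz.mp h0)
      · rintro (h0 | h0)
        · exact Or.inl h0
        · exact Or.inr (hz.mpr h0)
    · have hz := hk.zC
      simp only [cartM, Matrix.of_apply, Matrix.cons_val', Matrix.cons_val_zero,
        Matrix.cons_val_one, Matrix.cons_val, Matrix.cons_val_fin_one, neg_eq_zero,
        mul_eq_zero]
      constructor
      · rintro (h0 | h0)
        · exact Or.inl h0
        · exact Or.inr (hz.mp h0)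
      · rintro (h0 | h0)
        · exact Or.inl h0
        · exact Or.inr (hz.mpr h0)
    · rw [← eσ]
      simp [cartM]
      ring
    · rw [← eτ]
      simp [cartM]
      ring

private theorem zd_diagTri {A B C : Module.End K V} (h : DiagTri A B C) : DiagTri A C B := by
  obtain ⟨n, b, h1, h2, h3⟩ := h
  exact ⟨n, b, h1, h3, h2⟩

private theorem zd_order {G : Type*} [Group G] {x y : G} (hx : x * x = 1) (hy : y * y = 1) :
    orderOf (y * x) = orderOf (x * y) := by
  have h1 : y * x = (x * y)⁻¹ := by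
    rw [mul_inv_rev]
    rw [inv_eq_of_mul_eq_one_left hx, inv_eq_of_mul_eq_one_left hy]
  rw [h1, orderOf_inv]

/-- zd: the same with any of the three orders equal to two -/
theorem coxeter_of_some_order_two [CharZero K] (h : LeonardTriple A B C) (hr : IsAnti r A B)
    (hs : IsAnti s A C) (ht : IsAnti t B C) {m n : ℕ} (hm : 0 < m) (hn : 0 < n)
    (h1 : (orderOf (r * s) = 2 ∧ orderOf (r * t) = m ∧ orderOf (s * t) = n) ∨
      (orderOf (r * t) = 2 ∧ orderOf (r * s) = m ∧ orderOf (s * t) = n) ∨
      (orderOf (s * t) = 2 ∧ orderOf (r * s) = m ∧ orderOf (r * t) = n))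
    (hg : Nat.gcd m n = 1 ∨ Nat.gcd m n = 2 ∨ Nat.gcd m n = 3 ∨ Nat.gcd m n = 4 ∨
      Nat.gcd m n = 6) :
    (1 : ℚ) / m + 1 / n ≠ 1 / 2 ∧ IsCoxeterTriple r s t := by
  obtain ⟨d, a, b, c, hl⟩ := h.bases
  have rr : r * r = 1 := hl.pAB.anti_sq hr
  have ss : s * s = 1 := hl.pAC.anti_sq hs
  have tt : t * t = 1 := hl.pBC.anti_sq ht
  rcases h1 with ⟨e1, e2, e3⟩ | ⟨e1, e2, e3⟩ | ⟨e1, e2, e3⟩
  · exact coxeter_of_order_two h hr hs ht hm hn e1 e2 e3 hg
  · have hL : LeonardTriple B A C := ⟨h.nontriv, h.triB, h.triA, zd_diagTri h.triC⟩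
    obtain ⟨g1, g2⟩ := coxeter_of_order_two hL hr.symm ht hs hm hn e1 e2
      (by rw [zd_order ss tt]; exact e3) hg
    exact ⟨g1, g2.perm.2⟩
  · have hL : LeonardTriple C A B := ⟨h.nontriv, h.triC, zd_diagTri h.triA, zd_diagTri h.triB⟩
    obtain ⟨g1, g2⟩ := coxeter_of_order_two hL hs.symm ht.symm hr hm hn e1
      (by rw [zd_order rr ss]; exact e2) (by rw [zd_order rr tt]; exact e3) hg
    exact ⟨g1, g2.perm.1⟩

/-- ze: spherical orders -/
theorem coxeter_of_spherical [CharZero K] (h : LeonardTriple A B C) (hr : IsAnti r A B)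
    (hs : IsAnti s A C) (ht : IsAnti t B C) (h1 : 2 ≤ orderOf (r * s))
    (h2 : 2 ≤ orderOf (r * t)) (h3 : 2 ≤ orderOf (s * t))
    (hsum : 1 < (1 : ℚ) / orderOf (r * s) + 1 / orderOf (r * t) + 1 / orderOf (s * t)) :
    IsCoxeterTriple r s t := by
  have key : ∀ x y z : ℕ, 2 ≤ x → 2 ≤ y → 2 ≤ z → 1 < (1 : ℚ) / x + 1 / y + 1 / z →
      x = 2 → (Nat.gcd y z = 1 ∨ Nat.gcd y z = 2 ∨ Nat.gcd y z = 3 ∨ Nat.gcd y z = 4 ∨
      Nat.gcd y z = 6) := by
    intro x y z _ hy hz hxyz hx2
    have hy3 : y = 2 ∨ y = 3 ∨ z = 2 ∨ z = 3 := by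
      by_contra hcon
      push Not at hcon
      obtain ⟨q1, q2, q3, q4⟩ := hcon
      have hy4 : 4 ≤ y := by omega
      have hz4 : 4 ≤ z := by omega
      have hy4' : (1 : ℚ) / y ≤ 1 / 4 := by
        apply one_div_le_one_div_of_le (by norm_num)
        exact_mod_cast hy4
      have hz4' : (1 : ℚ) / z ≤ 1 / 4 := by
        apply one_div_le_one_div_of_le (by norm_num)
        exact_mod_cast hz4
      rw [hx2] at hxyz
      push_cast at hxyz
      linarith
    have hdvd1 : Nat.gcd y z ∣ y := Nat.gcd_dvd_left y z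
    have hdvd2 : Nat.gcd y z ∣ z := Nat.gcd_dvd_right y z
    have hpos : 0 < Nat.gcd y z := Nat.gcd_pos_of_pos_left z (by omega)
    generalize Nat.gcd y z = w at hdvd1 hdvd2 hpos ⊢
    have hw3 : w ≤ 3 := by
      rcases hy3 with h0 | h0 | h0 | h0
      · rw [h0] at hdvd1
        have := Nat.le_of_dvd (by norm_num) hdvd1
        omega
      · rw [h0] at hdvd1
        exact Nat.le_of_dvd (by norm_num) hdvd1
      · rw [h0] at hdvd2
        have := Nat.le_of_dvd (by norm_num) hdvd2
        omega
      · rw [h0] at hdvd2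
        exact Nat.le_of_dvd (by norm_num) hdvd2
    omega
  have htwo : orderOf (r * s) = 2 ∨ orderOf (r * t) = 2 ∨ orderOf (s * t) = 2 := by
    by_contra hcon
    push Not at hcon
    obtain ⟨q1, q2, q3⟩ := hcon
    have h1' : 3 ≤ orderOf (r * s) := by omega
    have h2' : 3 ≤ orderOf (r * t) := by omega
    have h3' : 3 ≤ orderOf (s * t) := by omega
    have k1 : (1 : ℚ) / orderOf (r * s) ≤ 1 / 3 := by
      apply one_div_le_one_div_of_le (by norm_num)
      exact_mod_cast h1'
    have k2 : (1 : ℚ) / orderOf (r * t) ≤ 1 / 3 := by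
      apply one_div_le_one_div_of_le (by norm_num)
      exact_mod_cast h2'
    have k3 : (1 : ℚ) / orderOf (s * t) ≤ 1 / 3 := by
      apply one_div_le_one_div_of_le (by norm_num)
      exact_mod_cast h3'
    linarith
  rcases htwo with e | e | e
  · exact (coxeter_of_some_order_two h hr hs ht (by omega) (by omega)
      (Or.inl ⟨e, rfl, rfl⟩) (key _ _ _ h1 h2 h3 hsum e)).2
  · exact (coxeter_of_some_order_two h hr hs ht (by omega) (by omega)
      (Or.inr (Or.inl ⟨e, rfl, rfl⟩))
      (key _ _ _ h2 h1 h3 (by linarith) e)).2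
  · exact (coxeter_of_some_order_two h hr hs ht (by omega) (by omega)
      (Or.inr (Or.inr ⟨e, rfl, rfl⟩))
      (key _ _ _ h3 h1 h2 (by linarith) e)).2

private theorem zf_three {ρ : K} (h0 : ρ ≠ 0) (h1 : ρ ≠ 1) (ho : orderOf ρ = 3) :
    ρ + ρ⁻¹ = -1 := by
  have h3 : ρ ^ 3 = 1 := by rw [← ho]; exact pow_orderOf_eq_one ρ
  have h4 : (ρ - 1) * (ρ ^ 2 + ρ + 1) = 0 := by linear_combination h3
  have h5 : ρ ^ 2 + ρ + 1 = 0 := by
    rcases mul_eq_zero.mp h4 with h | h
    · exact absurd (sub_eq_zero.mp h) h1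
    · exact h
  field_simp
  linear_combination h5

/-- zf: orders (3,3,3): two possible relations -/
theorem relation_333 [CharZero K] (h : LeonardTriple A B C) (hr : IsAnti r A B)
    (hs : IsAnti s A C) (ht : IsAnti t B C) (h1 : orderOf (r * s) = 3)
    (h2 : orderOf (r * t) = 3) (h3 : orderOf (s * t) = 3) :
    wordG r s t [0, 1, 0, 2, 0, 1, 0, 2] = 1 ∨ wordG r s t [0, 2, 1, 0, 2, 1] = 1 := by
  obtain ⟨d, a, b, c, α, β, γ, hS⟩ := exists_setup two_ne_zero h hr hs ht
  have rr : r * r = 1 := hS.lt.pAB.anti_sq hS.hr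
  have ss : s * s = 1 := hS.lt.pAC.symm.anti_sq hS.hs
  have tt : t * t = 1 := hS.lt.pBC.anti_sq hS.ht
  have hne : r ≠ s := by
    rintro rfl
    rw [rr, orderOf_one] at h1
    omega
  obtain ⟨hd, hα, hβ, hγ, -⟩ := hS.of_ne (Or.inl hne)
  by_cases hk : ∃ e f f' : K, C = e • 1 + f • A + f' • B + (γ / 2) • (A * B - B * A)
  · left
    obtain ⟨e, f, f', hC⟩ := hk
    obtain ⟨g, g', k, k', hK, hg, hk', hkk⟩ := hS.kdata hd hγ hC
    obtain ⟨ρ, σ, τ, hρ0, hρ1, hσ0, hσ1, hτ0, hτ1, oρ, oσ, oτ, e1, e2, e3⟩ :=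
      hS.korders hd hγ hK hg hk' hkk
    have f1 : ρ + ρ⁻¹ = -1 := zf_three hρ0 hρ1 (by rw [← oρ, h1])
    have f2 : σ + σ⁻¹ = -1 := zf_three hσ0 hσ1 (by rw [← oσ, h2])
    have f3 : τ + τ⁻¹ = -1 := zf_three hτ0 hτ1 (by rw [← oτ, h3])
    exact hS.word_trivial' hd hγ hK (cart_333 (by linear_combination e1 + f1)
      (by linear_combination e2 + f2) (by linear_combination e3 + f3) hK.cyc hK.det)
  · right
    have p1 : (r * s) ^ 3 = 1 := by rw [← h1]; exact pow_orderOf_eq_one _
    have p2 : (r * t) ^ 3 = 1 := by rw [← h2]; exact pow_orderOf_eq_one _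
    have p3 : (s * t) ^ 3 = 1 := by rw [← h3]; exact pow_orderOf_eq_one _
    rcases Nat.lt_or_ge d 3 with hd3 | hd3
    · interval_cases d
      · exact absurd hS.expr_two hk
      · have hc := hS.three_special hγ p1 p2 p3 hk
        have hrt : r * t = (s * t) * (r * s) := by
          rw [← hc, mul_assoc, ← mul_assoc s s t, ss, one_mul]
        have : wordG r s t [0, 2, 1, 0, 2, 1] = (r * t) * s * r * t * s := by
          simp [wordG, mul_assoc]
        rw [this, hrt]
        calc s * t * (r * s) * s * r * t * s = s * t * r * (s * s) * r * t * s := by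
              simp only [mul_assoc]
          _ = s * t * (r * r) * t * s := by rw [ss]; simp only [mul_assoc, one_mul]
          _ = s * (t * t) * s := by rw [rr]; simp only [mul_assoc, one_mul]
          _ = 1 := by rw [tt, mul_one, ss]
    · exact absurd (hS.order_three hd3 hγ p1) hk

/-- zg: Euclidean orders -/
theorem euclidean [CharZero K] (h : LeonardTriple A B C) (hr : IsAnti r A B)
    (hs : IsAnti s A C) (ht : IsAnti t B C) (h1 : 2 ≤ orderOf (r * s))
    (h2 : 2 ≤ orderOf (r * t)) (h3 : 2 ≤ orderOf (s * t))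
    (hsum : (1 : ℚ) / orderOf (r * s) + 1 / orderOf (r * t) + 1 / orderOf (s * t) = 1) :
    orderOf (r * s) = 3 ∧ orderOf (r * t) = 3 ∧ orderOf (s * t) = 3 ∧
      ¬ IsCoxeterTriple r s t := by
  have key : ∀ p q : ℕ, 2 ≤ p → 2 ≤ q → (1 : ℚ) / p + 1 / q = 1 / 2 →
      Nat.gcd p q = 1 ∨ Nat.gcd p q = 2 ∨ Nat.gcd p q = 3 ∨ Nat.gcd p q = 4 ∨
      Nat.gcd p q = 6 := by
    intro p q hp hq hpq
    have hp0 : (0 : ℚ) < p := by exact_mod_cast (by omega : 0 < p)
    have hq0 : (0 : ℚ) < q := by exact_mod_cast (by omega : 0 < q)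
    have e : 2 * ((p : ℚ) + q) = p * q := by
      field_simp at hpq
      linear_combination hpq
    have e' : 2 * (p + q) = p * q := by exact_mod_cast e
    have hp6 : p ≤ 6 := by
      by_contra hcon
      have hq3 : 3 ≤ q := by
        by_contra hq'
        have : q = 2 := by omega
        subst this
        omega
      nlinarith
    interval_cases p
    · omega
    · have : q = 6 := by omega
      subst this; decide
    · have : q = 4 := by omega
      subst this; decide
    · omega
    · have : q = 3 := by omega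
      subst this; decide
  have hthree : orderOf (r * s) = 3 ∧ orderOf (r * t) = 3 ∧ orderOf (s * t) = 3 := by
    have Z := fun (m n : ℕ) => coxeter_of_some_order_two (m := m) (n := n) h hr hs ht
    generalize orderOf (r * s) = p at *
    generalize orderOf (r * t) = q at *
    generalize orderOf (s * t) = l at *
    have hp0 : (0 : ℚ) < p := by exact_mod_cast (by omega : 0 < p)
    have hq0 : (0 : ℚ) < q := by exact_mod_cast (by omega : 0 < q)
    have hl0 : (0 : ℚ) < l := by exact_mod_cast (by omega : 0 < l)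
    by_cases hp : p = 2
    · exfalso
      subst hp
      have e : (1 : ℚ) / q + 1 / l = 1 / 2 := by
        push_cast at hsum
        linear_combination hsum
      exact (Z _ _ (by omega) (by omega) (Or.inl ⟨rfl, rfl, rfl⟩) (key q l h2 h3 e)).1 e
    by_cases hq : q = 2
    · exfalso
      subst hq
      have e : (1 : ℚ) / p + 1 / l = 1 / 2 := by
        push_cast at hsum
        linear_combination hsum
      exact (Z _ _ (by omega) (by omega) (Or.inr (Or.inl ⟨rfl, rfl, rfl⟩)) (key p l h1 h3 e)).1 e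
    by_cases hl : l = 2
    · exfalso
      subst hl
      have e : (1 : ℚ) / p + 1 / q = 1 / 2 := by
        push_cast at hsum
        linear_combination hsum
      exact (Z _ _ (by omega) (by omega) (Or.inr (Or.inr ⟨rfl, rfl, rfl⟩)) (key p q h1 h2 e)).1 e
    have inv_le : ∀ n : ℕ, 3 ≤ n → (1 : ℚ) / n ≤ 1 / 3 := by
      intro n hn
      apply one_div_le_one_div_of_le (by norm_num)
      exact_mod_cast hn
    have inv_lt : ∀ n : ℕ, 3 ≤ n → n ≠ 3 → (1 : ℚ) / n < 1 / 3 := by
      intro n hn hn3
      apply one_div_lt_one_div_of_lt (by norm_num)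
      exact_mod_cast (by omega : 3 < n)
    have a1 := inv_le p (by omega)
    have a2 := inv_le q (by omega)
    have a3 := inv_le l (by omega)
    refine ⟨?_, ?_, ?_⟩
    · by_contra hne
      have := inv_lt p (by omega) hne
      linarith
    · by_contra hne
      have := inv_lt q (by omega) hne
      linarith
    · by_contra hne
      have := inv_lt l (by omega) hne
      linarith
  obtain ⟨o1, o2, o3⟩ := hthree
  refine ⟨o1, o2, o3, ?_⟩
  rintro ⟨M, m01, m02, m12, f, finj, f0, f1, f2⟩
  have aw := affine_words M (by rw [m01, o1]) (by rw [m02, o2]) (by rw [m12, o3])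
  have hf : ∀ ω : List (Fin 3), f (M.toCoxeterSystem.wordProd ω) = wordG r s t ω := by
    intro ω
    unfold CoxeterSystem.wordProd wordG
    rw [map_list_prod, List.map_map]
    congr 1
    apply List.map_congr_left
    intro i _
    fin_cases i
    · simpa using f0
    · simpa using f1
    · simpa using f2
  have hone : ∀ ω : List (Fin 3), wordG r s t ω = 1 → M.toCoxeterSystem.wordProd ω = 1 := by
    intro ω hω
    apply finj
    rw [hf, hω, map_one]
  rcases relation_333 h hr hs ht o1 o2 o3 with hw | hw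
  · exact aw.1 (hone _ hw)
  · exact aw.2 (hone _ hw)

private theorem zh_braid {G : Type*} [Group G] {x y : G} (hx : x * x = 1) (hy : y * y = 1)
    (h : (x * y) ^ 3 = 1) : y * (x * y) = x * (y * x) := by
  have h1 : x * y * (x * y) * (x * y) = 1 := by
    rw [← h]
    simp only [pow_succ, pow_zero, one_mul]
  have h2 : x * (y * x) * (y * (x * y)) = 1 := by
    rw [← h1]
    simp only [mul_assoc]
  have h3 : x * (y * x) * (x * (y * x)) = 1 := by
    have e1 : x * (y * x) * (x * (y * x)) = x * (y * (x * x) * y) * x := by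
      simp only [mul_assoc]
    rw [e1, hx, mul_one, hy, mul_one, hx]
  exact mul_left_cancel (h2.trans h3.symm)

private theorem zh_comm {G : Type*} [Group G] {x y : G} (hx : x * x = 1) (hy : y * y = 1)
    (h : (x * y) ^ 2 = 1) : y * x = x * y := by
  have h1 : (x * y) * (x * y) = 1 := by
    rw [← h, pow_two]
  have h2 : (x * y) * (y * x) = 1 := by
    have e1 : (x * y) * (y * x) = x * (y * y) * x := by
      simp only [mul_assoc]
    rw [e1, hy, mul_one, hx]
  exact mul_left_cancel (h2.trans h1.symm)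

private theorem zh_tail4 {G : Type*} [Group G] {a b c d a' b' c' d' : G}
    (h : a * (b * (c * d)) = a' * (b' * (c' * d'))) (z : G) :
    a * (b * (c * (d * z))) = a' * (b' * (c' * (d' * z))) := by
  have h1 := congrArg (fun g => g * z) h
  simpa only [mul_assoc] using h1

private theorem zh_tail3 {G : Type*} [Group G] {a b c a' b' c' : G}
    (h : a * (b * c) = a' * (b' * c')) (z : G) :
    a * (b * (c * z)) = a' * (b' * (c' * z)) := by
  have h1 := congrArg (fun g => g * z) h
  simpa only [mul_assoc] using h1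

private theorem zh_tail2 {G : Type*} [Group G] {a : G} (h : a * a = 1) (z : G) :
    a * (a * z) = z := by
  rw [← mul_assoc, h, one_mul]

/-- zh: group theory for the first relation -/
theorem card_of_relation_one {G : Type*} [Group G] {r s t : G} (hr : r * r = 1) (hs : s * s = 1)
    (ht : t * t = 1) (h1 : (r * s) ^ 3 = 1) (h2 : (r * t) ^ 3 = 1) (h3 : (s * t) ^ 3 = 1)
    (h4 : (r * s * r * t) ^ 2 = 1) (h5 : r * s * r * t ≠ 1) :
    Nat.card (Subgroup.closure ({r, s, t} : Set G)) = 24 := by
  -- the rewriting rules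
  have rr := zh_tail2 hr
  have ss := zh_tail2 hs
  have tt := zh_tail2 ht
  have a1 : s * (r * s) = r * (s * r) := zh_braid hr hs h1
  have a2 : t * (r * t) = r * (t * r) := zh_braid hr ht h2
  have a3 : t * (s * t) = s * (t * s) := zh_braid hs ht h3
  have b1 := zh_tail3 a1
  have b2 := zh_tail3 a2
  have b3 := zh_tail3 a3
  have a4 : t * (r * (s * r)) = r * (s * (r * t)) := by
    have e1 : (r * s * r) * (r * s * r) = 1 := by
      simp only [mul_assoc, rr, ss, hr]
    have e2 := zh_comm e1 ht h4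
    simpa only [mul_assoc] using e2
  have b4 := zh_tail4 a4
  have a5 : s * (r * (t * r)) = r * (t * (r * s)) := by
    have e1 : s * (r * (t * r)) = r * ((r * (s * (r * t))) * r) := by
      simp only [mul_assoc, rr]
    rw [e1, ← a4]
    simp only [mul_assoc, hr, mul_one]
  have b5 := zh_tail4 a5
  have a6 : t * (r * (s * t)) = r * (s * (t * r)) := by
    have e1 : t * (r * (s * t)) = r * ((r * (t * (r * s))) * t) := by
      simp only [mul_assoc, rr]
    rw [e1, ← a5]
    simp only [mul_assoc, a2, rr]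
  have b6 := zh_tail4 a6
  have a7 : s * (r * (t * s)) = r * (t * (s * r)) := by
    have e1 : s * (r * (t * s)) = r * ((r * (s * (r * t))) * s) := by
      simp only [mul_assoc, rr]
    rw [e1, ← a4]
    simp only [mul_assoc, a1, rr]
  have b7 := zh_tail4 a7
  have a8 : t * (s * (r * t)) = r * (t * (s * r)) := by
    have e0 : r * (t * (s * (r * t))) = t * (s * r) := by
      calc r * (t * (s * (r * t))) = (r * (t * (s * r))) * t := by simp only [mul_assoc]
        _ = (s * (r * (t * s))) * t := by rw [a7]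
        _ = s * (r * (t * (s * t))) := by simp only [mul_assoc]
        _ = s * (r * (s * (t * s))) := by rw [a3]
        _ = r * (s * (r * (t * s))) := by rw [b1]
        _ = r * (r * (t * (s * r))) := by rw [a7]
        _ = t * (s * r) := rr _
    rw [← e0, rr]
  have b8 := zh_tail4 a8
  have a9 : s * (t * (r * s)) = r * (s * (t * r)) := by
    have e0 : r * (s * (t * (r * s))) = s * (t * r) := by
      have e1 : r * (s * (t * (r * s))) = (r * (s * (t * r))) * s := by
        simp only [mul_assoc]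
      have e2 : (t * (r * t)) * (s * t) = s * (t * r) := by
        rw [a2]
        simp only [mul_assoc, a6, rr]
      have e3 : (t * (r * t)) * (s * t) = r * (s * (t * (r * s))) := by
        have e4 : (t * (r * t)) * (s * t) = t * (r * (t * (s * t))) := by
          simp only [mul_assoc]
        rw [e4, a3]
        simp only [b6]
      rw [← e3, e2]
    rw [← e0, rr]
  have b9 := zh_tail4 a9
  have a10 : s * (t * (s * r)) = r * (s * (t * s)) := by
    have e1 : t * (s * r) = r * (s * (r * (t * s))) := by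
      rw [a7, rr]
    rw [e1]
    simp only [b1, rr]
  have b10 := zh_tail4 a10
  obtain ⟨x, hx⟩ : ∃ x : G, x = r * (s * (r * t)) := ⟨_, rfl⟩
  obtain ⟨y, hy⟩ : ∃ y : G, y = r * (t * (r * s)) := ⟨_, rfl⟩
  obtain ⟨z, hz⟩ : ∃ z : G, z = r * (s * (t * s)) := ⟨_, rfl⟩
  have hx1 : x ≠ 1 := by
    intro e
    apply h5
    rw [← e, hx]
    simp only [mul_assoc]
  have xx : x * x = 1 := by
    simp only [hx, hy, hz, mul_assoc, hr, hs, ht, rr, ss, tt, a1, a2, a3, a4, a5, a6, a7, a8, a9, a10,
      b1, b2, b3, b4, b5, b6, b7, b8, b9, b10, mul_one, one_mul]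
  have yy : y * y = 1 := by
    simp only [hx, hy, hz, mul_assoc, hr, hs, ht, rr, ss, tt, a1, a2, a3, a4, a5, a6, a7, a8, a9, a10,
      b1, b2, b3, b4, b5, b6, b7, b8, b9, b10, mul_one, one_mul]
  have zz : z * z = 1 := by
    simp only [hx, hy, hz, mul_assoc, hr, hs, ht, rr, ss, tt, a1, a2, a3, a4, a5, a6, a7, a8, a9, a10,
      b1, b2, b3, b4, b5, b6, b7, b8, b9, b10, mul_one, one_mul]
  have xy : x * y = z := by
    simp only [hx, hy, hz, mul_assoc, hr, hs, ht, rr, ss, tt, a1, a2, a3, a4, a5, a6, a7, a8, a9, a10,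
      b1, b2, b3, b4, b5, b6, b7, b8, b9, b10, mul_one, one_mul]
  have yx : y * x = z := by
    simp only [hx, hy, hz, mul_assoc, hr, hs, ht, rr, ss, tt, a1, a2, a3, a4, a5, a6, a7, a8, a9, a10,
      b1, b2, b3, b4, b5, b6, b7, b8, b9, b10, mul_one, one_mul]
  have xz : x * z = y := by
    simp only [hx, hy, hz, mul_assoc, hr, hs, ht, rr, ss, tt, a1, a2, a3, a4, a5, a6, a7, a8, a9, a10,
      b1, b2, b3, b4, b5, b6, b7, b8, b9, b10, mul_one, one_mul]
  have zx : z * x = y := by
    simp only [hx, hy, hz, mul_assoc, hr, hs, ht, rr, ss, tt, a1, a2, a3, a4, a5, a6, a7, a8, a9, a10,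
      b1, b2, b3, b4, b5, b6, b7, b8, b9, b10, mul_one, one_mul]
  have yz : y * z = x := by
    simp only [hx, hy, hz, mul_assoc, hr, hs, ht, rr, ss, tt, a1, a2, a3, a4, a5, a6, a7, a8, a9, a10,
      b1, b2, b3, b4, b5, b6, b7, b8, b9, b10, mul_one, one_mul]
  have zy : z * y = x := by
    simp only [hx, hy, hz, mul_assoc, hr, hs, ht, rr, ss, tt, a1, a2, a3, a4, a5, a6, a7, a8, a9, a10,
      b1, b2, b3, b4, b5, b6, b7, b8, b9, b10, mul_one, one_mul]
  have rx : r * x = y * r := by
    simp only [hx, hy, hz, mul_assoc, hr, hs, ht, rr, ss, tt, a1, a2, a3, a4, a5, a6, a7, a8, a9, a10,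
      b1, b2, b3, b4, b5, b6, b7, b8, b9, b10, mul_one, one_mul]
  have ry : r * y = x * r := by
    simp only [hx, hy, hz, mul_assoc, hr, hs, ht, rr, ss, tt, a1, a2, a3, a4, a5, a6, a7, a8, a9, a10,
      b1, b2, b3, b4, b5, b6, b7, b8, b9, b10, mul_one, one_mul]
  have rz : r * z = z * r := by
    simp only [hx, hy, hz, mul_assoc, hr, hs, ht, rr, ss, tt, a1, a2, a3, a4, a5, a6, a7, a8, a9, a10,
      b1, b2, b3, b4, b5, b6, b7, b8, b9, b10, mul_one, one_mul]
  have sx : s * x = z * s := by
    simp only [hx, hy, hz, mul_assoc, hr, hs, ht, rr, ss, tt, a1, a2, a3, a4, a5, a6, a7, a8, a9, a10,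
      b1, b2, b3, b4, b5, b6, b7, b8, b9, b10, mul_one, one_mul]
  have sy : s * y = y * s := by
    simp only [hx, hy, hz, mul_assoc, hr, hs, ht, rr, ss, tt, a1, a2, a3, a4, a5, a6, a7, a8, a9, a10,
      b1, b2, b3, b4, b5, b6, b7, b8, b9, b10, mul_one, one_mul]
  have sz : s * z = x * s := by
    simp only [hx, hy, hz, mul_assoc, hr, hs, ht, rr, ss, tt, a1, a2, a3, a4, a5, a6, a7, a8, a9, a10,
      b1, b2, b3, b4, b5, b6, b7, b8, b9, b10, mul_one, one_mul]
  have tx : t = x * (r * (s * r)) := by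
    simp only [hx, mul_assoc, hr, hs, ht, rr, ss, tt, a1, a2, a3, a4, a5, a6, a7, a8, a9, a10,
      b1, b2, b3, b4, b5, b6, b7, b8, b9, b10, mul_one, one_mul]
  have hy1 : y ≠ 1 := by
    intro e
    rw [e, mul_one] at ry
    exact hx1 (by simpa using ry.symm)
  have hz1 : z ≠ 1 := by
    intro e
    rw [e, mul_one] at sz
    exact hx1 (by simpa using sz.symm)
  have nxy : x ≠ y := by
    intro e
    rw [← e, xx] at xy
    exact hz1 xy.symm
  have nxz : x ≠ z := by
    intro e
    rw [← e, xx] at xz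
    exact hy1 xz.symm
  have nyz : y ≠ z := by
    intro e
    rw [← e, yy] at yz
    exact hx1 yz.symm
  have xx2 := zh_tail2 xx
  have rx2 : ∀ g, r * (x * g) = y * (r * g) := fun g => by rw [← mul_assoc, rx, mul_assoc]
  have ry2 : ∀ g, r * (y * g) = x * (r * g) := fun g => by rw [← mul_assoc, ry, mul_assoc]
  have rz2 : ∀ g, r * (z * g) = z * (r * g) := fun g => by rw [← mul_assoc, rz, mul_assoc]
  have sx2 : ∀ g, s * (x * g) = z * (s * g) := fun g => by rw [← mul_assoc, sx, mul_assoc]
  have sy2 : ∀ g, s * (y * g) = y * (s * g) := fun g => by rw [← mul_assoc, sy, mul_assoc]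
  have sz2 : ∀ g, s * (z * g) = x * (s * g) := fun g => by rw [← mul_assoc, sz, mul_assoc]
  have xy2 : ∀ g, x * (y * g) = z * g := fun g => by rw [← mul_assoc, xy]
  have xz2 : ∀ g, x * (z * g) = y * g := fun g => by rw [← mul_assoc, xz]
  have yx2 : ∀ g, y * (x * g) = z * g := fun g => by rw [← mul_assoc, yx]
  have yz2 : ∀ g, y * (z * g) = x * g := fun g => by rw [← mul_assoc, yz]
  have zx2 : ∀ g, z * (x * g) = y * g := fun g => by rw [← mul_assoc, zx]
  have zy2 : ∀ g, z * (y * g) = x * g := fun g => by rw [← mul_assoc, zy]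
  have yy2 := zh_tail2 yy
  have zz2 := zh_tail2 zz
  clear hx hy hz a2 a3 a4 a5 a6 a7 a8 a9 a10 b2 b3 b4 b5 b6 b7 b8 b9 b10
  let V : Fin 4 → G := ![1, x, y, z]
  let S : Fin 6 → G := ![1, r, s, r * s, s * r, r * (s * r)]
  let F : Fin 4 × Fin 6 → G := fun p => V p.1 * S p.2
  -- left multiplication by `r`, `s`, `x` on the factors
  have tVr : ∀ i, r * V i = V ((![0, 2, 1, 3] : Fin 4 → Fin 4) i) * r := by
    intro i
    fin_cases i <;> simp [V, hr, hs, rr, ss, a1, b1, rx, ry, rz, sx, sy, sz, xx, xy, xz]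
  have tVs : ∀ i, s * V i = V ((![0, 3, 2, 1] : Fin 4 → Fin 4) i) * s := by
    intro i
    fin_cases i <;> simp [V, hr, hs, rr, ss, a1, b1, rx, ry, rz, sx, sy, sz, xx, xy, xz]
  have tVx : ∀ i, x * V i = V ((![1, 0, 3, 2] : Fin 4 → Fin 4) i) := by
    intro i
    fin_cases i <;> simp [V, hr, hs, rr, ss, a1, b1, rx, ry, rz, sx, sy, sz, xx, xy, xz]
  have tSr : ∀ i, r * S i = S ((![1, 0, 3, 2, 5, 4] : Fin 6 → Fin 6) i) := by
    intro i
    fin_cases i <;> simp [S, hr, hs, rr, ss, a1, b1, rx, ry, rz, sx, sy, sz, xx, xy, xz]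
  have tSs : ∀ i, s * S i = S ((![2, 4, 0, 5, 1, 3] : Fin 6 → Fin 6) i) := by
    intro i
    fin_cases i <;> simp [S, hr, hs, rr, ss, a1, b1, rx, ry, rz, sx, sy, sz, xx, xy, xz]
  have cr : ∀ g ∈ Set.range F, r * g ∈ Set.range F := by
    rintro _ ⟨⟨i, j⟩, rfl⟩
    exact ⟨(_, _), by
      change V _ * S _ = r * (V i * S j)
      rw [← mul_assoc, tVr, mul_assoc, tSr]⟩
  have cs : ∀ g ∈ Set.range F, s * g ∈ Set.range F := by
    rintro _ ⟨⟨i, j⟩, rfl⟩
    exact ⟨(_, _), by
      change V _ * S _ = s * (V i * S j)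
      rw [← mul_assoc, tVs, mul_assoc, tSs]⟩
  have cx : ∀ g ∈ Set.range F, x * g ∈ Set.range F := by
    rintro _ ⟨⟨i, j⟩, rfl⟩
    exact ⟨(_, _), by
      change V _ * S _ = x * (V i * S j)
      rw [← mul_assoc, tVx]⟩
  have ct : ∀ g ∈ Set.range F, t * g ∈ Set.range F := by
    intro g hg
    have e : t * g = x * (r * (s * (r * g))) := by
      conv_lhs => rw [tx]
      simp only [mul_assoc]
    rw [e]
    exact cx _ (cr _ (cs _ (cr _ hg)))
  have c1 : (1 : G) ∈ Set.range F := ⟨(0, 0), by simp [F, V, S]⟩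
  have hinv : ∀ g ∈ ({r, s, t} : Set G), g⁻¹ = g := by
    intro g hg
    rcases hg with e | e | e
    · rw [e]; exact inv_eq_of_mul_eq_one_left hr
    · rw [e]; exact inv_eq_of_mul_eq_one_left hs
    · rw [e]; exact inv_eq_of_mul_eq_one_left ht
  have cgen : ∀ h ∈ ({r, s, t} : Set G), ∀ g ∈ Set.range F, h * g ∈ Set.range F := by
    intro h hh g hg
    rcases hh with e | e | e
    · rw [e]; exact cr g hg
    · rw [e]; exact cs g hg
    · rw [e]; exact ct g hg
  have hset : ((Subgroup.closure ({r, s, t} : Set G) : Subgroup G) : Set G) = Set.range F := by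
    apply Set.Subset.antisymm
    · intro g hg
      refine Subgroup.closure_induction_left (p := fun g _ => g ∈ Set.range F) c1 ?_ ?_ hg
      · intro h hh g _ hg'
        exact cgen h hh g hg'
      · intro h hh g _ hg'
        rw [hinv h hh]
        exact cgen h hh g hg'
    · have mr : r ∈ Subgroup.closure ({r, s, t} : Set G) := Subgroup.subset_closure (by simp)
      have ms : s ∈ Subgroup.closure ({r, s, t} : Set G) := Subgroup.subset_closure (by simp)
      have mt' : t ∈ Subgroup.closure ({r, s, t} : Set G) := Subgroup.subset_closure (by simp)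
      have mx : x ∈ Subgroup.closure ({r, s, t} : Set G) := by
        have e : x = t * (r * (s * r)) := by
          conv_rhs => rw [tx]
          simp only [mul_assoc, rr, ss, hr, mul_one]
        rw [e]
        exact mul_mem mt' (mul_mem mr (mul_mem ms mr))
      have my : y ∈ Subgroup.closure ({r, s, t} : Set G) := by
        have e : y = r * (x * r) := by rw [rx2, hr, mul_one]
        rw [e]
        exact mul_mem mr (mul_mem mx mr)
      have mz : z ∈ Subgroup.closure ({r, s, t} : Set G) := by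
        rw [← xy]
        exact mul_mem mx my
      rintro _ ⟨⟨i, j⟩, rfl⟩
      change V i * S j ∈ Subgroup.closure ({r, s, t} : Set G)
      refine mul_mem ?_ ?_
      · fin_cases i
        · exact one_mem _
        · exact mx
        · exact my
        · exact mz
      · fin_cases j
        · exact one_mem _
        · exact mr
        · exact ms
        · exact mul_mem mr ms
        · exact mul_mem ms mr
        · exact mul_mem mr (mul_mem ms mr)
  have hSx : ∀ j, S j * x = V ((![1, 2, 3, 3, 2, 1] : Fin 6 → Fin 4) j) * S j := by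
    intro j
    fin_cases j <;> simp [V, S, mul_assoc, rx, ry, rz, sx, sy, sz, rx2, ry2, rz2, sx2, sy2, sz2]
  have hSy : ∀ j, S j * y = V ((![2, 1, 2, 1, 3, 3] : Fin 6 → Fin 4) j) * S j := by
    intro j
    fin_cases j <;> simp [V, S, mul_assoc, rx, ry, rz, sx, sy, sz, rx2, ry2, rz2, sx2, sy2, sz2]
  have hVV : ∀ i k, V i * V k = V k * V i := by
    intro i k
    fin_cases i <;> fin_cases k <;> simp [V, xx, yy, zz, xy, yx, xz, zx, yz, zy]
  have Vinj : Function.Injective V := by
    intro i k hik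
    fin_cases i <;> fin_cases k <;>
      simp [V, hx1, hy1, hz1, nxy, nxz, nyz, hx1.symm, hy1.symm, hz1.symm, nxy.symm, nxz.symm,
        nyz.symm] at hik ⊢
  have Finj : Function.Injective F := by
    rintro ⟨i, j⟩ ⟨i', j'⟩ hF
    have e0 : V i * S j = V i' * S j' := hF
    have e1 : ∀ (i : Fin 4) (j : Fin 6), V i * S j * x =
        V ((![1, 2, 3, 3, 2, 1] : Fin 6 → Fin 4) j) * (V i * S j) := by
      intro i j
      rw [mul_assoc, hSx, ← mul_assoc, hVV, mul_assoc]
    have e2 : ∀ (i : Fin 4) (j : Fin 6), V i * S j * y =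
        V ((![2, 1, 2, 1, 3, 3] : Fin 6 → Fin 4) j) * (V i * S j) := by
      intro i j
      rw [mul_assoc, hSy, ← mul_assoc, hVV, mul_assoc]
    have f1 := e1 i j
    rw [e0, e1 i' j'] at f1
    have g1 := Vinj (mul_right_cancel f1)
    have f2 := e2 i j
    rw [e0, e2 i' j'] at f2
    have g2 := Vinj (mul_right_cancel f2)
    have hj : j = j' := by
      revert g1 g2
      clear * -
      revert j j'
      decide
    rw [hj] at e0
    have hi : i = i' := Vinj (mul_right_cancel e0)
    rw [hi, hj]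
  have hc : Nat.card (Subgroup.closure ({r, s, t} : Set G)) = Nat.card (Set.range F) :=
    Nat.card_congr (Equiv.setCongr hset)
  rw [hc, Nat.card_range_of_injective Finj]
  simp

/-- zi: group theory for the second relation -/
theorem card_of_relation_two {G : Type*} [Group G] {r s t : G} (hr : r * r = 1) (hs : s * s = 1)
    (ht : t * t = 1) (h1 : (r * s) ^ 3 = 1) (h2 : (r * t) ^ 3 = 1) (h3 : (s * t) ^ 3 = 1)
    (h4 : (r * t * s) ^ 2 = 1) (h5 : r * s ≠ 1) (h6 : s * t ≠ 1) (h7 : r * s ≠ s * t)
    (h8 : r * s ≠ t * s) (h9 : s ∉ Subgroup.closure ({r * s, s * t} : Set G)) :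
    Nat.card (Subgroup.closure ({r, s, t} : Set G)) = 18 := by
  obtain ⟨u, hu⟩ : ∃ u : G, u = r * s := ⟨_, rfl⟩
  obtain ⟨w, hw⟩ : ∃ w : G, w = s * t := ⟨_, rfl⟩
  have uuu : u * (u * u) = 1 := by
    rw [hu, ← h1]
    simp only [pow_succ, pow_zero, one_mul, mul_assoc]
  have www : w * (w * w) = 1 := by
    rw [hw, ← h3]
    simp only [pow_succ, pow_zero, one_mul, mul_assoc]
  have hrus : r = u * s := by rw [hu, mul_assoc, hs, mul_one]
  have htsw : t = s * w := by rw [hw, ← mul_assoc, hs, one_mul]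
  have huinv : s * r = u * u := by
    have e : u * (s * r) = u * (u * u) := by
      rw [uuu, hu, mul_assoc, ← mul_assoc s s r, hs, one_mul, hr]
    exact mul_left_cancel e
  have hwinv : t * s = w * w := by
    have e : w * (t * s) = w * (w * w) := by
      rw [www, hw, mul_assoc, ← mul_assoc t t s, ht, one_mul, hs]
    exact mul_left_cancel e
  have su : s * u = u * u * s := by
    rw [← huinv, hu, mul_assoc]
  have sw : s * w = w * w * s := by
    rw [← hwinv, mul_assoc, hs, mul_one, ← htsw]
  have hsrt : s * r * t = t * r * s := by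
    have e1 : (s * r * t) * (s * r * t) = 1 := by
      have e3 : (s * r * t) * (s * r * t) = s * (r * t * s) ^ 2 * s := by
        have e4 : s * (r * t * s) ^ 2 * s = s * r * t * (s * r * t) * (s * s) := by
          simp only [pow_two, mul_assoc]
        rw [e4, hs, mul_one]
      rw [e3, h4, mul_one, hs]
    have e2 : (s * r * t) * (t * r * s) = 1 := by
      have e3 : (s * r * t) * (t * r * s) = s * (r * (t * t) * r) * s := by
        simp only [mul_assoc]
      rw [e3, ht, mul_one, hr, mul_one, hs]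
    exact mul_left_cancel (e1.trans e2.symm)
  have uw : u * w = r * t := by
    rw [hu, hw, mul_assoc, ← mul_assoc s s t, hs, one_mul]
  have wu : w * u = u * w := by
    have e1 : w * u = s * (t * r * s) := by
      rw [hu, hw]
      simp only [mul_assoc]
    rw [uw, e1, ← hsrt, ← mul_assoc, ← mul_assoc, hs, one_mul]
  let U : Fin 3 → G := ![1, u, u * u]
  let W : Fin 3 → G := ![1, w, w * w]
  let T : Fin 2 → G := ![1, s]
  let F : (Fin 3 × Fin 3) × Fin 2 → G := fun p => U p.1.1 * W p.1.2 * T p.2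
  have wU : ∀ i, w * U i = U i * w := by
    intro i
    fin_cases i
    · simp [U]
    · exact wu
    · change w * (u * u) = u * u * w
      rw [← mul_assoc, wu, mul_assoc, wu, mul_assoc]
  have uU : ∀ i, u * U i = U (i + 1) := by
    intro i
    fin_cases i
    · simp [U]
    · simp [U]
    · exact uuu
  have wW : ∀ i, w * W i = W (i + 1) := by
    intro i
    fin_cases i
    · simp [W]
    · simp [W]
    · exact www
  have uuu' : u * u * u = 1 := by rw [mul_assoc, uuu]
  have www' : w * w * w = 1 := by rw [mul_assoc, www]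
  have sU : ∀ i, s * U i = U (-i) * s := by
    intro i
    fin_cases i
    · simp [U]
    · exact su
    · change s * (u * u) = u * s
      rw [← mul_assoc, su, mul_assoc, su, ← mul_assoc, ← mul_assoc, uuu', one_mul]
  have sW : ∀ i, s * W i = W (-i) * s := by
    intro i
    fin_cases i
    · simp [W]
    · exact sw
    · change s * (w * w) = w * s
      rw [← mul_assoc, sw, mul_assoc, sw, ← mul_assoc, ← mul_assoc, www', one_mul]
  have sT : ∀ k, s * T k = T (k + 1) := by
    intro k
    fin_cases k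
    · simp [T]
    · exact hs
  have cu : ∀ g ∈ Set.range F, u * g ∈ Set.range F := by
    rintro _ ⟨⟨⟨i, j⟩, k⟩, rfl⟩
    refine ⟨((i + 1, j), k), ?_⟩
    change U (i + 1) * W j * T k = u * (U i * W j * T k)
    rw [← uU]
    simp only [mul_assoc]
  have cw : ∀ g ∈ Set.range F, w * g ∈ Set.range F := by
    rintro _ ⟨⟨⟨i, j⟩, k⟩, rfl⟩
    refine ⟨((i, j + 1), k), ?_⟩
    change U i * W (j + 1) * T k = w * (U i * W j * T k)
    rw [← wW, ← mul_assoc (U i), ← wU]
    simp only [mul_assoc]
  have cs : ∀ g ∈ Set.range F, s * g ∈ Set.range F := by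
    rintro _ ⟨⟨⟨i, j⟩, k⟩, rfl⟩
    refine ⟨((-i, -j), k + 1), ?_⟩
    change U (-i) * W (-j) * T (k + 1) = s * (U i * W j * T k)
    have e1 : s * (U i * W j * T k) = (s * U i) * W j * T k := by simp only [mul_assoc]
    rw [e1, sU, mul_assoc (U (-i)) s, sW, ← sT]
    simp only [mul_assoc]
  have cr : ∀ g ∈ Set.range F, r * g ∈ Set.range F := by
    intro g hg
    rw [hrus, mul_assoc]
    exact cu _ (cs _ hg)
  have ct : ∀ g ∈ Set.range F, t * g ∈ Set.range F := by
    intro g hg
    rw [htsw, mul_assoc]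
    exact cs _ (cw _ hg)
  have c1 : (1 : G) ∈ Set.range F := ⟨((0, 0), 0), by simp [F, U, W, T]⟩
  have hinv : ∀ g ∈ ({r, s, t} : Set G), g⁻¹ = g := by
    intro g hg
    rcases hg with e | e | e
    · rw [e]; exact inv_eq_of_mul_eq_one_left hr
    · rw [e]; exact inv_eq_of_mul_eq_one_left hs
    · rw [e]; exact inv_eq_of_mul_eq_one_left ht
  have cgen : ∀ h ∈ ({r, s, t} : Set G), ∀ g ∈ Set.range F, h * g ∈ Set.range F := by
    intro h hh g hg
    rcases hh with e | e | e
    · rw [e]; exact cr g hg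
    · rw [e]; exact cs g hg
    · rw [e]; exact ct g hg
  have hset : ((Subgroup.closure ({r, s, t} : Set G) : Subgroup G) : Set G) = Set.range F := by
    apply Set.Subset.antisymm
    · intro g hg
      refine Subgroup.closure_induction_left (p := fun g _ => g ∈ Set.range F) c1 ?_ ?_ hg
      · intro h hh g _ hg'
        exact cgen h hh g hg'
      · intro h hh g _ hg'
        rw [hinv h hh]
        exact cgen h hh g hg'
    · have mr : r ∈ Subgroup.closure ({r, s, t} : Set G) := Subgroup.subset_closure (by simp)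
      have ms : s ∈ Subgroup.closure ({r, s, t} : Set G) := Subgroup.subset_closure (by simp)
      have mt' : t ∈ Subgroup.closure ({r, s, t} : Set G) := Subgroup.subset_closure (by simp)
      have mu : u ∈ Subgroup.closure ({r, s, t} : Set G) := hu ▸ mul_mem mr ms
      have mw : w ∈ Subgroup.closure ({r, s, t} : Set G) := hw ▸ mul_mem ms mt'
      rintro _ ⟨⟨⟨i, j⟩, k⟩, rfl⟩
      change U i * W j * T k ∈ Subgroup.closure ({r, s, t} : Set G)
      refine mul_mem (mul_mem ?_ ?_) ?_
      · fin_cases i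
        · exact one_mem _
        · exact mu
        · exact mul_mem mu mu
      · fin_cases j
        · exact one_mem _
        · exact mw
        · exact mul_mem mw mw
      · fin_cases k
        · exact one_mem _
        · exact ms
  have hUW : ∀ a b, U a = W b → a = 0 ∧ b = 0 := by
    have nu : u ≠ 1 := fun e => h5 (hu ▸ e)
    have nw : w ≠ 1 := fun e => h6 (hw ▸ e)
    have nuu : u * u ≠ 1 := by
      intro e
      rw [e, mul_one] at uuu
      exact nu uuu
    have nww : w * w ≠ 1 := by
      intro e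
      rw [e, mul_one] at www
      exact nw www
    have nuw : u ≠ w := fun e => h7 (by rw [← hu, ← hw, e])
    have nuww : u ≠ w * w := fun e => h8 (by rw [← hu, hwinv, e])
    have nuuw : u * u ≠ w := by
      intro e
      apply nuww
      have e1 : u * u * u = w * (w * w) := by rw [uuu', www]
      rw [e] at e1
      exact mul_left_cancel e1
    have nuuww : u * u ≠ w * w := by
      intro e
      apply nuw
      have e1 : u * u * u = w * w * w := by rw [uuu', www']
      rw [e] at e1
      exact mul_left_cancel e1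
    intro a b hab
    fin_cases a <;> fin_cases b <;>
      simp [U, W, nu, nuu, nuw, nuww, nuuw, nuuww, nw.symm, nww.symm] at hab ⊢
  have Uadd : ∀ i k, U i * U k = U (i + k) := by
    intro i k
    fin_cases i
    · simp [U]
    · change u * U k = U (1 + k)
      rw [uU, add_comm]
    · change u * u * U k = U (2 + k)
      rw [mul_assoc, uU, uU, add_assoc, add_comm]
      rfl
  have Wadd : ∀ i k, W i * W k = W (i + k) := by
    intro i k
    fin_cases i
    · simp [W]
    · change w * W k = W (1 + k)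
      rw [wW, add_comm]
    · change w * w * W k = W (2 + k)
      rw [mul_assoc, wW, wW, add_assoc, add_comm]
      rfl
  have hcl : ∀ i j, U i * W j ∈ Subgroup.closure ({r * s, s * t} : Set G) := by
    have mu : u ∈ Subgroup.closure ({r * s, s * t} : Set G) :=
      Subgroup.subset_closure (by simp [hu])
    have mw : w ∈ Subgroup.closure ({r * s, s * t} : Set G) :=
      Subgroup.subset_closure (by simp [hw])
    intro i j
    refine mul_mem ?_ ?_
    · fin_cases i
      · exact one_mem _
      · exact mu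
      · exact mul_mem mu mu
    · fin_cases j
      · exact one_mem _
      · exact mw
      · exact mul_mem mw mw
  have Finj : Function.Injective F := by
    rintro ⟨⟨i, j⟩, k⟩ ⟨⟨i', j'⟩, k'⟩ hF
    have e0 : U i * W j * T k = U i' * W j' * T k' := hF
    have hk : k = k' := by
      by_contra hne
      have hcase : (k = 0 ∧ k' = 1) ∨ (k = 1 ∧ k' = 0) := by
        revert hne
        clear * -
        revert k k'
        decide
      rcases hcase with ⟨e1, e2⟩ | ⟨e1, e2⟩
      · rw [e1, e2] at e0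
        have e3 : U i * W j * 1 = U i' * W j' * s := e0
        apply h9
        have e4 : s = (U i' * W j')⁻¹ * (U i * W j) := by
          rw [← mul_one (U i * W j), e3, inv_mul_cancel_left]
        have e5 := mul_mem (inv_mem (hcl i' j')) (hcl i j)
        rw [← e4] at e5
        exact e5
      · rw [e1, e2] at e0
        have e3 : U i * W j * s = U i' * W j' * 1 := e0
        apply h9
        have e4 : s = (U i * W j)⁻¹ * (U i' * W j') := by
          rw [← mul_one (U i' * W j'), ← e3, inv_mul_cancel_left]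
        have e5 := mul_mem (inv_mem (hcl i j)) (hcl i' j')
        rw [← e4] at e5
        exact e5
    rw [hk] at e0
    have e1 := mul_right_cancel e0
    have e2 : U (i - i') = W (j' - j) := by
      have e3 : U i = U i' * U (i - i') := by rw [Uadd, add_sub_cancel]
      have e4 : W j' = W (j' - j) * W j := by rw [Wadd, sub_add_cancel]
      rw [e3, e4, mul_assoc] at e1
      exact mul_right_cancel (mul_left_cancel e1)
    obtain ⟨e5, e6⟩ := hUW _ _ e2
    rw [hk, sub_eq_zero.mp e5, sub_eq_zero.mp e6]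
  have hc : Nat.card (Subgroup.closure ({r, s, t} : Set G)) = Nat.card (Set.range F) :=
    Nat.card_congr (Equiv.setCongr hset)
  rw [hc, Nat.card_range_of_injective Finj]
  simp

/-- zj: for the orders (3,3,3) the group has order 24 or 18 -/
theorem card_333 [CharZero K] (h : LeonardTriple A B C) (hr : IsAnti r A B)
    (hs : IsAnti s A C) (ht : IsAnti t B C) (h1 : orderOf (r * s) = 3)
    (h2 : orderOf (r * t) = 3) (h3 : orderOf (s * t) = 3) :
    Nat.card (Subgroup.closure ({r, s, t} : Set (Module.End K V ≃ₗ[K] Module.End K V))) = 24 ∨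
    Nat.card (Subgroup.closure ({r, s, t} : Set (Module.End K V ≃ₗ[K] Module.End K V))) = 18 := by
  obtain ⟨d, a, b, c, hLT⟩ := h.bases
  have hrr : r * r = 1 := hLT.pAB.anti_sq hr
  have hss : s * s = 1 := hLT.pAC.anti_sq hs
  have htt : t * t = 1 := hLT.pBC.anti_sq ht
  have p1 : (r * s) ^ 3 = 1 := by rw [← h1]; exact pow_orderOf_eq_one _
  have p2 : (r * t) ^ 3 = 1 := by rw [← h2]; exact pow_orderOf_eq_one _
  have p3 : (s * t) ^ 3 = 1 := by rw [← h3]; exact pow_orderOf_eq_one _
  have nrt : r ≠ t := by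
    intro e
    rw [← e, hrr, orderOf_one] at h2
    omega
  have nrs : r ≠ s := by
    intro e
    rw [← e, hrr, orderOf_one] at h1
    omega
  have key : t A ≠ A := by
    intro e
    exact nrt (hLT.pAB.anti_unique hr ⟨ht.anti, e, ht.fixA⟩)
  rcases relation_333 h hr hs ht h1 h2 h3 with hrel | hrel
  · left
    refine card_of_relation_one hrr hss htt p1 p2 p3 ?_ ?_
    · simpa [wordG, pow_two, mul_assoc] using hrel
    · intro e
      apply key
      have e1 : (r * s * r) * (r * s * r) = 1 := by
        have e2 : (r * s * r) * (r * s * r) = r * (s * (r * r) * s) * r := by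
          simp only [mul_assoc]
        rw [e2, hrr, mul_one, hss, mul_one, hrr]
      have e3 : t = r * s * r := mul_left_cancel (e.trans e1.symm)
      rw [e3]
      change r (s (r A)) = A
      rw [hr.fixA, hs.fixA, hr.fixA]
  · right
    refine card_of_relation_two hrr hss htt p1 p2 p3 ?_ ?_ ?_ ?_ ?_ ?_
    · simpa [wordG, pow_two, mul_assoc] using hrel
    · intro e
      rw [e, orderOf_one] at h1
      omega
    · intro e
      rw [e, orderOf_one] at h3
      omega
    · intro e
      apply key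
      apply s.injective
      have e1 : r (s A) = s (t A) := by
        have e2 := congrArg (fun f : Module.End K V ≃ₗ[K] Module.End K V => f A) e
        exact e2
      rw [← e1, hs.fixA, hr.fixA]
    · intro e
      exact nrt (mul_right_cancel e)
    · intro hmem
      obtain ⟨d', a', b', c', α, β, γ, hset⟩ := exists_setup two_ne_zero h hr hs ht
      obtain ⟨hd, -⟩ := hset.of_ne (Or.inl nrs)
      let M : Subgroup (Module.End K V ≃ₗ[K] Module.End K V) :=
        { carrier := {g | ∀ X Y, g (X * Y) = g X * g Y}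
          mul_mem' := by
            intro g k hg hk X Y
            change g (k (X * Y)) = g (k X) * g (k Y)
            rw [hk, hg]
          one_mem' := by
            intro X Y
            rfl
          inv_mem' := by
            intro g hg X Y
            apply g.injective
            have e1 : ∀ Z, g (g⁻¹ Z) = Z := fun Z => g.apply_symm_apply Z
            rw [hg, e1, e1, e1] }
      have hle : Subgroup.closure ({r * s, s * t} : Set (Module.End K V ≃ₗ[K] Module.End K V)) ≤
          M := by
        rw [Subgroup.closure_le]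
        rintro g (e | e)
        · rw [e]
          intro X Y
          change r (s (X * Y)) = r (s X) * r (s Y)
          rw [hs.anti, hr.anti]
        · rw [Set.mem_singleton_iff.mp e]
          intro X Y
          change s (t (X * Y)) = s (t X) * s (t Y)
          rw [ht.anti, hs.anti]
      have hsM : ∀ X Y, s (X * Y) = s X * s Y := hle hmem
      have hcomm : A * B = B * A := by
        have e1 : s (s.symm B) = B := s.apply_symm_apply B
        calc A * B = s A * s (s.symm B) := by rw [e1, hs.fixA]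
          _ = s (A * s.symm B) := (hsM _ _).symm
          _ = s (s.symm B) * s A := hs.anti _ _
          _ = B * A := by rw [e1, hs.fixA]
      have hli := hset.lt.pAB.indep4 hd two_ne_zero (x := 0) (y := 0) (z := 0) (w := 1) (by
        rw [hcomm]
        simp)
      exact one_ne_zero hli.2.2.2

end

section
variable {A B C : Module.End K V} {r s t : Module.End K V ≃ₗ[K] Module.End K V}

/-- zk: the order rule for `A` -/
theorem Setup.orderRule {d : ℕ} {a b c : Module.Basis (Fin (d + 1)) K V} {α β γ : K}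
    (h : Setup a b c A B C r s t α β γ) : OrderRule A B C (r * s) (β * γ) := by
  intro n a' θ hA hB hC m
  have hn : n = d + 1 := by
    have := Fintype.card_congr (a'.indexEquiv a)
    simpa using this
  subst hn
  have hdiag : (mt a' A).IsDiag := by
    have : mt a' A = Matrix.diagonal θ := hA
    rw [this]
    exact Matrix.isDiag_diagonal θ
  have hii : ∀ i, mt a' A i i = θ i := by
    intro i
    have : mt a' A = Matrix.diagonal θ := hA
    rw [this, Matrix.diagonal_apply_eq]
  have h' : Setup a' b c A B C r s t α β γ :=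
    ⟨h.h2, ⟨hdiag, hB, hC, h.lt.dB, h.lt.bA, h.lt.bC, h.lt.dC, h.lt.cA, h.lt.cB⟩, h.hr, h.hs,
      h.ht, h.eC, h.eA, h.eB⟩
  obtain ⟨u, hu, hX⟩ := ratio_exists h'.lt h'.hr h'.hs
  rw [ratio_pow hu hX m]
  constructor
  · intro h1 i j hij
    refine ⟨u i / u j, div_ne_zero (hu _) (hu _), h1 i j hij, ?_⟩
    rw [inv_div, h'.ratio_add hu hX (Or.inl hij), hii, hii]
  · intro h1 i j hij
    obtain ⟨ρ, hρ, hρm, hρr⟩ := h1 i j hij
    have h2 := h'.ratio_add hu hX (Or.inl hij)
    rw [hii, hii, ← hρr] at h2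
    set q := u i / u j with hq
    have hq0 : q ≠ 0 := div_ne_zero (hu _) (hu _)
    have hqi : u j / u i = q⁻¹ := by rw [hq, inv_div]
    rw [hqi] at h2
    have h3 : (q - ρ) * (q * ρ - 1) = 0 := by
      have h4 : q * ρ * (q + q⁻¹) = q * ρ * (ρ + ρ⁻¹) := by rw [h2]
      have h5 : q * ρ * (q + q⁻¹) = q ^ 2 * ρ + ρ := by field_simp
      have h6 : q * ρ * (ρ + ρ⁻¹) = q * ρ ^ 2 + q := by field_simp
      rw [h5, h6] at h4
      linear_combination h4
    rcases mul_eq_zero.1 h3 with h7 | h7
    · rw [sub_eq_zero.1 h7]; exact hρm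
    · have h8 : q = ρ⁻¹ := eq_inv_of_mul_eq_one_left (sub_eq_zero.1 h7)
      rw [h8, inv_pow, hρm, inv_one]

theorem zl_kraw {d : ℕ} {a b c : Module.Basis (Fin (d + 1)) K V} {α β γ : K}
    (h : Setup a b c A B C r s t α β γ) (hd : 1 ≤ d) :
    (A * B - B * A ∈ Submodule.span K ({1, A, B, C} : Set (Module.End K V))) →
    ∃ e f f' : K, C = e • 1 + f • A + f' • B + (γ / 2) • (A * B - B * A) := by
  intro hspan
  have h2 := h.h2
  rw [Submodule.mem_span_insert] at hspan
  obtain ⟨x, z1, hz1, hx⟩ := hspan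
  rw [Submodule.mem_span_insert] at hz1
  obtain ⟨y, z2, hz2, rfl⟩ := hz1
  rw [Submodule.mem_span_pair] at hz2
  obtain ⟨z, w, rfl⟩ := hz2
  have hw : w ≠ 0 := by
    intro hw0
    rw [hw0, zero_smul, add_zero] at hx
    have h3 := h.lt.pAB.indep4 hd h2 (x := x) (y := y) (z := z) (w := -1) (by rw [hx]; module)
    have h4 := h3.2.2.2
    have : (1 : K) = 0 := by linear_combination (-1 : K) * h4
    exact one_ne_zero this
  have hPne : A * B - B * A ≠ 0 := by
    intro h0
    have h3 := h.lt.pAB.indep4 hd h2 (x := 0) (y := 0) (z := 0) (w := 1) (by rw [h0]; module)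
    exact one_ne_zero h3.2.2.2
  set P := A * B - B * A with hP
  have hC : C = (-(x / w)) • 1 + (-(y / w)) • A + (-(z / w)) • B + w⁻¹ • P := by
    rw [hx]
    match_scalars <;> field_simp <;> ring
  have hr1 : r 1 = 1 := by
    have h5 : r (1 * r.symm 1) = r (r.symm 1) * r 1 := h.hr.anti _ _
    rw [one_mul, r.apply_symm_apply, one_mul] at h5
    exact h5.symm
  have hrP : r P = -P := by
    rw [hP, map_sub, h.hr.anti, h.hr.anti, h.hr.fixA, h.hr.fixB]
    abel
  have hrC : r C = (-(x / w)) • 1 + (-(y / w)) • A + (-(z / w)) • B + w⁻¹ • (-P) := by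
    conv_lhs => rw [hC]
    rw [map_add, map_add, map_add, map_smul, map_smul, map_smul, map_smul, hr1, h.hr.fixA,
      h.hr.fixB, hrP]
  have h6 := h.eC
  have h7 : C - r C = (2 * w⁻¹) • P := by
    rw [hrC]
    conv_lhs => rw [hC]
    module
  rw [← hP, h7] at h6
  have h8 : (2 * w⁻¹ - γ) • P = 0 := by rw [sub_smul, h6, sub_self]
  have h9 : 2 * w⁻¹ - γ = 0 := by
    rcases smul_eq_zero.1 h8 with h | h
    · exact h
    · exact absurd h hPne
  have h10 : γ / 2 = w⁻¹ := by
    rw [div_eq_iff h2]; linear_combination (-1 : K) * h9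
  exact ⟨_, _, _, by rw [h10]; exact hC⟩

/-- zl: the structure theorem -/
theorem structure_theorem [CharZero K] (h : LeonardTriple A B C) (hr : IsAnti r A B)
    (hs : IsAnti s A C) (ht : IsAnti t B C) (hd : 2 ≤ Module.finrank K V) :
    (r = s ∧ s = t ∧ r * r = 1 ∧ r ≠ 1) ∨
    (r ≠ s ∧ r ≠ t ∧ s ≠ t ∧ ∃ α β γ : K, α ≠ 0 ∧ β ≠ 0 ∧ γ ≠ 0 ∧
      C - r C = γ • (A * B - B * A) ∧ A - t A = α • (B * C - C * B) ∧
      B - s B = β • (C * A - A * C) ∧
      OrderRule A B C (r * s) (β * γ) ∧ OrderRule B A C (r * t) (α * γ) ∧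
      OrderRule C A B (s * t) (α * β) ∧
      ((A * B - B * A ∈ Submodule.span K ({1, A, B, C} : Set (Module.End K V)) ∧
        ∃ f f' g g' k k' : K, KData A B C r s t f f' g g' k k' ∧
          ∀ ω : List (Fin 3), wordG r s t ω = 1 ↔ wordM (cartM f f' g g' k k') ω = 1) ∨
      (A * B - B * A ∉ Submodule.span K ({1, A, B, C} : Set (Module.End K V)) ∧
        3 ≤ Module.finrank K V ∧ orderOf (r * s) ≠ 2 ∧ orderOf (r * t) ≠ 2 ∧
        orderOf (s * t) ≠ 2 ∧
        (4 ≤ Module.finrank K V → orderOf (r * s) ≠ 3 ∧ orderOf (r * t) ≠ 3 ∧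
          orderOf (s * t) ≠ 3)))) := by
  have h2 : (2 : K) ≠ 0 := two_ne_zero
  obtain ⟨d, a, b, c, α, β, γ, hS⟩ := exists_setup h2 h hr hs ht
  have hfr : Module.finrank K V = d + 1 := by
    rw [Module.finrank_eq_card_basis a, Fintype.card_fin]
  have hd1 : 1 ≤ d := by omega
  by_cases hγ : γ = 0
  · left
    obtain ⟨h3, h4⟩ := hS.degenerate hd1 hγ
    refine ⟨h3, h4, hS.lt.pAB.anti_sq hr, ?_⟩
    rintro rfl
    have h5 := hr.anti A B
    simp only [LinearEquiv.coe_one, id_eq] at h5
    have h6 := hS.lt.pAB.indep4 hd1 h2 (x := 0) (y := 0) (z := 0) (w := 1) (by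
      rw [h5]; simp)
    exact one_ne_zero h6.2.2.2
  · right
    obtain ⟨hα, hβ, h3, h4, h5⟩ := hS.nondegenerate hd1 hγ
    have hS2 := hS.swap
    have hS3 := hS.rot.rot
    have hK3 := hS3.krawtchouk_rot hd1 hβ
    refine ⟨h3, h4, h5, α, β, γ, hα, hβ, hγ, hS.eC, hS.eA, hS.eB, hS.orderRule, ?_,
      hS3.orderRule, ?_⟩
    · have := hS2.orderRule
      rw [neg_mul_neg] at this
      exact this
    by_cases hk : ∃ e f f' : K, C = e • 1 + f • A + f' • B + (γ / 2) • (A * B - B * A)
    · left
      obtain ⟨e, f, f', hC⟩ := hk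
      constructor
      · have hP : A * B - B * A = (2 / γ) • C + (-(2 / γ * e)) • (1 : Module.End K V)
            + (-(2 / γ * f)) • A + (-(2 / γ * f')) • B := by
          conv_rhs => rw [hC]
          match_scalars <;> field_simp <;> ring
        have m1 : (1 : Module.End K V) ∈ Submodule.span K ({1, A, B, C} : Set (Module.End K V)) :=
          Submodule.subset_span (by simp)
        have m2 : A ∈ Submodule.span K ({1, A, B, C} : Set (Module.End K V)) :=
          Submodule.subset_span (by simp)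
        have m3 : B ∈ Submodule.span K ({1, A, B, C} : Set (Module.End K V)) :=
          Submodule.subset_span (by simp)
        have m4 : C ∈ Submodule.span K ({1, A, B, C} : Set (Module.End K V)) :=
          Submodule.subset_span (by simp)
        rw [hP]
        exact Submodule.add_mem _ (Submodule.add_mem _ (Submodule.add_mem _
          (Submodule.smul_mem _ _ m4) (Submodule.smul_mem _ _ m1)) (Submodule.smul_mem _ _ m2))
          (Submodule.smul_mem _ _ m3)
      · obtain ⟨g, g', k, k', hkd, _, _, _⟩ := hS.kdata hd1 hγ hC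
        exact ⟨f, f', g, g', k, k', hkd, fun ω =>
          ⟨hS.word_trivial hd1 hγ hkd, hS.word_trivial' hd1 hγ hkd⟩⟩
    · right
      have hsw : ∀ (x y y' : K), C = x • 1 + y • B + y' • A + ((-γ) / 2) • (B * A - A * B) →
          False := by
        intro x y y' hC
        apply hk
        refine ⟨x, y', y, ?_⟩
        conv_lhs => rw [hC]
        have : ((-γ) / 2) • (B * A - A * B) = (γ / 2) • (A * B - B * A) := by
          rw [neg_div, neg_smul, ← smul_neg, neg_sub]
        rw [this]
        abel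
      refine ⟨fun hin => hk (zl_kraw hS hd1 hin), ?_, ?_, ?_, ?_, ?_⟩
      · by_contra hlt
        have hd2 : d = 1 := by omega
        subst hd2
        exact hk hS.expr_two
      · intro ho
        obtain ⟨e, f, hC⟩ := hS.order_two hd1 hγ (by rw [← ho]; exact pow_orderOf_eq_one _)
        exact hk ⟨e, f, 0, by rw [zero_smul, add_zero]; exact hC⟩
      · intro ho
        obtain ⟨e, f, hC⟩ := hS2.order_two hd1 (neg_ne_zero.2 hγ)
          (by rw [← ho]; exact pow_orderOf_eq_one _)
        exact hsw e f 0 (by rw [zero_smul, add_zero]; exact hC)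
      · intro ho
        obtain ⟨e, f, hB⟩ := hS3.order_two hd1 hβ (by rw [← ho]; exact pow_orderOf_eq_one _)
        exact hk (hK3.1 ⟨e, f, 0, by rw [zero_smul, add_zero]; exact hB⟩)
      · intro h4f
        have hd3 : 3 ≤ d := by omega
        refine ⟨?_, ?_, ?_⟩
        · intro ho
          exact hk (hS.order_three hd3 hγ (by rw [← ho]; exact pow_orderOf_eq_one _))
        · intro ho
          obtain ⟨e, f, f', hC⟩ := hS2.order_three hd3 (neg_ne_zero.2 hγ)
            (by rw [← ho]; exact pow_orderOf_eq_one _)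
          exact hsw e f f' hC
        · intro ho
          exact hk (hK3.1 (hS3.order_three hd3 hβ (by rw [← ho]; exact pow_orderOf_eq_one _)))

end

end Pool.Agent.Leo
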