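import Pool.Agent.Leo.Crit

/-!
# Generic triples, part A: places, transcendence, traces
-/

namespace Pool.Agent.Leo

universe u v

/-- a valuation ring of `K` with a homomorphism to the field `k` whose kernel consists of
non-units -/
structure Place (K : Type u) (k : Type v) [Field K] [Field k] where
  O : ValuationSubring K
  π : O →+* k
  unit : ∀ z, π z ≠ 0 → IsUnit z

section
variable {K : Type u} {k : Type v} [Field K] [Field k] (P : Place K k)

/-- `x` lies in the valuation ring and has the residue `y` -/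
def Place.Has (x : K) (y : k) : Prop := ∃ z : P.O, (z : K) = x ∧ P.π z = y

variable {P} {x x' : K} {y y' : k}

/-- ga: calculus with residues -/
theorem Place.Has.add (h : P.Has x y) (h' : P.Has x' y') : P.Has (x + x') (y + y') := by
  obtain ⟨z, rfl, rfl⟩ := h
  obtain ⟨z', rfl, rfl⟩ := h'
  exact ⟨z + z', rfl, map_add _ _ _⟩

/-- ga -/
theorem Place.Has.sub (h : P.Has x y) (h' : P.Has x' y') : P.Has (x - x') (y - y') := by
  obtain ⟨z, rfl, rfl⟩ := h
  obtain ⟨z', rfl, rfl⟩ := h'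
  exact ⟨z - z', rfl, map_sub _ _ _⟩

/-- ga -/
theorem Place.Has.mul (h : P.Has x y) (h' : P.Has x' y') : P.Has (x * x') (y * y') := by
  obtain ⟨z, rfl, rfl⟩ := h
  obtain ⟨z', rfl, rfl⟩ := h'
  exact ⟨z * z', rfl, map_mul _ _ _⟩

/-- ga -/
theorem Place.Has.neg (h : P.Has x y) : P.Has (-x) (-y) := by
  obtain ⟨z, rfl, rfl⟩ := h
  exact ⟨-z, rfl, map_neg _ _⟩

/-- ga -/
theorem Place.Has.pow (h : P.Has x y) (n : ℕ) : P.Has (x ^ n) (y ^ n) := by
  obtain ⟨z, rfl, rfl⟩ := h
  exact ⟨z ^ n, rfl, map_pow _ _ _⟩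

/-- ga -/
theorem Place.has_natCast (n : ℕ) : P.Has (n : K) (n : k) :=
  ⟨(n : P.O), by simp, map_natCast _ _⟩

/-- ga -/
theorem Place.has_zero : P.Has 0 0 := ⟨0, rfl, map_zero _⟩

/-- ga -/
theorem Place.has_one : P.Has 1 1 := ⟨1, rfl, map_one _⟩

/-- ga -/
theorem Place.has_two : P.Has 2 2 := by
  have := Place.has_natCast (P := P) 2
  simpa using this

/-- ga -/
theorem Place.Has.ne_zero (h : P.Has x y) (hy : y ≠ 0) : x ≠ 0 := by
  obtain ⟨z, rfl, rfl⟩ := h
  intro h0
  apply hy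
  have : z = 0 := Subtype.ext h0
  rw [this, map_zero]

/-- ga -/
theorem Place.Has.inv (h : P.Has x y) (hy : y ≠ 0) : P.Has x⁻¹ y⁻¹ := by
  have hx := h.ne_zero hy
  obtain ⟨z, rfl, rfl⟩ := h
  obtain ⟨w, hw⟩ := P.unit z hy
  have h1 : z * ((w⁻¹ : (P.O)ˣ) : P.O) = 1 := by rw [← hw]; exact w.mul_inv
  refine ⟨((w⁻¹ : (P.O)ˣ) : P.O), ?_, ?_⟩
  · have h2 : (z : K) * (((w⁻¹ : (P.O)ˣ) : P.O) : K) = 1 := by
      have := congrArg (fun t : P.O => (t : K)) h1
      simpa using this
    exact eq_inv_of_mul_eq_one_right h2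
  · have h2 := congrArg P.π h1
    rw [map_mul, map_one] at h2
    exact eq_inv_of_mul_eq_one_right h2

/-- ga -/
theorem Place.Has.div (h : P.Has x y) (h' : P.Has x' y') (hy : y' ≠ 0) :
    P.Has (x / x') (y / y') := by
  rw [div_eq_mul_inv, div_eq_mul_inv]
  exact h.mul (h'.inv hy)

/-- ga -/
theorem Place.Has.sum {ι : Type*} (s : Finset ι) {f : ι → K} {g : ι → k}
    (h : ∀ i ∈ s, P.Has (f i) (g i)) : P.Has (∑ i ∈ s, f i) (∑ i ∈ s, g i) := by
  classical
  induction s using Finset.induction_on with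
  | empty => simpa using Place.has_zero
  | insert a s ha ih =>
    rw [Finset.sum_insert ha, Finset.sum_insert ha]
    exact (h a (Finset.mem_insert_self _ _)).add
      (ih fun i hi => h i (Finset.mem_insert_of_mem hi))

/-- ga -/
theorem Place.Has.unique (h : P.Has x y) (h' : P.Has x y') : y = y' := by
  obtain ⟨z, rfl, rfl⟩ := h
  obtain ⟨z', hz, rfl⟩ := h'
  rw [Subtype.ext hz]

/-- ga -/
theorem Place.has_of_mem (h : x ∈ P.O) : ∃ y, P.Has x y := ⟨_, ⟨x, h⟩, rfl, rfl⟩

/-- ga -/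
theorem Place.Has.mem (h : P.Has x y) : x ∈ P.O := by
  obtain ⟨z, rfl, rfl⟩ := h
  exact z.2

/-- ga: square roots of integral elements are integral -/
theorem Place.Has.sqrt (h : P.Has (x ^ 2) y) : ∃ y', P.Has x y' ∧ y' ^ 2 = y := by
  have hx : x ∈ P.O := by
    rcases P.O.mem_or_inv_mem x with h1 | h1
    · exact h1
    · by_cases h0 : x = 0
      · rw [h0]; exact P.O.zero_mem
      · have : x = x ^ 2 * x⁻¹ := by field_simp
        rw [this]
        exact P.O.mul_mem _ _ h.mem h1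
  obtain ⟨y', hy'⟩ := Place.has_of_mem hx
  exact ⟨y', hy', (hy'.pow 2).unique h⟩

/-- gb: two unknowns which are integral up to a small perturbation are integral -/
theorem Place.nakayama {e e' o o' m₁ m₂ m₃ m₄ : K} {p p' : k} (ho : P.Has o p)
    (ho' : P.Has o' p') (h1 : P.Has m₁ 0) (h2 : P.Has m₂ 0) (h3 : P.Has m₃ 0) (h4 : P.Has m₄ 0)
    (he : e = o + m₁ * e + m₂ * e') (he' : e' = o' + m₃ * e + m₄ * e') :
    P.Has e p ∧ P.Has e' p' := by
  have hD : P.Has ((1 - m₁) * (1 - m₄) - m₂ * m₃) 1 := by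
    have := ((Place.has_one.sub h1).mul (Place.has_one.sub h4)).sub (h2.mul h3)
    simpa using this
  have hD0 := hD.ne_zero one_ne_zero
  have e1 : e = (o * (1 - m₄) + m₂ * o') / ((1 - m₁) * (1 - m₄) - m₂ * m₃) := by
    rw [eq_div_iff hD0]
    linear_combination (1 - m₄) * he + m₂ * he'
  have e2 : e' = (o' * (1 - m₁) + m₃ * o) / ((1 - m₁) * (1 - m₄) - m₂ * m₃) := by
    rw [eq_div_iff hD0]
    linear_combination (1 - m₁) * he' + m₃ * he
  constructor
  · rw [e1]
    have := ((ho.mul (Place.has_one.sub h4)).add (h2.mul ho')).div hD one_ne_zero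
    simpa using this
  · rw [e2]
    have := ((ho'.mul (Place.has_one.sub h1)).add (h3.mul ho)).div hD one_ne_zero
    simpa using this

end

/-- gc: a transcendental element has a place with value `1` which is an embedding on the
subfield -/
theorem exists_place {K : Type u} [Field K] [CharZero K] (E : IntermediateField ℚ K) {x : K}
    (hx : Transcendental E x) :
    ∃ (k : Type u) (_ : Field k) (_ : CharZero k) (P : Place K k) (ι : E →+* k),
      (∀ z : E, P.Has (z : K) (ι z)) ∧ P.Has x 1 := by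
  classical
  let A : Subring K := (Polynomial.aeval (R := E) x).toRingHom.range
  have hxA : x - 1 ∈ A := ⟨Polynomial.X - 1, by
    change Polynomial.aeval x (Polynomial.X - 1 : Polynomial E) = x - 1
    rw [map_sub, Polynomial.aeval_X, map_one]⟩
  have hEA : ∀ z : E, (z : K) ∈ A := fun z => ⟨Polynomial.C z, by
    change Polynomial.aeval x (Polynomial.C z) = (z : K)
    rw [Polynomial.aeval_C]; rfl⟩
  have hI : Ideal.span {(⟨x - 1, hxA⟩ : A)} ≠ ⊤ := by
    rw [Ne, Ideal.span_singleton_eq_top]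
    intro hu
    obtain ⟨w, hw⟩ := hu.exists_right_inv
    obtain ⟨p, hp⟩ := w.2
    have hp' : Polynomial.aeval x p = (w : K) := hp
    have h1 : (x - 1) * (w : K) = 1 := by
      have := congrArg (fun t : A => (t : K)) hw
      simpa using this
    have h2 : Polynomial.aeval x ((Polynomial.X - 1) * p - 1 : Polynomial E) = 0 := by
      rw [map_sub, map_mul, map_sub, Polynomial.aeval_X, map_one, hp', h1, sub_self]
    have h3 : ((Polynomial.X - 1) * p - 1 : Polynomial E) = 0 := by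
      by_contra h0
      exact hx ⟨_, h0, h2⟩
    have h4 := congrArg (Polynomial.eval 1) h3
    simp at h4
  obtain ⟨B, hAB, hB⟩ := Ideal.image_subset_nonunits_valuationSubring _ hI
  have hx1 : x - 1 ∈ B.nonunits := hB ⟨⟨x - 1, hxA⟩, Ideal.subset_span rfl, rfl⟩
  have hx1B : x - 1 ∈ B := B.nonunits_subset hx1
  have hm : (⟨x - 1, hx1B⟩ : B) ∈ IsLocalRing.maximalIdeal B :=
    B.coe_mem_nonunits_iff.1 hx1
  have hxB : x ∈ B := by
    have := B.add_mem _ _ hx1B B.one_mem
    rwa [sub_add_cancel] at this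
  let ι₀ : E →+* B := (algebraMap E K).codRestrict B (fun z => hAB (hEA z))
  let ι : E →+* IsLocalRing.ResidueField B := (IsLocalRing.residue B).comp ι₀
  refine ⟨IsLocalRing.ResidueField B, inferInstance,
    charZero_of_injective_ringHom ι.injective,
    ⟨B, IsLocalRing.residue B, fun z hz => (IsLocalRing.residue_ne_zero_iff_isUnit z).1 hz⟩, ι,
    fun z => ⟨ι₀ z, rfl, rfl⟩, ⟨⟨x, hxB⟩, rfl, ?_⟩⟩
  have h5 : (⟨x, hxB⟩ : B) = ⟨x - 1, hx1B⟩ + 1 := by
    apply Subtype.ext
    change x = (x - 1) + 1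
    ring
  change IsLocalRing.residue B ⟨x, hxB⟩ = 1
  rw [h5, map_add, map_one, (IsLocalRing.residue_eq_zero_iff _).2 hm, zero_add]

/-- gd: algebraic independence is preserved by an embedding of the subfield -/
theorem indep_image {K : Type u} {k : Type v} [Field K] [Field k] [CharZero K] [CharZero k]
    {E : IntermediateField ℚ K} (ι : E →+* k) {n : ℕ} {x : Fin n → E}
    (h : AlgebraicIndependent ℚ (fun i => (x i : K))) :
    AlgebraicIndependent ℚ (fun i => ι (x i)) := by
  have h1 : AlgebraicIndependent ℚ x := by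
    have h2 := (AlgHom.algebraicIndependent_iff (R := ℚ) (x := x) E.val E.val.injective)
    exact h2.1 h
  have h3 := h1.map' (f := ι.toRatAlgHom) ι.injective
  exact h3

/-- ge: if `n` algebraically independent elements are in the field generated by `n` elements,
then these are algebraically independent -/
theorem indep_of_mem {K : Type u} [Field K] [CharZero K] {n : ℕ} {x y : Fin n → K}
    (h : AlgebraicIndependent ℚ y)
    (hm : ∀ i, y i ∈ IntermediateField.adjoin ℚ (Set.range x)) : AlgebraicIndependent ℚ x := by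
  classical
  obtain ⟨L, hL⟩ : ∃ L, L = IntermediateField.adjoin ℚ (Set.range x) := ⟨_, rfl⟩
  have hxL : ∀ i, x i ∈ L := fun i => by
    rw [hL]; exact IntermediateField.subset_adjoin ℚ _ ⟨i, rfl⟩
  rw [← hL] at hm
  obtain ⟨x', hx'⟩ : ∃ x' : Fin n → L, ∀ i, x' i = ⟨x i, hxL i⟩ := ⟨_, fun _ => rfl⟩
  obtain ⟨y', hy'⟩ : ∃ y' : Fin n → L, ∀ i, y' i = ⟨y i, hm i⟩ := ⟨_, fun _ => rfl⟩
  have h1 : AlgebraicIndependent ℚ y' := by
    refine (AlgHom.algebraicIndependent_iff (R := ℚ) (x := y') L.val L.val.injective).1 ?_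
    have : (L.val ∘ y') = y := by
      funext i
      change ((y' i : L) : K) = y i
      rw [hy']
    rw [this]
    exact h
  have h2 : Algebra.IsAlgebraic (Algebra.adjoin ℚ (Set.range x')) L := by
    have key : ∀ w (hw : w ∈ IntermediateField.adjoin ℚ (Set.range x)) (hw' : w ∈ L),
        IsAlgebraic (Algebra.adjoin ℚ (Set.range x')) (⟨w, hw'⟩ : L) := by
      intro w hw
      induction hw using IntermediateField.adjoin_induction with
      | mem w hw =>
        intro hw'
        obtain ⟨i, rfl⟩ := hw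
        have h3 : x' i ∈ Algebra.adjoin ℚ (Set.range x') := Algebra.subset_adjoin ⟨i, rfl⟩
        have h4 := isAlgebraic_algebraMap (A := L)
          (⟨x' i, h3⟩ : Algebra.adjoin ℚ (Set.range x'))
        rw [← hx' i]
        exact h4
      | algebraMap r =>
        intro hw'
        have h3 : algebraMap ℚ L r ∈ Algebra.adjoin ℚ (Set.range x') :=
          Subalgebra.algebraMap_mem _ r
        have h4 := isAlgebraic_algebraMap (A := L)
          (⟨algebraMap ℚ L r, h3⟩ : Algebra.adjoin ℚ (Set.range x'))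
        exact h4
      | add a b ha hb iha ihb =>
        intro hw'
        rw [← hL] at ha hb
        exact (iha ha).add (ihb hb)
      | inv a ha iha =>
        intro hw'
        rw [← hL] at ha
        exact (iha ha).inv
      | mul a b ha hb iha ihb =>
        intro hw'
        rw [← hL] at ha hb
        exact (iha ha).mul (ihb hb)
    refine ⟨fun z => ?_⟩
    have hz := z.2
    have hz' : (z : K) ∈ IntermediateField.adjoin ℚ (Set.range x) := by rw [← hL]; exact hz
    exact key z hz' hz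
  have h3 : IsTranscendenceBasis ℚ x' :=
    Algebra.IsAlgebraic.isTranscendenceBasis_of_lift_le_trdeg_of_finite ℚ x'
      h1.lift_cardinalMk_le_trdeg
  have h4 : AlgebraicIndependent ℚ (fun i => ((x' i : L) : K)) :=
    h3.1.map' (f := L.val) L.val.injective
  have h5 : (fun i => ((x' i : L) : K)) = x := by
    funext i
    rw [hx']
  rw [h5] at h4
  exact h4

section
variable {K : Type u} [Field K] {V : Type v} [AddCommGroup V] [Module K V] {d : ℕ}
  {a : Module.Basis (Fin (d + 1)) K V} {φ : Module.End K V ≃ₗ[K] Module.End K V} {ω ρ : K}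

/-- gf: the trace of `φ` and of its powers are in the field generated by the parameters -/
theorem GeoRatio.trace_mem [CharZero K] (h : GeoRatio a φ ω ρ) (m : ℕ) :
    LinearMap.trace K (Module.End K V) (φ ^ m).toLinearMap ∈
      IntermediateField.adjoin ℚ ({ω, ρ} : Set K) := by
  obtain ⟨u, hu, hX, hr⟩ := h
  have key : ∀ (m : ℕ) X (i j : Fin (d + 1)),
      mt a ((φ ^ m) X) i j = (u i / u j) ^ m * mt a X i j := by
    intro m
    induction m with
    | zero => intro X i j; simp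
    | succ m ih =>
      intro X i j
      rw [pow_succ', LinearEquiv.mul_apply, hX, ih, pow_succ']
      ring
  have hω : ω ∈ IntermediateField.adjoin ℚ ({ω, ρ} : Set K) :=
    IntermediateField.subset_adjoin ℚ _ (by simp)
  have hρ : ρ ∈ IntermediateField.adjoin ℚ ({ω, ρ} : Set K) :=
    IntermediateField.subset_adjoin ℚ _ (by simp)
  have h0 : ∀ j, j < d + 1 → u 0 / u j ∈ IntermediateField.adjoin ℚ ({ω, ρ} : Set K) := by
    intro j
    induction j with
    | zero => intro h0; rw [div_self (hu 0 h0)]; exact one_mem _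
    | succ j ih =>
      intro hj
      have h1 := ih (by omega)
      have h2 : u 0 / u (j + 1) = u 0 / u j * (ω ^ j * ρ) := by
        rw [← hr j (by omega)]
        have := hu j (by omega)
        field_simp
      rw [h2]
      exact mul_mem h1 (mul_mem (pow_mem hω j) hρ)
  rw [trace_diag a (φ ^ m) (fun i j => (u i / u j) ^ m) (fun X i j => key m X i j)]
  refine sum_mem fun i _ => sum_mem fun j _ => pow_mem ?_ m
  have h3 : u i / u j = (u 0 / u j) / (u 0 / u i) := by
    have := hu 0 (by omega)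
    have := hu i i.2
    have := hu j j.2
    field_simp
  rw [h3]
  exact div_mem (h0 j j.2) (h0 i i.2)

end

/-- gg: the residual Cartan matrix of algebraically independent parameters is nonsingular -/
theorem det_ne {F : Type u} [Field F] [CharZero F] {f f' g g' k k' ρ σ τ : F}
    (hρ : ρ ≠ 0) (hσ : σ ≠ 0) (hτ : τ ≠ 0)
    (h1 : 4 * (f' * g) = 2 + ρ + ρ⁻¹) (h2 : 4 * (f * k') = 2 + σ + σ⁻¹)
    (h3 : 4 * (g' * k) = 2 + τ + τ⁻¹) (hc : f * g * k = f' * g' * k')
    (hI : AlgebraicIndependent ℚ ![ρ, σ, τ]) :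
    1 - f' * g - g' * k - k' * f - 2 * (f * g * k) ≠ 0 := by
  intro h0
  have e1 : 4 * (f' * g) * ρ = (ρ + 1) ^ 2 := by
    rw [h1]; field_simp; ring
  have e2 : 4 * (f * k') * σ = (σ + 1) ^ 2 := by
    rw [h2]; field_simp; ring
  have e3 : 4 * (g' * k) * τ = (τ + 1) ^ 2 := by
    rw [h3]; field_simp; ring
  have h4 : (1 - f' * g - g' * k - k' * f) ^ 2 = 4 * ((f' * g) * (f * k') * (g' * k)) := by
    have h5 : 1 - f' * g - g' * k - k' * f = 2 * (f * g * k) := by linear_combination h0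
    rw [h5]
    linear_combination 4 * (f * g * k) * hc
  obtain ⟨p, hp⟩ : ∃ p : MvPolynomial (Fin 3) ℚ, p =
      (4 * MvPolynomial.X 0 * MvPolynomial.X 1 * MvPolynomial.X 2
        - (MvPolynomial.X 0 + 1) ^ 2 * MvPolynomial.X 1 * MvPolynomial.X 2
        - (MvPolynomial.X 1 + 1) ^ 2 * MvPolynomial.X 0 * MvPolynomial.X 2
        - (MvPolynomial.X 2 + 1) ^ 2 * MvPolynomial.X 0 * MvPolynomial.X 1) ^ 2
      - (MvPolynomial.X 0 + 1) ^ 2 * (MvPolynomial.X 1 + 1) ^ 2 * (MvPolynomial.X 2 + 1) ^ 2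
        * MvPolynomial.X 0 * MvPolynomial.X 1 * MvPolynomial.X 2 := ⟨_, rfl⟩
  have h6 : MvPolynomial.aeval ![ρ, σ, τ] p = 0 := by
    rw [hp]
    simp only [map_sub, map_mul, map_pow, map_add, map_one, map_ofNat, MvPolynomial.aeval_X]
    change (4 * ρ * σ * τ - (ρ + 1) ^ 2 * σ * τ - (σ + 1) ^ 2 * ρ * τ - (τ + 1) ^ 2 * ρ * σ) ^ 2
      - (ρ + 1) ^ 2 * (σ + 1) ^ 2 * (τ + 1) ^ 2 * ρ * σ * τ = 0
    rw [← e1, ← e2, ← e3]
    linear_combination 16 * ρ ^ 2 * σ ^ 2 * τ ^ 2 * h4
  have h7 : p = 0 := algebraicIndependent_iff.1 hI p h6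
  have h8 := congrArg (MvPolynomial.aeval (fun _ => (-1 : ℚ))) h7
  rw [hp] at h8
  simp only [map_sub, map_mul, map_pow, map_add, map_one, map_ofNat, MvPolynomial.aeval_X,
    map_zero] at h8
  norm_num at h8

private theorem gh_trans {F : Type u} [Field F] [CharZero F] {E : IntermediateField ℚ F} {z : F}
    (hz : Transcendental E z) : Transcendental E (2 + z + z⁻¹) := by
  intro hw
  apply hz
  have hz0 : z ≠ 0 := by
    rintro rfl
    exact hz isAlgebraic_zero
  set w := 2 + z + z⁻¹ with hwdef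
  have h1 : IsAlgebraic (algebraicClosure E F) z := by
    have hwm : w ∈ algebraicClosure E F := mem_algebraicClosure_iff.2 hw
    refine ⟨Polynomial.X ^ 2 + (Polynomial.C ((2 : algebraicClosure E F) - ⟨w, hwm⟩) *
      Polynomial.X + Polynomial.C 1), ?_, ?_⟩
    · intro h0
      have h2 := congrArg (fun p => Polynomial.coeff p 2) h0
      simp [Polynomial.coeff_one] at h2
    · simp only [map_add, map_mul, map_pow, Polynomial.aeval_X, Polynomial.aeval_C, map_one,
        map_sub, map_ofNat]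
      have h3 : (algebraMap (algebraicClosure E F) F) ⟨w, hwm⟩ = w := rfl
      rw [h3, hwdef]
      field_simp
      ring
  exact h1.restrictScalars E

private theorem gh_mem {F : Type u} [Field F] [CharZero F] {S : Set F} {z : F} (hz : z ∈ S) :
    2 + z + z⁻¹ ∈ clo S := by
  have h1 : z ∈ clo S := mem_clo_of_aeval (F := Polynomial.X) (by simp) (by simpa using hz)
  exact add_mem (add_mem (ofNat_mem _ 2) h1) (inv_mem h1)

/-- gh: a word which is trivial for the residual Cartan matrix is trivial in the universal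
Coxeter group -/
theorem coxeter_of_generic {F : Type u} [Field F] [CharZero F] {f f' g g' k k' ρ σ τ : F}
    (hρ : ρ ≠ 0) (hσ : σ ≠ 0) (hτ : τ ≠ 0)
    (h1 : 4 * (f' * g) = 2 + ρ + ρ⁻¹) (h2 : 4 * (f * k') = 2 + σ + σ⁻¹)
    (h3 : 4 * (g' * k) = 2 + τ + τ⁻¹) (hc : f * g * k = f' * g' * k')
    (hI : AlgebraicIndependent ℚ ![ρ, σ, τ]) {G : Type v} [Group G] {r s t : G}
    (rr : r * r = 1) (ss : s * s = 1) (tt : t * t = 1) (o1 : orderOf (r * s) = 0)
    (o2 : orderOf (r * t) = 0) (o3 : orderOf (s * t) = 0)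
    (hw : ∀ ω : List (Fin 3), wordG r s t ω = 1 → wordM (cartM f f' g g' k k') ω = 1) :
    IsCoxeterTriple r s t := by
  have tr : ∀ (S : Set (Fin 3)) (i : Fin 3), i ∉ S →
      Transcendental (clo (![ρ, σ, τ] '' S)) (2 + ![ρ, σ, τ] i + (![ρ, σ, τ] i)⁻¹) :=
    fun S i hi => gh_trans (transcendental_clo hI hi)
  have t0 : Transcendental (clo (![ρ, σ, τ] '' ({2} : Set (Fin 3)))) (2 + ρ + ρ⁻¹) :=
    tr {2} 0 (by simp)
  have t1 : Transcendental (clo (![ρ, σ, τ] '' ({0, 2} : Set (Fin 3)))) (2 + σ + σ⁻¹) :=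
    tr {0, 2} 1 (by simp)
  have t2 : Transcendental (clo (![ρ, σ, τ] '' (∅ : Set (Fin 3)))) (2 + τ + τ⁻¹) :=
    tr ∅ 2 (by simp)
  obtain ⟨M, M01, M02, M12⟩ := exists_coxeterMatrix (p := 0) (q := 0) (l := 0) (by norm_num)
    (by norm_num) (by norm_num)
  refine isCoxeterTriple_of_words M rr ss tt (M01.trans o1.symm) (M02.trans o2.symm)
    (M12.trans o3.symm) fun ω hω => ?_
  set N := cartM f f' g g' k k' with hN
  have N01 : N 0 1 = -(2 * f') := rfl
  have N02 : N 0 2 = -(2 * f) := rfl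
  have N10 : N 1 0 = -(2 * g) := rfl
  have N12 : N 1 2 = -(2 * g') := rfl
  have N20 : N 2 0 = -(2 * k') := rfl
  have N21 : N 2 1 = -(2 * k) := rfl
  have P01 : N 0 1 * N 1 0 = 2 + ρ + ρ⁻¹ := by rw [N01, N10, ← h1]; ring
  have P02 : N 0 2 * N 2 0 = 2 + σ + σ⁻¹ := by rw [N02, N20, ← h2]; ring
  have P12 : N 1 2 * N 2 1 = 2 + τ + τ⁻¹ := by rw [N12, N21, ← h3]; ring
  have n01 : N 0 1 * N 1 0 ≠ 0 := by
    rw [P01]
    intro h
    rw [h] at t0
    exact t0 isAlgebraic_zero
  have n12 : N 1 2 * N 2 1 ≠ 0 := by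
    rw [P12]
    intro h
    rw [h] at t2
    exact t2 isAlgebraic_zero
  have hS0 : Spec (clo (![ρ, σ, τ] '' (∅ : Set (Fin 3)))) (![] : Fin 0 → F) (![] : Fin 0 → ℂ) :=
    spec_nil _
  have hS1 := hS0.cons (E' := clo (![ρ, σ, τ] '' ({2} : Set (Fin 3))))
    (clo_mono (Set.image_mono (Set.empty_subset _))) t2
    (gh_mem ⟨2, rfl, rfl⟩) (((4 * Real.cos (Real.pi / (0 : ℕ)) ^ 2 : ℝ) : ℂ))
  have hS2 := hS1.cons (E' := clo (![ρ, σ, τ] '' ({0, 2} : Set (Fin 3))))
    (clo_mono (Set.image_mono (by simp))) t0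
    (gh_mem ⟨0, Or.inl rfl, rfl⟩) (((4 * Real.cos (Real.pi / (0 : ℕ)) ^ 2 : ℝ) : ℂ))
  have hS : Spec (clo (![ρ, σ, τ] '' ({0, 2} : Set (Fin 3)))) ![N 0 1 * N 1 0, N 1 2 * N 2 1]
      ![((4 * Real.cos (Real.pi / (0 : ℕ)) ^ 2 : ℝ) : ℂ),
        ((4 * Real.cos (Real.pi / (0 : ℕ)) ^ 2 : ℝ) : ℂ)] := by
    rw [P01, P12]
    exact hS2
  refine (geo_inf (m := 0) (n := 0) (by norm_num) (by norm_num) M M01 M02 M12).faithful ?_
  refine wordM_transfer_inf (N := N) ?_ ?_ ?_ ?_ (by norm_num) (by norm_num) hS ?_ ?_ ?_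
    (hw ω hω)
  · intro i
    fin_cases i <;> rfl
  · exact ⟨fun h => absurd (by rw [h, zero_mul]) n01, fun h => absurd (by rw [h, mul_zero]) n01⟩
  · exact ⟨fun h => absurd (by rw [h, zero_mul]) n12, fun h => absurd (by rw [h, mul_zero]) n12⟩
  · rw [N01, N12, N20, N02, N21, N10]
    linear_combination (8 : F) * hc
  · exact ⟨fun h => absurd h n01, fun h => absurd h (by norm_num)⟩
  · exact ⟨fun h => absurd h n12, fun h => absurd h (by norm_num)⟩
  · rw [P02]
    exact t1

end Pool.Agent.Leo
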