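import Pool.Agent.Leo.GenA

/-!
# Generic triples, part B: the normalized expressions
-/

namespace Pool.Agent.Leo

universe u v w

section
variable {K : Type u} [Field K] {V : Type v} [AddCommGroup V] [Module K V] {d : ℕ}

/-- the first two eigenvalues are `0` and `1` -/
def Nrm (a : Module.Basis (Fin (d + 1)) K V) (A : Module.End K V) : Prop :=
  ∀ i : Fin (d + 1), ((i : ℕ) = 0 → mt a A i i = 0) ∧ ((i : ℕ) = 1 → mt a A i i = 1)

/-- eigenvalues of `A` and coefficients of a normalized expression -/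
structure KSeq (a : Module.Basis (Fin (d + 1)) K V) (A : Module.End K V)
    (β γ f' g κ ρ : K) : Prop where
  nrm : Nrm a A
  γ0 : γ ≠ 0
  κ0 : κ ≠ 0
  κ1 : 1 + κ ≠ 0
  ρ0 : ρ ≠ 0
  ρ1 : ρ ≠ 1
  eg : g = γ * (κ - 1) / (2 * (1 + κ))
  ef : f' = γ * (κ + ρ) / ((ρ - 1) * (1 + κ))
  eβ : β * γ = (ρ - 1) ^ 2 / ρ
  eM : ∀ i j : Fin (d + 1), (i : ℕ) + 1 = j →
    f' + (g + γ / 2) * mt a A i i + (g - γ / 2) * mt a A j j = γ / (ρ - 1) / κ ^ (i : ℕ)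
  eN : ∀ i j : Fin (d + 1), (i : ℕ) + 1 = j →
    f' + (g - γ / 2) * mt a A i i + (g + γ / 2) * mt a A j j =
      κ ^ (i : ℕ) * (ρ * γ / (ρ - 1))

variable {a b c : Module.Basis (Fin (d + 1)) K V} {A B C : Module.End K V}
  {r s t : Module.End K V ≃ₗ[K] Module.End K V} {α β γ : K}

private theorem gi_sub {n : ℕ} (x : Module.Basis (Fin n) K V) (X : Module.End K V) (y z : K)
    (i j : Fin n) : mt x (y • (X - z • 1)) i j = y * (mt x X i j - z * (if i = j then 1 else 0)) := by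
  simp [mt, Matrix.one_apply]

private theorem gi_diag {n : ℕ} {x : Module.Basis (Fin n) K V} {X : Module.End K V}
    (h : (mt x X).IsDiag) (y z : K) : (mt x (y • (X - z • 1))).IsDiag := by
  intro i j hij
  rw [gi_sub, h hij, if_neg hij]; ring

private theorem gi_tri {n : ℕ} {x : Module.Basis (Fin n) K V} {X : Module.End K V}
    (h : IrredTridiag (mt x X)) {y : K} (hy : y ≠ 0) (z : K) :
    IrredTridiag (mt x (y • (X - z • 1))) := by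
  refine ⟨fun i j hij => ?_, fun i j hij => ?_⟩
  · have h1 : i ≠ j := by rintro rfl; omega
    rw [gi_sub, h.1 i j hij, if_neg h1]; ring
  · have h1 : i ≠ j := by rintro rfl; omega
    rw [gi_sub, if_neg h1, mul_zero, sub_zero]
    exact mul_ne_zero hy (h.2 i j hij)

private theorem gi_anti_one {r : Module.End K V ≃ₗ[K] Module.End K V}
    (hr : ∀ X Y, r (X * Y) = r Y * r X) : r 1 = 1 := by
  obtain ⟨Z, hZ⟩ := r.surjective 1
  have h1 := hr Z 1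
  rw [mul_one, hZ, mul_one] at h1
  exact h1.symm

private theorem gi_anti {r : Module.End K V ≃ₗ[K] Module.End K V} {A B : Module.End K V}
    (h : IsAnti r A B) (x p y q : K) : IsAnti r (x • (A - p • 1)) (y • (B - q • 1)) := by
  have h1 := gi_anti_one h.anti
  refine ⟨h.anti, ?_, ?_⟩
  · rw [map_smul, map_sub, map_smul, h1, h.fixA]
  · rw [map_smul, map_sub, map_smul, h1, h.fixB]

private theorem gi_comm (X Y : Module.End K V) (x p y q : K) :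
    (x • (X - p • 1)) * (y • (Y - q • 1)) - (y • (Y - q • 1)) * (x • (X - p • 1)) =
      (x * y) • (X * Y - Y * X) := by
  simp only [smul_mul_assoc, mul_smul_comm, mul_sub, sub_mul, mul_one, one_mul, smul_sub,
    smul_smul]
  module

private theorem gi_eq {r : Module.End K V ≃ₗ[K] Module.End K V} {X Y Z : Module.End K V} {γ : K}
    (hr : ∀ X Y, r (X * Y) = r Y * r X)
    (h : Z - r Z = γ • (X * Y - Y * X)) {x y : K} (hx : x ≠ 0) (hy : y ≠ 0) (z p q w : K) :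
    z • (Z - w • 1) - r (z • (Z - w • 1)) = (z * γ / (x * y)) •
      ((x • (X - p • 1)) * (y • (Y - q • 1)) - (y • (Y - q • 1)) * (x • (X - p • 1))) := by
  have h1 := gi_anti_one hr
  rw [gi_comm, smul_smul, map_smul, map_sub, map_smul, h1, ← smul_sub]
  have e1 : Z - w • (1 : Module.End K V) - (r Z - w • (1 : Module.End K V)) = Z - r Z := by abel
  rw [e1, h, smul_smul]
  congr 1
  field_simp

private theorem gi_scale {n : ℕ} (a : Module.Basis (Fin n) K V) (w : Fin n → Kˣ)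
    (X : Module.End K V) (i j : Fin n) :
    mt (a.unitsSMul w) X i j = ((w i : K))⁻¹ * (w j : K) * mt a X i j := by
  simp only [mt, LinearMap.toMatrix_apply, Module.Basis.repr_unitsSMul,
    Module.Basis.unitsSMul_apply, Units.smul_def, map_smul, Finsupp.smul_apply, smul_eq_mul,
    Units.val_inv_eq_inv_val]
  ring

private theorem gi_scale_diag {n : ℕ} {a : Module.Basis (Fin n) K V} (w : Fin n → Kˣ)
    {X : Module.End K V} (h : (mt a X).IsDiag) : (mt (a.unitsSMul w) X).IsDiag := by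
  intro i j hij
  rw [gi_scale, h hij, mul_zero]

private theorem gi_scale_tri {n : ℕ} {a : Module.Basis (Fin n) K V} (w : Fin n → Kˣ)
    {X : Module.End K V} (h : IrredTridiag (mt a X)) : IrredTridiag (mt (a.unitsSMul w) X) := by
  refine ⟨fun i j hij => ?_, fun i j hij => ?_⟩
  · rw [gi_scale, h.1 i j hij, mul_zero]
  · rw [gi_scale]
    exact mul_ne_zero (mul_ne_zero (inv_ne_zero (w i).ne_zero) (w j).ne_zero) (h.2 i j hij)

private theorem gi_nrm {x : Module.Basis (Fin (d + 1)) K V} {X : Module.End K V} {p y : K}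
    (h0 : p = mt x X 0 0) (h1 : ∀ i : Fin (d + 1), (i : ℕ) = 1 → y * (mt x X i i - p) = 1) :
    Nrm x (y • (X - p • 1)) := by
  intro i
  refine ⟨fun hi => ?_, fun hi => ?_⟩
  · have : i = 0 := Fin.ext hi
    subst this
    rw [gi_sub, if_pos rfl, h0]; ring
  · rw [gi_sub, if_pos rfl, mul_one, h1 i hi]

private theorem gi_exists {x : Module.Basis (Fin (d + 1)) K V} {X : Module.End K V} (hd : 1 ≤ d)
    (inj : Function.Injective (fun i : Fin (d + 1) => mt x X i i)) :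
    ∃ y p : K, y ≠ 0 ∧ p = mt x X 0 0 ∧
      ∀ i : Fin (d + 1), (i : ℕ) = 1 → y * (mt x X i i - p) = 1 := by
  have h1 : mt x X ⟨1, by omega⟩ ⟨1, by omega⟩ - mt x X 0 0 ≠ 0 := by
    intro h0
    have := inj (sub_eq_zero.1 h0)
    simp [Fin.ext_iff] at this
  refine ⟨(mt x X ⟨1, by omega⟩ ⟨1, by omega⟩ - mt x X 0 0)⁻¹, _, inv_ne_zero h1, rfl, ?_⟩
  intro i hi
  have h3 : i = ⟨1, by omega⟩ := Fin.ext hi
  rw [h3]
  exact inv_mul_cancel₀ h1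

/-- gi: normalization of a triple and of the eigenbasis of `A` -/
theorem Setup.normalize (h : Setup a b c A B C r s t α β γ) (hd : 1 ≤ d) (hγ : γ ≠ 0) :
    ∃ (a' : Module.Basis (Fin (d + 1)) K V) (A' B' C' : Module.End K V) (α' β' γ' : K),
      Setup a' b c A' B' C' r s t α' β' γ' ∧ γ' ≠ 0 ∧ Nrm a' A' ∧ Nrm b B' ∧ Nrm c C' ∧
      ∀ i j : Fin (d + 1), (i : ℕ) + 1 = j → mt a' B' i j = 1 := by
  obtain ⟨x, p, hx, hp, h1⟩ := gi_exists hd h.lt.pAB.inj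
  obtain ⟨y, q, hy, hq, h3⟩ := gi_exists hd h.lt.pBC.inj
  obtain ⟨z, w, hz, hw, h4⟩ := gi_exists hd h.lt.pAC.symm.inj
  obtain ⟨k, hk⟩ : ∃ k : ℕ → K, ∀ n, k n = if hn : n + 1 < d + 1 then
      mt a (y • (B - q • 1)) ⟨n, by omega⟩ ⟨n + 1, hn⟩ else 1 := ⟨_, fun _ => rfl⟩
  have hk0 : ∀ n, k n ≠ 0 := by
    intro n
    rw [hk]
    split_ifs with hn
    · exact (gi_tri h.lt.aB hy q).2 _ _ (Or.inl rfl)
    · exact one_ne_zero
  obtain ⟨lam, hlam⟩ : ∃ lam : ℕ → K, ∀ n, lam n = ∏ m ∈ Finset.range n, (k m)⁻¹ :=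
    ⟨_, fun _ => rfl⟩
  have hl0 : ∀ n, lam n ≠ 0 := by
    intro n
    rw [hlam]
    exact Finset.prod_ne_zero_iff.2 fun m _ => inv_ne_zero (hk0 m)
  have hl1 : ∀ n, lam (n + 1) = lam n * (k n)⁻¹ := by
    intro n
    rw [hlam, hlam, Finset.prod_range_succ]
  refine ⟨a.unitsSMul fun i => Units.mk0 (lam i) (hl0 i), x • (A - p • 1), y • (B - q • 1),
    z • (C - w • 1), x * α / (y * z), y * β / (z * x), z * γ / (x * y),
    ⟨h.h2, ⟨gi_scale_diag _ (gi_diag h.lt.dA _ _), gi_scale_tri _ (gi_tri h.lt.aB hy _),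
      gi_scale_tri _ (gi_tri h.lt.aC hz _), gi_diag h.lt.dB _ _, gi_tri h.lt.bA hx _,
      gi_tri h.lt.bC hz _, gi_diag h.lt.dC _ _, gi_tri h.lt.cA hx _, gi_tri h.lt.cB hy _⟩,
      gi_anti h.hr _ _ _ _, gi_anti h.hs _ _ _ _, gi_anti h.ht _ _ _ _,
      gi_eq h.hr.anti h.eC hx hy _ _ _ _, gi_eq h.ht.anti h.eA hy hz _ _ _ _,
      gi_eq h.hs.anti h.eB hz hx _ _ _ _⟩,
    div_ne_zero (mul_ne_zero hz hγ) (mul_ne_zero hx hy), ?_, gi_nrm hq h3, gi_nrm hw h4, ?_⟩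
  · intro i
    have h5 := gi_nrm (y := x) hp h1 i
    rw [gi_scale]
    have h6 : ((Units.mk0 (lam i) (hl0 i) : Kˣ) : K)⁻¹ * ((Units.mk0 (lam i) (hl0 i) : Kˣ) : K)
        = 1 := inv_mul_cancel₀ (hl0 i)
    rw [h6, one_mul]
    exact h5
  · intro i j hij
    rw [gi_scale]
    simp only [Units.val_mk0]
    have h5 : k i = mt a (y • (B - q • 1)) i j := by
      rw [hk, dif_pos (by omega)]
      congr 1
      exact Fin.ext hij
    rw [← h5, ← hij, hl1]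
    have := hl0 i
    have := hk0 i
    field_simp

/-- gj: the sequences in the eigenbasis of `A` -/
theorem Setup.kseq (h : Setup a b c A B C r s t α β γ) (hd : 2 ≤ d) (hγ : γ ≠ 0)
    (hn : Nrm a A) {e f f' g ω ρ : K} (hC : C = e • 1 + f • A + f' • B + g • (A * B + B * A)
      + (γ / 2) • (A * B - B * A)) (hG : GeoRatio a (r * s) ω ρ) :
    (-(g + γ / 2) / (g - γ / 2)) ^ 2 = ω ∧
      KSeq a A β γ f' g (-(g + γ / 2) / (g - γ / 2)) ρ := by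
  have h20 := h.h2
  have hρ0 := hG.rho_ne (by omega)
  obtain ⟨u, hu0, hX₀, hr⟩ := hG
  obtain ⟨θ, hθ⟩ : ∃ θ : ℕ → K, ∀ i (hi : i < d + 1), θ i = mt a A ⟨i, hi⟩ ⟨i, hi⟩ :=
    ⟨fun i => if hi : i < d + 1 then mt a A ⟨i, hi⟩ ⟨i, hi⟩ else 0, fun i hi => dif_pos hi⟩
  have hinj : ∀ i j, i < d + 1 → j < d + 1 → θ i = θ j → i = j := by
    intro i j hi hj hij
    rw [hθ i hi, hθ j hj] at hij
    have := h.lt.pAB.inj hij
    simpa using this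
  obtain ⟨p, hp⟩ : ∃ p, p = g + γ / 2 := ⟨_, rfl⟩
  obtain ⟨m, hm⟩ : ∃ m, m = g - γ / 2 := ⟨_, rfl⟩
  rw [← hp, ← hm]
  have hpm : p - m = γ := by rw [hp, hm]; field_simp; ring
  have hpm' : p + m = 2 * g := by rw [hp, hm]; ring
  obtain ⟨M, hM⟩ : ∃ M : ℕ → K, ∀ i, M i = f' + p * θ i + m * θ (i + 1) := ⟨_, fun _ => rfl⟩
  obtain ⟨N, hN⟩ : ∃ N : ℕ → K, ∀ i, N i = f' + m * θ i + p * θ (i + 1) := ⟨_, fun _ => rfl⟩
  have hti : ∀ i, i < d → M i ≠ 0 ∧ N i ≠ 0 ∧ u i / u (i + 1) * M i = N i ∧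
      M i * N i = γ / β := by
    intro i hi
    have h1 := h.expr_entries hγ (u := fun i : Fin (d + 1) => u i) (fun i => hu0 i i.2) hX₀ hC
      (i := ⟨i, by omega⟩) (j := ⟨i + 1, by omega⟩) (Or.inl rfl)
    rw [← hθ i, ← hθ (i + 1)] at h1
    have e1 : f' + g * (θ i + θ (i + 1)) + γ / 2 * (θ i - θ (i + 1)) = M i := by
      rw [hM, hp, hm]; ring
    have e2 : f' + g * (θ i + θ (i + 1)) - γ / 2 * (θ i - θ (i + 1)) = N i := by
      rw [hN, hp, hm]; ring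
    rw [e1, e2] at h1
    refine ⟨h1.1, h1.2.1, h1.2.2.1, ?_⟩
    rw [← h1.2.2.2, ← e1, ← e2]
    have : (4 : K) ≠ 0 := by
      have : (4 : K) = 2 * 2 := by norm_num
      rw [this]; exact mul_ne_zero h20 h20
    field_simp
    ring
  have hrec : ∀ i, i + 1 < d → p * N i + m * N (i + 1) = 0 := by
    intro i hi
    have h1 := (hti i (by omega)).2.2.2
    have h3 := (hti (i + 1) hi).2.2.2
    have h4 : (θ i - θ (i + 2)) * (p * N i + m * N (i + 1)) = 0 := by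
      rw [hM, hN] at h1 h3
      rw [hN, hN]
      linear_combination h1 - h3
    refine (mul_eq_zero.1 h4).resolve_left fun h5 => ?_
    have := hinj i (i + 2) (by omega) (by omega) (sub_eq_zero.1 h5)
    omega
  have h00 := hrec 0 (by omega)
  have hm0 : m ≠ 0 := by
    intro h0
    rw [h0, zero_mul, add_zero] at h00
    have := (mul_eq_zero.1 h00).resolve_right (hti 0 (by omega)).2.1
    exact hγ (by rw [← hpm, this, h0, sub_zero])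
  have hp0 : p ≠ 0 := by
    intro h0
    rw [h0, zero_mul, zero_add] at h00
    exact hm0 ((mul_eq_zero.1 h00).resolve_right (hti 1 (by omega)).2.1)
  obtain ⟨κ, hκ⟩ : ∃ κ, κ = - p / m := ⟨_, rfl⟩
  rw [← hκ]
  have hκm : κ * m = - p := by rw [hκ]; field_simp
  have hκ0 : κ ≠ 0 := by
    rintro rfl
    rw [zero_mul] at hκm
    exact hp0 (neg_eq_zero.1 hκm.symm)
  have hN1 : ∀ i, i + 1 < d → N (i + 1) = κ * N i := by
    intro i hi
    apply mul_left_cancel₀ hm0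
    linear_combination hrec i hi - N i * hκm
  have hM1 : ∀ i, i + 1 < d → κ * M (i + 1) = M i := by
    intro i hi
    have h1 := (hti i (by omega)).2.2.2
    have h3 := (hti (i + 1) hi).2.2.2
    rw [hN1 i hi] at h3
    apply mul_right_cancel₀ (hti i (by omega)).2.1
    linear_combination h3 - h1
  have hNi : ∀ i, i < d → N i = κ ^ i * N 0 := by
    intro i
    induction i with
    | zero => intro _; rw [pow_zero, one_mul]
    | succ i ih => intro hi; rw [hN1 i hi, ih (by omega), pow_succ']; ring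
  have hMi : ∀ i, i < d → κ ^ i * M i = M 0 := by
    intro i
    induction i with
    | zero => intro _; rw [pow_zero, one_mul]
    | succ i ih => intro hi; rw [← ih (by omega), ← hM1 i hi, pow_succ']; ring
  have hM0 := (hti 0 (by omega)).1
  have r0 : N 0 = ρ * M 0 := by
    have h1 := (hti 0 (by omega)).2.2.1
    rw [hr 0 (by omega), pow_zero, one_mul] at h1
    exact h1.symm
  have hβ : β ≠ 0 := (h.nondegenerate (by omega) hγ).2.1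
  have t0 : θ 0 = 0 := by
    rw [hθ 0 (by omega)]; exact (hn _).1 rfl
  have t1 : θ 1 = 1 := by
    rw [hθ 1 (by omega)]; exact (hn _).2 rfl
  have M0 : M 0 = f' + m := by rw [hM, zero_add, t0, t1]; ring
  have N0 : N 0 = f' + p := by rw [hN, zero_add, t0, t1]; ring
  have hMN : M 0 * (ρ - 1) = γ := by
    rw [← hpm]
    linear_combination N0 - M0 - r0
  have hρ1 : ρ - 1 ≠ 0 := by
    intro h0
    rw [h0, mul_zero] at hMN
    exact hγ hMN.symm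
  have M0' : M 0 = γ / (ρ - 1) := by rw [eq_div_iff hρ1]; exact hMN
  have hκ1 : (1 + κ) * m = -γ := by linear_combination hκm - hpm
  have hκ1' : 1 + κ ≠ 0 := by
    intro h0
    rw [h0, zero_mul] at hκ1
    exact hγ (neg_eq_zero.1 hκ1.symm)
  have m' : m = -γ / (1 + κ) := by rw [eq_div_iff hκ1', mul_comm]; exact hκ1
  have p' : p = κ * γ / (1 + κ) := by
    rw [eq_div_iff hκ1']
    linear_combination (1 + κ) * hκm - κ * hκ1
  refine ⟨?_, hn, hγ, hκ0, hκ1', hρ0, sub_ne_zero.1 hρ1, ?_, ?_, ?_, ?_, ?_⟩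
  · have h1 := (hti 1 (by omega)).2.2.1
    rw [hr 1 (by omega), pow_one] at h1
    have h3 := hN1 0 (by omega)
    have h4 := hM1 0 (by omega)
    rw [zero_add] at h3 h4
    have h5 : (κ ^ 2 - ω) * (ρ * M 1) = 0 := by
      linear_combination κ * ρ * h4 - h1 - h3 - κ * r0
    have h6 := (mul_eq_zero.1 h5).resolve_right (mul_ne_zero hρ0 (hti 1 (by omega)).1)
    exact sub_eq_zero.1 h6
  · have h1 : g = (p + m) / 2 := by rw [hpm']; field_simp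
    rw [h1, p', m']
    field_simp
    ring
  · have h1 : f' = M 0 - m := by rw [M0]; ring
    rw [h1, M0', m']
    field_simp
    ring
  · have h1 := (hti 0 (by omega)).2.2.2
    rw [r0, M0'] at h1
    field_simp at h1 ⊢
    linear_combination h1
  · intro i j hij
    have hj : j = ⟨(i : ℕ) + 1, by omega⟩ := Fin.ext hij.symm
    rw [← hp, ← hm, ← M0', hj]
    have h1 := hMi i (by omega)
    have h3 := hM i
    rw [hθ i i.2, hθ (i + 1) (by omega)] at h3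
    rw [← h1, ← h3]
    field_simp
  · intro i j hij
    have hj : j = ⟨(i : ℕ) + 1, by omega⟩ := Fin.ext hij.symm
    rw [← hp, ← hm, hj]
    have h1 := hNi i (by omega)
    have h3 := hN i
    rw [hθ i i.2, hθ (i + 1) (by omega)] at h3
    rw [← h3, h1, r0, M0']
    field_simp

private theorem gk_inv {x y : Module.End K V ≃ₗ[K] Module.End K V} (hx : x * x = 1)
    (hy : y * y = 1) : (x * y)⁻¹ = y * x := by
  rw [inv_eq_iff_mul_eq_one, mul_assoc, ← mul_assoc y, hy, one_mul, hx]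

/-- gk: the sequences in the eigenbasis of `B` -/
theorem Setup.kseq' (h : Setup a b c A B C r s t α β γ) (hd : 2 ≤ d) (hγ : γ ≠ 0)
    (hn : Nrm b B) {e f f' g ω σ : K} (hC : C = e • 1 + f • A + f' • B + g • (A * B + B * A)
      + (γ / 2) • (A * B - B * A)) (hG : GeoRatio b (t * r) ω σ) :
    KSeq b B (-α) (-γ) f g (-(g + γ / 2) / (g - γ / 2))⁻¹ σ⁻¹ := by
  have hC' : C = e • 1 + f' • B + f • A + g • (B * A + A * B)
      + (-γ / 2) • (B * A - A * B) := by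
    conv_lhs => rw [hC]
    rw [neg_div, neg_smul, ← smul_neg, neg_sub, add_comm (B * A)]
    abel
  have h1 := hG.inv
  rw [gk_inv (h.lt.pBC.anti_sq h.ht) (h.lt.pAB.anti_sq h.hr)] at h1
  have h3 := (h.swap.kseq hd (neg_ne_zero.2 hγ) hn hC' h1).2
  have e1 : -(g + -γ / 2) / (g - -γ / 2) = (-(g + γ / 2) / (g - γ / 2))⁻¹ := by
    rw [inv_div, neg_div 2 γ, sub_neg_eq_add, ← sub_eq_add_neg, neg_div, div_neg]
  rw [e1] at h3
  exact h3

/-- gk: the three expressions of a normalized triple -/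
theorem Setup.three_seq (h : Setup a b c A B C r s t α β γ) (hd : 2 ≤ d) (hγ : γ ≠ 0)
    (hA : Nrm a A) (hB : Nrm b B) (hC : Nrm c C) {ω ρ σ τ : K} (hρ : GeoRatio a (r * s) ω ρ)
    (hσ : GeoRatio b (t * r) ω σ) (hτ : GeoRatio c (s * t) ω τ) :
    ∃ e f f' g e₁ f₁ f₁' g₁ e₂ f₂ f₂' g₂ κ κ₁ κ₂ : K,
      C = e • 1 + f • A + f' • B + g • (A * B + B * A) + (γ / 2) • (A * B - B * A) ∧
      A = e₁ • 1 + f₁ • B + f₁' • C + g₁ • (B * C + C * B) + (α / 2) • (B * C - C * B) ∧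
      B = e₂ • 1 + f₂ • C + f₂' • A + g₂ • (C * A + A * C) + (β / 2) • (C * A - A * C) ∧
      κ ^ 2 = ω ∧ κ₁ ^ 2 = ω ∧ κ₂ ^ 2 = ω ∧
      KSeq a A β γ f' g κ ρ ∧ KSeq b B (-α) (-γ) f g κ⁻¹ σ⁻¹ ∧
      KSeq b B γ α f₁' g₁ κ₁ σ ∧ KSeq c C (-β) (-α) f₁ g₁ κ₁⁻¹ τ⁻¹ ∧
      KSeq c C α β f₂' g₂ κ₂ τ ∧ KSeq a A (-γ) (-β) f₂ g₂ κ₂⁻¹ ρ⁻¹ := by
  obtain ⟨hα, hβ, -⟩ := h.nondegenerate (by omega) hγ
  obtain ⟨e, f, f', g, xC⟩ := h.expr
  obtain ⟨e₁, f₁, f₁', g₁, xA⟩ := h.rot.expr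
  obtain ⟨e₂, f₂, f₂', g₂, xB⟩ := h.rot.rot.expr
  obtain ⟨k0, s1⟩ := h.kseq hd hγ hA xC hρ
  have s2 := h.kseq' hd hγ hB xC hσ
  obtain ⟨k1, s3⟩ := h.rot.kseq hd hα hB xA hσ
  have s4 := h.rot.kseq' hd hα hC xA hτ
  obtain ⟨k2, s5⟩ := h.rot.rot.kseq hd hβ hC xB hτ
  have s6 := h.rot.rot.kseq' hd hβ hA xB hρ
  exact ⟨e, f, f', g, e₁, f₁, f₁', g₁, e₂, f₂, f₂', g₂, _, _, _, xC, xA, xB, k0, k1, k2, s1, s2,
    s3, s4, s5, s6⟩

variable {k : Type w} [Field k] [CharZero k] {P : Place K k} {f' g κ ρ : K}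

private theorem gl_step (h : KSeq a A β γ f' g κ ρ) (h2 : (2 : K) ≠ 0) {i j : Fin (d + 1)}
    (hij : (i : ℕ) + 1 = j) :
    mt a A j j = κ * mt a A i i + (κ + ρ) / (ρ - 1) - (1 + κ) / (ρ - 1) * (κ ^ (i : ℕ))⁻¹ := by
  have h1 := h.eM i j hij
  have hρ : ρ - 1 ≠ 0 := sub_ne_zero.2 h.ρ1
  have hκ := h.κ0
  have hκ1 := h.κ1
  have hγ := h.γ0
  have hk : κ ^ (i : ℕ) ≠ 0 := pow_ne_zero _ hκ
  have ep : g + γ / 2 = γ * κ / (1 + κ) := by
    rw [h.eg]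
    field_simp
    ring
  have em : g - γ / 2 = -γ / (1 + κ) := by
    rw [h.eg]
    field_simp
    ring
  rw [ep, em, h.ef] at h1
  field_simp at h1 ⊢
  linear_combination (-1) * h1

private theorem gl_two {K : Type u} [Field K] {k : Type w} [Field k] [CharZero k]
    {P : Place K k} : (2 : K) ≠ 0 :=
  (Place.has_two (P := P)).ne_zero two_ne_zero

/-- gl: the eigenvalues reduce to `0, 1, 2, …` -/
theorem KSeq.theta (h : KSeq a A β γ f' g κ ρ) {ρ₀ : k} (hκ : P.Has κ 1) (hρ : P.Has ρ ρ₀)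
    (h1 : ρ₀ ≠ 1) (i : Fin (d + 1)) : P.Has (mt a A i i) ((i : ℕ) : k) := by
  have h2 : (2 : K) ≠ 0 := gl_two (P := P)
  have h10 : ρ₀ - 1 ≠ 0 := sub_ne_zero.2 h1
  have key : ∀ n : ℕ, ∀ hn : n < d + 1, P.Has (mt a A ⟨n, hn⟩ ⟨n, hn⟩) (n : k) := by
    intro n
    induction n with
    | zero =>
      intro hn
      rw [(h.nrm _).1 rfl, Nat.cast_zero]
      exact Place.has_zero
    | succ n ih =>
      intro hn
      rw [gl_step h h2 (i := ⟨n, by omega⟩) (j := ⟨n + 1, hn⟩) rfl]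
      have h3 := ((hκ.mul (ih (by omega))).add ((hκ.add hρ).div (hρ.sub Place.has_one) h10)).sub
        (((Place.has_one.add hκ).div (hρ.sub Place.has_one) h10).mul
          ((hκ.pow n).inv (pow_ne_zero _ one_ne_zero)))
      have e1 : (1 : k) * (n : k) + (1 + ρ₀) / (ρ₀ - 1) - (1 + 1) / (ρ₀ - 1) * (1 ^ n)⁻¹ =
          ((n + 1 : ℕ) : k) := by
        rw [one_pow, inv_one, Nat.cast_add, Nat.cast_one]
        field_simp
        ring
      rw [e1] at h3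
      exact h3
  exact key i i.2

/-- gm: the sign of `κ` is forced -/
theorem KSeq.kappa_one (h : KSeq a A β γ f' g κ ρ) {β' γ' f'' g' κ' ρ' : K}
    (h' : KSeq a A β' γ' f'' g' κ' ρ') (hd : 2 ≤ d) (hκ : P.Has κ 1)
    (hκ' : P.Has (κ' ^ 2) 1) {ρ₀ ρ₀' : k} (hρ : P.Has ρ ρ₀) (h1 : ρ₀ ≠ 1)
    (hρ' : P.Has ρ' ρ₀') (h1' : ρ₀' ≠ 1) : P.Has κ' 1 := by
  have h2 : (2 : K) ≠ 0 := gl_two (P := P)
  obtain ⟨y, hy, hy2⟩ := hκ'.sqrt
  have h3 : (y - 1) * (y + 1) = 0 := by linear_combination hy2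
  rcases mul_eq_zero.1 h3 with h4 | h4
  · rw [sub_eq_zero.1 h4] at hy; exact hy
  · exfalso
    have hym : y = -1 := eq_neg_of_add_eq_zero_left h4
    subst hym
    have s1 := gl_step h' h2 (i := ⟨1, by omega⟩) (j := ⟨2, by omega⟩) rfl
    rw [(h'.nrm ⟨1, by omega⟩).2 rfl] at s1
    have h10 : ρ₀' - 1 ≠ 0 := sub_ne_zero.2 h1'
    have hm1 : (-1 : k) ≠ 0 := neg_ne_zero.2 one_ne_zero
    have h5 := ((hy.mul (Place.has_one (P := P))).add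
        ((hy.add hρ').div (hρ'.sub Place.has_one) h10)).sub
        (((Place.has_one.add hy).div (hρ'.sub Place.has_one) h10).mul
          ((hy.pow 1).inv (pow_ne_zero _ hm1)))
    have h6 := h.theta hκ hρ h1 ⟨2, by omega⟩
    rw [s1] at h6
    have h7 := h6.unique h5
    have h8 : (-1 : k) * 1 + (-1 + ρ₀') / (ρ₀' - 1) -
        (1 + -1) / (ρ₀' - 1) * ((-1) ^ 1)⁻¹ = 0 := by
      have : (-1 + ρ₀') / (ρ₀' - 1) = 1 := by
        rw [div_eq_one_iff_eq h10]; ring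
      rw [this]
      simp
    rw [h8] at h7
    norm_num at h7

/-- gn: the reduction of the coefficients -/
theorem KSeq.coeffs (h : KSeq a A β γ f' g κ ρ) {ρ₀ γ₀ : k} (hκ : P.Has κ 1)
    (hρ : P.Has ρ ρ₀) (h1 : ρ₀ ≠ 1) (hγ : P.Has γ γ₀) :
    P.Has g 0 ∧ P.Has f' (γ₀ * (1 + ρ₀) / (2 * (ρ₀ - 1))) ∧
      ∀ i j : Fin (d + 1), (i : ℕ) + 1 = j →
        P.Has (f' + g * (mt a A i i + mt a A j j) + γ / 2 * (mt a A i i - mt a A j j))
          (γ₀ / (ρ₀ - 1)) ∧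
        P.Has (f' + g * (mt a A i i + mt a A j j) - γ / 2 * (mt a A i i - mt a A j j))
          (ρ₀ * γ₀ / (ρ₀ - 1)) := by
  have h2 : (2 : K) ≠ 0 := gl_two (P := P)
  have h20 : (2 : k) ≠ 0 := two_ne_zero
  have h10 : ρ₀ - 1 ≠ 0 := sub_ne_zero.2 h1
  have h11 : (1 + 1 : k) ≠ 0 := by norm_num
  have hk1 := (Place.has_one (P := P)).add hκ
  have hr1 := hρ.sub (Place.has_one (P := P))
  refine ⟨?_, ?_, fun i j hij => ⟨?_, ?_⟩⟩
  · have h3 := (hγ.mul (hκ.sub Place.has_one)).div (Place.has_two.mul hk1)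
      (mul_ne_zero h20 h11)
    rw [h.eg]
    rw [sub_self, mul_zero, zero_div] at h3
    exact h3
  · have h3 := (hγ.mul (hκ.add hρ)).div (hr1.mul hk1) (mul_ne_zero h10 h11)
    rw [h.ef]
    have e1 : γ₀ * (1 + ρ₀) / ((ρ₀ - 1) * (1 + 1)) = γ₀ * (1 + ρ₀) / (2 * (ρ₀ - 1)) := by
      congr 1; ring
    rw [e1] at h3
    exact h3
  · have h3 := (hγ.div hr1 h10).div (hκ.pow i) (pow_ne_zero _ one_ne_zero)
    rw [← h.eM i j hij, one_pow, div_one] at h3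
    have e1 : f' + g * (mt a A i i + mt a A j j) + γ / 2 * (mt a A i i - mt a A j j) =
        f' + (g + γ / 2) * mt a A i i + (g - γ / 2) * mt a A j j := by ring
    rw [e1]
    exact h3
  · have h3 := (hκ.pow i).mul ((hρ.mul hγ).div hr1 h10)
    rw [← h.eN i j hij, one_pow, one_mul] at h3
    have e1 : f' + g * (mt a A i i + mt a A j j) - γ / 2 * (mt a A i i - mt a A j j) =
        f' + (g - γ / 2) * mt a A i i + (g + γ / 2) * mt a A j j := by ring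
    rw [e1]
    exact h3

omit [CharZero k] in
omit [CharZero k] in
private theorem gn_sqrt {α β γ x y z : K} {x₀ y₀ z₀ : k} (h1 : β * γ = x) (h2 : γ * α = y)
    (h3 : α * β = z) (hx : P.Has x x₀) (hy : P.Has y y₀) (hz : P.Has z z₀) (x0 : x₀ ≠ 0)
    (y0 : y₀ ≠ 0) (z0 : z₀ ≠ 0) : ∃ α₀ : k, P.Has α α₀ ∧ α₀ ≠ 0 := by
  have hx0 := hx.ne_zero x0
  have e1 : α ^ 2 = y * z / x := by
    rw [eq_div_iff hx0, ← h1, ← h2, ← h3]; ring
  have h4 := (hy.mul hz).div hx x0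
  rw [← e1] at h4
  obtain ⟨w, hw, hw2⟩ := h4.sqrt
  refine ⟨w, hw, ?_⟩
  rintro rfl
  have : y₀ * z₀ / x₀ ≠ 0 := div_ne_zero (mul_ne_zero y0 z0) x0
  exact this (by rw [← hw2]; ring)

/-- gn: three elements with unit products are units -/
theorem units_of_products {α β γ x y z : K} {x₀ y₀ z₀ : k} (h1 : β * γ = x) (h2 : γ * α = y)
    (h3 : α * β = z) (hx : P.Has x x₀) (hy : P.Has y y₀) (hz : P.Has z z₀) (x0 : x₀ ≠ 0)
    (y0 : y₀ ≠ 0) (z0 : z₀ ≠ 0) :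
    ∃ α₀ β₀ γ₀ : k, P.Has α α₀ ∧ P.Has β β₀ ∧ P.Has γ γ₀ ∧ α₀ ≠ 0 ∧ β₀ ≠ 0 ∧ γ₀ ≠ 0 ∧
      β₀ * γ₀ = x₀ ∧ γ₀ * α₀ = y₀ ∧ α₀ * β₀ = z₀ := by
  obtain ⟨α₀, hα, a0⟩ := gn_sqrt h1 h2 h3 hx hy hz x0 y0 z0
  obtain ⟨β₀, hβ, b0⟩ := gn_sqrt h2 h3 h1 hy hz hx y0 z0 x0
  obtain ⟨γ₀, hγ, c0⟩ := gn_sqrt h3 h1 h2 hz hx hy z0 x0 y0
  refine ⟨α₀, β₀, γ₀, hα, hβ, hγ, a0, b0, c0, ?_, ?_, ?_⟩
  · exact (hβ.mul hγ).unique (h1 ▸ hx)
  · exact (hγ.mul hα).unique (h2 ▸ hy)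
  · exact (hα.mul hβ).unique (h3 ▸ hz)

end

section
variable {K : Type u} [Field K] {V : Type v} [AddCommGroup V] [Module K V] {d : ℕ}
  {k : Type w} [Field k]

/-- the data of the reduction of a normalized triple at a place -/
structure Red (P : Place K k) (a b c : Module.Basis (Fin (d + 1)) K V)
    (A B C : Module.End K V) (α β γ : K) where
  (e f f' g e₁ f₁ f₁' g₁ e₂ f₂ f₂' g₂ : K)
  (F F' F₁ F₁' F₂ F₂' α₀ β₀ γ₀ M₀ N₀ : k)
  lt : LT a b c A B C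
  xC : C = e • 1 + f • A + f' • B + g • (A * B + B * A) + (γ / 2) • (A * B - B * A)
  xA : A = e₁ • 1 + f₁ • B + f₁' • C + g₁ • (B * C + C * B) + (α / 2) • (B * C - C * B)
  xB : B = e₂ • 1 + f₂ • C + f₂' • A + g₂ • (C * A + A * C) + (β / 2) • (C * A - A * C)
  hf : P.Has f F
  hf' : P.Has f' F'
  hg : P.Has g 0
  hf₁ : P.Has f₁ F₁
  hf₁' : P.Has f₁' F₁'
  hg₁ : P.Has g₁ 0
  hf₂ : P.Has f₂ F₂
  hf₂' : P.Has f₂' F₂'
  hg₂ : P.Has g₂ 0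
  hα : P.Has α α₀
  hβ : P.Has β β₀
  hγ : P.Has γ γ₀
  α0 : α₀ ≠ 0
  β0 : β₀ ≠ 0
  γ0 : γ₀ ≠ 0
  θA : ∀ i : Fin (d + 1), P.Has (mt a A i i) ((i : ℕ) : k)
  θB : ∀ i : Fin (d + 1), P.Has (mt b B i i) ((i : ℕ) : k)
  θC : ∀ i : Fin (d + 1), P.Has (mt c C i i) ((i : ℕ) : k)
  hM : ∀ i j : Fin (d + 1), (i : ℕ) + 1 = j →
    P.Has (f' + g * (mt a A i i + mt a A j j) + γ / 2 * (mt a A i i - mt a A j j)) M₀
  hN : ∀ i j : Fin (d + 1), (i : ℕ) + 1 = j →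
    P.Has (f' + g * (mt a A i i + mt a A j j) - γ / 2 * (mt a A i i - mt a A j j)) N₀
  MN : M₀ - N₀ = -γ₀
  one : ∀ i j : Fin (d + 1), (i : ℕ) + 1 = j → mt a B i j = 1

variable {a b c : Module.Basis (Fin (d + 1)) K V} {A B C : Module.End K V}
  {r s t : Module.End K V ≃ₗ[K] Module.End K V} {α β γ : K} {P : Place K k}

private theorem go_flip {x y : k} (y0 : y ≠ 0) (y1 : y ≠ 1) :
    (-x) * (1 + y⁻¹) / (2 * (y⁻¹ - 1)) = x * (1 + y) / (2 * (y - 1)) := by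
  have h1 : y - 1 ≠ 0 := sub_ne_zero.2 y1
  have e1 : y⁻¹ - 1 = -(y - 1) / y := by field_simp; ring
  have e2 : 1 + y⁻¹ = (1 + y) / y := by field_simp; ring
  rw [e1, e2]
  field_simp

private theorem go_prod [CharZero k] {x y z : k} (z0 : z ≠ 0) (z1 : z ≠ 1)
    (h : x * y = (z - 1) ^ 2 / z) :
    4 * (y * (1 + z) / (2 * (z - 1)) * (x * (1 + z) / (2 * (z - 1)))) = 2 + z + z⁻¹ := by
  have h1 : z - 1 ≠ 0 := sub_ne_zero.2 z1
  have e1 : 4 * (y * (1 + z) / (2 * (z - 1)) * (x * (1 + z) / (2 * (z - 1)))) =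
      (x * y) * (1 + z) ^ 2 / (z - 1) ^ 2 := by
    field_simp
    ring
  rw [e1, h]
  field_simp
  ring

/-- go: the reduction of a normalized triple at a place with `κ ↦ 1` -/
theorem exists_red [CharZero k] (hlt : LT a b c A B C) (hd : 2 ≤ d)
    (h1 : ∀ i j : Fin (d + 1), (i : ℕ) + 1 = j → mt a B i j = 1)
    {e f f' g e₁ f₁ f₁' g₁ e₂ f₂ f₂' g₂ κ κ₁ κ₂ ρ σ τ : K}
    (xC : C = e • 1 + f • A + f' • B + g • (A * B + B * A) + (γ / 2) • (A * B - B * A))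
    (xA : A = e₁ • 1 + f₁ • B + f₁' • C + g₁ • (B * C + C * B) + (α / 2) • (B * C - C * B))
    (xB : B = e₂ • 1 + f₂ • C + f₂' • A + g₂ • (C * A + A * C) + (β / 2) • (C * A - A * C))
    (k1 : κ₁ ^ 2 = κ ^ 2) (k2 : κ₂ ^ 2 = κ ^ 2)
    (s1 : KSeq a A β γ f' g κ ρ) (s2 : KSeq b B (-α) (-γ) f g κ⁻¹ σ⁻¹)
    (s3 : KSeq b B γ α f₁' g₁ κ₁ σ) (s4 : KSeq c C (-β) (-α) f₁ g₁ κ₁⁻¹ τ⁻¹)
    (s5 : KSeq c C α β f₂' g₂ κ₂ τ) (s6 : KSeq a A (-γ) (-β) f₂ g₂ κ₂⁻¹ ρ⁻¹)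
    (hκ : P.Has κ 1) {ρ₀ σ₀ τ₀ : k} (pρ : P.Has ρ ρ₀) (pσ : P.Has σ σ₀) (pτ : P.Has τ τ₀)
    (ρ0 : ρ₀ ≠ 0) (ρ1 : ρ₀ ≠ 1) (σ0 : σ₀ ≠ 0) (σ1 : σ₀ ≠ 1) (τ0 : τ₀ ≠ 0) (τ1 : τ₀ ≠ 1) :
    ∃ R : Red P a b c A B C α β γ,
      4 * (R.F' * R.F₂) = 2 + ρ₀ + ρ₀⁻¹ ∧ 4 * (R.F * R.F₁') = 2 + σ₀ + σ₀⁻¹ ∧
      4 * (R.F₂' * R.F₁) = 2 + τ₀ + τ₀⁻¹ ∧ R.F * R.F₂ * R.F₁ = R.F' * R.F₂' * R.F₁' := by
  have o1 : (1 : k) ≠ 0 := one_ne_zero
  have inv1 : ∀ {x : K}, P.Has x 1 → P.Has x⁻¹ 1 := fun {x} hx => by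
    have := hx.inv o1
    rwa [inv_one] at this
  have hκi := inv1 hκ
  have hκ2 : P.Has (κ ^ 2) 1 := by
    have := hκ.pow 2
    rwa [one_pow] at this
  have pρi := pρ.inv ρ0
  have pσi := pσ.inv σ0
  have pτi := pτ.inv τ0
  have ρi1 : ρ₀⁻¹ ≠ 1 := fun h => ρ1 (by rw [← inv_inv ρ₀, h, inv_one])
  have σi1 : σ₀⁻¹ ≠ 1 := fun h => σ1 (by rw [← inv_inv σ₀, h, inv_one])
  have τi1 : τ₀⁻¹ ≠ 1 := fun h => τ1 (by rw [← inv_inv τ₀, h, inv_one])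
  have hκ₁ : P.Has κ₁ 1 := s2.kappa_one s3 hd hκi (by rw [k1]; exact hκ2) pσi σi1 pσ σ1
  have hκ₂i : P.Has κ₂⁻¹ 1 :=
    s1.kappa_one s6 hd hκ (by rw [inv_pow, k2]; exact inv1 hκ2) pρ ρ1 pρi ρi1
  have hκ₂ : P.Has κ₂ 1 := by
    have := inv1 hκ₂i
    rwa [inv_inv] at this
  have sq : ∀ {x : K} {x₀ : k}, P.Has x x₀ → x₀ ≠ 0 →
      P.Has ((x - 1) ^ 2 / x) ((x₀ - 1) ^ 2 / x₀) := fun {x x₀} hx h0 =>
    ((hx.sub Place.has_one).pow 2).div hx h0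
  have sq0 : ∀ {x : k}, x ≠ 0 → x ≠ 1 → (x - 1) ^ 2 / x ≠ 0 := fun {x} h0 h1 =>
    div_ne_zero (pow_ne_zero _ (sub_ne_zero.2 h1)) h0
  obtain ⟨α₀, β₀, γ₀, hα, hβ, hγ, a0, b0, c0, q1, q2, q3⟩ :=
    units_of_products s1.eβ s3.eβ s5.eβ (sq pρ ρ0) (sq pσ σ0) (sq pτ τ0) (sq0 ρ0 ρ1)
      (sq0 σ0 σ1) (sq0 τ0 τ1)
  obtain ⟨hg, hf', hMN⟩ := s1.coeffs hκ pρ ρ1 hγ
  obtain ⟨-, hf, -⟩ := s2.coeffs hκi pσi σi1 hγ.neg
  obtain ⟨hg₁, hf₁', -⟩ := s3.coeffs hκ₁ pσ σ1 hα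
  obtain ⟨-, hf₁, -⟩ := s4.coeffs (inv1 hκ₁) pτi τi1 hα.neg
  obtain ⟨hg₂, hf₂', -⟩ := s5.coeffs hκ₂ pτ τ1 hβ
  obtain ⟨-, hf₂, -⟩ := s6.coeffs hκ₂i pρi ρi1 hβ.neg
  rw [go_flip σ0 σ1] at hf
  rw [go_flip τ0 τ1] at hf₁
  rw [go_flip ρ0 ρ1] at hf₂
  refine ⟨⟨e, f, f', g, e₁, f₁, f₁', g₁, e₂, f₂, f₂', g₂, _, _, _, _, _, _, α₀, β₀, γ₀,
    γ₀ / (ρ₀ - 1), ρ₀ * γ₀ / (ρ₀ - 1), hlt, xC, xA, xB, hf, hf', hg, hf₁, hf₁', hg₁, hf₂, hf₂',
    hg₂, hα, hβ, hγ, a0, b0, c0, s1.theta hκ pρ ρ1, s3.theta hκ₁ pσ σ1, s5.theta hκ₂ pτ τ1,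
    fun i j hij => (hMN i j hij).1, fun i j hij => (hMN i j hij).2, ?_, h1⟩, ?_, ?_, ?_, ?_⟩
  · have : ρ₀ - 1 ≠ 0 := sub_ne_zero.2 ρ1
    field_simp
    ring
  · exact go_prod ρ0 ρ1 q1
  · rw [mul_comm γ₀ α₀] at q2
    exact go_prod σ0 σ1 q2
  · exact go_prod τ0 τ1 q3
  · ring

end

end Pool.Agent.Leo
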