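import Pool.Agent.Leo.GenB

/-!
# Generic triples, part C: integrality and the reduction of words
-/

namespace Pool.Agent.Leo

universe u v w

section
variable {K : Type u} [Field K] {V : Type v} [AddCommGroup V] [Module K V] {d : ℕ}
  {k : Type w} [Field k] {P : Place K k}
  {a b c : Module.Basis (Fin (d + 1)) K V} {A B C : Module.End K V}
  {r s t : Module.End K V ≃ₗ[K] Module.End K V} {α β γ : K}

private theorem gp_cg {P : Place K k} {x x' : K} {y y' : k} (h : P.Has x y) (hx : x' = x)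
    (hy : y' = y) : P.Has x' y' := by
  subst hx hy; exact h

private theorem gp_one {n : ℕ} {x : Module.Basis (Fin n) K V} (i j : Fin n) :
    mt x (1 : Module.End K V) i j = if i = j then 1 else 0 := by
  have : mt x (1 : Module.End K V) = 1 := by simp [mt]
  rw [this, Matrix.one_apply]

private theorem gp_left {n : ℕ} {x : Module.Basis (Fin n) K V} {S T : Module.End K V}
    (dS : (mt x S).IsDiag) (i j : Fin n) : mt x (S * T) i j = mt x S i i * mt x T i j := by
  have h1 : mt x (S * T) = mt x S * mt x T := by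
    simp [mt, LinearMap.toMatrix_mul]
  rw [h1, Matrix.mul_apply, Finset.sum_eq_single i]
  · intro k _ hk
    rw [dS hk.symm, zero_mul]
  · intro hi
    exact absurd (Finset.mem_univ i) hi

private theorem gp_right {n : ℕ} {x : Module.Basis (Fin n) K V} {S T : Module.End K V}
    (dS : (mt x S).IsDiag) (i j : Fin n) : mt x (T * S) i j = mt x T i j * mt x S j j := by
  have h1 : mt x (T * S) = mt x T * mt x S := by
    simp [mt, LinearMap.toMatrix_mul]
  rw [h1, Matrix.mul_apply, Finset.sum_eq_single j]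
  · intro k _ hk
    rw [dS hk, mul_zero]
  · intro hi
    exact absurd (Finset.mem_univ j) hi

private theorem gp_expr {n : ℕ} (x : Module.Basis (Fin n) K V) (e f f' g w : K)
    (X Y : Module.End K V) (i j : Fin n) :
    mt x (e • 1 + f • X + f' • Y + g • (X * Y + Y * X) + w • (X * Y - Y * X)) i j
      = e * (if i = j then 1 else 0) + f * mt x X i j + f' * mt x Y i j
        + g * (mt x (X * Y) i j + mt x (Y * X) i j)
        + w * (mt x (X * Y) i j - mt x (Y * X) i j) := by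
  rw [← gp_one (x := x) i j]
  simp only [mt, map_add, map_sub, map_smul, Matrix.add_apply, Matrix.sub_apply,
    Matrix.smul_apply, smul_eq_mul]

private theorem gp_trace {n : ℕ} (x : Module.Basis (Fin n) K V) (X : Module.End K V) :
    LinearMap.trace K V X = ∑ i, mt x X i i := by
  rw [LinearMap.trace_eq_matrix_trace K x]
  rfl

private theorem gp_half {P : Place K k} [CharZero k] {x : K} {y : k} (h : P.Has x y) :
    P.Has (x / 2) (y / 2) := h.div Place.has_two two_ne_zero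

/-- sums of integral affine expressions -/
private theorem gp_aff {P : Place K k} {n : ℕ} {T y : Fin n → K} {θ : Fin n → k} {e e₂ : K}
    (hT : ∀ i, P.Has (T i) (θ i))
    (h : ∀ i, ∃ (s0 s1 s2 : K) (z0 z1 z2 : k), P.Has s0 z0 ∧ P.Has s1 z1 ∧ P.Has s2 z2 ∧
      y i = s0 + s1 * e + s2 * e₂) :
    ∃ (s0 s1 s2 : K) (z0 z1 z2 : k), P.Has s0 z0 ∧ P.Has s1 z1 ∧ P.Has s2 z2 ∧
      ∑ i, T i * y i = s0 + s1 * e + s2 * e₂ := by
  choose s0 s1 s2 z0 z1 z2 h0 h1 h2 hy using h
  refine ⟨∑ i, T i * s0 i, ∑ i, T i * s1 i, ∑ i, T i * s2 i, ∑ i, θ i * z0 i,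
    ∑ i, θ i * z1 i, ∑ i, θ i * z2 i, Place.Has.sum _ fun i _ => (hT i).mul (h0 i),
    Place.Has.sum _ fun i _ => (hT i).mul (h1 i), Place.Has.sum _ fun i _ => (hT i).mul (h2 i), ?_⟩
  rw [Finset.sum_mul, Finset.sum_mul, ← Finset.sum_add_distrib, ← Finset.sum_add_distrib]
  apply Finset.sum_congr rfl
  intro i _
  rw [hy i]
  ring

/-- gp: integrality of the constants and of the diagonal entries -/
theorem integral_consts [CharZero k] {x : Module.Basis (Fin (d + 1)) K V}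
    {X Y Z : Module.End K V} (dX : (mt x X).IsDiag) {θ : Fin (d + 1) → k}
    (hθ : ∀ i, P.Has (mt x X i i) (θ i)) {tY tZ : k} (hY : P.Has (LinearMap.trace K V Y) tY)
    (hZ : P.Has (LinearMap.trace K V Z) tZ) {e f f' g γ e₂ f₂ f₂' g₂ β : K}
    (xZ : Z = e • 1 + f • X + f' • Y + g • (X * Y + Y * X) + (γ / 2) • (X * Y - Y * X))
    (xY : Y = e₂ • 1 + f₂ • Z + f₂' • X + g₂ • (Z * X + X * Z) + (β / 2) • (Z * X - X * Z))
    {F F' F₂ F₂' : k} (hf : P.Has f F) (hf' : P.Has f' F') (hg : P.Has g 0)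
    (hf₂ : P.Has f₂ F₂) (hf₂' : P.Has f₂' F₂') (hg₂ : P.Has g₂ 0) (D : 1 - F' * F₂ ≠ 0) :
    ∃ E E₂ : k, P.Has e E ∧ P.Has e₂ E₂ ∧ (∀ i, ∃ z, P.Has (mt x Y i i) z) ∧
      (∀ i, ∃ z, P.Has (mt x Z i i) z) ∧
      ((d + 1 : ℕ) : k) * E + F * (∑ i, θ i) + F' * tY = tZ ∧
      ((d + 1 : ℕ) : k) * E₂ + F₂ * tZ + F₂' * (∑ i, θ i) = tY := by
  have hn : ((d + 1 : ℕ) : k) ≠ 0 := Nat.cast_ne_zero.2 (Nat.succ_ne_zero d)
  have hN : P.Has ((d + 1 : ℕ) : K) ((d + 1 : ℕ) : k) := Place.has_natCast _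
  have hN0 : ((d + 1 : ℕ) : K) ≠ 0 := hN.ne_zero hn
  have hz : ∀ i, mt x Z i i = e + f * mt x X i i
      + (f' + 2 * g * mt x X i i) * mt x Y i i := by
    intro i
    conv_lhs => rw [xZ]
    rw [gp_expr, gp_left dX, gp_right dX, if_pos rfl]
    ring
  have hy : ∀ i, mt x Y i i = e₂ + f₂' * mt x X i i
      + (f₂ + 2 * g₂ * mt x X i i) * mt x Z i i := by
    intro i
    conv_lhs => rw [xY]
    rw [gp_expr, gp_left dX, gp_right dX, if_pos rfl]
    ring
  obtain ⟨u, hu⟩ : ∃ u : Fin (d + 1) → K, u = fun i => f' + 2 * g * mt x X i i := ⟨_, rfl⟩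
  obtain ⟨v, hv⟩ : ∃ v : Fin (d + 1) → K, v = fun i => f₂ + 2 * g₂ * mt x X i i := ⟨_, rfl⟩
  have pu : ∀ i, P.Has (u i) F' := fun i =>
    gp_cg (hf'.add ((Place.has_two.mul hg).mul (hθ i))) (by rw [hu]) (by ring)
  have pv : ∀ i, P.Has (v i) F₂ := fun i =>
    gp_cg (hf₂.add ((Place.has_two.mul hg₂).mul (hθ i))) (by rw [hv]) (by ring)
  have hz' : ∀ i, mt x Z i i = e + f * mt x X i i + u i * mt x Y i i := by
    intro i; rw [hz i, hu]
  have hy' : ∀ i, mt x Y i i = e₂ + f₂' * mt x X i i + v i * mt x Z i i := by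
    intro i; rw [hy i, hv]
  have pD : ∀ i, P.Has (1 - u i * v i) (1 - F' * F₂) := fun i =>
    Place.has_one.sub ((pu i).mul (pv i))
  have D0 : ∀ i, 1 - u i * v i ≠ 0 := fun i => (pD i).ne_zero D
  have aY : ∀ i, ∃ (s0 s1 s2 : K) (z0 z1 z2 : k), P.Has s0 z0 ∧ P.Has s1 z1 ∧ P.Has s2 z2 ∧
      mt x Y i i = s0 + s1 * e + s2 * e₂ := by
    intro i
    refine ⟨(f₂' * mt x X i i + v i * (f * mt x X i i)) / (1 - u i * v i),
      v i / (1 - u i * v i), 1 / (1 - u i * v i), _, _, _,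
      ((hf₂'.mul (hθ i)).add ((pv i).mul (hf.mul (hθ i)))).div (pD i) D,
      (pv i).div (pD i) D, Place.has_one.div (pD i) D, ?_⟩
    have h1 : mt x Y i i * (1 - u i * v i) = e₂ + f₂' * mt x X i i
        + v i * (e + f * mt x X i i) := by
      linear_combination hy' i + v i * hz' i
    rw [← eq_div_iff (D0 i)] at h1
    rw [h1]
    field_simp [D0 i]
    ring
  have aZ : ∀ i, ∃ (s0 s1 s2 : K) (z0 z1 z2 : k), P.Has s0 z0 ∧ P.Has s1 z1 ∧ P.Has s2 z2 ∧
      mt x Z i i = s0 + s1 * e + s2 * e₂ := by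
    intro i
    refine ⟨(f * mt x X i i + u i * (f₂' * mt x X i i)) / (1 - u i * v i),
      1 / (1 - u i * v i), u i / (1 - u i * v i), _, _, _,
      ((hf.mul (hθ i)).add ((pu i).mul (hf₂'.mul (hθ i)))).div (pD i) D,
      Place.has_one.div (pD i) D, (pu i).div (pD i) D, ?_⟩
    have h1 : mt x Z i i * (1 - u i * v i) = e + f * mt x X i i
        + u i * (e₂ + f₂' * mt x X i i) := by
      linear_combination hz' i + u i * hy' i
    rw [← eq_div_iff (D0 i)] at h1
    rw [h1]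
    field_simp [D0 i]
    ring
  obtain ⟨s0, s1, s2, z0, z1, z2, p0, p1, p2, hs⟩ := gp_aff hθ aY
  obtain ⟨t0, t1, t2, w0, w1, w2, q0, q1, q2, ht⟩ := gp_aff hθ aZ
  have pX : P.Has (∑ i, mt x X i i) (∑ i, θ i) := Place.Has.sum _ fun i _ => hθ i
  have eZ : ((d + 1 : ℕ) : K) * e + f * (∑ i, mt x X i i) + f' * LinearMap.trace K V Y
      + 2 * g * (s0 + s1 * e + s2 * e₂) = LinearMap.trace K V Z := by
    rw [← hs, gp_trace x Y, gp_trace x Z, Finset.sum_congr rfl fun i _ => hz i]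
    rw [Finset.mul_sum, Finset.mul_sum, Finset.mul_sum]
    have : ((d + 1 : ℕ) : K) * e = ∑ _i : Fin (d + 1), e := by simp
    rw [this, ← Finset.sum_add_distrib, ← Finset.sum_add_distrib, ← Finset.sum_add_distrib]
    apply Finset.sum_congr rfl
    intro i _
    ring
  have eY : ((d + 1 : ℕ) : K) * e₂ + f₂ * LinearMap.trace K V Z + f₂' * (∑ i, mt x X i i)
      + 2 * g₂ * (t0 + t1 * e + t2 * e₂) = LinearMap.trace K V Y := by
    rw [← ht, gp_trace x Y, gp_trace x Z, Finset.sum_congr rfl fun i _ => hy i]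
    rw [Finset.mul_sum, Finset.mul_sum, Finset.mul_sum]
    have : ((d + 1 : ℕ) : K) * e₂ = ∑ _i : Fin (d + 1), e₂ := by simp
    rw [this, ← Finset.sum_add_distrib, ← Finset.sum_add_distrib, ← Finset.sum_add_distrib]
    apply Finset.sum_congr rfl
    intro i _
    ring
  have po : P.Has ((LinearMap.trace K V Z - f * (∑ i, mt x X i i) - f' * LinearMap.trace K V Y
      - 2 * g * s0) / ((d + 1 : ℕ) : K)) ((tZ - F * (∑ i, θ i) - F' * tY) / ((d + 1 : ℕ) : k)) :=
    gp_cg ((((hZ.sub (hf.mul pX)).sub (hf'.mul hY)).sub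
      ((Place.has_two.mul hg).mul p0)).div hN hn) rfl (by ring)
  have po' : P.Has ((LinearMap.trace K V Y - f₂ * LinearMap.trace K V Z
      - f₂' * (∑ i, mt x X i i) - 2 * g₂ * t0) / ((d + 1 : ℕ) : K))
      ((tY - F₂ * tZ - F₂' * (∑ i, θ i)) / ((d + 1 : ℕ) : k)) :=
    gp_cg ((((hY.sub (hf₂.mul hZ)).sub (hf₂'.mul pX)).sub
      ((Place.has_two.mul hg₂).mul q0)).div hN hn) rfl (by ring)
  have m0 : ∀ {m s : K} {z : k}, P.Has m 0 → P.Has s z →
      P.Has (-(2 * m * s) / ((d + 1 : ℕ) : K)) 0 := fun hm hs' =>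
    gp_cg ((((Place.has_two.mul hm).mul hs').neg).div hN hn) rfl (by ring)
  obtain ⟨hE, hE₂⟩ := Place.nakayama po po' (m0 hg p1) (m0 hg p2) (m0 hg₂ q1) (m0 hg₂ q2)
    (e := e) (e' := e₂) (by field_simp; linear_combination eZ)
    (by field_simp; linear_combination eY)
  refine ⟨_, _, hE, hE₂, fun i => ?_, fun i => ?_, ?_, ?_⟩
  · obtain ⟨s0, s1, s2, z0, z1, z2, p0, p1, p2, hs⟩ := aY i
    rw [hs]
    exact ⟨_, (p0.add (p1.mul hE)).add (p2.mul hE₂)⟩
  · obtain ⟨s0, s1, s2, z0, z1, z2, p0, p1, p2, hs⟩ := aZ i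
    rw [hs]
    exact ⟨_, (p0.add (p1.mul hE)).add (p2.mul hE₂)⟩
  · rw [mul_div_cancel₀ _ hn]
    ring
  · rw [mul_div_cancel₀ _ hn]
    ring

private theorem gq_sum [CharZero k] :
    ∑ i : Fin (d + 1), ((i : ℕ) : k) = ((d + 1 : ℕ) : k) * ((d : k) / 2) := by
  rw [Fin.sum_univ_eq_sum_range (fun i => (i : k))]
  have h := Finset.sum_range_id_mul_two (d + 1)
  have h' : (∑ i ∈ Finset.range (d + 1), (i : k)) * 2 = ((d + 1 : ℕ) : k) * (d : k) := by
    have := congrArg (fun n : ℕ => (n : k)) h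
    push_cast at this ⊢
    rw [this]
  rw [mul_div_assoc', eq_div_iff two_ne_zero, h']

private theorem gq_trace [CharZero k] {x : Module.Basis (Fin (d + 1)) K V}
    {X : Module.End K V} (h : ∀ i : Fin (d + 1), P.Has (mt x X i i) ((i : ℕ) : k)) :
    P.Has (LinearMap.trace K V X) (((d + 1 : ℕ) : k) * ((d : k) / 2)) := by
  rw [gp_trace x X, ← gq_sum]
  exact Place.Has.sum _ fun i _ => h i

/-- gq: integrality of the constants of a reduction, and their values (traces) -/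
theorem Red.consts [CharZero k] (R : Red P a b c A B C α β γ) (D₁ : 1 - R.F' * R.F₂ ≠ 0)
    (D₂ : 1 - R.F₁' * R.F ≠ 0) :
    P.Has R.e ((1 - R.F - R.F') * ((d : k) / 2)) ∧
    P.Has R.e₁ ((1 - R.F₁ - R.F₁') * ((d : k) / 2)) ∧
    P.Has R.e₂ ((1 - R.F₂ - R.F₂') * ((d : k) / 2)) ∧
    (∀ i, ∃ z, P.Has (mt a B i i) z) ∧ (∀ i, ∃ z, P.Has (mt a C i i) z) := by
  have hn : ((d + 1 : ℕ) : k) ≠ 0 := Nat.cast_ne_zero.2 (Nat.succ_ne_zero d)
  obtain ⟨E, E₂, pE, pE₂, hB, hC, h1, h2⟩ := integral_consts R.lt.dA R.θA (gq_trace R.θB)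
    (gq_trace R.θC) R.xC R.xB R.hf R.hf' R.hg R.hf₂ R.hf₂' R.hg₂ D₁
  obtain ⟨E₁, E', pE₁, pE', -, -, h3, h4⟩ := integral_consts R.lt.dB R.θB (gq_trace R.θC)
    (gq_trace R.θA) R.xA R.xC R.hf₁ R.hf₁' R.hg₁ R.hf R.hf' R.hg D₂
  rw [gq_sum] at h1 h2 h3 h4
  refine ⟨gp_cg pE rfl ?_, gp_cg pE₁ rfl ?_, gp_cg pE₂ rfl ?_, hB, hC⟩
  · apply mul_left_cancel₀ hn
    linear_combination -h1
  · apply mul_left_cancel₀ hn
    linear_combination -h3
  · apply mul_left_cancel₀ hn
    linear_combination -h2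

private theorem gr_entry {n : ℕ} {x : Module.Basis (Fin n) K V} {S T : Module.End K V}
    (dS : (mt x S).IsDiag) {i j : Fin n} (hij : i ≠ j) (e f f' g w : K) :
    mt x (e • 1 + f • S + f' • T + g • (S * T + T * S) + w • (S * T - T * S)) i j
      = (f' + g * (mt x S i i + mt x S j j) + w * (mt x S i i - mt x S j j)) * mt x T i j := by
  rw [gp_expr, if_neg hij, dS hij, gp_left dS, gp_right dS]
  ring

/-- gr: the off-diagonal entries of `C` -/
theorem Red.entry_C (R : Red P a b c A B C α β γ) {i j : Fin (d + 1)} (hij : (i : ℕ) + 1 = j) :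
    mt a C i j = (R.f' + R.g * (mt a A i i + mt a A j j)
        + γ / 2 * (mt a A i i - mt a A j j)) * mt a B i j ∧
    mt a C j i = (R.f' + R.g * (mt a A i i + mt a A j j)
        - γ / 2 * (mt a A i i - mt a A j j)) * mt a B j i := by
  have hne : i ≠ j := by
    rintro rfl
    omega
  constructor
  · conv_lhs => rw [R.xC]
    rw [gr_entry R.lt.dA hne]
  · conv_lhs => rw [R.xC]
    rw [gr_entry R.lt.dA hne.symm]
    ring

/-- gr: the diagonal entries of `B * C` and `C * B` -/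
theorem diag_mul (tB : Tri a B) (tC : Tri a C) (i : Fin (d + 1)) :
    mt a (B * C) i i = mt a B i i * mt a C i i
      + (∑ j : Fin (d + 1), if (i : ℕ) + 1 = j then mt a B i j * mt a C j i else 0)
      + (∑ j : Fin (d + 1), if (j : ℕ) + 1 = i then mt a B i j * mt a C j i else 0) := by
  have h1 : mt a (B * C) = mt a B * mt a C := by
    simp [mt, LinearMap.toMatrix_mul]
  have h2 : mt a B i i * mt a C i i
      = ∑ j : Fin (d + 1), if i = j then mt a B i j * mt a C j i else 0 := by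
    rw [Finset.sum_ite_eq]
    simp
  rw [h1, Matrix.mul_apply, h2, ← Finset.sum_add_distrib, ← Finset.sum_add_distrib]
  apply Finset.sum_congr rfl
  intro j _
  by_cases h3 : i = j
  · subst h3
    simp
  · by_cases h4 : (i : ℕ) + 1 = j
    · have h5 : ¬ (j : ℕ) + 1 = i := by omega
      rw [if_neg h3, if_pos h4, if_neg h5]
      ring
    · by_cases h5 : (j : ℕ) + 1 = i
      · rw [if_neg h3, if_neg h4, if_pos h5]
        ring
      · rw [if_neg h3, if_neg h4, if_neg h5, tB i j, zero_mul]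
        · ring
        · have h6 : (i : ℕ) ≠ j := fun h => h3 (Fin.ext h)
          omega

/-- the two sums over neighbours for the products `B * C` and `C * B` -/
private theorem gs_up {n : ℕ} {i j : Fin n} (hij : (i : ℕ) + 1 = j) (h : Fin n → K) :
    (∑ l : Fin n, if (i : ℕ) + 1 = l then h l else 0) = h j := by
  rw [Finset.sum_eq_single j]
  · rw [if_pos hij]
  · intro l _ hl
    rw [if_neg]
    intro h1
    exact hl (Fin.ext (by omega))
  · intro h1; exact absurd (Finset.mem_univ j) h1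

private theorem gs_down {n : ℕ} {i j : Fin n} (hij : (j : ℕ) + 1 = i) (h : Fin n → K) :
    (∑ l : Fin n, if (l : ℕ) + 1 = i then h l else 0) = h j := by
  rw [Finset.sum_eq_single j]
  · rw [if_pos hij]
  · intro l _ hl
    rw [if_neg]
    intro h1
    exact hl (Fin.ext (by omega))
  · intro h1; exact absurd (Finset.mem_univ j) h1

private theorem gs_diag (R : Red P a b c A B C α β γ) (i : Fin (d + 1)) :
    mt a A i i = R.e₁ + R.f₁ * mt a B i i + R.f₁' * mt a C i i
      + R.g₁ * (mt a (B * C) i i + mt a (C * B) i i)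
      + α / 2 * (mt a (B * C) i i - mt a (C * B) i i) := by
  conv_lhs => rw [R.xA]
  rw [gp_expr, if_pos rfl, mul_one]

/-- the part of the equation which comes from the previous entries -/
private theorem gs_step [CharZero k] (R : Red P a b c A B C α β γ)
    (D₁ : 1 - R.F' * R.F₂ ≠ 0) (D₂ : 1 - R.F₁' * R.F ≠ 0) {i j : Fin (d + 1)}
    (hij : (i : ℕ) + 1 = j)
    (hp : ∀ l : Fin (d + 1), (l : ℕ) + 1 = i → ∃ z, P.Has (mt a B i l) z) :
    ∃ z, P.Has (mt a B j i) z := by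
  obtain ⟨-, pE₁, -, pB, pC⟩ := R.consts D₁ D₂
  obtain ⟨zb, pb⟩ := pB i
  obtain ⟨zc, pc⟩ := pC i
  have h1 := gs_diag R i
  rw [diag_mul R.lt.aB.1 R.lt.aC.1, diag_mul R.lt.aC.1 R.lt.aB.1, gs_up hij, gs_up hij] at h1
  obtain ⟨hM, hN⟩ := R.entry_C hij
  rw [hM, hN, R.one i j hij] at h1
  have pM := R.hM i j hij
  have pN := R.hN i j hij
  obtain ⟨M, eM⟩ : ∃ M, M = R.f' + R.g * (mt a A i i + mt a A j j)
    + γ / 2 * (mt a A i i - mt a A j j) := ⟨_, rfl⟩
  obtain ⟨N, eN⟩ : ∃ N, N = R.f' + R.g * (mt a A i i + mt a A j j)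
    - γ / 2 * (mt a A i i - mt a A j j) := ⟨_, rfl⟩
  rw [← eM] at pM h1
  rw [← eN] at pN h1
  -- the lower neighbours
  have hlow : ∃ (p q : K) (z z' : k), P.Has p z ∧ P.Has q z' ∧
      (∑ l : Fin (d + 1), if (l : ℕ) + 1 = i then mt a B i l * mt a C l i else 0) = p ∧
      (∑ l : Fin (d + 1), if (l : ℕ) + 1 = i then mt a C i l * mt a B l i else 0) = q := by
    by_cases h0 : (i : ℕ) = 0
    · refine ⟨0, 0, 0, 0, Place.has_zero, Place.has_zero, ?_, ?_⟩ <;>
      · apply Finset.sum_eq_zero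
        intro l _
        rw [if_neg]
        omega
    · have hl : ((⟨(i : ℕ) - 1, by omega⟩ : Fin (d + 1)) : ℕ) + 1 = i := by
        show (i : ℕ) - 1 + 1 = i
        omega
      obtain ⟨z, pz⟩ := hp _ hl
      obtain ⟨hM', hN'⟩ := R.entry_C hl
      rw [gs_down hl, gs_down hl, hM', hN', R.one _ _ hl]
      exact ⟨_, _, _, _, pz.mul ((R.hM _ _ hl).mul Place.has_one),
        ((R.hN _ _ hl).mul pz).mul Place.has_one, rfl, rfl⟩
  obtain ⟨p, q, z, z', pp, pq, ep, eq⟩ := hlow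
  rw [ep, eq] at h1
  have pk : P.Has (R.g₁ * (N + M) + α / 2 * (N - M)) (R.α₀ / 2 * R.γ₀) :=
    gp_cg ((R.hg₁.mul (pN.add pM)).add ((gp_half R.hα).mul (pN.sub pM))) rfl (by
      linear_combination (R.α₀ / 2) * R.MN)
  have k0 : R.α₀ / 2 * R.γ₀ ≠ 0 :=
    mul_ne_zero (div_ne_zero R.α0 two_ne_zero) R.γ0
  have h2 : mt a B j i = (mt a A i i - (R.e₁ + R.f₁ * mt a B i i + R.f₁' * mt a C i i
      + R.g₁ * (2 * (mt a B i i * mt a C i i) + (p + q)) + α / 2 * (p - q)))
        / (R.g₁ * (N + M) + α / 2 * (N - M)) := by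
    rw [eq_div_iff (pk.ne_zero k0)]
    linear_combination -h1
  rw [h2]
  exact ⟨_, ((R.θA i).sub ((((pE₁.add (R.hf₁.mul pb)).add (R.hf₁'.mul pc)).add
    (R.hg₁.mul ((Place.has_two.mul (pb.mul pc)).add (pp.add pq)))).add
    ((gp_half R.hα).mul (pp.sub pq)))).div pk k0⟩

private theorem gs_low [CharZero k] (R : Red P a b c A B C α β γ)
    (D₁ : 1 - R.F' * R.F₂ ≠ 0) (D₂ : 1 - R.F₁' * R.F ≠ 0) :
    ∀ n : ℕ, ∀ i j : Fin (d + 1), (i : ℕ) = n → (i : ℕ) + 1 = j → ∃ z, P.Has (mt a B j i) z := by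
  intro n
  induction n with
  | zero =>
    intro i j hi hij
    exact gs_step R D₁ D₂ hij fun l hl => by omega
  | succ n ih =>
    intro i j hi hij
    exact gs_step R D₁ D₂ hij fun l hl => ih l i (by omega) hl

/-- gs: all entries of `A, B, C` are integral -/
theorem Red.entries [CharZero k] (R : Red P a b c A B C α β γ) (D₁ : 1 - R.F' * R.F₂ ≠ 0)
    (D₂ : 1 - R.F₁' * R.F ≠ 0) (i j : Fin (d + 1)) :
    (∃ z, P.Has (mt a A i j) z) ∧ (∃ z, P.Has (mt a B i j) z) ∧
      (∃ z, P.Has (mt a C i j) z) := by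
  obtain ⟨-, -, -, pB, pC⟩ := R.consts D₁ D₂
  refine ⟨?_, ?_⟩
  · by_cases hij : i = j
    · subst hij
      exact ⟨_, R.θA i⟩
    · rw [R.lt.dA hij]
      exact ⟨_, Place.has_zero⟩
  · by_cases h1 : (i : ℕ) + 1 = j
    · rw [(R.entry_C h1).1, R.one i j h1]
      exact ⟨⟨_, Place.has_one⟩, ⟨_, (R.hM i j h1).mul Place.has_one⟩⟩
    · by_cases h2 : (j : ℕ) + 1 = i
      · obtain ⟨z, hz⟩ := gs_low R D₁ D₂ j j i rfl h2
        rw [(R.entry_C h2).2]
        exact ⟨⟨_, hz⟩, ⟨_, (R.hN j i h2).mul hz⟩⟩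
      · by_cases h3 : i = j
        · subst h3
          exact ⟨pB i, pC i⟩
        · have h4 : (i : ℕ) ≠ j := fun h => h3 (Fin.ext h)
          have h5 : (i : ℕ) + 1 < j ∨ (j : ℕ) + 1 < i := by omega
          rw [R.lt.aB.1 i j h5, R.lt.aC.1 i j h5]
          exact ⟨⟨_, Place.has_zero⟩, ⟨_, Place.has_zero⟩⟩

/-- gt: the first lower diagonal entry of `B` is a unit -/
theorem Red.lower_ne [CharZero k] (R : Red P a b c A B C α β γ) (D₁ : 1 - R.F' * R.F₂ ≠ 0)
    (D₂ : 1 - R.F₁' * R.F ≠ 0) (hcyc : R.F * R.F₂ * R.F₁ = R.F' * R.F₂' * R.F₁')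
    (hdet : 1 - R.F' * R.F₂ - R.F₂' * R.F₁ - R.F₁' * R.F - 2 * (R.F * R.F₂ * R.F₁) ≠ 0)
    {i j : Fin (d + 1)} (hi : (i : ℕ) = 0) (hj : (j : ℕ) = 1) : ¬ P.Has (mt a B j i) 0 := by
  intro h0
  have hij : (i : ℕ) + 1 = j := by omega
  obtain ⟨pE, pE₁, pE₂, pB, pC⟩ := R.consts D₁ D₂
  obtain ⟨zb, pb⟩ := pB i
  obtain ⟨zc, pc⟩ := pC i
  have pT : P.Has (mt a A i i) 0 := gp_cg (R.θA i) rfl (by rw [hi, Nat.cast_zero])
  have h1 := gs_diag R i
  rw [diag_mul R.lt.aB.1 R.lt.aC.1, diag_mul R.lt.aC.1 R.lt.aB.1, gs_up hij, gs_up hij,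
    (R.entry_C hij).1, (R.entry_C hij).2, R.one i j hij] at h1
  have e1 : (∑ l : Fin (d + 1), if (l : ℕ) + 1 = i then mt a B i l * mt a C l i else 0) = 0 := by
    apply Finset.sum_eq_zero
    intro l _
    rw [if_neg]
    omega
  have e2 : (∑ l : Fin (d + 1), if (l : ℕ) + 1 = i then mt a C i l * mt a B l i else 0) = 0 := by
    apply Finset.sum_eq_zero
    intro l _
    rw [if_neg]
    omega
  rw [e1, e2] at h1
  have pM := R.hM i j hij
  have pN := R.hN i j hij
  have h2 : mt a C i i = R.e + R.f * mt a A i i + R.f' * mt a B i i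
      + R.g * (mt a A i i * mt a B i i + mt a B i i * mt a A i i)
      + γ / 2 * (mt a A i i * mt a B i i - mt a B i i * mt a A i i) := by
    conv_lhs => rw [R.xC]
    rw [gp_expr, if_pos rfl, mul_one, gp_left R.lt.dA, gp_right R.lt.dA]
  have h3 : mt a B i i = R.e₂ + R.f₂ * mt a C i i + R.f₂' * mt a A i i
      + R.g₂ * (mt a C i i * mt a A i i + mt a A i i * mt a C i i)
      + β / 2 * (mt a C i i * mt a A i i - mt a A i i * mt a C i i) := by
    conv_lhs => rw [R.xB]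
    rw [gp_expr, if_pos rfl, mul_one, gp_left R.lt.dA, gp_right R.lt.dA]
  -- the three equations in the residue field
  have r2 : zc = (1 - R.F - R.F') * ((d : k) / 2) + R.F' * zb := by
    apply pc.unique
    refine gp_cg ((((pE.add (R.hf.mul pT)).add (R.hf'.mul pb)).add
      (R.hg.mul ((pT.mul pb).add (pb.mul pT)))).add
      ((gp_half R.hγ).mul ((pT.mul pb).sub (pb.mul pT)))) h2 (by ring)
  have r3 : zb = (1 - R.F₂ - R.F₂') * ((d : k) / 2) + R.F₂ * zc := by
    apply pb.unique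
    refine gp_cg ((((pE₂.add (R.hf₂.mul pc)).add (R.hf₂'.mul pT)).add
      (R.hg₂.mul ((pc.mul pT).add (pT.mul pc)))).add
      ((gp_half R.hβ).mul ((pc.mul pT).sub (pT.mul pc)))) h3 (by ring)
  have r1 : (0 : k) = (1 - R.F₁ - R.F₁') * ((d : k) / 2) + R.F₁ * zb + R.F₁' * zc := by
    apply pT.unique
    refine gp_cg ((((pE₁.add (R.hf₁.mul pb)).add (R.hf₁'.mul pc)).add
      (R.hg₁.mul ((((pb.mul pc).add (Place.has_one.mul (pN.mul h0))).add Place.has_zero).add
        (((pc.mul pb).add ((pM.mul Place.has_one).mul h0)).add Place.has_zero)))).add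
      ((gp_half R.hα).mul ((((pb.mul pc).add (Place.has_one.mul (pN.mul h0))).add
        Place.has_zero).sub
        (((pc.mul pb).add ((pM.mul Place.has_one).mul h0)).add Place.has_zero)))) h1 (by ring)
  have hμ : ((d : k) / 2) * (1 - R.F' * R.F₂ - R.F₂' * R.F₁ - R.F₁' * R.F
      - 2 * (R.F * R.F₂ * R.F₁)) = 0 := by
    linear_combination -(R.F₂ * R.F₁ + R.F₁') * r2 - (R.F₁ + R.F' * R.F₁') * r3
      - (1 - R.F' * R.F₂) * r1 - ((d : k) / 2) * hcyc
  rcases mul_eq_zero.1 hμ with h4 | h4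
  · have h5 : (d : k) = 0 := by
      rcases div_eq_zero_iff.1 h4 with h6 | h6
      · exact h6
      · exact absurd h6 two_ne_zero
    have h6 : d = 0 := by exact_mod_cast h5
    have := j.2
    omega
  · exact hdet h4

private theorem gu_entry (x y z w : K) (i j : Fin (d + 1)) :
    mt a (x • (1 : Module.End K V) + y • A + z • B + w • C) i j
      = x * (if i = j then 1 else 0) + y * mt a A i j + z * mt a B i j + w * mt a C i j := by
  rw [← gp_one (x := a) i j]
  simp only [mt, map_add, map_smul, Matrix.add_apply, Matrix.smul_apply, smul_eq_mul]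

/-- gu: `1, A, B, C` are independent modulo the maximal ideal -/
theorem Red.indep [CharZero k] (R : Red P a b c A B C α β γ) (hd : 1 ≤ d)
    (D₁ : 1 - R.F' * R.F₂ ≠ 0) (D₂ : 1 - R.F₁' * R.F ≠ 0)
    (hcyc : R.F * R.F₂ * R.F₁ = R.F' * R.F₂' * R.F₁')
    (hdet : 1 - R.F' * R.F₂ - R.F₂' * R.F₁ - R.F₁' * R.F - 2 * (R.F * R.F₂ * R.F₁) ≠ 0)
    {x y z w : K} {X Y Z W : k} (hx : P.Has x X) (hy : P.Has y Y) (hz : P.Has z Z)
    (hw : P.Has w W)
    (h0 : ∀ i j, P.Has (mt a (x • (1 : Module.End K V) + y • A + z • B + w • C) i j) 0) :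
    X = 0 ∧ Y = 0 ∧ Z = 0 ∧ W = 0 := by
  obtain ⟨i, hi⟩ : ∃ i : Fin (d + 1), (i : ℕ) = 0 := ⟨⟨0, by omega⟩, rfl⟩
  obtain ⟨j, hj⟩ : ∃ j : Fin (d + 1), (j : ℕ) = 1 := ⟨⟨1, by omega⟩, rfl⟩
  have hij : (i : ℕ) + 1 = j := by omega
  have hne : i ≠ j := by rintro rfl; omega
  obtain ⟨-, -, -, pB, pC⟩ := R.consts D₁ D₂
  have pM := R.hM i j hij
  have pN := R.hN i j hij
  have h1 := h0 i j
  rw [gu_entry, if_neg hne, R.lt.dA hne, (R.entry_C hij).1, R.one i j hij] at h1
  have e1 : 0 = Z + W * R.M₀ := by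
    apply h1.unique
    exact gp_cg ((((hx.mul Place.has_zero).add (hy.mul Place.has_zero)).add
      (hz.mul Place.has_one)).add (hw.mul (pM.mul Place.has_one))) rfl (by ring)
  obtain ⟨-, ⟨zx, px⟩, -⟩ := R.entries D₁ D₂ j i
  have zx0 : zx ≠ 0 := by
    rintro rfl
    exact R.lower_ne D₁ D₂ hcyc hdet hi hj px
  have h2 := h0 j i
  rw [gu_entry, if_neg hne.symm, R.lt.dA hne.symm, (R.entry_C hij).2] at h2
  have e2 : 0 = zx * (Z + W * R.N₀) := by
    apply h2.unique
    exact gp_cg ((((hx.mul Place.has_zero).add (hy.mul Place.has_zero)).add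
      (hz.mul px)).add (hw.mul (pN.mul px))) rfl (by ring)
  have e3 : Z + W * R.N₀ = 0 := (mul_eq_zero.1 e2.symm).resolve_left zx0
  have hW : W = 0 := by
    have h3 : W * R.γ₀ = 0 := by
      linear_combination e1 + e3 + W * R.MN
    exact (mul_eq_zero.1 h3).resolve_right R.γ0
  have hZ : Z = 0 := by
    rw [hW] at e3
    linear_combination e3
  subst hW hZ
  have h3 := h0 i i
  have h4 := h0 j j
  rw [gu_entry, if_pos rfl] at h3 h4
  obtain ⟨z1, p1⟩ := pB i
  obtain ⟨z2, p2⟩ := pC i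
  obtain ⟨z3, p3⟩ := pB j
  obtain ⟨z4, p4⟩ := pC j
  have hX : 0 = X := by
    apply h3.unique
    refine gp_cg ((((hx.mul Place.has_one).add (hy.mul (R.θA i))).add
      (hz.mul p1)).add (hw.mul p2)) rfl ?_
    rw [hi, Nat.cast_zero]
    ring
  have hY : 0 = X + Y := by
    apply h4.unique
    refine gp_cg ((((hx.mul Place.has_one).add (hy.mul (R.θA j))).add
      (hz.mul p3)).add (hw.mul p4)) rfl ?_
    rw [hj, Nat.cast_one]
    ring
  refine ⟨hX.symm, ?_, rfl, rfl⟩
  linear_combination hX - hY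

/-- the order generated by `A, B, C` over the valuation ring -/
def lamO (P : Place K k) (A B C : Module.End K V) : Subring (Module.End K V) :=
  Subring.closure ({A, B, C} ∪ {X | ∃ x ∈ P.O, X = x • (1 : Module.End K V)})

/-- the multiples by elements of the maximal ideal -/
def lamJ (P : Place K k) (A B C : Module.End K V) : Set (Module.End K V) :=
  {X | ∃ m : K, P.Has m 0 ∧ ∃ Y ∈ lamO P A B C, X = m • Y}

private theorem gv_A : A ∈ lamO P A B C :=
  Subring.subset_closure (Or.inl (by simp))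

private theorem gv_B : B ∈ lamO P A B C :=
  Subring.subset_closure (Or.inl (by simp))

private theorem gv_C : C ∈ lamO P A B C :=
  Subring.subset_closure (Or.inl (by simp))

private theorem gv_scalar {x : K} (hx : x ∈ P.O) : x • (1 : Module.End K V) ∈ lamO P A B C :=
  Subring.subset_closure (Or.inr ⟨x, hx, rfl⟩)

/-- gv -/
theorem lamO_smul {x : K} (hx : x ∈ P.O) {X : Module.End K V} (hX : X ∈ lamO P A B C) :
    x • X ∈ lamO P A B C := by
  have h1 : x • X = (x • (1 : Module.End K V)) * X := by rw [smul_mul_assoc, one_mul]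
  rw [h1]
  exact mul_mem (gv_scalar hx) hX

/-- gv -/
theorem lamJ_add {X Y : Module.End K V} (hX : X ∈ lamJ P A B C) (hY : Y ∈ lamJ P A B C) :
    X + Y ∈ lamJ P A B C := by
  obtain ⟨m, hm, X', hX', rfl⟩ := hX
  obtain ⟨n, hn, Y', hY', rfl⟩ := hY
  by_cases m0 : m = 0
  · subst m0
    exact ⟨n, hn, Y', hY', by rw [zero_smul, zero_add]⟩
  · by_cases n0 : n = 0
    · subst n0
      exact ⟨m, hm, X', hX', by rw [zero_smul, add_zero]⟩
    · rcases P.O.mem_or_inv_mem (n / m) with h | h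
      · refine ⟨m, hm, X' + (n / m) • Y', add_mem hX' (lamO_smul h hY'), ?_⟩
        rw [smul_add, smul_smul, mul_div_cancel₀ _ m0]
      · rw [inv_div] at h
        refine ⟨n, hn, (m / n) • X' + Y', add_mem (lamO_smul h hX') hY', ?_⟩
        rw [smul_add, smul_smul, mul_div_cancel₀ _ n0]

/-- gv -/
theorem lamJ_smul {x : K} (hx : x ∈ P.O) {X : Module.End K V} (hX : X ∈ lamJ P A B C) :
    x • X ∈ lamJ P A B C := by
  obtain ⟨m, hm, X', hX', rfl⟩ := hX
  exact ⟨m, hm, x • X', lamO_smul hx hX', by rw [smul_smul, smul_smul, mul_comm]⟩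

private theorem gv_one (hr : ∀ X Y, r (X * Y) = r Y * r X) : r 1 = 1 := by
  obtain ⟨X, hX⟩ := r.surjective 1
  have h1 := hr 1 X
  rw [one_mul, hX, one_mul] at h1
  exact h1.symm

/-- gv: an antiautomorphism which maps the generators into the order maps the order into
itself -/
theorem lamO_map (hr : ∀ X Y, r (X * Y) = r Y * r X) (hA : r A ∈ lamO P A B C)
    (hB : r B ∈ lamO P A B C) (hC : r C ∈ lamO P A B C) {X : Module.End K V}
    (hX : X ∈ lamO P A B C) : r X ∈ lamO P A B C := by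
  unfold lamO at hX
  induction hX using Subring.closure_induction with
  | mem X hX =>
    rcases hX with hX | ⟨x, hx, rfl⟩
    · rcases hX with rfl | rfl | rfl
      · exact hA
      · exact hB
      · exact hC
    · rw [map_smul, gv_one hr]
      exact gv_scalar hx
  | zero => rw [map_zero]; exact zero_mem _
  | one => rw [gv_one hr]; exact one_mem _
  | add X Y _ _ h1 h2 => rw [map_add]; exact add_mem h1 h2
  | neg X _ h1 => rw [map_neg]; exact neg_mem h1
  | mul X Y _ _ h1 h2 => rw [hr]; exact mul_mem h2 h1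

/-- gv -/
theorem lamJ_map (hr : ∀ X Y, r (X * Y) = r Y * r X) (hA : r A ∈ lamO P A B C)
    (hB : r B ∈ lamO P A B C) (hC : r C ∈ lamO P A B C) {X : Module.End K V}
    (hX : X ∈ lamJ P A B C) : r X ∈ lamJ P A B C := by
  obtain ⟨m, hm, X', hX', rfl⟩ := hX
  exact ⟨m, hm, r X', lamO_map hr hA hB hC hX', by rw [map_smul]⟩

private theorem gw_entries (hA : ∀ i j, ∃ z, P.Has (mt a A i j) z)
    (hB : ∀ i j, ∃ z, P.Has (mt a B i j) z) (hC : ∀ i j, ∃ z, P.Has (mt a C i j) z)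
    {X : Module.End K V} (hX : X ∈ lamO P A B C) :
    ∀ i j : Fin (d + 1), ∃ z, P.Has (mt a X i j) z := by
  have hone : ∀ i j : Fin (d + 1), ∃ z, P.Has (mt a (1 : Module.End K V) i j) z := by
    intro i j
    rw [gp_one]
    split_ifs
    · exact ⟨_, Place.has_one⟩
    · exact ⟨_, Place.has_zero⟩
  unfold lamO at hX
  induction hX using Subring.closure_induction with
  | mem X hX =>
    rcases hX with hX | ⟨x, hx, rfl⟩
    · rcases hX with rfl | rfl | rfl
      · exact hA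
      · exact hB
      · exact hC
    · intro i j
      obtain ⟨y, hy⟩ := Place.has_of_mem hx
      obtain ⟨z, hz⟩ := hone i j
      refine ⟨y * z, gp_cg (hy.mul hz) ?_ rfl⟩
      simp only [mt, map_smul, Matrix.smul_apply, smul_eq_mul]
  | zero =>
    intro i j
    exact ⟨0, gp_cg Place.has_zero (by simp [mt]) rfl⟩
  | one => exact hone
  | add X Y _ _ h1 h2 =>
    intro i j
    obtain ⟨y, hy⟩ := h1 i j
    obtain ⟨z, hz⟩ := h2 i j
    exact ⟨y + z, gp_cg (hy.add hz) (by simp [mt]) rfl⟩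
  | neg X _ h1 =>
    intro i j
    obtain ⟨y, hy⟩ := h1 i j
    exact ⟨-y, gp_cg hy.neg (by simp [mt]) rfl⟩
  | mul X Y _ _ h1 h2 =>
    intro i j
    choose y hy using h1
    choose z hz using h2
    refine ⟨∑ l, y i l * z l j, gp_cg (Place.Has.sum _ fun l _ => (hy i l).mul (hz l j)) ?_ rfl⟩
    have h3 : mt a (X * Y) = mt a X * mt a Y := by
      simp [mt, LinearMap.toMatrix_mul]
    rw [h3, Matrix.mul_apply]

/-- gw: entries of the elements of the order and of its multiples -/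
theorem lamJ_entries (hA : ∀ i j, ∃ z, P.Has (mt a A i j) z)
    (hB : ∀ i j, ∃ z, P.Has (mt a B i j) z) (hC : ∀ i j, ∃ z, P.Has (mt a C i j) z)
    {X : Module.End K V} (hX : X ∈ lamJ P A B C) (i j : Fin (d + 1)) :
    P.Has (mt a X i j) 0 := by
  obtain ⟨m, hm, Y, hY, rfl⟩ := hX
  obtain ⟨z, hz⟩ := gw_entries hA hB hC hY i j
  refine gp_cg (hm.mul hz) ?_ (by ring)
  simp only [mt, map_smul, Matrix.smul_apply, smul_eq_mul]

/-- the three maps are reflections modulo the maximal ideal -/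
structure RW (P : Place K k) (A B C : Module.End K V)
    (r s t : Module.End K V ≃ₗ[K] Module.End K V) (f f' g g' q q' : P.O) : Prop where
  hr : IsAnti r A B
  hs : IsAnti s C A
  ht : IsAnti t B C
  eC : ∃ ε : P.O, r C - (-C + (2 * (f : K)) • A + (2 * (f' : K)) • B
    + (ε : K) • (1 : Module.End K V)) ∈ lamJ P A B C
  eB : ∃ ε : P.O, s B - (-B + (2 * (g : K)) • C + (2 * (g' : K)) • A
    + (ε : K) • (1 : Module.End K V)) ∈ lamJ P A B C
  eA : ∃ ε : P.O, t A - (-A + (2 * (q : K)) • B + (2 * (q' : K)) • C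
    + (ε : K) • (1 : Module.End K V)) ∈ lamJ P A B C

private theorem gx_neg {X : Module.End K V} (hX : X ∈ lamJ P A B C) : -X ∈ lamJ P A B C := by
  obtain ⟨m, hm, X', hX', rfl⟩ := hX
  exact ⟨m, hm, -X', neg_mem hX', by rw [smul_neg]⟩

private theorem gx_sub {X Y : Module.End K V} (hX : X ∈ lamJ P A B C) (hY : Y ∈ lamJ P A B C) :
    X - Y ∈ lamJ P A B C := by
  rw [sub_eq_add_neg]
  exact lamJ_add hX (gx_neg hY)

private theorem gx_le {X : Module.End K V} (hX : X ∈ lamJ P A B C) : X ∈ lamO P A B C := by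
  obtain ⟨m, hm, X', hX', rfl⟩ := hX
  exact lamO_smul hm.mem hX'

private theorem gx_zero : (0 : Module.End K V) ∈ lamJ P A B C :=
  ⟨0, Place.has_zero, 0, zero_mem _, by rw [smul_zero]⟩

/-- one generator: the two fixed elements stay, the third one is reflected -/
private theorem gx_mem {S T U : Module.End K V} {p q ε : K} (hp : p ∈ P.O) (hq : q ∈ P.O)
    (hε : ε ∈ P.O) (hS : S ∈ lamO P A B C) (hT : T ∈ lamO P A B C) (hU : U ∈ lamO P A B C)
    {W : Module.End K V}
    (h : W - (-S + (2 * p) • T + (2 * q) • U + ε • (1 : Module.End K V)) ∈ lamJ P A B C) :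
    W ∈ lamO P A B C := by
  have h2 : (2 : K) ∈ P.O := by
    have := natCast_mem P.O 2
    exact_mod_cast this
  have h1 : -S + (2 * p) • T + (2 * q) • U + ε • (1 : Module.End K V) ∈ lamO P A B C :=
    add_mem (add_mem (add_mem (neg_mem hS) (lamO_smul (mul_mem h2 hp) hT))
      (lamO_smul (mul_mem h2 hq) hU)) (gv_scalar hε)
  have h3 := add_mem (gx_le h) h1
  rwa [sub_add_cancel] at h3

/-- gx: action of a word modulo the maximal ideal (coordinates in the order `C, B, A`) -/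
theorem RW.word {f f' g g' q q' : P.O} (h : RW P A B C r s t f f' g g' q q')
    (ω : List (Fin 3)) (x : Fin 3 → P.O) :
    ∃ (y : Fin 3 → P.O) (ε : P.O),
      y = (wordM (cartM f f' g g' q q') ω.reverse).transpose.mulVec x ∧
      wordG r s t ω ((x 0 : K) • C + (x 1 : K) • B + (x 2 : K) • A)
        - ((y 0 : K) • C + (y 1 : K) • B + (y 2 : K) • A + (ε : K) • (1 : Module.End K V))
        ∈ lamJ P A B C := by
  induction ω with
  | nil =>
    refine ⟨x, 0, ?_, ?_⟩
    · simp [wordM]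
    · have h0 : wordG r s t [] ((x 0 : K) • C + (x 1 : K) • B + (x 2 : K) • A)
        - ((x 0 : K) • C + (x 1 : K) • B + (x 2 : K) • A
          + ((0 : P.O) : K) • (1 : Module.End K V)) = 0 := by
        simp [wordG]
      rw [h0]
      exact gx_zero
  | cons i ω ih =>
    obtain ⟨y, ε, hy, hw⟩ := ih
    refine ⟨(sigM (cartM f f' g g' q q') i).transpose.mulVec y, ?_⟩
    have hM : (sigM (cartM f f' g g' q q') i).transpose.mulVec y =
        (wordM (cartM f f' g g' q q') (i :: ω).reverse).transpose.mulVec x := by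
      rw [hy, Matrix.mulVec_mulVec]
      congr 1
      unfold wordM
      rw [List.reverse_cons, List.map_append, List.prod_append, List.map_singleton,
        List.prod_singleton, Matrix.transpose_mul]
    have hG : ∀ Z, wordG r s t (i :: ω) Z = (![r, s, t] i) (wordG r s t ω Z) := by
      intro Z
      unfold wordG
      rw [List.map_cons, List.prod_cons]
      rfl
    obtain ⟨eC, hC⟩ := h.eC
    obtain ⟨eB, hB⟩ := h.eB
    obtain ⟨eA, hA⟩ := h.eA
    have hv : ∀ l, (sigM (cartM f f' g g' q q') i).transpose.mulVec y l =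
        y l - cartM f f' g g' q q' i l * y i := by
      intro l
      simp only [Matrix.mulVec, dotProduct, Matrix.transpose_apply, sigM, Matrix.of_apply,
        Fin.sum_univ_three]
      fin_cases i <;> fin_cases l <;> simp <;> ring
    have h22 : ((2 : P.O) : K) = 2 := rfl
    obtain ⟨Z, hZ⟩ : ∃ Z, Z = wordG r s t ω ((x 0 : K) • C + (x 1 : K) • B + (x 2 : K) • A) :=
      ⟨_, rfl⟩
    rw [← hZ] at hw
    have rC : r C ∈ lamO P A B C := gx_mem f.2 f'.2 eC.2 gv_C gv_A gv_B hC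
    have sB : s B ∈ lamO P A B C := gx_mem g.2 g'.2 eB.2 gv_B gv_C gv_A hB
    have tA : t A ∈ lamO P A B C := gx_mem q.2 q'.2 eA.2 gv_A gv_B gv_C hA
    fin_cases i
    · refine ⟨ε + y 0 * eC, hM, ?_⟩
      rw [hG, ← hZ, hv, hv, hv]
      have h1 := lamJ_map h.hr.anti (by rw [h.hr.fixA]; exact gv_A)
        (by rw [h.hr.fixB]; exact gv_B) rC hw
      have h2 := lamJ_add h1 (lamJ_smul (y 0).2 hC)
      refine (congrArg (· ∈ lamJ P A B C) ?_).mp h2
      simp only [cartM, map_add, map_sub, map_smul, Fin.zero_eta, Fin.isValue,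
        Matrix.cons_val_zero, Matrix.of_apply, Matrix.cons_val', Matrix.cons_val_one,
        Matrix.cons_val, h.hr.fixA, h.hr.fixB, gv_one h.hr.anti]
      push_cast
      rw [h22]
      module
    · refine ⟨ε + y 1 * eB, hM, ?_⟩
      rw [hG, ← hZ, hv, hv, hv]
      have h1 := lamJ_map h.hs.anti (by rw [h.hs.fixB]; exact gv_A)
        sB (by rw [h.hs.fixA]; exact gv_C) hw
      have h2 := lamJ_add h1 (lamJ_smul (y 1).2 hB)
      refine (congrArg (· ∈ lamJ P A B C) ?_).mp h2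
      simp only [cartM, map_add, map_sub, map_smul, Fin.mk_one, Fin.isValue,
        Matrix.cons_val_zero, Matrix.of_apply, Matrix.cons_val', Matrix.cons_val_one,
        Matrix.cons_val, h.hs.fixA, h.hs.fixB, gv_one h.hs.anti]
      push_cast
      rw [h22]
      module
    · refine ⟨ε + y 2 * eA, hM, ?_⟩
      rw [hG, ← hZ, hv, hv, hv]
      have h1 := lamJ_map h.ht.anti tA (by rw [h.ht.fixA]; exact gv_B)
        (by rw [h.ht.fixB]; exact gv_C) hw
      have h2 := lamJ_add h1 (lamJ_smul (y 2).2 hA)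
      refine (congrArg (· ∈ lamJ P A B C) ?_).mp h2
      simp only [cartM, map_add, map_sub, map_smul, Fin.reduceFinMk, Fin.isValue,
        Matrix.cons_val_zero, Matrix.of_apply, Matrix.cons_val', Matrix.cons_val_one,
        Matrix.cons_val, h.ht.fixA, h.ht.fixB, gv_one h.ht.anti]
      push_cast
      rw [h22]
      module

private theorem gy_refl {P : Place K k} {S T U : Module.End K V} (h2 : (2 : K) ≠ 0)
    {φ : Module.End K V ≃ₗ[K] Module.End K V}
    {e p q g w : K} (hφ : S - φ S = w • (T * U - U * T))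
    (xS : S = e • 1 + p • T + q • U + g • (T * U + U * T) + (w / 2) • (T * U - U * T))
    (hg : P.Has g 0) (hT : T ∈ lamO P A B C) (hU : U ∈ lamO P A B C) :
    φ S - (-S + (2 * p) • T + (2 * q) • U + (2 * e) • (1 : Module.End K V))
      ∈ lamJ P A B C := by
  refine ⟨2 * g, gp_cg (Place.has_two.mul hg) rfl (by ring), T * U + U * T,
    add_mem (mul_mem hT hU) (mul_mem hU hT), ?_⟩
  have h1 : φ S = S - w • (T * U - U * T) := by rw [← hφ, sub_sub_cancel]
  have h3 : S + S = (2 * e) • 1 + (2 * p) • T + (2 * q) • U + (2 * g) • (T * U + U * T)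
      + w • (T * U - U * T) := by
    conv_lhs => rw [xS]
    have h4 : w = w / 2 + w / 2 := by field_simp; ring
    conv_rhs => rw [h4]
    module
  have h5 : φ S - (-S + (2 * p) • T + (2 * q) • U + (2 * e) • (1 : Module.End K V))
      = (S + S) - w • (T * U - U * T) - ((2 * p) • T + (2 * q) • U
        + (2 * e) • (1 : Module.End K V)) := by
    rw [h1]
    module
  rw [h5, h3]
  module

/-- gy: a reduction of a setup gives reflections modulo the maximal ideal -/
theorem Red.rw [CharZero k] (R : Red P a b c A B C α β γ)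
    (h : Setup a b c A B C r s t α β γ) (D₁ : 1 - R.F' * R.F₂ ≠ 0)
    (D₂ : 1 - R.F₁' * R.F ≠ 0) :
    ∃ f f' g g' q q' : P.O, P.π f = R.F ∧ P.π f' = R.F' ∧ P.π g = R.F₂ ∧ P.π g' = R.F₂' ∧
      P.π q = R.F₁ ∧ P.π q' = R.F₁' ∧ RW P A B C r s t f f' g g' q q' := by
  obtain ⟨⟨e, pe, -⟩, ⟨e₁, pe₁, -⟩, ⟨e₂, pe₂, -⟩, -, -⟩ := R.consts D₁ D₂
  obtain ⟨f, pf, hf⟩ := R.hf
  obtain ⟨f', pf', hf'⟩ := R.hf'
  obtain ⟨g, pg, hg⟩ := R.hf₂
  obtain ⟨g', pg', hg'⟩ := R.hf₂'
  obtain ⟨q, pq, hq⟩ := R.hf₁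
  obtain ⟨q', pq', hq'⟩ := R.hf₁'
  have h22 : ((2 : P.O) : K) = 2 := rfl
  refine ⟨f, f', g, g', q, q', hf, hf', hg, hg', hq, hq', h.hr, h.hs, h.ht, ⟨2 * e, ?_⟩,
    ⟨2 * e₂, ?_⟩, ⟨2 * e₁, ?_⟩⟩
  · have := gy_refl (A := A) (B := B) (C := C) h.h2 h.eC R.xC R.hg gv_A gv_B
    rw [← pf, ← pf', ← pe] at this
    exact this
  · have := gy_refl (A := A) (B := B) (C := C) h.h2 h.eB R.xB R.hg₂ gv_C gv_A
    rw [← pg, ← pg', ← pe₂] at this
    exact this
  · have := gy_refl (A := A) (B := B) (C := C) h.h2 h.eA R.xA R.hg₁ gv_B gv_C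
    rw [← pq, ← pq', ← pe₁] at this
    exact this

private theorem gz_cart {R : Type*} [CommRing R] (f f' g g' k k' : R) (i : Fin 3) :
    cartM f f' g g' k k' i i = 2 := by
  fin_cases i <;> simp [cartM]

private theorem gz_rev {R : Type*} [CommRing R] {N : Matrix (Fin 3) (Fin 3) R}
    (hN : ∀ i, N i i = 2) (ω : List (Fin 3)) : wordM N ω * wordM N ω.reverse = 1 := by
  induction ω with
  | nil => simp [wordM]
  | cons i ω ih =>
    unfold wordM at ih ⊢
    rw [List.reverse_cons, List.map_append, List.prod_append, List.map_singleton,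
      List.prod_singleton, List.map_cons, List.prod_cons, mul_assoc, ← mul_assoc _ _ (sigM N i),
      ih, one_mul, sigM_sq hN]

private theorem gz_map {R S : Type*} [CommRing R] [CommRing S] (π : R →+* S)
    (f f' g g' k k' : R) (ω : List (Fin 3)) :
    (wordM (cartM f f' g g' k k') ω).map π
      = wordM (cartM (π f) (π f') (π g) (π g') (π k) (π k')) ω := by
  have h2 : π 2 = 2 := map_ofNat π 2
  have h1 : ∀ i, (sigM (cartM f f' g g' k k') i).map π
      = sigM (cartM (π f) (π f') (π g) (π g') (π k) (π k')) i := by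
    intro i
    ext p q
    fin_cases i <;> fin_cases p <;> fin_cases q <;> simp [sigM, cartM, h2]
  induction ω with
  | nil => simp [wordM]
  | cons i ω ih =>
    unfold wordM at ih ⊢
    rw [List.map_cons, List.prod_cons, List.map_cons, List.prod_cons, Matrix.map_mul, ih, h1]

/-- gz: a trivial word has a trivial residual matrix -/
theorem Red.word_trivial [CharZero k] (R : Red P a b c A B C α β γ)
    (h : Setup a b c A B C r s t α β γ) (hd : 1 ≤ d)
    (D₁ : 1 - R.F' * R.F₂ ≠ 0) (D₂ : 1 - R.F₁' * R.F ≠ 0)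
    (hcyc : R.F * R.F₂ * R.F₁ = R.F' * R.F₂' * R.F₁')
    (hdet : 1 - R.F' * R.F₂ - R.F₂' * R.F₁ - R.F₁' * R.F - 2 * (R.F * R.F₂ * R.F₁) ≠ 0)
    {ω : List (Fin 3)} (hω : wordG r s t ω = 1) :
    wordM (cartM R.F R.F' R.F₂ R.F₂' R.F₁ R.F₁') ω = 1 := by
  obtain ⟨f, f', g, g', q, q', hf, hf', hg, hg', hq, hq', hR⟩ := R.rw h D₁ D₂
  have hc : wordM (cartM R.F R.F' R.F₂ R.F₂' R.F₁ R.F₁') ω.reverse = 1 := by
    rw [← hf, ← hf', ← hg, ← hg', ← hq, ← hq', ← gz_map]
    rw [← Matrix.transpose_inj, Matrix.transpose_one]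
    apply Matrix.ext_of_mulVec_single
    intro i
    obtain ⟨y, ε, hy, hw⟩ := hR.word ω (Pi.single i 1)
    rw [hω] at hw
    obtain ⟨x, hx⟩ : ∃ x : Fin 3 → P.O, x = Pi.single i 1 := ⟨_, rfl⟩
    rw [← hx] at hy hw
    have hx' : (Pi.single i 1 : Fin 3 → k) = fun j => P.π (x j) := by
      rw [hx]
      funext j
      by_cases hij : j = i
      · subst hij
        simp
      · simp [hij]
    rw [hx', Matrix.one_mulVec]
    have hy' : ((wordM (cartM f f' g g' q q') ω.reverse).map P.π).transpose.mulVec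
        (fun j => P.π (x j)) = fun j => P.π (y j) := by
      funext j
      rw [hy]
      simp only [Matrix.mulVec, dotProduct, Matrix.transpose_apply, Matrix.map_apply, map_sum,
        map_mul]
    rw [hy']
    have hz : ∀ i j, P.Has (mt a ((-(ε : K)) • (1 : Module.End K V) + ((x 2 : K) - y 2) • A
        + ((x 1 : K) - y 1) • B + ((x 0 : K) - y 0) • C) i j) 0 := by
      intro i j
      refine lamJ_entries (fun i j => (R.entries D₁ D₂ i j).1)
        (fun i j => (R.entries D₁ D₂ i j).2.1) (fun i j => (R.entries D₁ D₂ i j).2.2) ?_ i j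
      refine (congrArg (· ∈ lamJ P A B C) ?_).mp hw
      rw [LinearEquiv.coe_one, id]
      module
    have hp : ∀ z : P.O, P.Has (z : K) (P.π z) := fun z => ⟨z, rfl, rfl⟩
    obtain ⟨-, h3, h4, h5⟩ := R.indep hd D₁ D₂ hcyc hdet (hp ε).neg ((hp (x 2)).sub (hp (y 2)))
      ((hp (x 1)).sub (hp (y 1))) ((hp (x 0)).sub (hp (y 0))) hz
    funext j
    fin_cases j
    · exact (sub_eq_zero.1 h5).symm
    · exact (sub_eq_zero.1 h4).symm
    · exact (sub_eq_zero.1 h3).symm
  have := gz_rev (gz_cart R.F R.F' R.F₂ R.F₂' R.F₁ R.F₁') ω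
  rwa [hc, mul_one] at this

end

end Pool.Agent.Leo
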