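import Pool.Agent.Leo.GenC

/-!
# Generic triples, part D: the theorem
-/

namespace Pool.Agent.Leo

universe u v

section
variable {K : Type u} [Field K] [CharZero K] {V : Type v} [AddCommGroup V] [Module K V] {d : ℕ}
  {a b c : Module.Basis (Fin (d + 1)) K V} {A B C : Module.End K V}
  {r s t : Module.End K V ≃ₗ[K] Module.End K V} {α β γ : K}

/-- ha: words of a normalized setup with algebraically independent parameters -/
theorem Setup.generic_word (h : Setup a b c A B C r s t α β γ) (hd : 2 ≤ d) (hγ : γ ≠ 0)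
    (hA : Nrm a A) (hB : Nrm b B) (hC : Nrm c C)
    (h1 : ∀ i j : Fin (d + 1), (i : ℕ) + 1 = j → mt a B i j = 1) {ω ρ σ τ : K} (hρ : GeoRatio a (r * s) ω ρ) (hσ : GeoRatio b (t * r) ω σ)
    (hτ : GeoRatio c (s * t) ω τ) (hI : AlgebraicIndependent ℚ ![ω, ρ, σ, τ]) :
    ∃ (k : Type u) (_ : Field k) (_ : CharZero k) (f f' g g' q q' ρ₀ σ₀ τ₀ : k),
      ρ₀ ≠ 0 ∧ σ₀ ≠ 0 ∧ τ₀ ≠ 0 ∧ 4 * (f' * g) = 2 + ρ₀ + ρ₀⁻¹ ∧
      4 * (f * q') = 2 + σ₀ + σ₀⁻¹ ∧ 4 * (g' * q) = 2 + τ₀ + τ₀⁻¹ ∧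
      f * g * q = f' * g' * q' ∧ AlgebraicIndependent ℚ ![ρ₀, σ₀, τ₀] ∧
      ∀ ω : List (Fin 3), wordG r s t ω = 1 → wordM (cartM f f' g g' q q') ω = 1 := by
  obtain ⟨e, f, f', g, e₁, f₁, f₁', g₁, e₂, f₂, f₂', g₂, κ, κ₁, κ₂, xC, xA, xB, k0, k1, k2, s1, s2,
    s3, s4, s5, s6⟩ := h.three_seq hd hγ hA hB hC hρ hσ hτ
  set E := IntermediateField.adjoin ℚ (![ω, ρ, σ, τ] '' ({1, 2, 3} : Set (Fin 4))) with hE
  have hω : Transcendental E ω := by
    have h2 : Transcendental (Algebra.adjoin ℚ (![ω, ρ, σ, τ] '' ({1, 2, 3} : Set (Fin 4))))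
        (![ω, ρ, σ, τ] 0) := hI.transcendental_adjoin (by simp)
    exact IntermediateField.transcendental_adjoin_iff.2 h2
  have hκ : Transcendental E κ := by
    intro hk
    apply hω
    rw [← k0]
    exact hk.pow 2
  obtain ⟨k, _, _, P, ι, hι, hκ1⟩ := exists_place E hκ
  have mρ : ρ ∈ E := IntermediateField.subset_adjoin ℚ _ ⟨1, by simp, rfl⟩
  have mσ : σ ∈ E := IntermediateField.subset_adjoin ℚ _ ⟨2, by simp, rfl⟩
  have mτ : τ ∈ E := IntermediateField.subset_adjoin ℚ _ ⟨3, by simp, rfl⟩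
  have hI3 : AlgebraicIndependent ℚ ![ρ, σ, τ] := by
    have h2 := hI.comp (fun i : Fin 3 => i.succ) (Fin.succ_injective 3)
    have h3 : (![ω, ρ, σ, τ] ∘ fun i : Fin 3 => i.succ) = ![ρ, σ, τ] := by
      funext i
      fin_cases i <;> rfl
    rwa [h3] at h2
  have hIk : AlgebraicIndependent ℚ ![ι ⟨ρ, mρ⟩, ι ⟨σ, mσ⟩, ι ⟨τ, mτ⟩] := by
    have h2 := indep_image (E := E) ι (x := ![⟨ρ, mρ⟩, ⟨σ, mσ⟩, ⟨τ, mτ⟩]) (by
      have h3 : (fun i => ((![⟨ρ, mρ⟩, ⟨σ, mσ⟩, ⟨τ, mτ⟩] : Fin 3 → E) i : K)) = ![ρ, σ, τ] := by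
        funext i
        fin_cases i <;> rfl
      rw [h3]
      exact hI3)
    have h3 : (fun i => ι ((![⟨ρ, mρ⟩, ⟨σ, mσ⟩, ⟨τ, mτ⟩] : Fin 3 → E) i)) =
        ![ι ⟨ρ, mρ⟩, ι ⟨σ, mσ⟩, ι ⟨τ, mτ⟩] := by
      funext i
      fin_cases i <;> rfl
    rwa [h3] at h2
  have hne : ∀ z : k, Transcendental ℚ z → z ≠ 0 ∧ z ≠ 1 := by
    intro z hz
    constructor
    · rintro rfl
      exact hz isAlgebraic_zero
    · rintro rfl
      exact hz isAlgebraic_one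
  obtain ⟨ρ0, ρ1⟩ := hne _ (hIk.transcendental 0)
  obtain ⟨σ0, σ1⟩ := hne _ (hIk.transcendental 1)
  obtain ⟨τ0, τ1⟩ := hne _ (hIk.transcendental 2)
  obtain ⟨R, R1, R2, R3, R4⟩ := exists_red (P := P) h.lt hd h1 xC xA xB (k1.trans k0.symm)
    (k2.trans k0.symm) s1 s2 s3 s4 s5 s6 hκ1 (hι ⟨ρ, mρ⟩) (hι ⟨σ, mσ⟩) (hι ⟨τ, mτ⟩)
    ρ0 ρ1 σ0 σ1 τ0 τ1
  have hD : ∀ z x : k, z ≠ 0 → z ≠ 1 → 4 * x = 2 + z + z⁻¹ → 1 - x ≠ 0 := by
    intro z x hz0 hz1 hx hx1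
    have h2 : x = 1 := (sub_eq_zero.1 hx1).symm
    rw [h2] at hx
    have h3 : (z - 1) ^ 2 = 0 := by
      field_simp at hx
      linear_combination (-1 : k) * hx
    exact hz1 (sub_eq_zero.1 ((pow_eq_zero_iff two_ne_zero).1 h3))
  have D₁ : 1 - R.F' * R.F₂ ≠ 0 := hD _ _ ρ0 ρ1 R1
  have D₂ : 1 - R.F₁' * R.F ≠ 0 := hD _ _ σ0 σ1 (by rw [mul_comm R.F₁']; exact R2)
  have hdet : 1 - R.F' * R.F₂ - R.F₂' * R.F₁ - R.F₁' * R.F - 2 * (R.F * R.F₂ * R.F₁) ≠ 0 :=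
    det_ne ρ0 σ0 τ0 R1 R2 R3 R4 hIk
  exact ⟨k, inferInstance, inferInstance, R.F, R.F', R.F₂, R.F₂', R.F₁, R.F₁', _, _, _, ρ0, σ0, τ0,
    R1, R2, R3, R4, hIk, fun w hw => R.word_trivial h (by omega) D₁ D₂ R4 hdet hw⟩

/-- hb: the traces are in the field generated by the parameters -/
theorem Setup.traces_mem (h : Setup a b c A B C r s t α β γ) {ω ρ σ τ : K}
    (hρ : GeoRatio a (r * s) ω ρ) (hσ : GeoRatio b (t * r) ω σ)
    (hτ : GeoRatio c (s * t) ω τ) (i : Fin 4) :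
    ![trEnd (r * s), trEnd (r * t), trEnd (s * t), trEnd ((r * s) ^ 2)] i ∈
      IntermediateField.adjoin ℚ (Set.range ![ω, ρ, σ, τ]) := by
  have mono : ∀ x ∈ Set.range ![ω, ρ, σ, τ], IntermediateField.adjoin ℚ ({ω, x} : Set K) ≤
      IntermediateField.adjoin ℚ (Set.range ![ω, ρ, σ, τ]) := by
    intro x hx
    refine IntermediateField.adjoin.mono ℚ _ _ ?_
    rintro y (rfl | rfl)
    · exact ⟨0, rfl⟩
    · exact hx
  have h1 := mono ρ ⟨1, rfl⟩ (hρ.trace_mem 1)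
  have h2 := mono σ ⟨2, rfl⟩ (hσ.trace_mem 1)
  have h3 := mono τ ⟨3, rfl⟩ (hτ.trace_mem 1)
  have h4 := mono ρ ⟨1, rfl⟩ (hρ.trace_mem 2)
  rw [pow_one] at h1 h2 h3
  have h5 : trEnd (r * t) = trEnd (t * r) := by
    unfold trEnd
    exact LinearMap.trace_mul_comm K r.toLinearMap t.toLinearMap
  fin_cases i
  · exact h1
  · change trEnd (r * t) ∈ _
    rw [h5]
    exact h2
  · exact h3
  · exact h4

private theorem hc_key {φ : Module.End K V ≃ₗ[K] Module.End K V}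
    (hI : AlgebraicIndependent ℚ ![trEnd φ, trEnd (φ ^ 2)]) (c : Fin (d + 1) → Fin (d + 1) → K)
    (hX : ∀ X i j, mt a (φ X) i j = c i j * mt a X i j) (q : K)
    (hc : ∀ i j, c i j ∈ IntermediateField.adjoin ℚ (Set.range ![q, 0])) : False := by
  have e1 : trEnd φ = ∑ i, ∑ j, c i j := trace_diag a φ c hX
  have e2 : trEnd (φ ^ 2) = ∑ i, ∑ j, c i j ^ 2 := by
    refine trace_diag a (φ ^ 2) (fun i j => c i j ^ 2) fun X i j => ?_
    rw [pow_two, LinearEquiv.mul_apply, hX, hX]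
    ring
  have h1 : AlgebraicIndependent ℚ ![q, 0] := by
    refine indep_of_mem hI fun i => ?_
    fin_cases i
    · change trEnd φ ∈ _
      rw [e1]
      exact sum_mem fun i _ => sum_mem fun j _ => hc i j
    · change trEnd (φ ^ 2) ∈ _
      rw [e2]
      exact sum_mem fun i _ => sum_mem fun j _ => pow_mem (hc i j) 2
  exact h1.transcendental 1 isAlgebraic_zero

/-- hc: the degenerate cases are excluded -/
theorem Setup.two_le (h : Setup a b c A B C r s t α β γ)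
    (hI : AlgebraicIndependent ℚ ![trEnd (r * s), trEnd ((r * s) ^ 2)]) : 2 ≤ d ∧ γ ≠ 0 := by
  obtain ⟨u, hu, hX⟩ := ratio_exists h.lt h.hr h.hs
  have hd : 2 ≤ d := by
    by_contra hlt
    have hd1 : d = 0 ∨ d = 1 := by omega
    rcases hd1 with rfl | rfl
    · refine hc_key hI (fun i j => u i / u j) hX 0 fun i j => ?_
      have : i = j := Fin.ext (by omega)
      rw [this, div_self (hu j)]
      exact one_mem _
    · refine hc_key hI (fun i j => u i / u j) hX (u 0 / u 1) fun i j => ?_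
      have hm : u 0 / u 1 ∈ IntermediateField.adjoin ℚ (Set.range ![u 0 / u 1, 0]) :=
        IntermediateField.subset_adjoin ℚ _ ⟨0, rfl⟩
      fin_cases i <;> fin_cases j
      · change u 0 / u 0 ∈ _
        rw [div_self (hu 0)]
        exact one_mem _
      · exact hm
      · change u 1 / u 0 ∈ _
        have h1 : u 1 / u 0 = (u 0 / u 1)⁻¹ := (inv_div _ _).symm
        rw [h1]
        exact inv_mem hm
      · change u 1 / u 1 ∈ _
        rw [div_self (hu 1)]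
        exact one_mem _
  refine ⟨hd, fun hγ => ?_⟩
  obtain ⟨hrs, _⟩ := h.degenerate (by omega) hγ
  have rr : r * r = 1 := h.lt.pAB.anti_sq h.hr
  have h1 : r * s = 1 := by rw [← hrs, rr]
  refine hc_key (a := a) hI (fun _ _ => 1) (fun X i j => ?_) 0 fun i j => one_mem _
  rw [h1, one_mul]
  rfl

end

private theorem hd_order {K : Type u} [Field K] [CharZero K] {V : Type v} [AddCommGroup V]
    [Module K V] {d : ℕ} {a : Module.Basis (Fin (d + 1)) K V}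
    {φ : Module.End K V ≃ₗ[K] Module.End K V} {ω ρ : K} (h : GeoRatio a φ ω ρ) (hd : 2 ≤ d)
    (hω : Transcendental ℚ ω) : orderOf φ = 0 := by
  rw [orderOf_eq_zero_iff']
  intro n hn h1
  have h2 := ((h.pow_eq_one hd n).1 h1).1
  apply hω
  refine ⟨Polynomial.X ^ n - Polynomial.C 1, Polynomial.X_pow_sub_C_ne_zero hn 1, ?_⟩
  rw [map_sub, map_pow, Polynomial.aeval_X, Polynomial.aeval_C, h2, map_one, sub_self]

/-- hd: the theorem -/
theorem generic_coxeter {K : Type u} [Field K] [CharZero K] {V : Type v} [AddCommGroup V]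
    [Module K V] {A B C : Module.End K V} {r s t : Module.End K V ≃ₗ[K] Module.End K V}
    (h : LeonardTriple A B C) (hr : IsAnti r A B) (hs : IsAnti s A C) (ht : IsAnti t B C)
    (hI : AlgebraicIndependent ℚ
      ![trEnd (r * s), trEnd (r * t), trEnd (s * t), trEnd ((r * s) ^ 2)]) :
    orderOf (r * s) = 0 ∧ orderOf (r * t) = 0 ∧ orderOf (s * t) = 0 ∧
      IsCoxeterTriple r s t := by
  obtain ⟨d, a, b, c, α, β, γ, hS⟩ := exists_setup two_ne_zero h hr hs ht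
  have hI2 : AlgebraicIndependent ℚ ![trEnd (r * s), trEnd ((r * s) ^ 2)] := by
    have h1 := hI.comp (![0, 3] : Fin 2 → Fin 4) (by
      intro i j hij
      fin_cases i <;> fin_cases j <;> first | rfl | exact absurd hij (by decide))
    have h2 : (![trEnd (r * s), trEnd (r * t), trEnd (s * t), trEnd ((r * s) ^ 2)] ∘
        (![0, 3] : Fin 2 → Fin 4)) = ![trEnd (r * s), trEnd ((r * s) ^ 2)] := by
      funext i
      fin_cases i <;> rfl
    rwa [h2] at h1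
  obtain ⟨hd, hγ⟩ := hS.two_le hI2
  obtain ⟨a', A', B', C', α', β', γ', hS', hγ', nA, nB, nC, hone⟩ :=
    hS.normalize (by omega) hγ
  obtain ⟨ω, ρ, σ, τ, hρ, hσ, hτ, -, -⟩ := hS'.ratio_common hd hγ'
  have hI4 : AlgebraicIndependent ℚ ![ω, ρ, σ, τ] :=
    indep_of_mem hI (hS'.traces_mem hρ hσ hτ)
  have hω : Transcendental ℚ ω := hI4.transcendental 0
  obtain ⟨k, _, _, f, f', g, g', q, q', ρ₀, σ₀, τ₀, ρ0, σ0, τ0, R1, R2, R3, R4, hIk, hw⟩ :=
    hS'.generic_word hd hγ' nA nB nC hone hρ hσ hτ hI4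
  have rr : r * r = 1 := hS.lt.pAB.anti_sq hr
  have ss : s * s = 1 := hS.lt.pAC.anti_sq hs
  have tt : t * t = 1 := hS.lt.pBC.anti_sq ht
  have o1 : orderOf (r * s) = 0 := hd_order hρ hd hω
  have o3 : orderOf (s * t) = 0 := hd_order hτ hd hω
  have o2 : orderOf (r * t) = 0 := by
    have h1 : r * t = (t * r)⁻¹ := by
      rw [mul_inv_rev, inv_eq_of_mul_eq_one_left rr, inv_eq_of_mul_eq_one_left tt]
    rw [h1, orderOf_inv]
    exact hd_order hσ hd hω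
  exact ⟨o1, o2, o3, coxeter_of_generic ρ0 σ0 τ0 R1 R2 R3 R4 hIk rr ss tt o1 o2 o3 hw⟩

end Pool.Agent.Leo
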