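import Pool.Agent.Leo.Triple

/-!
# Leonard triples of Krawtchouk type: `C` is a combination of `1, A, B, AB - BA`
-/

namespace Pool.Agent.Leo

variable {K : Type*} [Field K] {V : Type*} [AddCommGroup V] [Module K V]

section
variable {d : ℕ} {a b c : Module.Basis (Fin (d + 1)) K V} {A B C : Module.End K V}
  {r s t : Module.End K V ≃ₗ[K] Module.End K V} {α β γ : K}

private theorem ka_rel (h : Setup a b c A B C r s t α β γ) (hγ : γ ≠ 0) {e f f' : K}
    (hC : C = e • 1 + f • A + f' • B + (γ / 2) • (A * B - B * A)) {u : Fin (d + 1) → K}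
    (hu : ∀ i, u i ≠ 0) (hX : ∀ X i j, mt a ((r * s) X) i j = u i / u j * mt a X i j)
    {i j : Fin (d + 1)} (hij : (i : ℕ) + 1 = j ∨ (j : ℕ) + 1 = i) :
    f' + γ / 2 * (mt a A i i - mt a A j j) ≠ 0 ∧
    f' - γ / 2 * (mt a A i i - mt a A j j) ≠ 0 ∧
    u i / u j * (f' + γ / 2 * (mt a A i i - mt a A j j))
      = f' - γ / 2 * (mt a A i i - mt a A j j) ∧
    f' ^ 2 - γ ^ 2 / 4 * (mt a A i i - mt a A j j) ^ 2 = γ / β := by
  have hC' : C = e • 1 + f • A + f' • B + (0 : K) • (A * B + B * A)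
      + (γ / 2) • (A * B - B * A) := by
    rw [zero_smul, add_zero]; exact hC
  have := h.expr_entries hγ hu hX hC' hij
  simpa using this

/-- ka: the squares of the gaps of the eigenvalues of `A` are constant -/
theorem Setup.gapA (h : Setup a b c A B C r s t α β γ) (hd : 1 ≤ d) (hγ : γ ≠ 0) {e f f' : K}
    (hC : C = e • 1 + f • A + f' • B + (γ / 2) • (A * B - B * A)) :
    ∃ δ : K, δ ≠ 0 ∧ γ = β * (f' ^ 2 - γ ^ 2 * δ / 4) ∧
      ∀ i j : Fin (d + 1), (i : ℕ) + 1 = j → (mt a A i i - mt a A j j) ^ 2 = δ := by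
  obtain ⟨u, hu, hX⟩ := ratio_exists h.lt h.hr h.hs
  have hβ := (h.nondegenerate hd hγ).2.1
  have h2 := h.h2
  have h4 : (4 : K) ≠ 0 := by
    have : (4 : K) = 2 * 2 := by norm_num
    rw [this]; exact mul_ne_zero h2 h2
  have key : ∀ i j : Fin (d + 1), (i : ℕ) + 1 = j →
      (mt a A i i - mt a A j j) ^ 2 = (f' ^ 2 - γ / β) * 4 / γ ^ 2 := by
    intro i j hij
    have h1 := (ka_rel h hγ hC hu hX (Or.inl hij)).2.2.2
    rw [← h1]
    field_simp
    ring
  refine ⟨(f' ^ 2 - γ / β) * 4 / γ ^ 2, ?_, ?_, key⟩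
  · have h1 := key ⟨0, by omega⟩ ⟨1, by omega⟩ rfl
    rw [← h1]
    apply pow_ne_zero
    rw [sub_ne_zero]
    intro h3
    have := h.lt.pAB.inj h3
    simp at this
  · field_simp
    ring

/-- kb: the squares of the gaps of the eigenvalues of `B` are constant -/
theorem Setup.gapB (h : Setup a b c A B C r s t α β γ) (hd : 1 ≤ d) (hγ : γ ≠ 0) {e f f' : K}
    (hC : C = e • 1 + f • A + f' • B + (γ / 2) • (A * B - B * A)) :
    ∃ δ' : K, δ' ≠ 0 ∧ γ = α * (f ^ 2 - γ ^ 2 * δ' / 4) ∧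
      ∀ i j : Fin (d + 1), (i : ℕ) + 1 = j → (mt b B i i - mt b B j j) ^ 2 = δ' := by
  have hC' : C = e • 1 + f' • B + f • A + ((-γ) / 2) • (B * A - A * B) := by
    have : ((-γ) / 2) • (B * A - A * B) = (γ / 2) • (A * B - B * A) := by
      rw [neg_div, neg_smul, ← smul_neg, neg_sub]
    rw [this]
    rw [hC]
    abel
  obtain ⟨δ', h1, h2, h3⟩ := h.swap.gapA hd (neg_ne_zero.2 hγ) hC'
  refine ⟨δ', h1, ?_, h3⟩
  linear_combination (-1 : K) * h2

private theorem kc_dl {n : ℕ} {M N : Matrix (Fin n) (Fin n) K} (h : M.IsDiag) (i j : Fin n) :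
    (M * N) i j = M i i * N i j := by
  conv_lhs => rw [← h.diagonal_diag, Matrix.diagonal_mul]
  rfl

private theorem kc_dr {n : ℕ} {M N : Matrix (Fin n) (Fin n) K} (h : M.IsDiag) (i j : Fin n) :
    (N * M) i j = N i j * M j j := by
  conv_lhs => rw [← h.diagonal_diag, Matrix.mul_diagonal]
  rfl

/-- entries of a commutator with a diagonal map -/
private theorem kc_comm {n : ℕ} {a : Module.Basis (Fin n) K V} {X Y : Module.End K V}
    (h : (mt a X).IsDiag) (i j : Fin n) :
    mt a (X * Y - Y * X) i j = (mt a X i i - mt a X j j) * mt a Y i j := by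
  unfold mt at *
  rw [map_sub, LinearMap.toMatrix_mul, LinearMap.toMatrix_mul, Matrix.sub_apply, kc_dl h,
    kc_dr h]
  ring

private theorem kc_scalar {a : Module.Basis (Fin (d + 1)) K V} {B X : Module.End K V}
    (hB : IrredTridiag (mt a B)) (hX : (mt a X).IsDiag) (hc : X * B - B * X = 0) :
    ∃ m : K, X = m • 1 := by
  have h1 : ∀ i j : Fin (d + 1), (i : ℕ) + 1 = j → mt a X i i = mt a X j j := by
    intro i j hij
    have h2 := kc_comm (Y := B) hX i j
    rw [hc] at h2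
    have h3 : mt a (0 : Module.End K V) i j = 0 := by simp [mt]
    rw [h3] at h2
    have h4 := hB.2 i j (Or.inl hij)
    rcases mul_eq_zero.mp h2.symm with h5 | h5
    · exact sub_eq_zero.mp h5
    · exact absurd h5 h4
  have h2 : ∀ k : ℕ, ∀ hk : k < d + 1, mt a X ⟨k, hk⟩ ⟨k, hk⟩ = mt a X 0 0 := by
    intro k
    induction k with
    | zero => intro hk; rfl
    | succ k ih =>
      intro hk
      rw [← ih (by omega)]
      exact (h1 ⟨k, by omega⟩ ⟨k + 1, hk⟩ rfl).symm
  refine ⟨mt a X 0 0, ?_⟩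
  apply (LinearMap.toMatrix a a).injective
  ext i j
  rw [map_smul, LinearMap.toMatrix_one, Matrix.smul_apply, Matrix.one_apply]
  split_ifs with hij
  · subst hij
    rw [smul_eq_mul, mul_one]
    exact h2 i i.2
  · rw [smul_zero]
    exact hX hij

private theorem kc_half {a : Module.Basis (Fin (d + 1)) K V} {A B : Module.End K V}
    (hA : (mt a A).IsDiag) (hB : IrredTridiag (mt a B)) {δ : K}
    (h : ∀ i j : Fin (d + 1), (i : ℕ) + 1 = j → (mt a A i i - mt a A j j) ^ 2 = δ) :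
    (mt a (δ • B - (A * (A * B - B * A) - (A * B - B * A) * A))).IsDiag := by
  intro i j hij
  show mt a (δ • B - (A * (A * B - B * A) - (A * B - B * A) * A)) i j = 0
  have h1 : mt a (δ • B - (A * (A * B - B * A) - (A * B - B * A) * A)) i j
      = δ * mt a B i j - mt a (A * (A * B - B * A) - (A * B - B * A) * A) i j := by
    unfold mt
    rw [map_sub, Matrix.sub_apply, map_smul, Matrix.smul_apply, smul_eq_mul]
  rw [h1, kc_comm hA, kc_comm hA]
  have hne : (i : ℕ) ≠ j := fun h => hij (Fin.ext h)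
  by_cases h2 : (i : ℕ) + 1 = j
  · rw [← h i j h2]; ring
  · by_cases h3 : (j : ℕ) + 1 = i
    · rw [← h j i h3]; ring
    · rw [hB.1 i j (by omega)]; ring

/-- kc: a Leonard pair in which both spectra have constant squared gaps spans, together with its
commutator, a four dimensional Lie algebra -/
theorem LP.lie (h2 : (2 : K) ≠ 0) (h : LP a b A B) (hr : IsAnti r A B) {δ δ' : K}
    (hδ : δ ≠ 0) (hδ' : δ' ≠ 0)
    (hA : ∀ i j : Fin (d + 1), (i : ℕ) + 1 = j → (mt a A i i - mt a A j j) ^ 2 = δ)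
    (hB : ∀ i j : Fin (d + 1), (i : ℕ) + 1 = j → (mt b B i i - mt b B j j) ^ 2 = δ') :
    ∃ l m₁ m₂ : K,
      A * (A * B - B * A) - (A * B - B * A) * A = δ • B - l • A - m₁ • 1 ∧
      B * (A * B - B * A) - (A * B - B * A) * B = -(δ' • A) + l • B + m₂ • 1 := by
  obtain ⟨P, hP⟩ : ∃ P, P = A * B - B * A := ⟨_, rfl⟩
  obtain ⟨D, hD⟩ : ∃ D, D = δ • B - (A * P - P * A) := ⟨_, rfl⟩
  obtain ⟨D', hD'⟩ : ∃ D', D' = δ' • A + (B * P - P * B) := ⟨_, rfl⟩
  have dD : (mt a D).IsDiag := by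
    rw [hD, hP]; exact kc_half h.dA h.tB hA
  have dD' : (mt b D').IsDiag := by
    have := kc_half h.dB h.tA hB
    have e : δ' • A - (B * (B * A - A * B) - (B * A - A * B) * B) = D' := by
      rw [hD', hP]; noncomm_ring
    rwa [e] at this
  have rP : r P = -P := by
    rw [hP, map_sub, hr.anti, hr.anti, hr.fixA, hr.fixB]; abel
  have rD : r D = D := by
    rw [hD, map_sub, map_smul, map_sub, hr.anti, hr.anti, hr.fixA, hr.fixB, rP]
    noncomm_ring
  have hZ : D * B - B * D = A * D' - D' * A := by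
    rw [hD, hD', hP]
    simp only [mul_sub, sub_mul, mul_add, add_mul, smul_mul_assoc, mul_smul_comm]
    noncomm_ring
  obtain ⟨Z, hZ0⟩ : ∃ Z, Z = D * B - B * D := ⟨_, rfl⟩
  have rZ : r Z = -Z := by
    rw [hZ0, map_sub, hr.anti, hr.anti, rD, hr.fixB]; abel
  have ta : Tri a Z := by
    intro i j hij
    rw [hZ0, kc_comm dD, h.tB.1 i j hij, mul_zero]
  have tb : Tri b Z := by
    intro i j hij
    have e : Z = -(D' * A - A * D') := by rw [hZ0, hZ]; abel
    have e2 : mt b Z i j = -mt b (D' * A - A * D') i j := by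
      rw [e]; unfold mt; rw [map_neg, Matrix.neg_apply]
    rw [e2, kc_comm dD', h.tA.1 i j hij, mul_zero, neg_zero]
  obtain ⟨l, hl⟩ := antisym_span h2 h hr rZ ta tb
  rw [← hP] at hl
  have e1 : ∃ m : K, D - l • A = m • 1 := by
    apply kc_scalar (a := a) h.tB
    · intro i j hij
      have q1 : mt a D i j = 0 := dD hij
      have q2 : mt a A i j = 0 := h.dA hij
      show mt a (D - l • A) i j = 0
      have : mt a (D - l • A) i j = mt a D i j - l * mt a A i j := by
        unfold mt; rw [map_sub, Matrix.sub_apply, map_smul, Matrix.smul_apply, smul_eq_mul]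
      rw [this, q1, q2]; ring
    · have : (D - l • A) * B - B * (D - l • A) = Z - l • P := by
        rw [hZ0, hP, smul_sub]
        simp only [mul_sub, sub_mul, smul_mul_assoc, mul_smul_comm]
        abel
      rw [this, hl, sub_self]
  have e2 : ∃ m : K, D' - l • B = m • 1 := by
    apply kc_scalar (a := b) h.tA
    · intro i j hij
      have q1 : mt b D' i j = 0 := dD' hij
      have q2 : mt b B i j = 0 := h.dB hij
      show mt b (D' - l • B) i j = 0
      have : mt b (D' - l • B) i j = mt b D' i j - l * mt b B i j := by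
        unfold mt; rw [map_sub, Matrix.sub_apply, map_smul, Matrix.smul_apply, smul_eq_mul]
      rw [this, q1, q2]; ring
    · have : (D' - l • B) * A - A * (D' - l • B) = -(Z - l • P) := by
        rw [hZ0, hZ, hP, smul_sub]
        simp only [mul_sub, sub_mul, smul_mul_assoc, mul_smul_comm]
        abel
      rw [this, hl, sub_self, neg_zero]
  obtain ⟨m₁, hm₁⟩ := e1
  obtain ⟨m₂, hm₂⟩ := e2
  refine ⟨l, m₁, m₂, ?_, ?_⟩
  · rw [← hP]
    rw [← hm₁, hD]; abel
  · rw [← hP]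
    rw [← hm₂, hD']; abel

/-- kd: this Lie algebra is not solvable -/
theorem LP.lie_nondeg (h20 : (2 : K) ≠ 0) (hdim : ((d + 1 : ℕ) : K) ≠ 0)
    (h : LP a b A B) (hd : 1 ≤ d) {δ δ' l m₁ m₂ : K}
    (hδ : δ ≠ 0) (hδ' : δ' ≠ 0)
    (hA : ∀ i j : Fin (d + 1), (i : ℕ) + 1 = j → (mt a A i i - mt a A j j) ^ 2 = δ)
    (h1 : A * (A * B - B * A) - (A * B - B * A) * A = δ • B - l • A - m₁ • 1)
    (h3 : B * (A * B - B * A) - (A * B - B * A) * B = -(δ' • A) + l • B + m₂ • 1) :
    δ * δ' - l ^ 2 ≠ 0 := by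
  intro h0
  obtain ⟨P, hP⟩ : ∃ P, P = A * B - B * A := ⟨_, rfl⟩
  obtain ⟨N, hN⟩ : ∃ N, N = A * P - P * A := ⟨_, rfl⟩
  rw [← hP] at h1 h3
  have hNP : N * P - P * N = (δ * m₂ + l * m₁) • 1 := by
    have e1 : N * P - P * N = δ • (B * P - P * B) - l • (A * P - P * A) := by
      rw [hN]
      conv_lhs => rw [h1]
      simp only [mul_sub, sub_mul, smul_mul_assoc, mul_smul_comm, one_mul, mul_one, smul_sub]
      abel
    rw [e1, h3, h1]
    have e2 : (-(δ * δ') + l ^ 2) = 0 := by linear_combination -h0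
    have e3 : δ • (-(δ' • A) + l • B + m₂ • (1 : Module.End K V)) - l • (δ • B - l • A - m₁ • 1)
        = (-(δ * δ') + l ^ 2) • A + (δ * m₂ + l * m₁) • 1 := by
      module
    rw [e3, e2, zero_smul, zero_add]
  have hν : δ * m₂ + l * m₁ = 0 := by
    have e1 : LinearMap.trace K V (N * P - P * N) = 0 := by
      rw [map_sub, LinearMap.trace_mul_comm, sub_self]
    have hf : Module.finrank K V = d + 1 := by
      rw [Module.finrank_eq_card_basis a, Fintype.card_fin]
    rw [hNP, map_smul] at e1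
    have hfin : Module.Finite K V := Module.Finite.of_basis a
    have e2 : LinearMap.trace K V (1 : Module.End K V) = (d + 1 : ℕ) := by
      have := LinearMap.trace_one K V
      rw [this, hf]
    rw [e2, smul_eq_mul] at e1
    rcases mul_eq_zero.mp e1 with e3 | e3
    · exact e3
    · exact absurd e3 hdim
  rw [hν, zero_smul] at hNP
  have k1 : (0 : Fin (d + 1)) ≠ ⟨1, by omega⟩ := by
    intro hh; have := congrArg Fin.val hh; simp at this
  obtain ⟨o, ho⟩ : ∃ o : Fin (d + 1), o = ⟨1, by omega⟩ := ⟨_, rfl⟩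
  have ho1 : (o : ℕ) = 1 := by rw [ho]
  have eP : ∀ i j, mt a P i j = (mt a A i i - mt a A j j) * mt a B i j := by
    intro i j; rw [hP]; exact kc_comm h.dA i j
  have eN : ∀ i j, mt a N i j = (mt a A i i - mt a A j j) * ((mt a A i i - mt a A j j) * mt a B i j) := by
    intro i j; rw [hN, kc_comm h.dA i j, eP]
  have hs : ∀ X Y : Module.End K V, mt a (X * Y) 0 0 = ∑ k, mt a X 0 k * mt a Y k 0 := by
    intro X Y; unfold mt; rw [LinearMap.toMatrix_mul, Matrix.mul_apply]
  have z1 : ∀ k : Fin (d + 1), k ≠ o → k ≠ 0 → mt a B 0 k = 0 := by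
    intro k hk hk0
    apply h.tB.1
    left
    have a1 : (k : ℕ) ≠ 1 := fun hh => hk (Fin.ext (by rw [hh, ho1]))
    have a2 : (k : ℕ) ≠ 0 := fun hh => hk0 (Fin.ext (by rw [hh]; rfl))
    have a3 : ((0 : Fin (d + 1)) : ℕ) = 0 := rfl
    omega
  have t1 : mt a (N * P) 0 0 = mt a N 0 o * mt a P o 0 := by
    rw [hs]
    apply Finset.sum_eq_single o
    · intro k _ hk
      by_cases hk0 : k = 0
      · rw [hk0, eN]; ring
      · rw [eN, z1 k hk hk0]; ring
    · intro hh; exact absurd (Finset.mem_univ _) hh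
  have t2 : mt a (P * N) 0 0 = mt a P 0 o * mt a N o 0 := by
    rw [hs]
    apply Finset.sum_eq_single o
    · intro k _ hk
      by_cases hk0 : k = 0
      · rw [hk0, eN]; ring
      · rw [eP, z1 k hk hk0]; ring
    · intro hh; exact absurd (Finset.mem_univ _) hh
  have t3 : mt a (N * P - P * N) 0 0 = 0 := by rw [hNP]; unfold mt; simp
  have t4 : mt a (N * P - P * N) 0 0 = mt a (N * P) 0 0 - mt a (P * N) 0 0 := by
    unfold mt; rw [map_sub, Matrix.sub_apply]
  have hadj : ((0 : Fin (d + 1)) : ℕ) + 1 = o := by rw [ho1]; rfl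
  have hg := hA 0 o hadj
  have hb1 : mt a B 0 o ≠ 0 := h.tB.2 0 o (Or.inl hadj)
  have hb2 : mt a B o 0 ≠ 0 := h.tB.2 o 0 (Or.inr hadj)
  have hne : mt a A 0 0 - mt a A o o ≠ 0 := by
    intro hh; rw [hh] at hg; apply hδ; rw [← hg]; ring
  rw [t4, t1, t2, eN, eP, eN, eP] at t3
  have t5 : (-2 : K) * δ * (mt a A 0 0 - mt a A o o) * mt a B 0 o * mt a B o 0 = 0 := by
    rw [← hg, ← t3]; ring
  have h2 : (-2 : K) ≠ 0 := neg_ne_zero.mpr h20
  exact (mul_ne_zero (mul_ne_zero (mul_ne_zero (mul_ne_zero h2 hδ) hne) hb1) hb2) t5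

end

section
variable {d : ℕ} {a b c : Module.Basis (Fin (d + 1)) K V} {A B C : Module.End K V}
  {r s t : Module.End K V ≃ₗ[K] Module.End K V} {α β γ : K}

/-- ke: the data of a triple of Krawtchouk type -/
theorem Setup.kdata' (hdim : ((d + 1 : ℕ) : K) ≠ 0)
    (h : Setup a b c A B C r s t α β γ) (hd : 1 ≤ d) (hγ : γ ≠ 0)
    {e f f' : K} (hC : C = e • 1 + f • A + f' • B + (γ / 2) • (A * B - B * A)) :
    ∃ g g' k k' : K, KData A B C r s t f f' g g' k k' ∧
      g = β * f' / γ ∧ k' = α * f / γ ∧ k = α * g' / β := by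
  obtain ⟨δ, hδ, hg1, hA⟩ := h.gapA hd hγ hC
  obtain ⟨δ', hδ', hg2, hB⟩ := h.gapB hd hγ hC
  obtain ⟨hα, hβ, -, -, -⟩ := h.nondegenerate hd hγ
  obtain ⟨l, m₁, m₂, h1, h3⟩ := h.lt.pAB.lie h.h2 h.hr hδ hδ' hA hB
  have hnd := h.lt.pAB.lie_nondeg h.h2 hdim hd hδ hδ' hA h1 h3
  obtain ⟨P, hP⟩ : ∃ P, P = A * B - B * A := ⟨_, rfl⟩
  rw [← hP] at h1 h3 hC
  have h2 := h.h2
  have eP : P = (2 / γ) • (C - e • 1 - f • A - f' • B) := by
    have e1 : C - e • 1 - f • A - f' • B = (γ / 2) • P := by rw [hC]; abel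
    rw [e1, smul_smul]
    have : 2 / γ * (γ / 2) = 1 := by field_simp
    rw [this, one_smul]
  obtain ⟨X, hX⟩ : ∃ X : K, X = γ * l / 4 + f * f' / γ := ⟨_, rfl⟩
  have h4 : (4 : K) ≠ 0 := by
    have : (4 : K) = 2 * 2 := by norm_num
    rw [this]; exact mul_ne_zero h2 h2
  refine ⟨β * f' / γ, -(β * X), -(α * X), α * f / γ, ?_, rfl, rfl, ?_⟩
  · refine ⟨⟨2 * e, ?_⟩, ⟨-(2 * β * f' * e / γ) - β * γ * m₁ / 2, ?_⟩,
      ⟨-(2 * α * f * e / γ) - α * γ * m₂ / 2, ?_⟩, ?_, ?_, ?_, ?_, ?_⟩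
    · -- r C
      have e1 : r C = C - γ • P := by
        have := h.eC
        rw [← hP] at this
        rw [← this]; abel
      have e2 : γ • P = (2 : K) • (C - e • 1 - f • A - f' • B) := by
        rw [eP, smul_smul]
        congr 1
        field_simp
      rw [e1, e2]
      module
    · -- s B
      have e1 : s B = B + β • (A * C - C * A) := by
        have := h.eB
        have e2 : β • (A * C - C * A) = -(B - s B) := by
          rw [this, ← smul_neg]; congr 1; abel
        rw [e2]; abel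
      have e2 : A * C - C * A = f' • P + (γ / 2) • (A * P - P * A) := by
        rw [hC, hP]
        simp only [mul_add, add_mul, mul_sub, sub_mul, smul_mul_assoc, mul_smul_comm, one_mul,
          mul_one, smul_sub]
        abel
      rw [e1, e2, h1, eP]
      have e3 : f' ^ 2 = γ / β + γ ^ 2 * δ / 4 := by
        field_simp
        field_simp at hg1
        linear_combination -hg1
      have e4 : B + β • (f' • (2 / γ) • (C - e • 1 - f • A - f' • B)
            + (γ / 2) • (δ • B - l • A - m₁ • (1 : Module.End K V)))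
          = (1 - 2 * β / γ * (f' ^ 2) + β * γ * δ / 2) • B + (2 * (β * f' / γ)) • C
            + (-(2 * β) * (f * f' / γ) - β * γ * l / 2) • A
            + (-(2 * β * f' * e / γ) - β * γ * m₁ / 2) • 1 := by
        match_scalars <;> field_simp <;> ring
      rw [e4, e3, hX]
      match_scalars <;> field_simp <;> ring
    · -- t A
      have e1 : t A = A - α • (B * C - C * B) := by
        rw [← h.eA]; abel
      have e2 : B * C - C * B = -(f • P) + (γ / 2) • (B * P - P * B) := by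
        rw [hC, hP]
        simp only [mul_add, add_mul, mul_sub, sub_mul, smul_mul_assoc, mul_smul_comm, one_mul,
          mul_one, smul_sub]
        abel
      rw [e1, e2, h3, eP]
      have e3 : f ^ 2 = γ / α + γ ^ 2 * δ' / 4 := by
        field_simp
        field_simp at hg2
        linear_combination -hg2
      have e4 : A - α • (-(f • (2 / γ) • (C - e • 1 - f • A - f' • B))
            + (γ / 2) • (-(δ' • A) + l • B + m₂ • (1 : Module.End K V)))
          = (1 - 2 * α / γ * (f ^ 2) + α * γ * δ' / 2) • A + (2 * (α * f / γ)) • C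
            + (-(2 * α) * (f * f' / γ) - α * γ * l / 2) • B
            + (-(2 * α * f * e / γ) - α * γ * m₂ / 2) • 1 := by
        match_scalars <;> field_simp <;> ring
      rw [e4, e3, hX]
      match_scalars <;> field_simp <;> ring
    · constructor
      · intro h0; rw [h0]; ring
      · intro h0
        rcases div_eq_zero_iff.mp h0 with h5 | h5
        · rcases mul_eq_zero.mp h5 with h6 | h6
          · exact absurd h6 hβ
          · exact h6
        · exact absurd h5 hγ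
    · constructor
      · intro h0
        rcases mul_eq_zero.mp (neg_eq_zero.mp h0) with h6 | h6
        · exact absurd h6 hβ
        · rw [h6]; ring
      · intro h0
        rcases mul_eq_zero.mp (neg_eq_zero.mp h0) with h6 | h6
        · exact absurd h6 hα
        · rw [h6]; ring
    · constructor
      · intro h0; rw [h0]; ring
      · intro h0
        rcases div_eq_zero_iff.mp h0 with h5 | h5
        · rcases mul_eq_zero.mp h5 with h6 | h6
          · exact absurd h6 hα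
          · exact h6
        · exact absurd h5 hγ
    · ring
    · have e3 : β * f' ^ 2 / γ = 1 + β * γ * δ / 4 := by
        rw [div_eq_iff hγ]
        linear_combination -hg1
      have e5 : α * f ^ 2 / γ = 1 + α * γ * δ' / 4 := by
        rw [div_eq_iff hγ]
        linear_combination -hg2
      have e6 : 1 - f' * (β * f' / γ) - -(β * X) * -(α * X) - α * f / γ * f
          - 2 * (f * (β * f' / γ) * -(α * X))
          = 1 - β * f' ^ 2 / γ - α * f ^ 2 / γ + (α * f ^ 2 / γ) * (β * f' ^ 2 / γ)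
            - α * β * (X - f * f' / γ) ^ 2 := by
        ring
      have e7 : X - f * f' / γ = γ * l / 4 := by rw [hX]; ring
      rw [e6, e7, e3, e5]
      have e8 : 1 - (1 + β * γ * δ / 4) - (1 + α * γ * δ' / 4)
          + (1 + α * γ * δ' / 4) * (1 + β * γ * δ / 4) - α * β * (γ * l / 4) ^ 2
          = α * β * γ ^ 2 / 16 * (δ * δ' - l ^ 2) := by
        have h16 : (16 : K) ≠ 0 := by
          have : (16 : K) = 4 * 4 := by norm_num
          rw [this]; exact mul_ne_zero h4 h4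
        field_simp
        ring
      rw [e8]
      refine mul_ne_zero (div_ne_zero (mul_ne_zero (mul_ne_zero hα hβ) (pow_ne_zero 2 hγ)) ?_) hnd
      have : (16 : K) = 2 * 2 * 2 * 2 := by norm_num
      rw [this]
      exact mul_ne_zero (mul_ne_zero (mul_ne_zero h2 h2) h2) h2
  · field_simp

/-- ke: the data of a triple of Krawtchouk type in characteristic zero -/
theorem Setup.kdata [CharZero K] (h : Setup a b c A B C r s t α β γ) (hd : 1 ≤ d) (hγ : γ ≠ 0)
    {e f f' : K} (hC : C = e • 1 + f • A + f' • B + (γ / 2) • (A * B - B * A)) :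
    ∃ g g' k k' : K, KData A B C r s t f f' g g' k k' ∧
      g = β * f' / γ ∧ k' = α * f / γ ∧ k = α * g' / β :=
  h.kdata' (Nat.cast_ne_zero.2 (Nat.succ_ne_zero d)) hd hγ hC

/-- kf: the expressions of the two other maps -/
theorem Setup.kexpr (h : Setup a b c A B C r s t α β γ) {f f' g g' k k' : K}
    (hk : KData A B C r s t f f' g g' k k') :
    (∃ e : K, C = e • 1 + f • A + f' • B + (γ / 2) • (A * B - B * A)) ∧
    (∃ e : K, B = e • 1 + g • C + g' • A + (β / 2) • (C * A - A * C)) ∧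
    (∃ e : K, A = e • 1 + k • B + k' • C + (α / 2) • (B * C - C * B)) := by
  have h2 := h.h2
  refine ⟨?_, ?_, ?_⟩
  · obtain ⟨ε, hε⟩ := hk.eC
    refine ⟨ε / 2, ?_⟩
    have e1 := h.eC
    have e2 : (γ / 2) • (A * B - B * A) = (1 / 2 : K) • (C - r C) := by
      rw [e1, smul_smul]; congr 1; ring
    rw [e2, hε]
    match_scalars <;> field_simp <;> ring
  · obtain ⟨ε, hε⟩ := hk.eB
    refine ⟨ε / 2, ?_⟩
    have e1 := h.eB
    have e2 : (β / 2) • (C * A - A * C) = (1 / 2 : K) • (B - s B) := by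
      rw [e1, smul_smul]; congr 1; ring
    rw [e2, hε]
    match_scalars <;> field_simp <;> ring
  · obtain ⟨ε, hε⟩ := hk.eA
    refine ⟨ε / 2, ?_⟩
    have e1 := h.eA
    have e2 : (α / 2) • (B * C - C * B) = (1 / 2 : K) • (A - t A) := by
      rw [e1, smul_smul]; congr 1; ring
    rw [e2, hε]
    match_scalars <;> field_simp <;> ring

private theorem kg_const (h : LP a b A B) {δ : K}
    (hA : ∀ i j : Fin (d + 1), (i : ℕ) + 1 = j → (mt a A i i - mt a A j j) ^ 2 = δ)
    (hd : 1 ≤ d) :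
    ∀ (k : ℕ) (hk : k + 1 < d + 1),
      mt a A ⟨k, by omega⟩ ⟨k, by omega⟩ - mt a A ⟨k + 1, hk⟩ ⟨k + 1, hk⟩ =
        mt a A ⟨0, by omega⟩ ⟨0, by omega⟩ - mt a A ⟨1, by omega⟩ ⟨1, by omega⟩ := by
  intro k
  induction k with
  | zero => intro _; rfl
  | succ k ih =>
    intro hk
    have h1 := ih (by omega)
    rw [← h1]
    have e1 := hA ⟨k, by omega⟩ ⟨k + 1, by omega⟩ rfl
    have e2 := hA ⟨k + 1, by omega⟩ ⟨k + 1 + 1, hk⟩ rfl
    rw [← e1] at e2
    rcases sq_eq_sq_iff_eq_or_eq_neg.1 e2 with h3 | h3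
    · exact h3
    · exfalso
      have h4 : mt a A ⟨k, by omega⟩ ⟨k, by omega⟩ =
          mt a A ⟨k + 1 + 1, hk⟩ ⟨k + 1 + 1, hk⟩ := by
        linear_combination h3
      have := h.inj h4
      simp only [Fin.mk.injEq] at this
      omega

/-- kg: the order of `rs` -/
theorem Setup.korder (h : Setup a b c A B C r s t α β γ) (hd : 1 ≤ d) (hγ : γ ≠ 0)
    {e f f' : K} (hC : C = e • 1 + f • A + f' • B + (γ / 2) • (A * B - B * A)) :
    ∃ ρ : K, ρ ≠ 0 ∧ ρ ≠ 1 ∧ orderOf (r * s) = orderOf ρ ∧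
      4 * (f' * (β * f' / γ)) = 2 + ρ + ρ⁻¹ := by
  obtain ⟨u, hu, hX⟩ := ratio_exists h.lt h.hr h.hs
  have hβ := (h.nondegenerate hd hγ).2.1
  have h2 := h.h2
  obtain ⟨δ, hδ, hγδ, hA⟩ := h.gapA hd hγ hC
  have hconst := kg_const h.lt.pAB hA hd
  set i0 : Fin (d + 1) := ⟨0, by omega⟩ with hi0
  set i1 : Fin (d + 1) := ⟨1, by omega⟩ with hi1
  have r0 := ka_rel h hγ hC hu hX (i := i0) (j := i1) (Or.inl rfl)
  set Δ := mt a A i0 i0 - mt a A i1 i1 with hΔ
  have hΔ2 : Δ ^ 2 = δ := hA i0 i1 rfl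
  have hΔ0 : Δ ≠ 0 := by
    intro h3
    rw [h3] at hΔ2
    apply hδ
    rw [← hΔ2]; ring
  have hq : ∀ i j : Fin (d + 1), (i : ℕ) + 1 = j → u i / u j = u i0 / u i1 := by
    intro i j hij
    obtain ⟨i, hi⟩ := i
    obtain ⟨j, hj⟩ := j
    simp only at hij
    subst hij
    have r1 := ka_rel h hγ hC hu hX (i := ⟨i, hi⟩) (j := ⟨i + 1, hj⟩) (Or.inl rfl)
    rw [hconst i hj] at r1
    have e1 : u ⟨i, hi⟩ / u ⟨i + 1, hj⟩ * (f' + γ / 2 * Δ) =
        u i0 / u i1 * (f' + γ / 2 * Δ) := by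
      rw [r0.2.2.1]; exact r1.2.2.1
    exact mul_right_cancel₀ r0.1 e1
  have hρ0 : u i0 / u i1 ≠ 0 := div_ne_zero (hu _) (hu _)
  refine ⟨u i0 / u i1, hρ0, ?_, ?_, ?_⟩
  · intro h1
    have h3 := r0.2.2.1
    rw [h1, one_mul] at h3
    have h4 : γ * Δ = 0 := by
      have h5 : γ / 2 * Δ = -(γ / 2 * Δ) := by linear_combination h3
      have h6 : γ / 2 * Δ + γ / 2 * Δ = 0 := by linear_combination h5
      have h7 : γ / 2 * Δ + γ / 2 * Δ = γ * Δ := by field_simp; ring
      rw [← h7]; exact h6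
    exact (mul_ne_zero hγ hΔ0) h4
  · rw [orderOf_eq_orderOf_iff]
    intro m
    rw [ratio_pow hu hX m]
    constructor
    · intro h1
      exact h1 i0 i1 rfl
    · intro h1 i j hij
      rw [hq i j hij]
      exact h1
  · have h5 := h.ratio_add hu hX (i := i0) (j := i1) (Or.inl rfl)
    have h6 : (u i0 / u i1)⁻¹ = u i1 / u i0 := inv_div _ _
    rw [h6]
    have h7 : (2 : K) + u i0 / u i1 + u i1 / u i0 = 2 + (u i0 / u i1 + u i1 / u i0) := by ring
    have h4 : (4 : K) ≠ 0 := by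
      have : (4 : K) = 2 * 2 := by norm_num
      rw [this]; exact mul_ne_zero h2 h2
    rw [h7, h5, ← hΔ, hΔ2]
    have h8 : f' ^ 2 = γ / β + γ ^ 2 * δ / 4 := by
      have : γ / β = f' ^ 2 - γ ^ 2 * δ / 4 := by
        rw [div_eq_iff hβ]
        rw [mul_comm]
        exact hγδ
      rw [this]; ring
    have h9 : 4 * (f' * (β * f' / γ)) = 4 * β / γ * f' ^ 2 := by ring
    rw [h9, h8]
    field_simp
    ring

private theorem kh_comm (r t : Module.End K V ≃ₗ[K] Module.End K V) :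
    orderOf (r * t) = orderOf (t * r) := by
  rw [orderOf_eq_orderOf_iff]
  intro n
  have key : ∀ x y : Module.End K V ≃ₗ[K] Module.End K V, (x * y) ^ n = 1 → (y * x) ^ n = 1 := by
    intro x y hxy
    have e : y * x = y * (x * y) * y⁻¹ := by group
    rw [e, conj_pow, hxy, mul_one, mul_inv_cancel]
  exact ⟨key r t, key t r⟩

/-- kh: the three orders -/
theorem Setup.korders (h : Setup a b c A B C r s t α β γ) (hd : 1 ≤ d) (hγ : γ ≠ 0)
    {f f' g g' k k' : K} (hk : KData A B C r s t f f' g g' k k')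
    (hg : g = β * f' / γ) (hk' : k' = α * f / γ) (hkk : k = α * g' / β) :
    ∃ ρ σ τ : K, ρ ≠ 0 ∧ ρ ≠ 1 ∧ σ ≠ 0 ∧ σ ≠ 1 ∧ τ ≠ 0 ∧ τ ≠ 1 ∧
      orderOf (r * s) = orderOf ρ ∧ orderOf (r * t) = orderOf σ ∧
      orderOf (s * t) = orderOf τ ∧
      4 * (f' * g) = 2 + ρ + ρ⁻¹ ∧ 4 * (f * k') = 2 + σ + σ⁻¹ ∧
      4 * (g' * k) = 2 + τ + τ⁻¹ := by
  obtain ⟨hα, hβ, _⟩ := h.nondegenerate hd hγ
  obtain ⟨⟨e1, hC⟩, ⟨e2, hB⟩, ⟨e3, hA⟩⟩ := h.kexpr hk
  obtain ⟨ρ, a1, a2, a3, a4⟩ := h.korder hd hγ hC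
  obtain ⟨σ, b1, b2, b3, b4⟩ := h.rot.korder hd hα hA
  obtain ⟨τ, c1, c2, c3, c4⟩ := h.rot.rot.korder hd hβ hB
  refine ⟨ρ, σ, τ, a1, a2, b1, b2, c1, c2, a3, ?_, c3, ?_, ?_, ?_⟩
  · rw [kh_comm]; exact b3
  · rw [hg]; exact a4
  · rw [← b4]
    have : f = γ * k' / α := by
      rw [hk']; field_simp
    rw [this]; ring
  · rw [hkk]; exact c4

end

end Pool.Agent.Leo
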