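import Pool.Agent.Leo.Final

/-!
# The group for orders with `1/p + 1/q + 1/l ≥ 1`
-/

namespace Pool.Agent.Leo

private theorem na_span {K : Type*} [Field K] {V : Type*} [AddCommGroup V] [Module K V]
    {A B C : Module.End K V} {γ e f f' : K} (h2 : (2 : K) ≠ 0) (hγ : γ ≠ 0)
    (hC : C = e • 1 + f • A + f' • B + (γ / 2) • (A * B - B * A)) :
    A * B - B * A ∈ Submodule.span K ({1, A, B, C} : Set (Module.End K V)) := by
  have hP : A * B - B * A = (2 / γ) • C + (-(2 / γ * e)) • (1 : Module.End K V)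
      + (-(2 / γ * f)) • A + (-(2 / γ * f')) • B := by
    conv_rhs => rw [hC]
    match_scalars <;> field_simp <;> ring
  rw [hP]
  exact Submodule.add_mem _ (Submodule.add_mem _ (Submodule.add_mem _
    (Submodule.smul_mem _ _ (Submodule.subset_span (by simp)))
    (Submodule.smul_mem _ _ (Submodule.subset_span (by simp))))
    (Submodule.smul_mem _ _ (Submodule.subset_span (by simp))))
    (Submodule.smul_mem _ _ (Submodule.subset_span (by simp)))

private theorem na_three {K : Type*} [Field K] {ρ : K} (h0 : ρ ≠ 0) (h1 : ρ ≠ 1)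
    (ho : orderOf ρ = 3) : ρ + ρ⁻¹ = -1 := by
  have h3 : ρ ^ 3 = 1 := by rw [← ho]; exact pow_orderOf_eq_one ρ
  have h4 : (ρ - 1) * (ρ ^ 2 + ρ + 1) = 0 := by linear_combination h3
  have h5 : ρ ^ 2 + ρ + 1 = 0 := by
    rcases mul_eq_zero.mp h4 with h | h
    · exact absurd (sub_eq_zero.mp h) h1
    · exact h
  field_simp
  linear_combination h5

/-- na: for the orders (3,3,3) -/
theorem relation_333' {K : Type*} [Field K] {V : Type*} [AddCommGroup V] [Module K V]
    {A B C : Module.End K V} {r s t : Module.End K V ≃ₗ[K] Module.End K V}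
    [CharZero K] (h : LeonardTriple A B C) (hr : IsAnti r A B)
    (hs : IsAnti s A C) (ht : IsAnti t B C) (h1 : orderOf (r * s) = 3)
    (h2 : orderOf (r * t) = 3) (h3 : orderOf (s * t) = 3) :
    (A * B - B * A ∈ Submodule.span K ({1, A, B, C} : Set (Module.End K V)) ∧
      (r * s * r * t) ^ 2 = 1 ∧ r * s * r * t ≠ 1) ∨
    (A * B - B * A ∉ Submodule.span K ({1, A, B, C} : Set (Module.End K V)) ∧
      Module.finrank K V = 3 ∧ (r * t * s) ^ 2 = 1 ∧ r * s ≠ 1 ∧ s * t ≠ 1 ∧ r * s ≠ s * t ∧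
      r * s ≠ t * s ∧
      s ∉ Subgroup.closure ({r * s, s * t} : Set (Module.End K V ≃ₗ[K] Module.End K V))) := by
  obtain ⟨d, a, b, c, α, β, γ, hS⟩ := exists_setup two_ne_zero h hr hs ht
  have rr : r * r = 1 := hS.lt.pAB.anti_sq hS.hr
  have ss : s * s = 1 := hS.lt.pAC.symm.anti_sq hS.hs
  have tt : t * t = 1 := hS.lt.pBC.anti_sq hS.ht
  have p1 : (r * s) ^ 3 = 1 := by rw [← h1]; exact pow_orderOf_eq_one _
  have p2 : (r * t) ^ 3 = 1 := by rw [← h2]; exact pow_orderOf_eq_one _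
  have p3 : (s * t) ^ 3 = 1 := by rw [← h3]; exact pow_orderOf_eq_one _
  have hne : r ≠ s := by
    rintro rfl
    rw [rr, orderOf_one] at h1
    omega
  have nrt : r ≠ t := by
    intro e
    rw [← e, rr, orderOf_one] at h2
    omega
  have key : t A ≠ A := by
    intro e
    exact nrt (hS.lt.pAB.anti_unique hr ⟨ht.anti, e, ht.fixA⟩)
  obtain ⟨hd, hα, hβ, hγ, -⟩ := hS.of_ne (Or.inl hne)
  by_cases hk : ∃ e f f' : K, C = e • 1 + f • A + f' • B + (γ / 2) • (A * B - B * A)
  · left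
    obtain ⟨e, f, f', hC⟩ := hk
    obtain ⟨g, g', k, k', hK, hg, hk', hkk⟩ := hS.kdata hd hγ hC
    obtain ⟨ρ, σ, τ, hρ0, hρ1, hσ0, hσ1, hτ0, hτ1, oρ, oσ, oτ, e1, e2, e3⟩ :=
      hS.korders hd hγ hK hg hk' hkk
    have f1 : ρ + ρ⁻¹ = -1 := na_three hρ0 hρ1 (by rw [← oρ, h1])
    have f2 : σ + σ⁻¹ = -1 := na_three hσ0 hσ1 (by rw [← oσ, h2])
    have f3 : τ + τ⁻¹ = -1 := na_three hτ0 hτ1 (by rw [← oτ, h3])
    have hrel := hS.word_trivial' hd hγ hK (cart_333 (by linear_combination e1 + f1)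
      (by linear_combination e2 + f2) (by linear_combination e3 + f3) hK.cyc hK.det)
    refine ⟨na_span two_ne_zero hγ hC, ?_, ?_⟩
    · simpa [wordG, pow_two, mul_assoc] using hrel
    · intro e
      apply key
      have e1 : (r * s * r) * (r * s * r) = 1 := by
        have e2 : (r * s * r) * (r * s * r) = r * (s * (r * r) * s) * r := by
          simp only [mul_assoc]
        rw [e2, rr, mul_one, ss, mul_one, rr]
      have e3 : t = r * s * r := mul_left_cancel (e.trans e1.symm)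
      rw [e3]
      change r (s (r A)) = A
      rw [hr.fixA, hs.fixA, hr.fixA]
  · right
    have hfr : Module.finrank K V = d + 1 := by
      rw [Module.finrank_eq_card_basis a, Fintype.card_fin]
    have hd2 : d = 2 := by
      rcases Nat.lt_or_ge d 3 with hd3 | hd3
      · interval_cases d
        · exact absurd hS.expr_two hk
        · rfl
      · exact absurd (hS.order_three hd3 hγ p1) hk
    subst hd2
    have hc := hS.three_special hγ p1 p2 p3 hk
    have hrt : r * t = (s * t) * (r * s) := by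
      rw [← hc, mul_assoc, ← mul_assoc s s t, ss, one_mul]
    refine ⟨fun hin => hk (zl_kraw hS hd hin), hfr, ?_, ?_, ?_, ?_, ?_, ?_⟩
    · have : (r * t * s) ^ 2 = (r * t) * s * r * t * s := by
        rw [pow_two]
        simp only [mul_assoc]
      rw [this, hrt]
      calc s * t * (r * s) * s * r * t * s = s * t * r * (s * s) * r * t * s := by
            simp only [mul_assoc]
        _ = s * t * (r * r) * t * s := by rw [ss]; simp only [mul_assoc, one_mul]
        _ = s * (t * t) * s := by rw [rr]; simp only [mul_assoc, one_mul]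
        _ = 1 := by rw [tt, mul_one, ss]
    · intro e
      rw [e, orderOf_one] at h1
      omega
    · intro e
      rw [e, orderOf_one] at h3
      omega
    · intro e
      apply key
      apply s.injective
      have e1 : r (s A) = s (t A) := by
        have e2 := congrArg (fun f : Module.End K V ≃ₗ[K] Module.End K V => f A) e
        exact e2
      rw [← e1, hs.fixA, hr.fixA]
    · intro e
      exact nrt (mul_right_cancel e)
    · intro hmem
      let M : Subgroup (Module.End K V ≃ₗ[K] Module.End K V) :=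
        { carrier := {g | ∀ X Y, g (X * Y) = g X * g Y}
          mul_mem' := by
            intro g k hg hk X Y
            change g (k (X * Y)) = g (k X) * g (k Y)
            rw [hk, hg]
          one_mem' := by
            intro X Y
            rfl
          inv_mem' := by
            intro g hg X Y
            apply g.injective
            have e1 : ∀ Z, g (g⁻¹ Z) = Z := fun Z => g.apply_symm_apply Z
            rw [hg, e1, e1, e1] }
      have hle : Subgroup.closure ({r * s, s * t} : Set (Module.End K V ≃ₗ[K] Module.End K V)) ≤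
          M := by
        rw [Subgroup.closure_le]
        rintro g (e | e)
        · rw [e]
          intro X Y
          change r (s (X * Y)) = r (s X) * r (s Y)
          rw [hs.anti, hr.anti]
        · rw [Set.mem_singleton_iff.mp e]
          intro X Y
          change s (t (X * Y)) = s (t X) * s (t Y)
          rw [ht.anti, hs.anti]
      have hsM : ∀ X Y, s (X * Y) = s X * s Y := hle hmem
      have hcomm : A * B = B * A := by
        have e1 : s (s.symm B) = B := s.apply_symm_apply B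
        calc A * B = s A * s (s.symm B) := by rw [e1, hs.fixA]
          _ = s (A * s.symm B) := (hsM _ _).symm
          _ = s (s.symm B) * s A := hs.anti _ _
          _ = B * A := by rw [e1, hs.fixA]
      have hli := hS.lt.pAB.indep4 hd two_ne_zero (x := 0) (y := 0) (z := 0) (w := 1) (by
        rw [hcomm]
        simp)
      exact one_ne_zero hli.2.2.2

private theorem nb_map {G H : Type*} [Group G] [Group H] (f : G →* H) (r s t : G)
    (w : List (Fin 3)) : f (wordG r s t w) = wordG (f r) (f s) (f t) w := by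
  unfold wordG
  rw [map_list_prod, List.map_map]
  congr 1
  apply List.map_congr_left
  intro i _
  fin_cases i <;> rfl

private theorem nb_mem {G : Type*} [Group G] (r s t : G) (w : List (Fin 3)) :
    wordG r s t w ∈ Subgroup.closure ({r, s, t} : Set G) := by
  unfold wordG
  apply Subgroup.list_prod_mem
  intro x hx
  rw [List.mem_map] at hx
  obtain ⟨i, _, rfl⟩ := hx
  apply Subgroup.subset_closure
  fin_cases i <;> simp

private theorem nb_aux {G G' : Type*} [Group G] [Group G'] {r s t : G} {r' s' t' : G'} {n : ℕ}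
    (hn : n ≠ 0) (h1 : Nat.card (Subgroup.closure ({r, s, t} : Set G)) = n)
    (h2 : Nat.card (Subgroup.closure ({(r, r'), (s, s'), (t, t')} : Set (G × G'))) = n)
    (w : List (Fin 3)) (hw : wordG r s t w = 1) : wordG r' s' t' w = 1 := by
  let H : Subgroup (G × G') := Subgroup.closure ({(r, r'), (s, s'), (t, t')} : Set (G × G'))
  have e : H.map (MonoidHom.fst G G') = Subgroup.closure ({r, s, t} : Set G) := by
    rw [MonoidHom.map_closure]
    congr 1
    simp [Set.image_insert_eq]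
  have : Finite H := Nat.finite_of_card_ne_zero (by rw [h2]; exact hn)
  let f : H → H.map (MonoidHom.fst G G') := fun x => ⟨(x : G × G').1, ⟨x, x.2, rfl⟩⟩
  have fs : Function.Surjective f := by
    rintro ⟨_, x, hx, rfl⟩
    exact ⟨⟨x, hx⟩, rfl⟩
  have hc : Nat.card H = Nat.card (H.map (MonoidHom.fst G G')) := by
    rw [e, h1]
    exact h2
  have fi : Function.Injective f :=
    ((Nat.bijective_iff_surjective_and_card f).2 ⟨fs, hc⟩).1
  have key : (⟨wordG (r, r') (s, s') (t, t') w, nb_mem _ _ _ w⟩ : H) = 1 := by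
    apply fi
    apply Subtype.ext
    change (wordG (r, r') (s, s') (t, t') w).1 = (1 : G)
    have e2 := nb_map (MonoidHom.fst G G') (r, r') (s, s') (t, t') w
    exact e2.trans hw
  have e3 := nb_map (MonoidHom.snd G G') (r, r') (s, s') (t, t') w
  have e4 : wordG (r, r') (s, s') (t, t') w = 1 := congrArg Subtype.val key
  rw [e4] at e3
  simpa using e3.symm

/-- nb: the words of a group with the first relation do not depend on the group -/
theorem words_of_relation_one {G G' : Type*} [Group G] [Group G'] {r s t : G} {r' s' t' : G'}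
    (hr : r * r = 1) (hs : s * s = 1) (ht : t * t = 1) (h1 : (r * s) ^ 3 = 1)
    (h2 : (r * t) ^ 3 = 1) (h3 : (s * t) ^ 3 = 1) (h4 : (r * s * r * t) ^ 2 = 1)
    (h5 : r * s * r * t ≠ 1)
    (hr' : r' * r' = 1) (hs' : s' * s' = 1) (ht' : t' * t' = 1) (h1' : (r' * s') ^ 3 = 1)
    (h2' : (r' * t') ^ 3 = 1) (h3' : (s' * t') ^ 3 = 1) (h4' : (r' * s' * r' * t') ^ 2 = 1)
    (h5' : r' * s' * r' * t' ≠ 1) (w : List (Fin 3)) :
    wordG r s t w = 1 ↔ wordG r' s' t' w = 1 := by
  constructor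
  · refine nb_aux (n := 24) (by norm_num) (card_of_relation_one hr hs ht h1 h2 h3 h4 h5) ?_ w
    refine card_of_relation_one ?_ ?_ ?_ ?_ ?_ ?_ ?_ ?_
    · exact Prod.ext hr hr'
    · exact Prod.ext hs hs'
    · exact Prod.ext ht ht'
    · exact Prod.ext h1 h1'
    · exact Prod.ext h2 h2'
    · exact Prod.ext h3 h3'
    · exact Prod.ext h4 h4'
    · intro e
      exact h5 (congrArg Prod.fst e)
  · refine nb_aux (n := 24) (by norm_num) (card_of_relation_one hr' hs' ht' h1' h2' h3' h4' h5')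
      ?_ w
    refine card_of_relation_one ?_ ?_ ?_ ?_ ?_ ?_ ?_ ?_
    · exact Prod.ext hr' hr
    · exact Prod.ext hs' hs
    · exact Prod.ext ht' ht
    · exact Prod.ext h1' h1
    · exact Prod.ext h2' h2
    · exact Prod.ext h3' h3
    · exact Prod.ext h4' h4
    · intro e
      exact h5 (congrArg Prod.snd e)

private theorem nb_cl {G G' : Type*} [Group G] [Group G'] {r s t : G} {r' s' t' : G'}
    (h9 : s ∉ Subgroup.closure ({r * s, s * t} : Set G)) :
    (s, s') ∉ Subgroup.closure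
      ({(r, r') * (s, s'), (s, s') * (t, t')} : Set (G × G')) := by
  intro h
  apply h9
  have e := Subgroup.mem_map_of_mem (MonoidHom.fst G G') h
  rw [MonoidHom.map_closure, Set.image_insert_eq, Set.image_singleton] at e
  exact e

/-- nb: the words of a group with the second relation do not depend on the group -/
theorem words_of_relation_two {G G' : Type*} [Group G] [Group G'] {r s t : G} {r' s' t' : G'}
    (hr : r * r = 1) (hs : s * s = 1) (ht : t * t = 1) (h1 : (r * s) ^ 3 = 1)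
    (h2 : (r * t) ^ 3 = 1) (h3 : (s * t) ^ 3 = 1) (h4 : (r * t * s) ^ 2 = 1)
    (h5 : r * s ≠ 1) (h6 : s * t ≠ 1) (h7 : r * s ≠ s * t)
    (h8 : r * s ≠ t * s) (h9 : s ∉ Subgroup.closure ({r * s, s * t} : Set G))
    (hr' : r' * r' = 1) (hs' : s' * s' = 1) (ht' : t' * t' = 1) (h1' : (r' * s') ^ 3 = 1)
    (h2' : (r' * t') ^ 3 = 1) (h3' : (s' * t') ^ 3 = 1) (h4' : (r' * t' * s') ^ 2 = 1)
    (h5' : r' * s' ≠ 1) (h6' : s' * t' ≠ 1) (h7' : r' * s' ≠ s' * t')
    (h8' : r' * s' ≠ t' * s') (h9' : s' ∉ Subgroup.closure ({r' * s', s' * t'} : Set G'))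
    (w : List (Fin 3)) : wordG r s t w = 1 ↔ wordG r' s' t' w = 1 := by
  constructor
  · refine nb_aux (n := 18) (by norm_num)
      (card_of_relation_two hr hs ht h1 h2 h3 h4 h5 h6 h7 h8 h9) ?_ w
    refine card_of_relation_two ?_ ?_ ?_ ?_ ?_ ?_ ?_ ?_ ?_ ?_ ?_ (nb_cl h9)
    · exact Prod.ext hr hr'
    · exact Prod.ext hs hs'
    · exact Prod.ext ht ht'
    · exact Prod.ext h1 h1'
    · exact Prod.ext h2 h2'
    · exact Prod.ext h3 h3'
    · exact Prod.ext h4 h4'
    · intro e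
      exact h5 (congrArg Prod.fst e)
    · intro e
      exact h6 (congrArg Prod.fst e)
    · intro e
      exact h7 (congrArg Prod.fst e)
    · intro e
      exact h8 (congrArg Prod.fst e)
  · refine nb_aux (n := 18) (by norm_num)
      (card_of_relation_two hr' hs' ht' h1' h2' h3' h4' h5' h6' h7' h8' h9') ?_ w
    refine card_of_relation_two ?_ ?_ ?_ ?_ ?_ ?_ ?_ ?_ ?_ ?_ ?_ (nb_cl h9')
    · exact Prod.ext hr' hr
    · exact Prod.ext hs' hs
    · exact Prod.ext ht' ht
    · exact Prod.ext h1' h1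
    · exact Prod.ext h2' h2
    · exact Prod.ext h3' h3
    · exact Prod.ext h4' h4
    · intro e
      exact h5 (congrArg Prod.snd e)
    · intro e
      exact h6 (congrArg Prod.snd e)
    · intro e
      exact h7 (congrArg Prod.snd e)
    · intro e
      exact h8 (congrArg Prod.snd e)

/-- nc: in the symmetric group on four letters, `(0 1), (0 2), (0 3)` -/
theorem perm_relation_one :
    let r : Equiv.Perm (Fin 4) := Equiv.swap 0 1
    let s : Equiv.Perm (Fin 4) := Equiv.swap 0 2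
    let t : Equiv.Perm (Fin 4) := Equiv.swap 0 3
    r * r = 1 ∧ s * s = 1 ∧ t * t = 1 ∧ (r * s) ^ 3 = 1 ∧ (r * t) ^ 3 = 1 ∧ (s * t) ^ 3 = 1 ∧
      (r * s * r * t) ^ 2 = 1 ∧ r * s * r * t ≠ 1 := by
  intro r s t
  refine ⟨by decide, by decide, by decide, by decide, by decide, by decide, by decide, by decide⟩

/-- nc: point reflections of the affine plane over the field with three elements -/
theorem perm_relation_two :
    let r : Equiv.Perm (ZMod 3 × ZMod 3) := Equiv.subLeft (0, 0)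
    let s : Equiv.Perm (ZMod 3 × ZMod 3) := Equiv.subLeft (1, 0)
    let t : Equiv.Perm (ZMod 3 × ZMod 3) := Equiv.subLeft (0, 1)
    r * r = 1 ∧ s * s = 1 ∧ t * t = 1 ∧ (r * s) ^ 3 = 1 ∧ (r * t) ^ 3 = 1 ∧ (s * t) ^ 3 = 1 ∧
      (r * t * s) ^ 2 = 1 ∧ r * s ≠ 1 ∧ s * t ≠ 1 ∧ r * s ≠ s * t ∧ r * s ≠ t * s ∧
      s ∉ Subgroup.closure ({r * s, s * t} : Set (Equiv.Perm (ZMod 3 × ZMod 3))) := by
  intro r s t
  have hr : ∀ x, r x = (0, 0) - x := fun x => rfl
  have hs : ∀ x, s x = (1, 0) - x := fun x => rfl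
  have ht : ∀ x, t x = (0, 1) - x := fun x => rfl
  refine ⟨?_, ?_, ?_, ?_, ?_, ?_, ?_, ?_, ?_, ?_, ?_, ?_⟩
  · exact Equiv.ext fun x => by
      show r (r x) = x
      rw [hr, hr]
      abel
  · exact Equiv.ext fun x => by
      show s (s x) = x
      rw [hs, hs]
      abel
  · exact Equiv.ext fun x => by
      show t (t x) = x
      rw [ht, ht]
      abel
  · decide
  · decide
  · decide
  · decide
  · decide
  · decide
  · decide
  · decide
  · intro hmem
    have key : ∀ σ ∈ Subgroup.closure ({r * s, s * t} : Set (Equiv.Perm (ZMod 3 × ZMod 3))),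
        ∀ x, σ x = x + σ 0 := by
      intro σ hσ
      induction hσ using Subgroup.closure_induction with
      | mem σ hσ =>
        rcases hσ with rfl | rfl
        · intro x
          show r (s x) = x + r (s 0)
          rw [hr, hr, hs, hs]
          abel
        · intro x
          show s (t x) = x + s (t 0)
          rw [hs, hs, ht, ht]
          abel
      | one => exact fun x => (add_zero x).symm
      | mul σ τ _ _ h1 h2 =>
        intro x
        show σ (τ x) = x + σ (τ 0)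
        rw [h1 (τ x), h1 (τ 0), h2 x, add_assoc]
      | inv σ _ h1 =>
        intro x
        have e : ∀ y, σ (σ⁻¹ y) = y := fun y => Equiv.apply_symm_apply σ y
        have h2 := h1 (σ⁻¹ x)
        have h3 := h1 (σ⁻¹ 0)
        rw [e] at h2 h3
        have h4 : σ⁻¹ 0 = -σ 0 := by
          rw [eq_neg_iff_add_eq_zero]
          exact h3.symm
        have h5 : σ⁻¹ x = x - σ 0 := eq_sub_of_add_eq h2.symm
        rw [h5, h4, sub_eq_add_neg]
    have h1 := key s hmem (1, 0)
    revert h1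
    decide

private theorem nd_mul (a b c d a' b' c' d' : ℂ) :
    !![a, b; c, d] * !![a', b'; c', d'] =
      !![a * a' + b * c', a * b' + b * d'; c * a' + d * c', c * b' + d * d'] :=
  Matrix.mul_fin_two _ _ _ _ _ _ _ _

private theorem nd_eq {a b c d a' b' c' d' : ℂ} (h1 : a = a') (h2 : b = b') (h3 : c = c')
    (h4 : d = d') : !![a, b; c, d] = !![a', b'; c', d'] := by
  rw [h1, h2, h3, h4]

private theorem nd_one : !![(1 : ℂ), 0; 0, 1] = 1 := Matrix.one_fin_two.symm

private theorem nd_tr (a b c d : ℂ) : (!![a, b; c, d]).transpose = !![a, c; b, d] := by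
  ext i j
  fin_cases i <;> fin_cases j <;> rfl

private theorem nd_sc (a : ℂ) : !![a, 0; 0, a] = a • (1 : Matrix (Fin 2) (Fin 2) ℂ) := by
  rw [← nd_one]
  ext i j
  fin_cases i <;> fin_cases j <;> simp

private noncomputable def nd_MA (z : ℂ) : Matrix (Fin 2) (Fin 2) ℂ :=
  !![(1), 0; 0, (-1)]

private noncomputable def nd_MB (z : ℂ) : Matrix (Fin 2) (Fin 2) ℂ :=
  !![(-1/3), (8/9); (1), (1/3)]

private noncomputable def nd_MC (z : ℂ) : Matrix (Fin 2) (Fin 2) ℂ :=
  !![(-1/3), (8/9)*z; (1)*z^2, (1/3)]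

private noncomputable def nd_MPr (z : ℂ) : Matrix (Fin 2) (Fin 2) ℂ :=
  !![(1), 0; 0, (9/8)]

private noncomputable def nd_MQr (z : ℂ) : Matrix (Fin 2) (Fin 2) ℂ :=
  !![(1), 0; 0, (8/9)]

private noncomputable def nd_MPs (z : ℂ) : Matrix (Fin 2) (Fin 2) ℂ :=
  !![(1), 0; 0, (9/8)*z]

private noncomputable def nd_MQs (z : ℂ) : Matrix (Fin 2) (Fin 2) ℂ :=
  !![(1), 0; 0, (8/9)*z^2]

private noncomputable def nd_MPt (z : ℂ) : Matrix (Fin 2) (Fin 2) ℂ :=
  !![(-8)*z, (-12)*z^2; (-12)*z^2, (9)]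

private noncomputable def nd_MQt (z : ℂ) : Matrix (Fin 2) (Fin 2) ℂ :=
  !![(-1/24)*z^2, (-1/18)*z; (-1/18)*z, (1/27)]

private noncomputable def nd_MU (z : ℂ) : Matrix (Fin 2) (Fin 2) ℂ :=
  !![(2), (4); (3), (-3)]

private noncomputable def nd_MV (z : ℂ) : Matrix (Fin 2) (Fin 2) ℂ :=
  !![(1/6), (2/9); (1/6), (-1/9)]

private noncomputable def nd_MW (z : ℂ) : Matrix (Fin 2) (Fin 2) ℂ :=
  !![(2), (4); (3)*z^2, (-3)*z^2]

private noncomputable def nd_MX (z : ℂ) : Matrix (Fin 2) (Fin 2) ℂ :=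
  !![(1/6), (2/9)*z; (1/6), (-1/9)*z]

private theorem nd_r1 (z : ℂ) (hz : z ^ 2 + z + 1 = 0) :
    nd_MPr z * nd_MQr z =
      1 := by
  rw [← nd_one]
  unfold nd_MPr nd_MQr
  rw [nd_mul]
  exact nd_eq (by linear_combination (0) * hz)
    (by linear_combination (0) * hz)
    (by linear_combination (0) * hz)
    (by linear_combination (0) * hz)

private theorem nd_r2 (z : ℂ) (hz : z ^ 2 + z + 1 = 0) :
    nd_MQr z * nd_MPr z =
      1 := by
  rw [← nd_one]
  unfold nd_MQr nd_MPr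
  rw [nd_mul]
  exact nd_eq (by linear_combination (0) * hz)
    (by linear_combination (0) * hz)
    (by linear_combination (0) * hz)
    (by linear_combination (0) * hz)

private theorem nd_s1 (z : ℂ) (hz : z ^ 2 + z + 1 = 0) :
    nd_MPs z * nd_MQs z =
      1 := by
  rw [← nd_one]
  unfold nd_MPs nd_MQs
  rw [nd_mul]
  exact nd_eq (by linear_combination (0) * hz)
    (by linear_combination (0) * hz)
    (by linear_combination (0) * hz)
    (by linear_combination ((-1) + (1)*z) * hz)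

private theorem nd_s2 (z : ℂ) (hz : z ^ 2 + z + 1 = 0) :
    nd_MQs z * nd_MPs z =
      1 := by
  rw [← nd_one]
  unfold nd_MQs nd_MPs
  rw [nd_mul]
  exact nd_eq (by linear_combination (0) * hz)
    (by linear_combination (0) * hz)
    (by linear_combination (0) * hz)
    (by linear_combination ((-1) + (1)*z) * hz)

private theorem nd_t1 (z : ℂ) (hz : z ^ 2 + z + 1 = 0) :
    nd_MPt z * nd_MQt z =
      1 := by
  rw [← nd_one]
  unfold nd_MPt nd_MQt
  rw [nd_mul]
  exact nd_eq (by linear_combination ((-1) + (1)*z) * hz)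
    (by linear_combination (0) * hz)
    (by linear_combination ((-1/2)*z + (1/2)*z^2) * hz)
    (by linear_combination ((-2/3) + (2/3)*z) * hz)

private theorem nd_t2 (z : ℂ) (hz : z ^ 2 + z + 1 = 0) :
    nd_MQt z * nd_MPt z =
      1 := by
  rw [← nd_one]
  unfold nd_MQt nd_MPt
  rw [nd_mul]
  exact nd_eq (by linear_combination ((-1) + (1)*z) * hz)
    (by linear_combination ((-1/2)*z + (1/2)*z^2) * hz)
    (by linear_combination (0) * hz)
    (by linear_combination ((-2/3) + (2/3)*z) * hz)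

private theorem nd_b1 (z : ℂ) (hz : z ^ 2 + z + 1 = 0) :
    nd_MU z * nd_MV z =
      1 := by
  rw [← nd_one]
  unfold nd_MU nd_MV
  rw [nd_mul]
  exact nd_eq (by linear_combination (0) * hz)
    (by linear_combination (0) * hz)
    (by linear_combination (0) * hz)
    (by linear_combination (0) * hz)

private theorem nd_b2 (z : ℂ) (hz : z ^ 2 + z + 1 = 0) :
    nd_MV z * nd_MU z =
      1 := by
  rw [← nd_one]
  unfold nd_MV nd_MU
  rw [nd_mul]
  exact nd_eq (by linear_combination (0) * hz)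
    (by linear_combination (0) * hz)
    (by linear_combination (0) * hz)
    (by linear_combination (0) * hz)

private theorem nd_c1 (z : ℂ) (hz : z ^ 2 + z + 1 = 0) :
    nd_MW z * nd_MX z =
      1 := by
  rw [← nd_one]
  unfold nd_MW nd_MX
  rw [nd_mul]
  exact nd_eq (by linear_combination (0) * hz)
    (by linear_combination (0) * hz)
    (by linear_combination (0) * hz)
    (by linear_combination ((-1) + (1)*z) * hz)

private theorem nd_c2 (z : ℂ) (hz : z ^ 2 + z + 1 = 0) :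
    nd_MX z * nd_MW z =
      1 := by
  rw [← nd_one]
  unfold nd_MX nd_MW
  rw [nd_mul]
  exact nd_eq (by linear_combination ((-2/3) + (2/3)*z) * hz)
    (by linear_combination ((2/3) + (-2/3)*z) * hz)
    (by linear_combination ((1/3) + (-1/3)*z) * hz)
    (by linear_combination ((-1/3) + (1/3)*z) * hz)

private theorem nd_rA (z : ℂ) (hz : z ^ 2 + z + 1 = 0) :
    nd_MPr z * (nd_MA z).transpose * nd_MQr z = nd_MA z := by
  unfold nd_MPr nd_MA nd_MQr
  simp only [nd_tr]
  rw [nd_mul, nd_mul]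
  exact nd_eq (by linear_combination (0) * hz)
    (by linear_combination (0) * hz)
    (by linear_combination (0) * hz)
    (by linear_combination (0) * hz)

private theorem nd_rB (z : ℂ) (hz : z ^ 2 + z + 1 = 0) :
    nd_MPr z * (nd_MB z).transpose * nd_MQr z = nd_MB z := by
  unfold nd_MPr nd_MB nd_MQr
  simp only [nd_tr]
  rw [nd_mul, nd_mul]
  exact nd_eq (by linear_combination (0) * hz)
    (by linear_combination (0) * hz)
    (by linear_combination (0) * hz)
    (by linear_combination (0) * hz)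

private theorem nd_sA (z : ℂ) (hz : z ^ 2 + z + 1 = 0) :
    nd_MPs z * (nd_MA z).transpose * nd_MQs z = nd_MA z := by
  unfold nd_MPs nd_MA nd_MQs
  simp only [nd_tr]
  rw [nd_mul, nd_mul]
  exact nd_eq (by linear_combination (0) * hz)
    (by linear_combination (0) * hz)
    (by linear_combination (0) * hz)
    (by linear_combination ((1) + (-1)*z) * hz)

private theorem nd_sC (z : ℂ) (hz : z ^ 2 + z + 1 = 0) :
    nd_MPs z * (nd_MC z).transpose * nd_MQs z = nd_MC z := by
  unfold nd_MPs nd_MC nd_MQs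
  simp only [nd_tr]
  rw [nd_mul, nd_mul]
  exact nd_eq (by linear_combination (0) * hz)
    (by linear_combination ((-8/9)*z + (8/9)*z^2) * hz)
    (by linear_combination (0) * hz)
    (by linear_combination ((-1/3) + (1/3)*z) * hz)

private theorem nd_tB (z : ℂ) (hz : z ^ 2 + z + 1 = 0) :
    nd_MPt z * (nd_MB z).transpose * nd_MQt z = nd_MB z := by
  unfold nd_MPt nd_MB nd_MQt
  simp only [nd_tr]
  rw [nd_mul, nd_mul]
  exact nd_eq (by linear_combination ((1/3) + (-1/3)*z + (4/9)*z^2) * hz)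
    (by linear_combination ((-8/9) + (16/27)*z) * hz)
    (by linear_combination ((-1) + (5/6)*z + (-1/6)*z^2) * hz)
    (by linear_combination ((-2/9) + (-2/9)*z) * hz)

private theorem nd_tC (z : ℂ) (hz : z ^ 2 + z + 1 = 0) :
    nd_MPt z * (nd_MC z).transpose * nd_MQt z = nd_MC z := by
  unfold nd_MPt nd_MC nd_MQt
  simp only [nd_tr]
  rw [nd_mul, nd_mul]
  exact nd_eq (by linear_combination ((1/3) + (-1/3)*z + (4/9)*z^3) * hz)
    (by linear_combination ((-8/9)*z + (16/27)*z^2) * hz)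
    (by linear_combination ((-1/6)*z + (-5/6)*z^2 + (2/3)*z^3) * hz)
    (by linear_combination ((-2/9) + (2/9)*z + (-4/9)*z^2) * hz)

private theorem nd_bB (z : ℂ) (hz : z ^ 2 + z + 1 = 0) :
    nd_MV z * nd_MB z * nd_MU z =
      !![(1), 0; 0, (-1)] := by
  unfold nd_MV nd_MB nd_MU
  rw [nd_mul, nd_mul]
  exact nd_eq (by linear_combination (0) * hz)
    (by linear_combination (0) * hz)
    (by linear_combination (0) * hz)
    (by linear_combination (0) * hz)

private theorem nd_bA (z : ℂ) (hz : z ^ 2 + z + 1 = 0) :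
    nd_MV z * nd_MA z * nd_MU z =
      !![(-1/3), (4/3); (2/3), (1/3)] := by
  unfold nd_MV nd_MA nd_MU
  rw [nd_mul, nd_mul]
  exact nd_eq (by linear_combination (0) * hz)
    (by linear_combination (0) * hz)
    (by linear_combination (0) * hz)
    (by linear_combination (0) * hz)

private theorem nd_bC (z : ℂ) (hz : z ^ 2 + z + 1 = 0) :
    nd_MV z * nd_MC z * nd_MU z =
      !![(-1/3), (4/3)*z^2; (2/3)*z, (1/3)] := by
  unfold nd_MV nd_MC nd_MU
  rw [nd_mul, nd_mul]
  exact nd_eq (by linear_combination ((4/9)) * hz)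
    (by linear_combination ((-4/9)) * hz)
    (by linear_combination ((-2/9)) * hz)
    (by linear_combination ((-4/9)) * hz)

private theorem nd_cC (z : ℂ) (hz : z ^ 2 + z + 1 = 0) :
    nd_MX z * nd_MC z * nd_MW z =
      !![(1), 0; 0, (-1)] := by
  unfold nd_MX nd_MC nd_MW
  rw [nd_mul, nd_mul]
  exact nd_eq (by linear_combination ((-10/9) + (10/9)*z) * hz)
    (by linear_combination ((-2/9) + (2/9)*z) * hz)
    (by linear_combination ((-1/9) + (1/9)*z) * hz)
    (by linear_combination ((7/9) + (-7/9)*z) * hz)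

private theorem nd_cA (z : ℂ) (hz : z ^ 2 + z + 1 = 0) :
    nd_MX z * nd_MA z * nd_MW z =
      !![(-1/3), (4/3); (2/3), (1/3)] := by
  unfold nd_MX nd_MA nd_MW
  rw [nd_mul, nd_mul]
  exact nd_eq (by linear_combination ((2/3) + (-2/3)*z) * hz)
    (by linear_combination ((-2/3) + (2/3)*z) * hz)
    (by linear_combination ((-1/3) + (1/3)*z) * hz)
    (by linear_combination ((1/3) + (-1/3)*z) * hz)

private theorem nd_cB (z : ℂ) (hz : z ^ 2 + z + 1 = 0) :
    nd_MX z * nd_MB z * nd_MW z =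
      !![(-1/3), (4/3)*z; (2/3)*z^2, (1/3)] := by
  unfold nd_MX nd_MB nd_MW
  rw [nd_mul, nd_mul]
  exact nd_eq (by linear_combination ((2/9) + (2/9)*z) * hz)
    (by linear_combination ((-2/9) + (-2/9)*z) * hz)
    (by linear_combination ((-1/9) + (-1/9)*z) * hz)
    (by linear_combination ((-5/9) + (1/9)*z) * hz)

private theorem nd_sB (z : ℂ) (hz : z ^ 2 + z + 1 = 0) :
    nd_MPs z * (nd_MB z).transpose * nd_MQs z =
      !![(-1/3), (8/9)*z^2; (1)*z, (1/3)] := by
  unfold nd_MPs nd_MB nd_MQs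
  simp only [nd_tr]
  rw [nd_mul, nd_mul]
  exact nd_eq (by linear_combination (0) * hz)
    (by linear_combination (0) * hz)
    (by linear_combination (0) * hz)
    (by linear_combination ((-1/3) + (1/3)*z) * hz)

private theorem nd_tA (z : ℂ) (hz : z ^ 2 + z + 1 = 0) :
    nd_MPt z * (nd_MA z).transpose * nd_MQt z =
      !![(-1/3), (8/9)*z^2; (1)*z, (1/3)] := by
  unfold nd_MPt nd_MA nd_MQt
  simp only [nd_tr]
  rw [nd_mul, nd_mul]
  exact nd_eq (by linear_combination ((1/3) + (-1/3)*z) * hz)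
    (by linear_combination (0) * hz)
    (by linear_combination ((-1/2)*z + (1/2)*z^2) * hz)
    (by linear_combination ((-2/3) + (2/3)*z) * hz)

private noncomputable def nd_MGrs (z : ℂ) : Matrix (Fin 2) (Fin 2) ℂ :=
  !![(1), 0; 0, (-1) + (-1)*z]

private theorem nd_Grs (z : ℂ) (hz : z ^ 2 + z + 1 = 0) :
    nd_MPr z * (nd_MQs z).transpose = nd_MGrs z := by
  unfold nd_MPr nd_MQs nd_MGrs
  simp only [nd_tr]
  rw [nd_mul]
  exact nd_eq (by linear_combination (0) * hz)
    (by linear_combination (0) * hz)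
    (by linear_combination (0) * hz)
    (by linear_combination ((1)) * hz)

private theorem nd_Grs3 (z : ℂ) (hz : z ^ 2 + z + 1 = 0) :
    nd_MGrs z * nd_MGrs z * nd_MGrs z = ((1) : ℂ) • (1 : Matrix (Fin 2) (Fin 2) ℂ) := by
  rw [← nd_sc]
  unfold nd_MGrs
  rw [nd_mul, nd_mul]
  exact nd_eq (by linear_combination (0) * hz)
    (by linear_combination (0) * hz)
    (by linear_combination (0) * hz)
    (by linear_combination ((-2) + (-1)*z) * hz)

private noncomputable def nd_MHrs (z : ℂ) : Matrix (Fin 2) (Fin 2) ℂ :=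
  !![(1), 0; 0, (1)*z]

private theorem nd_Hrs (z : ℂ) (hz : z ^ 2 + z + 1 = 0) :
    (nd_MPs z).transpose * nd_MQr z = nd_MHrs z := by
  unfold nd_MPs nd_MQr nd_MHrs
  simp only [nd_tr]
  rw [nd_mul]
  exact nd_eq (by linear_combination (0) * hz)
    (by linear_combination (0) * hz)
    (by linear_combination (0) * hz)
    (by linear_combination (0) * hz)

private theorem nd_Hrs3 (z : ℂ) (hz : z ^ 2 + z + 1 = 0) :
    nd_MHrs z * nd_MHrs z * nd_MHrs z = ((1) : ℂ) • (1 : Matrix (Fin 2) (Fin 2) ℂ) := by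
  rw [← nd_sc]
  unfold nd_MHrs
  rw [nd_mul, nd_mul]
  exact nd_eq (by linear_combination (0) * hz)
    (by linear_combination (0) * hz)
    (by linear_combination (0) * hz)
    (by linear_combination ((-1) + (1)*z) * hz)

private noncomputable def nd_MGrt (z : ℂ) : Matrix (Fin 2) (Fin 2) ℂ :=
  !![(1/24) + (1/24)*z, (-1/18)*z; (-1/16)*z, (1/24)]

private theorem nd_Grt (z : ℂ) (hz : z ^ 2 + z + 1 = 0) :
    nd_MPr z * (nd_MQt z).transpose = nd_MGrt z := by
  unfold nd_MPr nd_MQt nd_MGrt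
  simp only [nd_tr]
  rw [nd_mul]
  exact nd_eq (by linear_combination ((-1/24)) * hz)
    (by linear_combination (0) * hz)
    (by linear_combination (0) * hz)
    (by linear_combination (0) * hz)

private theorem nd_Grt3 (z : ℂ) (hz : z ^ 2 + z + 1 = 0) :
    nd_MGrt z * nd_MGrt z * nd_MGrt z = ((-1/4608) + (-1/2304)*z : ℂ) • (1 : Matrix (Fin 2) (Fin 2) ℂ) := by
  rw [← nd_sc]
  unfold nd_MGrt
  rw [nd_mul, nd_mul]
  exact nd_eq (by linear_combination ((1/3456) + (5/13824)*z) * hz)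
    (by linear_combination ((-1/3456)*z) * hz)
    (by linear_combination ((-1/3072)*z) * hz)
    (by linear_combination ((1/3456) + (1/6912)*z) * hz)

private noncomputable def nd_MHrt (z : ℂ) : Matrix (Fin 2) (Fin 2) ℂ :=
  !![(-8)*z, (32/3) + (32/3)*z; (12) + (12)*z, (8)]

private theorem nd_Hrt (z : ℂ) (hz : z ^ 2 + z + 1 = 0) :
    (nd_MPt z).transpose * nd_MQr z = nd_MHrt z := by
  unfold nd_MPt nd_MQr nd_MHrt
  simp only [nd_tr]
  rw [nd_mul]
  exact nd_eq (by linear_combination (0) * hz)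
    (by linear_combination ((-32/3)) * hz)
    (by linear_combination ((-12)) * hz)
    (by linear_combination (0) * hz)

private theorem nd_Hrt3 (z : ℂ) (hz : z ^ 2 + z + 1 = 0) :
    nd_MHrt z * nd_MHrt z * nd_MHrt z = ((1536) + (3072)*z : ℂ) • (1 : Matrix (Fin 2) (Fin 2) ℂ) := by
  rw [← nd_sc]
  unfold nd_MHrt
  rw [nd_mul, nd_mul]
  exact nd_eq (by linear_combination ((-512) + (-2560)*z) * hz)
    (by linear_combination ((2048) + (2048)*z) * hz)
    (by linear_combination ((2304) + (2304)*z) * hz)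
    (by linear_combination ((1024) + (-1024)*z) * hz)

private noncomputable def nd_MGst (z : ℂ) : Matrix (Fin 2) (Fin 2) ℂ :=
  !![(1/24) + (1/24)*z, (-1/18)*z; (1/16) + (1/16)*z, (1/24)*z]

private theorem nd_Gst (z : ℂ) (hz : z ^ 2 + z + 1 = 0) :
    nd_MPs z * (nd_MQt z).transpose = nd_MGst z := by
  unfold nd_MPs nd_MQt nd_MGst
  simp only [nd_tr]
  rw [nd_mul]
  exact nd_eq (by linear_combination ((-1/24)) * hz)
    (by linear_combination (0) * hz)
    (by linear_combination ((-1/16)) * hz)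
    (by linear_combination (0) * hz)

private theorem nd_Gst3 (z : ℂ) (hz : z ^ 2 + z + 1 = 0) :
    nd_MGst z * nd_MGst z * nd_MGst z = ((1/4608) + (1/2304)*z : ℂ) • (1 : Matrix (Fin 2) (Fin 2) ℂ) := by
  rw [← nd_sc]
  unfold nd_MGst
  rw [nd_mul, nd_mul]
  exact nd_eq (by linear_combination ((-1/6912) + (-5/13824)*z) * hz)
    (by linear_combination ((-1/10368)*z) * hz)
    (by linear_combination ((1/9216) + (1/9216)*z) * hz)
    (by linear_combination ((-1/4608) + (-5/13824)*z) * hz)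

private noncomputable def nd_MHst (z : ℂ) : Matrix (Fin 2) (Fin 2) ℂ :=
  !![(-8)*z, (-32/3)*z; (12) + (12)*z, (-8) + (-8)*z]

private theorem nd_Hst (z : ℂ) (hz : z ^ 2 + z + 1 = 0) :
    (nd_MPt z).transpose * nd_MQs z = nd_MHst z := by
  unfold nd_MPt nd_MQs nd_MHst
  simp only [nd_tr]
  rw [nd_mul]
  exact nd_eq (by linear_combination (0) * hz)
    (by linear_combination ((32/3)*z + (-32/3)*z^2) * hz)
    (by linear_combination ((-12)) * hz)
    (by linear_combination ((8)) * hz)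

private theorem nd_Hst3 (z : ℂ) (hz : z ^ 2 + z + 1 = 0) :
    nd_MHst z * nd_MHst z * nd_MHst z = ((-1536) + (-3072)*z : ℂ) • (1 : Matrix (Fin 2) (Fin 2) ℂ) := by
  rw [← nd_sc]
  unfold nd_MHst
  rw [nd_mul, nd_mul]
  exact nd_eq (by linear_combination ((1536) + (2560)*z) * hz)
    (by linear_combination ((-2048/3)*z) * hz)
    (by linear_combination ((768) + (768)*z) * hz)
    (by linear_combination ((1024) + (2560)*z) * hz)

/-- the antiautomorphism `X ↦ P Xᵀ P⁻¹` -/
private theorem nd_anti {n : ℕ} (P Q : Matrix (Fin n) (Fin n) ℂ) (hPQ : P * Q = 1)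
    (hQP : Q * P = 1) :
    ∃ r : Module.End ℂ (Fin n → ℂ) ≃ₗ[ℂ] Module.End ℂ (Fin n → ℂ),
      ∀ X, r (Matrix.toLin' X) = Matrix.toLin' (P * X.transpose * Q) := by
  let R : Matrix (Fin n) (Fin n) ℂ ≃ₗ[ℂ] Matrix (Fin n) (Fin n) ℂ :=
    { toFun := fun X => P * X.transpose * Q
      map_add' := fun X Y => by rw [Matrix.transpose_add, Matrix.mul_add, Matrix.add_mul]
      map_smul' := fun c X => by
        rw [Matrix.transpose_smul, Matrix.mul_smul, Matrix.smul_mul]
        rfl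
      invFun := fun X => (Q * X * P).transpose
      left_inv := fun X => by
        show (Q * (P * X.transpose * Q) * P).transpose = X
        have h : Q * (P * X.transpose * Q) * P = (Q * P) * X.transpose * (Q * P) := by
          simp only [Matrix.mul_assoc]
        rw [h, hQP, Matrix.one_mul, Matrix.mul_one, Matrix.transpose_transpose]
      right_inv := fun X => by
        show P * ((Q * X * P).transpose).transpose * Q = X
        have h : P * (Q * X * P) * Q = (P * Q) * X * (P * Q) := by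
          simp only [Matrix.mul_assoc]
        rw [Matrix.transpose_transpose, h, hPQ, Matrix.one_mul, Matrix.mul_one] }
  refine ⟨(Matrix.toLin').symm ≪≫ₗ R ≪≫ₗ Matrix.toLin', fun X => ?_⟩
  simp only [LinearEquiv.trans_apply, LinearEquiv.symm_apply_apply]
  rfl

private theorem nd_isAnti {n : ℕ} {P Q A B : Matrix (Fin n) (Fin n) ℂ} (hQP : Q * P = 1)
    {r : Module.End ℂ (Fin n → ℂ) ≃ₗ[ℂ] Module.End ℂ (Fin n → ℂ)}
    (hr : ∀ X, r (Matrix.toLin' X) = Matrix.toLin' (P * X.transpose * Q))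
    (hA : P * A.transpose * Q = A) (hB : P * B.transpose * Q = B) :
    IsAnti r (Matrix.toLin' A) (Matrix.toLin' B) := by
  refine ⟨fun X Y => ?_, by rw [hr, hA], by rw [hr, hB]⟩
  obtain ⟨X, rfl⟩ := Matrix.toLin'.surjective X
  obtain ⟨Y, rfl⟩ := Matrix.toLin'.surjective Y
  have h1 : (Matrix.toLin' X * Matrix.toLin' Y : Module.End ℂ (Fin n → ℂ)) =
      Matrix.toLin' (X * Y) := (Matrix.toLin'_mul X Y).symm
  rw [h1, hr, hr, hr, Matrix.transpose_mul]
  have h2 : P * (Y.transpose * X.transpose) * Q =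
      (P * Y.transpose * Q) * (P * X.transpose * Q) := by
    have h3 : (P * Y.transpose * Q) * (P * X.transpose * Q) =
        P * Y.transpose * (Q * P) * X.transpose * Q := by
      simp only [Matrix.mul_assoc]
    rw [h3, hQP, Matrix.mul_one]
    simp only [Matrix.mul_assoc]
  rw [h2, Matrix.toLin'_mul]
  rfl

private theorem nd_basis {n : ℕ} (P Q : Matrix (Fin n) (Fin n) ℂ) (hPQ : P * Q = 1)
    (hQP : Q * P = 1) :
    ∃ b : Module.Basis (Fin n) ℂ (Fin n → ℂ), ∀ X : Matrix (Fin n) (Fin n) ℂ,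
      LinearMap.toMatrix b b (Matrix.toLin' X) = Q * X * P := by
  refine ⟨Module.Basis.ofEquivFun (Matrix.toLin'OfInv hPQ hQP), fun X => ?_⟩
  ext i j
  rw [LinearMap.toMatrix_apply]
  have h1 : (Module.Basis.ofEquivFun (Matrix.toLin'OfInv hPQ hQP)) j = P.mulVec (Pi.single j 1) := by
    rw [Module.Basis.coe_ofEquivFun]
    rfl
  have h2 : ∀ w : Fin n → ℂ, (Module.Basis.ofEquivFun (Matrix.toLin'OfInv hPQ hQP)).repr w i =
      Q.mulVec w i := fun w => rfl
  rw [h1, h2, Matrix.toLin'_apply, Matrix.mulVec_mulVec, Matrix.mulVec_mulVec,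
    Matrix.mulVec_single_one]
  rfl

private theorem nd_order {n : ℕ} {P Q P' Q' G H : Matrix (Fin n) (Fin n) ℂ}
    {r s : Module.End ℂ (Fin n → ℂ) ≃ₗ[ℂ] Module.End ℂ (Fin n → ℂ)}
    (hr : ∀ X, r (Matrix.toLin' X) = Matrix.toLin' (P * X.transpose * Q))
    (hs : ∀ X, s (Matrix.toLin' X) = Matrix.toLin' (P' * X.transpose * Q'))
    (hG : P * Q'.transpose = G) (hH : P'.transpose * Q = H) {c c' : ℂ}
    (hG3 : G * G * G = c • 1) (hH3 : H * H * H = c' • 1) (hc : c * c' = 1)
    {Y : Module.End ℂ (Fin n → ℂ)} (hY : r Y = Y) (hY' : s Y ≠ Y) : orderOf (r * s) = 3 := by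
  have h1 : ∀ X, r (s (Matrix.toLin' X)) = Matrix.toLin' (G * X * H) := by
    intro X
    rw [hs, hr, ← hG, ← hH, Matrix.transpose_mul, Matrix.transpose_mul,
      Matrix.transpose_transpose]
    simp only [Matrix.mul_assoc]
  have : Fact (Nat.Prime 3) := ⟨Nat.prime_three⟩
  refine orderOf_eq_prime ?_ ?_
  · have h3 : (r * s) ^ 3 = (r * s) * (r * s) * (r * s) := by
      rw [pow_succ, pow_two]
    rw [h3]
    refine LinearEquiv.ext fun Z => ?_
    obtain ⟨X, rfl⟩ := Matrix.toLin'.surjective Z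
    show r (s (r (s (r (s (Matrix.toLin' X)))))) = Matrix.toLin' X
    rw [h1, h1, h1]
    have h4 : G * (G * (G * X * H) * H) * H = (G * G * G) * X * (H * H * H) := by
      simp only [Matrix.mul_assoc]
    rw [h4, hG3, hH3, Matrix.smul_mul, Matrix.one_mul, Matrix.mul_smul, Matrix.mul_one,
      smul_smul, mul_comm c' c, hc, one_smul]
  · intro h
    refine hY' (r.injective ?_)
    have h5 : (r * s) Y = Y := by
      rw [h]
      rfl
    rw [hY]
    exact h5

private theorem nd_diagTri {A B C P Q : Matrix (Fin 2) (Fin 2) ℂ} (hPQ : P * Q = 1)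
    (hQP : Q * P = 1) {a d a1 b1 c1 d1 a2 b2 c2 d2 : ℂ} (hA : Q * A * P = !![a, 0; 0, d])
    (hB : Q * B * P = !![a1, b1; c1, d1]) (hC : Q * C * P = !![a2, b2; c2, d2])
    (h1 : b1 ≠ 0) (h2 : c1 ≠ 0) (h3 : b2 ≠ 0) (h4 : c2 ≠ 0) :
    DiagTri (Matrix.toLin' A) (Matrix.toLin' B) (Matrix.toLin' C) := by
  obtain ⟨b, hb⟩ := nd_basis P Q hPQ hQP
  have key : ∀ a b c d : ℂ, b ≠ 0 → c ≠ 0 → IrredTridiag !![a, b; c, d] := by
    intro a b c d hb hc
    refine ⟨fun i j h => ?_, fun i j h => ?_⟩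
    · exfalso
      have := i.2
      have := j.2
      omega
    · fin_cases i <;> fin_cases j
      · simp at h
      · exact hb
      · exact hc
      · simp at h
  refine ⟨2, b, ?_, ?_, ?_⟩
  · rw [hb, hA]
    intro i j hij
    fin_cases i <;> fin_cases j
    · exact absurd rfl hij
    · rfl
    · rfl
    · exact absurd rfl hij
  · rw [hb, hB]
    exact key _ _ _ _ h1 h2
  · rw [hb, hC]
    exact key _ _ _ _ h3 h4

/-- nd: a Leonard triple of dimension two with orders (3,3,3) -/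
theorem example_two : ∃ (A B C : Module.End ℂ (Fin 2 → ℂ))
    (r s t : Module.End ℂ (Fin 2 → ℂ) ≃ₗ[ℂ] Module.End ℂ (Fin 2 → ℂ)),
    LeonardTriple A B C ∧ IsAnti r A B ∧ IsAnti s A C ∧ IsAnti t B C ∧
    orderOf (r * s) = 3 ∧ orderOf (r * t) = 3 ∧ orderOf (s * t) = 3 := by
  obtain ⟨z, hz⟩ : ∃ z : ℂ, z ^ 2 + z + 1 = 0 := by
    obtain ⟨z, hz⟩ := IsAlgClosed.exists_root (Polynomial.cyclotomic 3 ℂ)
      (Polynomial.degree_cyclotomic_pos 3 ℂ (by norm_num)).ne'
    refine ⟨z, ?_⟩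
    rw [Polynomial.cyclotomic_three] at hz
    simpa [Polynomial.IsRoot] using hz
  have hz0 : z ≠ 0 := by
    rintro rfl
    norm_num at hz
  have hz1 : z ^ 2 ≠ 1 := by
    intro h
    have h1 : z = -2 := by linear_combination hz - h
    rw [h1] at hz
    norm_num at hz
  obtain ⟨r, hr⟩ := nd_anti (nd_MPr z) (nd_MQr z) (nd_r1 z hz) (nd_r2 z hz)
  obtain ⟨s, hs⟩ := nd_anti (nd_MPs z) (nd_MQs z) (nd_s1 z hz) (nd_s2 z hz)
  obtain ⟨t, ht⟩ := nd_anti (nd_MPt z) (nd_MQt z) (nd_t1 z hz) (nd_t2 z hz)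
  have ir := nd_isAnti (nd_r2 z hz) hr (nd_rA z hz) (nd_rB z hz)
  have is := nd_isAnti (nd_s2 z hz) hs (nd_sA z hz) (nd_sC z hz)
  have it := nd_isAnti (nd_t2 z hz) ht (nd_tB z hz) (nd_tC z hz)
  have hsB : s (Matrix.toLin' (nd_MB z)) ≠ Matrix.toLin' (nd_MB z) := by
    intro h
    rw [hs, nd_sB z hz] at h
    have h1 := congrFun (congrFun (Matrix.toLin'.injective h) 0) 1
    have h2 : (8/9)*z^2 = (8/9 : ℂ) := h1
    exact hz1 (by linear_combination (9/8) * h2)
  have htA : t (Matrix.toLin' (nd_MA z)) ≠ Matrix.toLin' (nd_MA z) := by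
    intro h
    rw [ht, nd_tA z hz] at h
    have h1 := congrFun (congrFun (Matrix.toLin'.injective h) 0) 1
    have h2 : (8/9)*z^2 = (0 : ℂ) := h1
    exact pow_ne_zero 2 hz0 (by linear_combination (9/8) * h2)
  have h9 : (1 : ℂ) ≠ 0 := one_ne_zero
  refine ⟨_, _, _, r, s, t, ⟨inferInstance, ?_, ?_, ?_⟩, ir, is, it, ?_, ?_, ?_⟩
  · exact nd_diagTri (Matrix.one_mul 1) (Matrix.one_mul 1)
      (by rw [Matrix.one_mul, Matrix.mul_one]; rfl) (by rw [Matrix.one_mul, Matrix.mul_one]; rfl)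
      (by rw [Matrix.one_mul, Matrix.mul_one]; rfl) (by norm_num) h9
      (mul_ne_zero (by norm_num) hz0) (mul_ne_zero h9 (pow_ne_zero 2 hz0))
  · exact nd_diagTri (nd_b1 z hz) (nd_b2 z hz) (nd_bB z hz) (nd_bA z hz) (nd_bC z hz)
      (by norm_num) (by norm_num) (mul_ne_zero (by norm_num) (pow_ne_zero 2 hz0))
      (mul_ne_zero (by norm_num) hz0)
  · exact nd_diagTri (nd_c1 z hz) (nd_c2 z hz) (nd_cC z hz) (nd_cA z hz) (nd_cB z hz)
      (by norm_num) (by norm_num) (mul_ne_zero (by norm_num) hz0)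
      (mul_ne_zero (by norm_num) (pow_ne_zero 2 hz0))
  · exact nd_order hr hs (nd_Grs z hz) (nd_Hrs z hz) (nd_Grs3 z hz) (nd_Hrs3 z hz)
      (mul_one _) ir.fixB hsB
  · exact nd_order hr ht (nd_Grt z hz) (nd_Hrt z hz) (nd_Grt3 z hz) (nd_Hrt3 z hz)
      (by linear_combination (-4/3) * hz) ir.fixA htA
  · exact nd_order hs ht (nd_Gst z hz) (nd_Hst z hz) (nd_Gst3 z hz) (nd_Hst3 z hz)
      (by linear_combination (-4/3) * hz) is.fixA htA

/-- the antiautomorphism `X ↦ D Xᵀ D⁻¹` of the matrices -/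
private noncomputable def ne_tw (d : Fin 3 → ℂ) (hd : ∀ i, d i ≠ 0) :
    Matrix (Fin 3) (Fin 3) ℂ ≃ₗ[ℂ] Matrix (Fin 3) (Fin 3) ℂ where
  toFun M := Matrix.of fun i j => d i * M j i * (d j)⁻¹
  invFun M := Matrix.of fun i j => d i * M j i * (d j)⁻¹
  left_inv M := by
    ext i j
    simp only [Matrix.of_apply]
    have := hd i
    have := hd j
    field_simp
  right_inv M := by
    ext i j
    simp only [Matrix.of_apply]
    have := hd i
    have := hd j
    field_simp
  map_add' M N := by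
    ext i j
    simp only [Matrix.of_apply, Matrix.add_apply]
    ring
  map_smul' c M := by
    ext i j
    simp only [Matrix.of_apply, Matrix.smul_apply, smul_eq_mul, RingHom.id_apply]
    ring

private theorem ne_tw_apply (d : Fin 3 → ℂ) (hd : ∀ i, d i ≠ 0) (M : Matrix (Fin 3) (Fin 3) ℂ)
    (i j : Fin 3) : ne_tw d hd M i j = d i * M j i * (d j)⁻¹ := rfl

private theorem ne_tw_mul (d : Fin 3 → ℂ) (hd : ∀ i, d i ≠ 0) (M N : Matrix (Fin 3) (Fin 3) ℂ) :
    ne_tw d hd (M * N) = ne_tw d hd N * ne_tw d hd M := by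
  ext i j
  simp only [ne_tw_apply, Matrix.mul_apply]
  rw [Finset.mul_sum, Finset.sum_mul]
  refine Finset.sum_congr rfl fun k _ => ?_
  have := hd k
  field_simp

/-- the antiautomorphism of the endomorphism algebra -/
private noncomputable def ne_E (d : Fin 3 → ℂ) (hd : ∀ i, d i ≠ 0) :
    Module.End ℂ (Fin 3 → ℂ) ≃ₗ[ℂ] Module.End ℂ (Fin 3 → ℂ) :=
  (LinearMap.toMatrix' : ((Fin 3 → ℂ) →ₗ[ℂ] (Fin 3 → ℂ)) ≃ₗ[ℂ] _).trans
    ((ne_tw d hd).trans Matrix.toLin')

private theorem ne_E_apply (d : Fin 3 → ℂ) (hd : ∀ i, d i ≠ 0) (X : Module.End ℂ (Fin 3 → ℂ)) :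
    ne_E d hd X = Matrix.toLin' (ne_tw d hd (LinearMap.toMatrix' X)) := rfl

private theorem ne_E_lin (d : Fin 3 → ℂ) (hd : ∀ i, d i ≠ 0) (M : Matrix (Fin 3) (Fin 3) ℂ) :
    ne_E d hd (Matrix.toLin' M) = Matrix.toLin' (ne_tw d hd M) := by
  rw [ne_E_apply, LinearMap.toMatrix'_toLin']

private theorem ne_E_anti (d : Fin 3 → ℂ) (hd : ∀ i, d i ≠ 0) (X Y : Module.End ℂ (Fin 3 → ℂ)) :
    ne_E d hd (X * Y) = ne_E d hd Y * ne_E d hd X := by
  rw [ne_E_apply, ne_E_apply, ne_E_apply, LinearMap.toMatrix'_mul, ne_tw_mul]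
  rw [Matrix.toLin'_mul]
  rfl

private theorem ne_isAnti (d : Fin 3 → ℂ) (hd : ∀ i, d i ≠ 0) (M N : Matrix (Fin 3) (Fin 3) ℂ)
    (hM : ∀ i j, d i * M j i * (d j)⁻¹ = M i j) (hN : ∀ i j, d i * N j i * (d j)⁻¹ = N i j) :
    IsAnti (ne_E d hd) (Matrix.toLin' M) (Matrix.toLin' N) where
  anti := ne_E_anti d hd
  fixA := by
    rw [ne_E_lin]
    congr 1
    ext i j
    exact hM i j
  fixB := by
    rw [ne_E_lin]
    congr 1
    ext i j
    exact hN i j

private theorem ne_pow (d e : Fin 3 → ℂ) (hd : ∀ i, d i ≠ 0) (he : ∀ i, e i ≠ 0) (n : ℕ)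
    (M : Matrix (Fin 3) (Fin 3) ℂ) (i j : Fin 3) :
    LinearMap.toMatrix' (((ne_E d hd * ne_E e he) ^ n) (Matrix.toLin' M)) i j =
      (d i / e i) ^ n * M i j * (e j / d j) ^ n := by
  induction n generalizing M with
  | zero => simp
  | succ n ih =>
    rw [pow_succ, LinearEquiv.mul_apply, LinearEquiv.mul_apply, ne_E_lin, ne_E_lin, ih]
    rw [ne_tw_apply, ne_tw_apply]
    have := hd i
    have := hd j
    have := he i
    have := he j
    rw [pow_succ, pow_succ]
    field_simp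

private theorem ne_order (d e : Fin 3 → ℂ) (hd : ∀ i, d i ≠ 0) (he : ∀ i, e i ≠ 0)
    (h3 : ∀ i, (d i / e i) ^ 3 = 1) (i j : Fin 3) (hij : d i / e i * (e j / d j) ≠ 1) :
    orderOf (ne_E d hd * ne_E e he) = 3 := by
  have : Fact (Nat.Prime 3) := ⟨Nat.prime_three⟩
  refine orderOf_eq_prime ?_ ?_
  · ext1 X
    apply LinearMap.toMatrix'.injective
    obtain ⟨M, rfl⟩ := (Matrix.toLin' : Matrix (Fin 3) (Fin 3) ℂ ≃ₗ[ℂ] _).surjective X
    ext i j
    rw [ne_pow]
    have h2 : (e j / d j) ^ 3 = 1 := by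
      have := h3 j
      have h4 : e j / d j = (d j / e j)⁻¹ := by rw [inv_div]
      rw [h4, inv_pow, this, inv_one]
    rw [h3 i, h2]
    simp
  · intro h
    apply hij
    have := ne_pow d e hd he 1 (Matrix.of fun _ _ => 1) i j
    rw [pow_one, h] at this
    simpa using this.symm

private theorem ne_tri (P Q : Matrix (Fin 3) (Fin 3) ℂ) (hPQ : P * Q = 1)
    (hQP : Q * P = 1) (A B C D T U : Matrix (Fin 3) (Fin 3) ℂ) (hA : A * P = P * D)
    (hB : B * P = P * T) (hC : C * P = P * U) (hD : D.IsDiag) (hT : IrredTridiag T)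
    (hU : IrredTridiag U) :
    DiagTri (Matrix.toLin' A) (Matrix.toLin' B) (Matrix.toLin' C) := by
  obtain ⟨b, hb⟩ : ∃ b : Module.Basis (Fin 3) ℂ (Fin 3 → ℂ), ∀ j i, b j i = P i j :=
    ⟨(Pi.basisFun ℂ (Fin 3)).map (Matrix.toLin'OfInv hQP hPQ), fun j i => by simp⟩
  have key : ∀ M N : Matrix (Fin 3) (Fin 3) ℂ, M * P = P * N →
      LinearMap.toMatrix b b (Matrix.toLin' M) = N := by
    intro M N h
    apply (Matrix.toLin b b).injective
    rw [Matrix.toLin_toMatrix]
    refine b.ext fun j => ?_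
    rw [Matrix.toLin_self]
    ext i
    have h1 := congrFun (congrFun h i) j
    rw [Matrix.mul_apply, Matrix.mul_apply] at h1
    simp only [Matrix.toLin'_apply, Matrix.mulVec, dotProduct, hb, Finset.sum_apply,
      Pi.smul_apply, smul_eq_mul]
    rw [h1]
    exact Finset.sum_congr rfl fun k _ => mul_comm _ _
  refine ⟨3, b, ?_, ?_, ?_⟩
  · rw [key A D hA]; exact hD
  · rw [key B T hB]; exact hT
  · rw [key C U hC]; exact hU

private theorem ne_diag (x y z : ℂ) : (!![x, 0, 0; 0, y, 0; 0, 0, z] : Matrix _ _ ℂ).IsDiag := by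
  intro i j hij
  fin_cases i <;> fin_cases j <;> simp_all

private theorem ne_irr (a b c d e f g : ℂ) (ha : a ≠ 0) (hb : b ≠ 0) (hc : c ≠ 0) (hd : d ≠ 0) :
    IrredTridiag (!![e, a, 0; b, f, c; 0, d, g] : Matrix _ _ ℂ) := by
  constructor
  · intro i j hij
    fin_cases i <;> fin_cases j <;> simp_all
  · intro i j hij
    fin_cases i <;> fin_cases j <;> simp_all

/-- ne: a Leonard triple of dimension three, not of Krawtchouk type, with orders (3,3,3) -/
theorem example_three : ∃ (A B C : Module.End ℂ (Fin 3 → ℂ))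
    (r s t : Module.End ℂ (Fin 3 → ℂ) ≃ₗ[ℂ] Module.End ℂ (Fin 3 → ℂ)),
    LeonardTriple A B C ∧ IsAnti r A B ∧ IsAnti s A C ∧ IsAnti t B C ∧
    orderOf (r * s) = 3 ∧ orderOf (r * t) = 3 ∧ orderOf (s * t) = 3 ∧
    A * B - B * A ∉ Submodule.span ℂ ({1, A, B, C} : Set (Module.End ℂ (Fin 3 → ℂ))) := by
  obtain ⟨w, hw⟩ : ∃ w : ℂ, IsPrimitiveRoot w 3 := ⟨_, Complex.isPrimitiveRoot_exp 3 (by norm_num)⟩
  have hw0 : w ≠ 0 := hw.ne_zero (by norm_num)
  have hw1 : w ≠ 1 := hw.ne_one (by norm_num)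
  have hw3 : w ^ 3 = 1 := hw.pow_eq_one
  have hw2 : w ^ 2 + w + 1 = 0 := by
    have : (w - 1) * (w ^ 2 + w + 1) = 0 := by linear_combination hw3
    rcases mul_eq_zero.1 this with h | h
    · exact absurd (sub_eq_zero.1 h) hw1
    · exact h
  have hwm : w ≠ -1 := by
    intro h
    rw [h] at hw2
    norm_num at hw2
  have hd1 : ∀ i, (![1, 1, 1] : Fin 3 → ℂ) i ≠ 0 := by
    intro i; fin_cases i <;> simp
  have hd2 : ∀ i, (![w ^ 2, 1, 1] : Fin 3 → ℂ) i ≠ 0 := by
    intro i; fin_cases i <;> simp [hw0]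
  have hd3 : ∀ i, (![1, w, 1] : Fin 3 → ℂ) i ≠ 0 := by
    intro i; fin_cases i <;> simp [hw0]
  refine ⟨Matrix.toLin' !![0, 0, 0; 0, 0, 1; 0, 1, 0], Matrix.toLin' !![0, 0, 1; 0, 0, 0; 1, 0, 0],
    Matrix.toLin' !![0, w ^ 2, 0; 1, 0, 0; 0, 0, 0], ne_E _ hd1, ne_E _ hd2, ne_E _ hd3,
    ⟨inferInstance, ?_, ?_, ?_⟩, ne_isAnti _ _ _ _ ?_ ?_, ne_isAnti _ _ _ _ ?_ ?_,
    ne_isAnti _ _ _ _ ?_ ?_, ?_, ?_, ?_, ?_⟩
  · -- A diagonal
    refine ne_tri !![0, 1, 0; 1, 0, 1; 1, 0, -1] !![0, 1/2, 1/2; 1, 0, 0; 0, 1/2, -1/2] ?_ ?_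
      _ _ _ !![1, 0, 0; 0, 0, 0; 0, 0, -1] !![0, 1/2, 0; 1, 0, -1; 0, -1/2, 0]
      !![0, 1/2, 0; w^2, 0, w^2; 0, 1/2, 0] ?_ ?_ ?_ (ne_diag _ _ _) (ne_irr _ _ _ _ _ _ _ ?_ ?_ ?_ ?_)
      (ne_irr _ _ _ _ _ _ _ ?_ ?_ ?_ ?_)
    all_goals first
      | (ext i j; fin_cases i <;> fin_cases j <;> simp [Matrix.mul_apply, Fin.sum_univ_three] <;> norm_num)
      | simp [hw0]
  · refine ne_tri !![1, 0, 1; 0, 1, 0; 1, 0, -1] !![1/2, 0, 1/2; 0, 1, 0; 1/2, 0, -1/2] ?_ ?_
      _ _ _ !![1, 0, 0; 0, 0, 0; 0, 0, -1] !![0, 1/2, 0; 1, 0, -1; 0, -1/2, 0]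
      !![0, w^2/2, 0; 1, 0, 1; 0, w^2/2, 0] ?_ ?_ ?_ (ne_diag _ _ _) (ne_irr _ _ _ _ _ _ _ ?_ ?_ ?_ ?_)
      (ne_irr _ _ _ _ _ _ _ ?_ ?_ ?_ ?_)
    all_goals first
      | (ext i j; fin_cases i <;> fin_cases j <;> simp [Matrix.mul_apply, Fin.sum_univ_three] <;> norm_num)
      | simp [hw0]
  · refine ne_tri !![w, 0, w; 1, 0, -1; 0, 1, 0] !![w^2/2, 1/2, 0; 0, 0, 1; w^2/2, -1/2, 0] ?_ ?_
      _ _ _ !![w, 0, 0; 0, 0, 0; 0, 0, -w] !![0, 1/2, 0; 1, 0, -1; 0, -1/2, 0]
      !![0, w^2/2, 0; w, 0, w; 0, w^2/2, 0] ?_ ?_ ?_ (ne_diag _ _ _) (ne_irr _ _ _ _ _ _ _ ?_ ?_ ?_ ?_)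
      (ne_irr _ _ _ _ _ _ _ ?_ ?_ ?_ ?_)
    all_goals first
      | (ext i j; fin_cases i <;> fin_cases j <;> simp [Matrix.mul_apply, Fin.sum_univ_three] <;>
          first | linear_combination (1/2) * hw3 | linear_combination (-1/2) * hw3 |
            linear_combination hw3 | linear_combination -hw3 | linear_combination (w/2) * hw3 | ring1)
      | simp [hw0]
  · intro i j; fin_cases i <;> fin_cases j <;> simp
  · intro i j; fin_cases i <;> fin_cases j <;> simp
  · intro i j; fin_cases i <;> fin_cases j <;> simp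
  · intro i j; fin_cases i <;> fin_cases j <;> simp [hw0]
  · intro i j; fin_cases i <;> fin_cases j <;> simp
  · have e1 : w⁻¹ = w ^ 2 := by
      rw [inv_eq_iff_eq_inv]
      exact eq_inv_of_mul_eq_one_left (by linear_combination hw3)
    have e2 : w * w ^ 2 = 1 := by linear_combination hw3
    intro i j; fin_cases i <;> fin_cases j <;> simp [e1, e2]
  · refine ne_order _ _ _ _ ?_ 0 1 ?_
    · have e1 : (w ^ 2) ^ 3 = 1 := by rw [← pow_mul, mul_comm, pow_mul, hw3, one_pow]
      intro i; fin_cases i <;> simp [e1]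
    · simp
      exact ⟨hw1, hwm⟩
  · refine ne_order _ _ _ _ ?_ 1 0 ?_
    · intro i; fin_cases i <;> simp [hw3]
    · simp
      exact hw1
  · refine ne_order _ _ _ _ ?_ 0 2 ?_
    · have e1 : (w ^ 2) ^ 3 = 1 := by rw [← pow_mul, mul_comm, pow_mul, hw3, one_pow]
      intro i; fin_cases i <;> simp [e1, hw3]
    · simp
      exact ⟨hw1, hwm⟩
  · intro hmem
    simp only [Submodule.mem_span_insert, Submodule.mem_span_singleton] at hmem
    obtain ⟨a, _, ⟨b, _, ⟨c, _, ⟨d, rfl⟩, rfl⟩, rfl⟩, h⟩ := hmem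
    have h2 := congrArg LinearMap.toMatrix' h
    have e1 := congrFun (congrFun h2 0) 1
    have e2 := congrFun (congrFun h2 1) 0
    simp [Matrix.vecHead, Matrix.vecTail] at e1 e2
    apply hw0
    rw [← e2] at e1
    linear_combination hw2 + e1

end Pool.Agent.Leo
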