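import Pool.Agent.Leo.Triple

/-!
# The consecutive ratios form a geometric progression
-/

namespace Pool.Agent.Leo

variable {K : Type*} [Field K] {V : Type*} [AddCommGroup V] [Module K V]

/-- `φ` acts on the matrix units of the basis `a` by quotients `u i / u j` whose consecutive
values are `ρ, ωρ, ω²ρ, …` -/
def GeoRatio {d : ℕ} (a : Module.Basis (Fin (d + 1)) K V)
    (φ : Module.End K V ≃ₗ[K] Module.End K V) (ω ρ : K) : Prop :=
  ∃ u : ℕ → K, (∀ i, i < d + 1 → u i ≠ 0) ∧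
    (∀ X (i j : Fin (d + 1)), mt a (φ X) i j = u i / u j * mt a X i j) ∧
    ∀ i, i < d → u i / u (i + 1) = ω ^ i * ρ

section
variable {d : ℕ} {a b c : Module.Basis (Fin (d + 1)) K V} {A B C : Module.End K V}
  {r s t : Module.End K V ≃ₗ[K] Module.End K V} {α β γ : K}

theorem GeoRatio.rho_ne {φ : Module.End K V ≃ₗ[K] Module.End K V} {ω ρ : K}
    (h : GeoRatio a φ ω ρ) (hd : 1 ≤ d) : ρ ≠ 0 := by
  obtain ⟨u, hu, hX, hr⟩ := h
  have h0 := hr 0 (by omega)
  rw [pow_zero, one_mul] at h0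
  rw [← h0]
  exact div_ne_zero (hu _ (by omega)) (hu _ (by omega))

theorem GeoRatio.omega_ne {φ : Module.End K V ≃ₗ[K] Module.End K V} {ω ρ : K}
    (h : GeoRatio a φ ω ρ) (hd : 2 ≤ d) : ω ≠ 0 := by
  obtain ⟨u, hu, hX, hr⟩ := h
  have h0 := hr 1 (by omega)
  rintro rfl
  rw [pow_one, zero_mul] at h0
  exact div_ne_zero (hu _ (by omega)) (hu _ (by omega)) h0

theorem GeoRatio.inv {φ : Module.End K V ≃ₗ[K] Module.End K V} {ω ρ : K}
    (h : GeoRatio a φ ω ρ) : GeoRatio a φ⁻¹ ω⁻¹ ρ⁻¹ := by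
  obtain ⟨u, hu, hX, hr⟩ := h
  refine ⟨fun i => (u i)⁻¹, fun i hi => inv_ne_zero (hu i hi), fun X i j => ?_, fun i hi => ?_⟩
  · have h1 := hX (φ⁻¹ X) i j
    have h2 : φ (φ⁻¹ X) = X := by
      change (φ * φ⁻¹) X = X
      rw [mul_inv_cancel]; rfl
    rw [h2] at h1
    rw [h1]
    have := hu i i.2
    have := hu j j.2
    field_simp
  · have h1 := hr i hi
    rw [inv_pow, ← mul_inv, ← h1, inv_div, inv_div_inv]

theorem GeoRatio.pow_eq_one {φ : Module.End K V ≃ₗ[K] Module.End K V} {ω ρ : K}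
    (h : GeoRatio a φ ω ρ) (hd : 2 ≤ d) (m : ℕ) : φ ^ m = 1 ↔ ω ^ m = 1 ∧ ρ ^ m = 1 := by
  have hρ := h.rho_ne (by omega)
  obtain ⟨u, hu, hX, hr⟩ := h
  have key : ∀ (m : ℕ) X (i j : Fin (d + 1)),
      mt a ((φ ^ m) X) i j = (u i / u j) ^ m * mt a X i j := by
    intro m
    induction m with
    | zero => intro X i j; simp
    | succ m ih =>
      intro X i j
      rw [pow_succ', LinearEquiv.mul_apply, hX, ih, pow_succ']
      ring
  constructor
  · intro h1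
    have h2 : ∀ i, i < d → (ω ^ i * ρ) ^ m = 1 := by
      intro i hi
      have h3 := key m ((LinearMap.toMatrix a a).symm
        (Matrix.single ⟨i, by omega⟩ ⟨i + 1, by omega⟩ 1)) ⟨i, by omega⟩ ⟨i + 1, by omega⟩
      rw [h1, LinearEquiv.coe_one, id, mt, LinearEquiv.apply_symm_apply,
        Matrix.single_apply_same, mul_one] at h3
      rw [← hr i hi]
      exact h3.symm
    have h0 := h2 0 (by omega)
    have h3 := h2 1 (by omega)
    rw [pow_zero, one_mul] at h0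
    rw [pow_one, mul_pow, h0, mul_one] at h3
    exact ⟨h3, h0⟩
  · rintro ⟨h1, h2⟩
    have h0 : ∀ k : ℕ, k < d + 1 → u k ^ m = u 0 ^ m := by
      intro k
      induction k with
      | zero => intro _; rfl
      | succ k ih =>
        intro hk
        have h3 := hr k (by omega)
        have h4 : (u k / u (k + 1)) ^ m = 1 := by
          rw [h3, mul_pow, h2, mul_one, ← pow_mul, mul_comm k m, pow_mul, h1, one_pow]
        rw [div_pow, div_eq_one_iff_eq (pow_ne_zero _ (hu _ (by omega)))] at h4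
        rw [← h4, ih (by omega)]
    ext1 X
    apply (LinearMap.toMatrix a a).injective
    ext i j
    change mt a ((φ ^ m) X) i j = mt a X i j
    have hi : u i ^ m = u 0 ^ m := h0 i i.2
    have hj : u j ^ m = u 0 ^ m := h0 j j.2
    rw [key, div_pow, hi, hj, div_self (pow_ne_zero _ (hu _ (by omega))), one_mul]

theorem GeoRatio.unique {φ : Module.End K V ≃ₗ[K] Module.End K V} {ω ρ ω' ρ' : K}
    (h : GeoRatio a φ ω ρ) (h' : GeoRatio a φ ω' ρ') (hd : 2 ≤ d) : ω = ω' := by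
  have hρ := h.rho_ne (by omega)
  obtain ⟨u, hu, hX, hr⟩ := h
  obtain ⟨u', hu', hX', hr'⟩ := h'
  have h2 : ∀ i, i < d → ω ^ i * ρ = ω' ^ i * ρ' := by
    intro i hi
    have e1 := hX ((LinearMap.toMatrix a a).symm
        (Matrix.single ⟨i, by omega⟩ ⟨i + 1, by omega⟩ 1)) ⟨i, by omega⟩ ⟨i + 1, by omega⟩
    have e2 := hX' ((LinearMap.toMatrix a a).symm
        (Matrix.single ⟨i, by omega⟩ ⟨i + 1, by omega⟩ 1)) ⟨i, by omega⟩ ⟨i + 1, by omega⟩
    rw [e1] at e2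
    rw [mt, LinearEquiv.apply_symm_apply, Matrix.single_apply_same, mul_one, mul_one] at e2
    rw [← hr i hi, ← hr' i hi]
    exact e2
  have h0 := h2 0 (by omega)
  have h1 := h2 1 (by omega)
  rw [pow_zero, pow_zero, one_mul, one_mul] at h0
  rw [pow_one, pow_one, h0] at h1
  exact mul_right_cancel₀ (h0 ▸ hρ) h1

/-- the ratios of `rs`: geometric progression with quotient `(p/m)²`, `p = g + γ/2`,
`m = g - γ/2` -/
theorem Setup.geoRatio (h : Setup a b c A B C r s t α β γ) (hd : 2 ≤ d) (hγ : γ ≠ 0)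
    {e f f' g : K} (hC : C = e • 1 + f • A + f' • B + g • (A * B + B * A)
      + (γ / 2) • (A * B - B * A)) :
    g + γ / 2 ≠ 0 ∧ g - γ / 2 ≠ 0 ∧
    (∃ ρ, GeoRatio a (r * s) (((g + γ / 2) / (g - γ / 2)) ^ 2) ρ ∧
      ∀ i, i < d → (((g + γ / 2) / (g - γ / 2)) ^ 2) ^ i * ρ ≠ 1) ∧
    (g ≠ 0 → ∀ j, 1 ≤ j → 2 * j ≤ d → (((g + γ / 2) / (g - γ / 2)) ^ 2) ^ j ≠ 1) := by
  have h20 := h.h2
  obtain ⟨u₀, hu₀, hX₀⟩ := ratio_exists h.lt h.hr h.hs
  obtain ⟨u, hu⟩ : ∃ u : ℕ → K, ∀ i (hi : i < d + 1), u i = u₀ ⟨i, hi⟩ :=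
    ⟨fun i => if hi : i < d + 1 then u₀ ⟨i, hi⟩ else 0, fun i hi => dif_pos hi⟩
  obtain ⟨θ, hθ⟩ : ∃ θ : ℕ → K, ∀ i (hi : i < d + 1), θ i = mt a A ⟨i, hi⟩ ⟨i, hi⟩ :=
    ⟨fun i => if hi : i < d + 1 then mt a A ⟨i, hi⟩ ⟨i, hi⟩ else 0, fun i hi => dif_pos hi⟩
  have hinj : ∀ i j, i < d + 1 → j < d + 1 → θ i = θ j → i = j := by
    intro i j hi hj hij
    rw [hθ i hi, hθ j hj] at hij
    have := h.lt.pAB.inj hij
    simpa using this
  obtain ⟨p, hp⟩ : ∃ p, p = g + γ / 2 := ⟨_, rfl⟩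
  obtain ⟨m, hm⟩ : ∃ m, m = g - γ / 2 := ⟨_, rfl⟩
  rw [← hp, ← hm]
  have hpm : p - m = γ := by rw [hp, hm]; field_simp; ring
  have hpm' : p + m = 2 * g := by rw [hp, hm]; ring
  obtain ⟨M, hM⟩ : ∃ M : ℕ → K, ∀ i, M i = f' + p * θ i + m * θ (i + 1) := ⟨_, fun _ => rfl⟩
  obtain ⟨N, hN⟩ : ∃ N : ℕ → K, ∀ i, N i = f' + m * θ i + p * θ (i + 1) := ⟨_, fun _ => rfl⟩
  have hu0 : ∀ i, i < d + 1 → u i ≠ 0 := fun i hi => by rw [hu i hi]; exact hu₀ _
  have hti : ∀ i, i < d → M i ≠ 0 ∧ N i ≠ 0 ∧ u i / u (i + 1) * M i = N i ∧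
      M i * N i = γ / β := by
    intro i hi
    have h1 := h.expr_entries hγ hu₀ hX₀ hC (i := ⟨i, by omega⟩) (j := ⟨i + 1, by omega⟩)
      (Or.inl rfl)
    rw [← hθ i, ← hθ (i + 1), ← hu i, ← hu (i + 1)] at h1
    have e1 : f' + g * (θ i + θ (i + 1)) + γ / 2 * (θ i - θ (i + 1)) = M i := by
      rw [hM, hp, hm]; ring
    have e2 : f' + g * (θ i + θ (i + 1)) - γ / 2 * (θ i - θ (i + 1)) = N i := by
      rw [hN, hp, hm]; ring
    rw [e1, e2] at h1
    refine ⟨h1.1, h1.2.1, h1.2.2.1, ?_⟩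
    rw [← h1.2.2.2, ← e1, ← e2]
    have : (4 : K) ≠ 0 := by
      have : (4 : K) = 2 * 2 := by norm_num
      rw [this]; exact mul_ne_zero h20 h20
    field_simp
    ring
  have hrec : ∀ i, i + 1 < d → p * N i + m * N (i + 1) = 0 := by
    intro i hi
    have h1 := (hti i (by omega)).2.2.2
    have h3 := (hti (i + 1) hi).2.2.2
    have h4 : (θ i - θ (i + 2)) * (p * N i + m * N (i + 1)) = 0 := by
      rw [hM, hN] at h1 h3
      rw [hN, hN]
      linear_combination h1 - h3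
    refine (mul_eq_zero.1 h4).resolve_left fun h5 => ?_
    have := hinj i (i + 2) (by omega) (by omega) (sub_eq_zero.1 h5)
    omega
  have h00 := hrec 0 (by omega)
  have hm0 : m ≠ 0 := by
    intro h0
    rw [h0, zero_mul, add_zero] at h00
    have := (mul_eq_zero.1 h00).resolve_right (hti 0 (by omega)).2.1
    exact hγ (by rw [← hpm, this, h0, sub_zero])
  have hp0 : p ≠ 0 := by
    intro h0
    rw [h0, zero_mul, zero_add] at h00
    exact hm0 ((mul_eq_zero.1 h00).resolve_right (hti 1 (by omega)).2.1)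
  obtain ⟨κ, hκ⟩ : ∃ κ, κ = - p / m := ⟨_, rfl⟩
  have hκm : κ * m = - p := by rw [hκ]; field_simp
  have hκ0 : κ ≠ 0 := by
    rintro rfl
    rw [zero_mul] at hκm
    exact hp0 (neg_eq_zero.1 hκm.symm)
  have hω : (p / m) ^ 2 = κ ^ 2 := by rw [hκ, neg_div, neg_sq]
  rw [hω]
  have hN1 : ∀ i, i + 1 < d → N (i + 1) = κ * N i := by
    intro i hi
    apply mul_left_cancel₀ hm0
    linear_combination hrec i hi - N i * hκm
  have hM1 : ∀ i, i + 1 < d → κ * M (i + 1) = M i := by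
    intro i hi
    have h1 := (hti i (by omega)).2.2.2
    have h3 := (hti (i + 1) hi).2.2.2
    rw [hN1 i hi] at h3
    apply mul_right_cancel₀ (hti i (by omega)).2.1
    linear_combination h3 - h1
  have hNi : ∀ i, i < d → N i = κ ^ i * N 0 := by
    intro i
    induction i with
    | zero => intro _; rw [pow_zero, one_mul]
    | succ i ih => intro hi; rw [hN1 i hi, ih (by omega), pow_succ']; ring
  have hMi : ∀ i, i < d → κ ^ i * M i = M 0 := by
    intro i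
    induction i with
    | zero => intro _; rw [pow_zero, one_mul]
    | succ i ih => intro hi; rw [← ih (by omega), ← hM1 i hi, pow_succ']; ring
  have hM0 := (hti 0 (by omega)).1
  have hq : ∀ i, i < d → u i / u (i + 1) = (κ ^ 2) ^ i * (u 0 / u 1) := by
    intro i hi
    have h1 := (hti i hi).2.2.1
    have h3 := (hti 0 (by omega)).2.2.1
    rw [zero_add] at h3
    apply mul_right_cancel₀ hM0
    calc u i / u (i + 1) * M 0 = κ ^ i * (u i / u (i + 1) * M i) := by rw [← hMi i hi]; ring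
      _ = κ ^ i * (κ ^ i * N 0) := by rw [h1, hNi i hi]
      _ = (κ ^ 2) ^ i * (u 0 / u 1 * M 0) := by rw [h3]; ring
      _ = _ := by ring
  refine ⟨hp0, hm0, ⟨u 0 / u 1, ⟨u, hu0, fun X i j => ?_, hq⟩, fun i hi h1 => ?_⟩, ?_⟩
  · rw [hX₀, hu i i.2, hu j j.2]
  · rw [← hq i hi] at h1
    have h3 := (hti i hi).2.2.1
    rw [h1, one_mul, hM, hN] at h3
    have h4 : γ * (θ i - θ (i + 1)) = 0 := by rw [← hpm]; linear_combination h3
    have h5 := (mul_eq_zero.1 h4).resolve_left hγ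
    have := hinj i (i + 1) (by omega) (by omega) (sub_eq_zero.1 h5)
    omega
  · intro hg j hj1 hj2 hj3
    have hcl : ∀ i, i ≤ d → κ ^ i * ((p ^ 2 - m ^ 2) * θ i + (p - m) * f') =
        p * M 0 - m * (κ ^ i) ^ 2 * N 0 := by
      intro i
      cases i with
      | zero =>
        intro _
        rw [hM, hN]; ring
      | succ i =>
        intro hi
        have h1 := hNi i (by omega)
        have h3 := hMi i (by omega)
        have h4 : (p ^ 2 - m ^ 2) * θ (i + 1) + (p - m) * f' = p * N i - m * M i := by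
          rw [hM, hN]; ring
        rw [h4, h1, ← h3, pow_succ]
        linear_combination (- κ ^ i * M i - κ ^ i * κ ^ i * κ * N 0 * (-1)) * hκm
    have h1 := hcl (2 * j) hj2
    have h3 := hcl 0 (by omega)
    rw [pow_mul, hj3] at h1
    rw [pow_zero] at h3
    have h4 : (p - m) * (p + m) * (θ (2 * j) - θ 0) = 0 := by linear_combination h1 - h3
    rw [hpm, hpm'] at h4
    have h5 := (mul_eq_zero.1 h4).resolve_left (mul_ne_zero hγ (mul_ne_zero h20 hg))
    have := hinj (2 * j) 0 (by omega) (by omega) (sub_eq_zero.1 h5)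
    omega

private theorem ratio_anti_inv {x y : Module.End K V ≃ₗ[K] Module.End K V} (hx : x * x = 1)
    (hy : y * y = 1) : (x * y)⁻¹ = y * x := by
  rw [inv_eq_iff_mul_eq_one, mul_assoc, ← mul_assoc y, hy, one_mul, hx]

theorem Setup.ratio_two (h : Setup a b c A B C r s t α β γ) (hd : 2 ≤ d) (hγ : γ ≠ 0) :
    ∃ ω ρ σ : K, GeoRatio a (r * s) ω ρ ∧ GeoRatio b (t * r) ω σ ∧
      (∀ i, i < d → ω ^ i * ρ ≠ 1 ∧ ω ^ i * σ ≠ 1) ∧
      (A * B - B * A ∉ Submodule.span K ({1, A, B, C} : Set (Module.End K V)) →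
        ∀ j, 1 ≤ j → 2 * j ≤ d → ω ^ j ≠ 1) := by
  obtain ⟨e, f, f', g, hC⟩ := h.expr
  obtain ⟨hp, hm, ⟨ρ, hρ, hρ1⟩, hg⟩ := h.geoRatio hd hγ hC
  have hC' : C = e • 1 + f' • B + f • A + g • (B * A + A * B)
      + (-γ / 2) • (B * A - A * B) := by
    conv_lhs => rw [hC]
    rw [neg_div, neg_smul, ← smul_neg, neg_sub, add_comm (B * A)]
    abel
  obtain ⟨hp', hm', ⟨σ, hσ, hσ1⟩, _⟩ := h.swap.geoRatio hd (neg_ne_zero.2 hγ) hC'
  have e1 : ((g + -γ / 2) / (g - -γ / 2)) ^ 2 = (((g + γ / 2) / (g - γ / 2)) ^ 2)⁻¹ := by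
    rw [neg_div, sub_neg_eq_add, ← sub_eq_add_neg, ← inv_pow, inv_div]
  rw [e1] at hσ hσ1
  refine ⟨((g + γ / 2) / (g - γ / 2)) ^ 2, ρ, σ⁻¹, hρ, ?_, fun i hi => ⟨hρ1 i hi, ?_⟩, ?_⟩
  · have := hσ.inv
    rw [inv_inv, ratio_anti_inv (h.lt.pAB.anti_sq h.hr) (h.lt.pBC.anti_sq h.ht)] at this
    exact this
  · intro h1
    apply hσ1 i hi
    have h3 : (((g + γ / 2) / (g - γ / 2)) ^ 2) ^ i ≠ 0 := fun h4 => by
      rw [h4, zero_mul] at h1; exact zero_ne_one h1
    have h4 : σ ≠ 0 := hσ.rho_ne (by omega)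
    rw [inv_pow]
    field_simp at h1 ⊢
    exact h1.symm
  · intro hns
    apply hg
    rintro rfl
    apply hns
    have e2 : A * B - B * A = (2 / γ) • (C - e • 1 - f • A - f' • B) := by
      conv_rhs => rw [hC]
      rw [zero_smul, add_zero]
      have : (2 / γ) * (γ / 2) = 1 := by
        have := h.h2
        field_simp
      calc A * B - B * A = ((2 / γ) * (γ / 2)) • (A * B - B * A) := by rw [this, one_smul]
        _ = (2 / γ) • ((γ / 2) • (A * B - B * A)) := by rw [mul_smul]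
        _ = _ := by congr 1; abel
    rw [e2]
    apply Submodule.smul_mem
    refine Submodule.sub_mem _ (Submodule.sub_mem _ (Submodule.sub_mem _ ?_ ?_) ?_) ?_
    · exact Submodule.subset_span (by simp)
    · exact Submodule.smul_mem _ _ (Submodule.subset_span (by simp))
    · exact Submodule.smul_mem _ _ (Submodule.subset_span (by simp))
    · exact Submodule.smul_mem _ _ (Submodule.subset_span (by simp))

/-- the three ratio sequences are geometric with a common quotient -/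
theorem Setup.ratio_common (h : Setup a b c A B C r s t α β γ) (hd : 2 ≤ d) (hγ : γ ≠ 0) :
    ∃ ω ρ σ τ : K, GeoRatio a (r * s) ω ρ ∧ GeoRatio b (t * r) ω σ ∧ GeoRatio c (s * t) ω τ ∧
      (∀ i, i < d → ω ^ i * ρ ≠ 1 ∧ ω ^ i * σ ≠ 1 ∧ ω ^ i * τ ≠ 1) ∧
      (A * B - B * A ∉ Submodule.span K ({1, A, B, C} : Set (Module.End K V)) →
        ∀ j, 1 ≤ j → 2 * j ≤ d → ω ^ j ≠ 1) := by
  obtain ⟨ω, ρ, σ, h1, h3, h4, h5⟩ := h.ratio_two hd hγ
  obtain ⟨hα, _⟩ := h.nondegenerate (by omega) hγ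
  obtain ⟨ω', ρ', σ', h1', h3', h4', -⟩ := h.rot.ratio_two hd hα
  have e1 : ω = ω' := h3.unique h1' hd
  subst e1
  exact ⟨ω, ρ, σ, σ', h1, h3, h3', fun i hi => ⟨(h4 i hi).1, (h4 i hi).2, (h4' i hi).2⟩, h5⟩

end

/-- a finite order is at least the dimension -/
theorem dim_le_of_pow {d m : ℕ} {ω ρ : K} (hm : 0 < m) (h1 : ∀ j, 1 ≤ j → 2 * j ≤ d → ω ^ j ≠ 1)
    (h2 : ∀ i, i < d → ω ^ i * ρ ≠ 1) (h3 : ω ^ m = 1) (h4 : ρ ^ m = 1) : d + 1 ≤ m := by
  have hfin : IsOfFinOrder ω := isOfFinOrder_iff_pow_eq_one.2 ⟨m, hm, h3⟩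
  have he := hfin.orderOf_pos
  have hdv := orderOf_dvd_of_pow_eq_one h3
  have h5 : d < 2 * orderOf ω := by
    by_contra h6
    exact h1 _ he (by omega) (pow_orderOf_eq_one ω)
  rcases le_or_gt (2 * orderOf ω) m with h6 | h6
  · omega
  · obtain ⟨k, hk⟩ := hdv
    have hk1 : k = 1 := by
      have h7 : 0 < k := by
        rcases Nat.eq_zero_or_pos k with h0 | h0
        · rw [h0, mul_zero] at hk; omega
        · exact h0
      have h8 : k < 2 := by
        by_contra h8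
        have : orderOf ω * 2 ≤ orderOf ω * k := Nat.mul_le_mul_left _ (by omega)
        omega
      omega
    rw [hk1, mul_one] at hk
    have hp : IsPrimitiveRoot ω m := hk ▸ IsPrimitiveRoot.orderOf ω
    haveI : NeZero m := ⟨hm.ne'⟩
    obtain ⟨i, hi, hi2⟩ := hp.eq_pow_of_pow_eq_one h4
    rcases Nat.eq_zero_or_pos i with h0 | h0
    · subst h0
      rcases Nat.eq_zero_or_pos d with h7 | h7
      · omega
      · exact absurd (by rw [← hi2]; simp) (h2 0 h7)
    · by_contra h7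
      apply h2 (m - i) (by omega)
      rw [← hi2, ← pow_add, Nat.sub_add_cancel hi.le, h3]

end Pool.Agent.Leo
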