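import Pool.Agent.Leo.Defs

/-!
# Products of three reflections given by a Cartan matrix
-/

namespace Pool.Agent.Leo

section
variable {R : Type*} [CommRing R]

/-- ra: a reflection is an involution -/
theorem sigM_sq {N : Matrix (Fin 3) (Fin 3) R} (hN : ∀ i, N i i = 2) (i : Fin 3) :
    sigM N i * sigM N i = 1 := by
  have h := hN i
  ext p q
  fin_cases i <;> fin_cases p <;> fin_cases q <;>
    (simp [sigM, Matrix.mul_apply, Fin.sum_univ_three, Matrix.of_apply] at h ⊢ <;>
      (try rw [h]) <;> (try ring))

/-- rb: rescaling of the basis conjugates the reflections -/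
theorem wordM_rescale {N N' : Matrix (Fin 3) (Fin 3) R} {x : Fin 3 → Rˣ}
    (h : ∀ i j, N' i j * (x j : R) = (x i : R) * N i j) (ω : List (Fin 3)) :
    wordM N ω = 1 ↔ wordM N' ω = 1 := by
  have hkey : wordM N' ω * Matrix.diagonal (fun i => (x i : R)) =
      Matrix.diagonal (fun i => (x i : R)) * wordM N ω := by
    induction ω with
    | nil => simp [wordM]
    | cons a ω ih =>
      have h1 : sigM N' a * Matrix.diagonal (fun i => (x i : R)) =
          Matrix.diagonal (fun i => (x i : R)) * sigM N a := by
        ext p q
        rw [Matrix.mul_diagonal, Matrix.diagonal_mul]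
        have hh := h a q
        simp only [sigM, Matrix.of_apply]
        by_cases hpq : p = q <;> by_cases hpa : p = a
        · subst hpq; subst hpa; simp only [if_true]; linear_combination -hh
        · subst hpq; simp only [hpa, if_true, if_false]; ring
        · subst hpa; simp only [hpq, if_true, if_false]; linear_combination -hh
        · simp only [hpq, hpa, if_false]; ring
      have e1 : wordM N' (a :: ω) = sigM N' a * wordM N' ω := by simp [wordM]
      have e2 : wordM N (a :: ω) = sigM N a * wordM N ω := by simp [wordM]
      rw [e1, e2, mul_assoc, ih, ← mul_assoc, h1, mul_assoc]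
  have hD : Matrix.diagonal (fun i => (x i : R)) * Matrix.diagonal (fun i => ((x i)⁻¹ : Rˣ).val) = 1 := by
    rw [Matrix.diagonal_mul_diagonal, ← Matrix.diagonal_one]
    congr 1
    funext i
    simp
  have hD' : Matrix.diagonal (fun i => ((x i)⁻¹ : Rˣ).val) * Matrix.diagonal (fun i => (x i : R)) = 1 := by
    rw [Matrix.diagonal_mul_diagonal, ← Matrix.diagonal_one]
    congr 1
    funext i
    simp
  constructor
  · intro h1
    rw [h1, mul_one] at hkey
    calc wordM N' ω = wordM N' ω * (Matrix.diagonal (fun i => (x i : R)) *
            Matrix.diagonal (fun i => ((x i)⁻¹ : Rˣ).val)) := by rw [hD, mul_one]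
      _ = 1 := by rw [← mul_assoc, hkey, hD]
  · intro h1
    rw [h1, one_mul] at hkey
    calc wordM N ω = (Matrix.diagonal (fun i => ((x i)⁻¹ : Rˣ).val) *
            Matrix.diagonal (fun i => (x i : R))) * wordM N ω := by rw [hD', one_mul]
      _ = 1 := by rw [mul_assoc, ← hkey, hD']

/-- rc: ring homomorphisms -/
theorem wordM_map {S : Type*} [CommRing S] (φ : R →+* S) (N : Matrix (Fin 3) (Fin 3) R)
    (ω : List (Fin 3)) : (wordM N ω).map φ = wordM (N.map φ) ω := by
  have hs : ∀ a, (sigM N a).map φ = sigM (N.map φ) a := by
    intro a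
    ext p q
    simp only [sigM, Matrix.map_apply, Matrix.of_apply, map_sub]
    congr 1
    · split <;> simp
    · split <;> simp
  induction ω with
  | nil =>
    ext p q
    simp only [wordM, List.map_nil, List.prod_nil, Matrix.map_apply, Matrix.one_apply]
    split <;> simp
  | cons a ω ih =>
    have e1 : wordM N (a :: ω) = sigM N a * wordM N ω := by simp [wordM]
    have e2 : wordM (N.map φ) (a :: ω) = sigM (N.map φ) a * wordM (N.map φ) ω := by simp [wordM]
    rw [e1, e2, Matrix.map_mul, hs, ih]

end

end Pool.Agent.Leo
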