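import Pool.Agent.Leo.Basic

/-!
# Maps that are tridiagonal in both eigenbases of a Leonard pair
-/

namespace Pool.Agent.Leo

variable {K : Type*} [Field K] {V : Type*} [AddCommGroup V] [Module K V]

section
variable {d : ℕ} {a b : Module.Basis (Fin (d + 1)) K V} {A B : Module.End K V}
  {r : Module.End K V ≃ₗ[K] Module.End K V}

private theorem sa_entry (h : LP a b A B) (hr : IsAnti r A B) {Y : Module.End K V}
    (hY : r Y = -Y) :
    ∃ D : Fin (d + 1) → K, (∀ i, D i ≠ 0) ∧ ∀ i j, D i * mt a Y j i / D j = -mt a Y i j := by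
  obtain ⟨D, hD, hs⟩ := anti_shape h.dA h.inj hr.anti hr.fixA
  refine ⟨D, hD, fun i j => ?_⟩
  rw [← hs Y i j, hY]
  simp [mt]

private theorem sa_diag (h2 : (2 : K) ≠ 0) (h : LP a b A B) (hr : IsAnti r A B)
    {Y : Module.End K V} (hY : r Y = -Y) (i : Fin (d + 1)) : mt a Y i i = 0 := by
  obtain ⟨D, hD, hs⟩ := sa_entry h hr hY
  have h1 := hs i i
  rw [mul_comm, mul_div_assoc, div_self (hD i), mul_one] at h1
  have h3 : 2 * mt a Y i i = 0 := by linear_combination h1
  exact (mul_eq_zero.mp h3).resolve_left h2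

private theorem sa_swap (h : LP a b A B) (hr : IsAnti r A B)
    {Y : Module.End K V} (hY : r Y = -Y) {i j : Fin (d + 1)} (hij : mt a Y i j = 0) :
    mt a Y j i = 0 := by
  obtain ⟨D, hD, hs⟩ := sa_entry h hr hY
  have h1 := hs j i
  rw [hij, mul_zero, zero_div] at h1
  exact neg_eq_zero.mp h1.symm

private theorem sa_row (a : Module.Basis (Fin (d + 1)) K V) (Y : Module.End K V) (x : V)
    (i : Fin (d + 1)) :
    ∑ j, mt a Y i j * a.repr x j = a.repr (Y x) i := by
  have h1 := congrFun (LinearMap.toMatrix_mulVec_repr a a Y x) i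
  simpa [Matrix.mulVec, dotProduct] using h1

/-- sa: an antisymmetric map with zero on the first eigenvector of `B`, tridiagonal in the
eigenbasis of `A`, is zero -/
theorem antisym_zero (h2 : (2 : K) ≠ 0) (h : LP a b A B) (hr : IsAnti r A B)
    {Y : Module.End K V} (hY : r Y = -Y) (ta : Tri a Y) (hv : Y (b 0) = 0) : Y = 0 := by
  have key : ∀ n : ℕ, ∀ i j : Fin (d + 1), (i : ℕ) = n → (j : ℕ) = n + 1 → mt a Y i j = 0 := by
    intro n
    induction n using Nat.strong_induction_on with
    | _ n ih =>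
      intro i j hi hj
      have hrow := sa_row a Y (b 0) i
      have hz : a.repr (Y (b 0)) i = 0 := by
        rw [hv]
        simp
      rw [hz, Finset.sum_eq_single j] at hrow
      · exact (mul_eq_zero.mp hrow).resolve_right (h.coord_ne j)
      · intro l _ hl
        by_cases h1 : (i : ℕ) + 1 < l ∨ (l : ℕ) + 1 < i
        · rw [ta i l h1, zero_mul]
        · have h3 : (l : ℕ) = i ∨ (l : ℕ) + 1 = i := by
            have h4 : (l : ℕ) ≠ j := fun e => hl (Fin.ext e)
            omega
          rcases h3 with e | e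
          · have e' : l = i := Fin.ext e
            rw [e', sa_diag h2 h hr hY, zero_mul]
          · have h5 := ih l (by omega) l i rfl (by omega)
            rw [sa_swap h hr hY h5, zero_mul]
      · intro h6
        exact absurd (Finset.mem_univ _) h6
  have all : mt a Y = 0 := by
    ext i j
    rw [Matrix.zero_apply]
    by_cases h1 : (i : ℕ) + 1 < j ∨ (j : ℕ) + 1 < i
    · exact ta i j h1
    · have h3 : (i : ℕ) = j ∨ (j : ℕ) = i + 1 ∨ (i : ℕ) = j + 1 := by omega
      rcases h3 with e | e | e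
      · have e' : i = j := Fin.ext e
        rw [e', sa_diag h2 h hr hY]
      · exact key i i j rfl e
      · exact sa_swap h hr hY (key j j i rfl e)
  exact (LinearMap.toMatrix a a).map_eq_zero_iff.mp all

private theorem sb_mul_right {n : ℕ} {b : Module.Basis (Fin n) K V} {X B : Module.End K V}
    (dB : (mt b B).IsDiag) (i j : Fin n) : mt b (X * B) i j = mt b X i j * mt b B j j := by
  rw [mt, LinearMap.toMatrix_mul, Matrix.mul_apply, Finset.sum_eq_single j]
  · intro l _ hl
    have e : mt b B l j = 0 := dB hl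
    change mt b X i l * mt b B l j = 0
    rw [e, mul_zero]
  · intro h6
    exact absurd (Finset.mem_univ _) h6

private theorem sb_mul_left {n : ℕ} {b : Module.Basis (Fin n) K V} {X B : Module.End K V}
    (dB : (mt b B).IsDiag) (i j : Fin n) : mt b (B * X) i j = mt b B i i * mt b X i j := by
  rw [mt, LinearMap.toMatrix_mul, Matrix.mul_apply, Finset.sum_eq_single i]
  · intro l _ hl
    have e : mt b B i l = 0 := dB hl.symm
    change mt b B i l * mt b X l j = 0
    rw [e, zero_mul]
  · intro h6
    exact absurd (Finset.mem_univ _) h6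

/-- sb: antisymmetric maps, tridiagonal in both eigenbases -/
theorem antisym_span (h2 : (2 : K) ≠ 0) (h : LP a b A B) (hr : IsAnti r A B)
    {X : Module.End K V} (hX : r X = -X) (ta : Tri a X) (tb : Tri b X) :
    ∃ κ : K, X = κ • (A * B - B * A) := by
  have hx0 : mt b X 0 0 = 0 := sa_diag h2 h.symm hr.symm hX 0
  have hone : ∃ κ : K, ∀ i : Fin (d + 1), mt b X i 0 =
      κ * (mt b A i 0 * mt b B 0 0 - mt b B i i * mt b A i 0) := by
    rcases Nat.eq_zero_or_pos d with hd | hd
    · subst hd
      refine ⟨0, fun i => ?_⟩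
      have e : i = 0 := Fin.ext (by omega)
      rw [e, hx0, zero_mul]
    · let i1 : Fin (d + 1) := ⟨1, by omega⟩
      have hA : mt b A i1 0 ≠ 0 := h.tA.2 i1 0 (Or.inr (by simp [i1]))
      have hB : mt b B 0 0 - mt b B i1 i1 ≠ 0 := by
        intro e
        have e' : (0 : Fin (d + 1)) = i1 := h.symm.inj (sub_eq_zero.mp e)
        have e2 := congrArg Fin.val e'
        simp [i1] at e2
      refine ⟨mt b X i1 0 / ((mt b B 0 0 - mt b B i1 i1) * mt b A i1 0), fun i => ?_⟩
      by_cases h0 : i = 0
      · rw [h0, hx0]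
        ring
      · by_cases h1 : i = i1
        · rw [h1]
          field_simp
        · have h3 : (i : ℕ) ≠ 0 := fun e => h0 (Fin.ext e)
          have h4 : (i : ℕ) ≠ 1 := fun e => h1 (Fin.ext e)
          have h5 : (i : ℕ) + 1 < (0 : Fin (d + 1)) ∨ ((0 : Fin (d + 1)) : ℕ) + 1 < i := by
            right
            rw [Fin.val_zero]
            omega
          rw [tb i 0 h5, h.tA.1 i 0 h5]
          ring
  obtain ⟨κ, hκ⟩ := hone
  refine ⟨κ, sub_eq_zero.mp ?_⟩
  have hAB : r (A * B - B * A) = -(A * B - B * A) := by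
    rw [map_sub, hr.anti, hr.anti, hr.fixA, hr.fixB]
    abel
  refine antisym_zero h2 h hr ?_ ?_ ?_
  · rw [map_sub, map_smul, hX, hAB, smul_neg]
    abel
  · intro i j hij
    have h6 : mt a (X - κ • (A * B - B * A)) i j = mt a X i j -
        κ * (mt a (A * B) i j - mt a (B * A) i j) := by
      simp [mt]
    rw [h6, ta i j hij, sb_mul_left h.dA, sb_mul_right h.dA, h.tB.1 i j hij]
    ring
  · apply b.repr.injective
    ext i
    have h7 : b.repr ((X - κ • (A * B - B * A)) (b 0)) i =
        mt b (X - κ • (A * B - B * A)) i 0 := by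
      rw [mt, LinearMap.toMatrix_apply]
    have h6 : mt b (X - κ • (A * B - B * A)) i 0 = mt b X i 0 -
        κ * (mt b (A * B) i 0 - mt b (B * A) i 0) := by
      simp [mt]
    rw [h7, h6, sb_mul_left h.dB, sb_mul_right h.dB, hκ i, map_zero, Finsupp.zero_apply]
    ring

private theorem sc_one {r : Module.End K V ≃ₗ[K] Module.End K V}
    (hr : ∀ X Y, r (X * Y) = r Y * r X) : r 1 = 1 := by
  have h1 : ∀ Y, Y * r 1 = Y := by
    intro Y
    have h2 := hr 1 (r.symm Y)
    rw [one_mul, LinearEquiv.apply_symm_apply] at h2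
    exact h2.symm
  have h2 := h1 1
  rwa [one_mul] at h2

private theorem sc_symm_swap (h : LP a b A B) (hr : IsAnti r A B) {Y : Module.End K V}
    (hY : r Y = Y) {i j : Fin (d + 1)} (hij : mt a Y i j = 0) : mt a Y j i = 0 := by
  obtain ⟨D, hD, hs⟩ := anti_shape h.dA h.inj hr.anti hr.fixA
  have h1 := hs Y j i
  rw [hY, hij, mul_zero, zero_div] at h1
  exact h1

/-- the main step: a symmetric tridiagonal map with zeros in the first two columns -/
private theorem sc_aux (h2 : (2 : K) ≠ 0) (h : LP a b A B) (hr : IsAnti r A B)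
    {W : Module.End K V} (hW : r W = W) (ta : Tri a W)
    (h0 : ∀ i, mt b W i 0 = 0)
    (h1 : ∀ i j : Fin (d + 1), (j : ℕ) = 1 → i ≠ 0 → mt b W i j = 0) : W = 0 := by
  have w0 : W (b 0) = 0 := by
    apply b.repr.injective
    ext i
    have h3 : b.repr (W (b 0)) i = mt b W i 0 := by rw [mt, LinearMap.toMatrix_apply]
    rw [h3, h0 i, map_zero, Finsupp.zero_apply]
  have w1 : ∀ j : Fin (d + 1), (j : ℕ) = 1 → W (b j) = 0 := by
    intro j hj
    apply b.repr.injective
    ext i
    have h3 : b.repr (W (b j)) i = mt b W i j := by rw [mt, LinearMap.toMatrix_apply]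
    rw [h3, map_zero, Finsupp.zero_apply]
    by_cases hi : i = 0
    · rw [hi]
      exact sc_symm_swap h.symm hr.symm hW (h0 j)
    · exact h1 i j hj hi
  have hWA : W (A (b 0)) = 0 := by
    have h3 : A (b 0) = ∑ i, mt b A i 0 • b i := by
      conv_lhs => rw [← b.sum_repr (A (b 0))]
      refine Finset.sum_congr rfl fun i _ => ?_
      rw [mt, LinearMap.toMatrix_apply]
    rw [h3, map_sum]
    refine Finset.sum_eq_zero fun i _ => ?_
    rw [map_smul]
    by_cases hi : (i : ℕ) = 0
    · have e : i = 0 := Fin.ext hi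
      rw [e, w0, smul_zero]
    · by_cases hi1 : (i : ℕ) = 1
      · rw [w1 i hi1, smul_zero]
      · rw [h.tA.1 i 0 (by right; rw [Fin.val_zero]; omega), zero_smul]
  have hZ : W * A - A * W = 0 := by
    refine antisym_zero h2 h hr ?_ ?_ ?_
    · rw [map_sub, hr.anti, hr.anti, hr.fixA, hW]
      abel
    · intro i j hij
      have h6 : mt a (W * A - A * W) i j = mt a (W * A) i j - mt a (A * W) i j := by
        simp [mt]
      rw [h6, sb_mul_left h.dA, sb_mul_right h.dA, ta i j hij]
      ring
    · rw [LinearMap.sub_apply, Module.End.mul_apply, Module.End.mul_apply, hWA, w0, map_zero,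
        sub_zero]
  have hdiag : ∀ i j, i ≠ j → mt a W i j = 0 := by
    intro i j hij
    have h6 : mt a (W * A - A * W) i j = mt a (W * A) i j - mt a (A * W) i j := by
      simp [mt]
    rw [hZ, sb_mul_left h.dA, sb_mul_right h.dA] at h6
    have h7 : mt a W i j * (mt a A j j - mt a A i i) = 0 := by
      have h8 : mt a (0 : Module.End K V) i j = 0 := by simp [mt]
      rw [h8] at h6
      linear_combination -h6
    refine (mul_eq_zero.mp h7).resolve_right fun e => hij ?_
    exact (h.inj (sub_eq_zero.mp e)).symm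
  have all : mt a W = 0 := by
    ext i j
    rw [Matrix.zero_apply]
    by_cases hij : i = j
    · rw [← hij]
      have hrow := sa_row a W (b 0) i
      have hz : a.repr (W (b 0)) i = 0 := by
        rw [w0]
        simp
      rw [hz, Finset.sum_eq_single i] at hrow
      · exact (mul_eq_zero.mp hrow).resolve_right (h.coord_ne i)
      · intro l _ hl
        rw [hdiag i l hl.symm, zero_mul]
      · intro h6
        exact absurd (Finset.mem_univ _) h6
    · exact hdiag i j hij
  exact (LinearMap.toMatrix a a).map_eq_zero_iff.mp all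

private theorem sc_two (h2 : (2 : K) ≠ 0) (h : LP a b A B) (hr : IsAnti r A B)
    {X : Module.End K V} (hX : r X = X) (hd2 : d = 1) :
    ∃ e f f' : K, X = e • 1 + f • A + f' • B := by
  let i1 : Fin (d + 1) := ⟨1, by omega⟩
  have hA : mt b A i1 0 ≠ 0 := h.tA.2 i1 0 (Or.inr (by simp [i1]))
  have n01 : (0 : Fin (d + 1)) ≠ i1 := by
    intro e
    have e2 := congrArg Fin.val e
    simp [i1] at e2
  have hB : mt b B i1 i1 - mt b B 0 0 ≠ 0 := by
    intro e
    exact n01 (h.symm.inj (sub_eq_zero.mp e)).symm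
  obtain ⟨f, hf⟩ : ∃ f : K, mt b X i1 0 = f * mt b A i1 0 := ⟨_, (div_mul_cancel₀ _ hA).symm⟩
  obtain ⟨f', hf3⟩ : ∃ f' : K, (mt b X i1 i1 - f * mt b A i1 i1) -
      (mt b X 0 0 - f * mt b A 0 0) = f' * (mt b B i1 i1 - mt b B 0 0) :=
    ⟨_, (div_mul_cancel₀ _ hB).symm⟩
  obtain ⟨e, he⟩ : ∃ e : K, mt b X 0 0 - f * mt b A 0 0 - f' * mt b B 0 0 = e := ⟨_, rfl⟩
  refine ⟨e, f, f', sub_eq_zero.mp ?_⟩
  have hent : ∀ (c : Module.Basis (Fin (d + 1)) K V) (i j : Fin (d + 1)),
      mt c (X - (e • 1 + f • A + f' • B)) i j =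
      mt c X i j - (e * (1 : Matrix (Fin (d + 1)) (Fin (d + 1)) K) i j + f * mt c A i j +
        f' * mt c B i j) := by
    intro c i j
    simp [mt]
  have r1 : r 1 = 1 := sc_one hr.anti
  have hall : ∀ i : Fin (d + 1), i = 0 ∨ i = i1 := by
    intro i
    have h3 : (i : ℕ) = 0 ∨ (i : ℕ) = 1 := by omega
    rcases h3 with h3 | h3
    · exact Or.inl (Fin.ext h3)
    · exact Or.inr (Fin.ext h3)
  refine sc_aux h2 h hr ?_ ?_ ?_ ?_
  · simp only [map_sub, map_add, map_smul, hX, r1, hr.fixA, hr.fixB]
  · intro i j hij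
    have hi := i.2
    have hj := j.2
    omega
  · intro i
    rw [hent]
    rcases hall i with e1 | e1
    · rw [e1, Matrix.one_apply_eq]
      linear_combination he
    · rw [e1, Matrix.one_apply_ne n01.symm, h.dB n01.symm]
      linear_combination hf
  · intro i j hj hi
    have ej : j = i1 := Fin.ext hj
    have ei : i = i1 := (hall i).resolve_left hi
    rw [hent, ej, ei, Matrix.one_apply_eq]
    linear_combination hf3 + he

/-- sc: symmetric maps, tridiagonal in both eigenbases -/
theorem sym_span (h2 : (2 : K) ≠ 0) (h : LP a b A B) (hr : IsAnti r A B)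
    {X : Module.End K V} (hX : r X = X) (ta : Tri a X) (tb : Tri b X) :
    ∃ e f f' g : K, X = e • 1 + f • A + f' • B + g • (A * B + B * A) := by
  rcases Nat.eq_zero_or_pos d with hd | hd
  · subst hd
    refine ⟨mt b X 0 0, 0, 0, 0, sub_eq_zero.mp ?_⟩
    refine sc_aux h2 h hr ?_ ?_ ?_ ?_
    · have r1 : r 1 = 1 := sc_one hr.anti
      simp [r1, hX]
    · intro i j hij
      omega
    · intro i
      have e : i = 0 := Fin.ext (by omega)
      rw [e]
      simp [mt]
    · intro i j hj
      omega
  · by_cases hd2 : d = 1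
    · obtain ⟨e, f, f', he⟩ := sc_two h2 h hr hX hd2
      exact ⟨e, f, f', 0, by rw [zero_smul, add_zero]; exact he⟩
    · let i1 : Fin (d + 1) := ⟨1, by omega⟩
      let i2 : Fin (d + 1) := ⟨2, by omega⟩
      have hA : mt b A i1 0 ≠ 0 := h.tA.2 i1 0 (Or.inr (by simp [i1]))
      have hA2 : mt b A i2 i1 ≠ 0 := h.tA.2 i2 i1 (Or.inr (by simp [i1, i2]))
      have n01 : (0 : Fin (d + 1)) ≠ i1 := by
        intro e
        have e2 := congrArg Fin.val e
        simp [i1] at e2
      have n02 : (0 : Fin (d + 1)) ≠ i2 := by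
        intro e
        have e2 := congrArg Fin.val e
        simp [i2] at e2
      have n12 : i1 ≠ i2 := by
        intro e
        have e2 := congrArg Fin.val e
        simp [i1, i2] at e2
      have hB : mt b B i1 i1 - mt b B 0 0 ≠ 0 := by
        intro e
        exact n01 (h.symm.inj (sub_eq_zero.mp e)).symm
      have hB2 : mt b B i2 i2 - mt b B 0 0 ≠ 0 := by
        intro e
        exact n02 (h.symm.inj (sub_eq_zero.mp e)).symm
      obtain ⟨g, hg⟩ : ∃ g : K, mt b X i2 i1 / mt b A i2 i1 - mt b X i1 0 / mt b A i1 0 =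
          g * (mt b B i2 i2 - mt b B 0 0) := ⟨_, (div_mul_cancel₀ _ hB2).symm⟩
      obtain ⟨f, hf⟩ : ∃ f : K, mt b X i1 0 / mt b A i1 0 =
          f + g * (mt b B 0 0 + mt b B i1 i1) := ⟨_, (sub_add_cancel _ _).symm⟩
      have hf2 : mt b X i2 i1 / mt b A i2 i1 = f + g * (mt b B i1 i1 + mt b B i2 i2) := by
        linear_combination hg + hf
      have hf' : mt b X i1 0 = mt b A i1 0 * (f + g * (mt b B 0 0 + mt b B i1 i1)) := by
        rw [← hf]
        field_simp
      have hf2' : mt b X i2 i1 = mt b A i2 i1 * (f + g * (mt b B i1 i1 + mt b B i2 i2)) := by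
        rw [← hf2]
        field_simp
      obtain ⟨f', hf3⟩ : ∃ f' : K, (mt b X i1 i1 - f * mt b A i1 i1 -
          2 * g * mt b B i1 i1 * mt b A i1 i1) - (mt b X 0 0 - f * mt b A 0 0 -
          2 * g * mt b B 0 0 * mt b A 0 0) = f' * (mt b B i1 i1 - mt b B 0 0) :=
        ⟨_, (div_mul_cancel₀ _ hB).symm⟩
      obtain ⟨e, he⟩ : ∃ e : K, mt b X 0 0 - f * mt b A 0 0 -
          2 * g * mt b B 0 0 * mt b A 0 0 - f' * mt b B 0 0 = e := ⟨_, rfl⟩
      refine ⟨e, f, f', g, sub_eq_zero.mp ?_⟩
      have hent : ∀ (c : Module.Basis (Fin (d + 1)) K V) (i j : Fin (d + 1)),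
          mt c (X - (e • 1 + f • A + f' • B + g • (A * B + B * A))) i j =
          mt c X i j - (e * (1 : Matrix (Fin (d + 1)) (Fin (d + 1)) K) i j + f * mt c A i j +
            f' * mt c B i j + g * (mt c (A * B) i j + mt c (B * A) i j)) := by
        intro c i j
        simp [mt]
        ring
      have r1 : r 1 = 1 := sc_one hr.anti
      refine sc_aux h2 h hr ?_ ?_ ?_ ?_
      · simp only [map_sub, map_add, map_smul, hX, r1, hr.fixA, hr.fixB, hr.anti]
        rw [add_comm (B * A) (A * B)]
      · intro i j hij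
        have hne : i ≠ j := by
          intro e
          rw [e] at hij
          omega
        rw [hent, ta i j hij, Matrix.one_apply_ne hne, h.dA hne, h.tB.1 i j hij,
          sb_mul_left h.dA, sb_mul_right h.dA, h.tB.1 i j hij]
        ring
      · intro i
        rw [hent, sb_mul_left h.dB, sb_mul_right h.dB]
        by_cases h0 : i = 0
        · rw [h0, Matrix.one_apply_eq]
          linear_combination he
        · have hne : i ≠ 0 := h0
          rw [Matrix.one_apply_ne hne, h.dB hne]
          by_cases h1 : i = i1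
          · rw [h1]
            linear_combination hf'
          · have h3 : (i : ℕ) ≠ 0 := fun e => h0 (Fin.ext e)
            have h4 : (i : ℕ) ≠ 1 := fun e => h1 (Fin.ext e)
            have h5 : (i : ℕ) + 1 < (0 : Fin (d + 1)) ∨ ((0 : Fin (d + 1)) : ℕ) + 1 < i := by
              right
              rw [Fin.val_zero]
              omega
            rw [tb i 0 h5, h.tA.1 i 0 h5]
            ring
      · intro i j hj hi
        have ej : j = i1 := Fin.ext hj
        rw [hent, sb_mul_left h.dB, sb_mul_right h.dB, ej]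
        by_cases h1 : i = i1
        · rw [h1, Matrix.one_apply_eq]
          linear_combination hf3 + he
        · rw [Matrix.one_apply_ne h1, h.dB h1]
          by_cases h6 : i = i2
          · rw [h6]
            linear_combination hf2'
          · have h3 : (i : ℕ) ≠ 0 := fun e => hi (Fin.ext e)
            have h4 : (i : ℕ) ≠ 1 := fun e => h1 (Fin.ext e)
            have h7 : (i : ℕ) ≠ 2 := fun e => h6 (Fin.ext e)
            have h5 : (i : ℕ) + 1 < (i1 : Fin (d + 1)) ∨ ((i1 : Fin (d + 1)) : ℕ) + 1 < i := by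
              right
              simp only [i1]
              omega
            rw [tb i i1 h5, h.tA.1 i i1 h5]
            ring

end

/-- sd: the case of dimension two -/
theorem sym_span_two {a b : Module.Basis (Fin (1 + 1)) K V} {A B : Module.End K V}
    {r : Module.End K V ≃ₗ[K] Module.End K V} (h2 : (2 : K) ≠ 0) (h : LP a b A B)
    (hr : IsAnti r A B) {X : Module.End K V} (hX : r X = X) :
    ∃ e f f' : K, X = e • 1 + f • A + f' • B := by
  exact sc_two h2 h hr hX rfl

section
variable {d : ℕ} {a b : Module.Basis (Fin (d + 1)) K V} {A B : Module.End K V}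

/-- se: `1, A, B, AB - BA` are linearly independent in dimension at least two -/
theorem LP.indep4 (h : LP a b A B) (hd : 1 ≤ d) (h2 : (2 : K) ≠ 0) {x y z w : K}
    (hz : x • (1 : Module.End K V) + y • A + z • B + w • (A * B - B * A) = 0) :
    x = 0 ∧ y = 0 ∧ z = 0 ∧ w = 0 := by
  let i1 : Fin (d + 1) := ⟨1, by omega⟩
  have n01 : (0 : Fin (d + 1)) ≠ i1 := by
    intro e
    have e2 := congrArg Fin.val e
    simp [i1] at e2
  have hent : ∀ i j : Fin (d + 1), x * (1 : Matrix (Fin (d + 1)) (Fin (d + 1)) K) i j +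
      y * mt a A i j + z * mt a B i j + w * (mt a (A * B) i j - mt a (B * A) i j) = 0 := by
    intro i j
    have h1 := congrFun (congrFun (congrArg (mt a) hz) i) j
    simpa [mt] using h1
  have hθ : mt a A 0 0 - mt a A i1 i1 ≠ 0 := fun e => n01 (h.inj (sub_eq_zero.mp e))
  have b01 : mt a B 0 i1 ≠ 0 := h.tB.2 0 i1 (Or.inl (by simp [i1]))
  have b10 : mt a B i1 0 ≠ 0 := h.tB.2 i1 0 (Or.inr (by simp [i1]))
  have e01 := hent 0 i1
  have e10 := hent i1 0
  rw [sb_mul_left h.dA, sb_mul_right h.dA, Matrix.one_apply_ne n01, h.dA n01] at e01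
  rw [sb_mul_left h.dA, sb_mul_right h.dA, Matrix.one_apply_ne n01.symm, h.dA n01.symm] at e10
  have f01 : z + w * (mt a A 0 0 - mt a A i1 i1) = 0 := by
    have hq : mt a B 0 i1 * (z + w * (mt a A 0 0 - mt a A i1 i1)) = 0 := by
      linear_combination e01
    exact (mul_eq_zero.mp hq).resolve_left b01
  have f10 : z - w * (mt a A 0 0 - mt a A i1 i1) = 0 := by
    have hq : mt a B i1 0 * (z - w * (mt a A 0 0 - mt a A i1 i1)) = 0 := by
      linear_combination e10
    exact (mul_eq_zero.mp hq).resolve_left b10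
  have hz0 : z = 0 := by
    have hq : (2 : K) * (z) = 0 := by
      linear_combination f01 + f10
    exact (mul_eq_zero.mp hq).resolve_left h2
  have hw0 : w = 0 := by
    have hq : (w) * (mt a A 0 0 - mt a A i1 i1) = 0 := by
      rw [hz0] at f01
      linear_combination f01
    exact (mul_eq_zero.mp hq).resolve_right hθ
  have e00 := hent 0 0
  have e11 := hent i1 i1
  rw [hz0, hw0, Matrix.one_apply_eq] at e00 e11
  have hy0 : y = 0 := by
    have hq : (y) * (mt a A 0 0 - mt a A i1 i1) = 0 := by
      linear_combination e00 - e11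
    exact (mul_eq_zero.mp hq).resolve_right hθ
  refine ⟨?_, hy0, hz0, hw0⟩
  rw [hy0] at e00
  linear_combination e00

/-- sf: `1, A, B, AB - BA, AB + BA` are linearly independent in dimension at least three -/
theorem LP.indep5 (h : LP a b A B) (hd : 2 ≤ d) (h2 : (2 : K) ≠ 0) {x y z w g : K}
    (hz : x • (1 : Module.End K V) + y • A + z • B + w • (A * B - B * A)
      + g • (A * B + B * A) = 0) :
    x = 0 ∧ y = 0 ∧ z = 0 ∧ w = 0 ∧ g = 0 := by
  let i1 : Fin (d + 1) := ⟨1, by omega⟩
  let i2 : Fin (d + 1) := ⟨2, by omega⟩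
  have n01 : (0 : Fin (d + 1)) ≠ i1 := by
    intro e
    have e2 := congrArg Fin.val e
    simp [i1] at e2
  have n02 : (0 : Fin (d + 1)) ≠ i2 := by
    intro e
    have e2 := congrArg Fin.val e
    simp [i2] at e2
  have n12 : i1 ≠ i2 := by
    intro e
    have e2 := congrArg Fin.val e
    simp [i1, i2] at e2
  have hent : ∀ i j : Fin (d + 1), x * (1 : Matrix (Fin (d + 1)) (Fin (d + 1)) K) i j +
      y * mt a A i j + z * mt a B i j + w * (mt a (A * B) i j - mt a (B * A) i j) +
      g * (mt a (A * B) i j + mt a (B * A) i j) = 0 := by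
    intro i j
    have h1 := congrFun (congrFun (congrArg (mt a) hz) i) j
    simp [mt] at h1 ⊢
    linear_combination h1
  have hθ : mt a A 0 0 - mt a A i1 i1 ≠ 0 := fun e => n01 (h.inj (sub_eq_zero.mp e))
  have hθ2 : mt a A i2 i2 - mt a A 0 0 ≠ 0 := fun e => n02 (h.inj (sub_eq_zero.mp e)).symm
  have b01 : mt a B 0 i1 ≠ 0 := h.tB.2 0 i1 (Or.inl (by simp [i1]))
  have b10 : mt a B i1 0 ≠ 0 := h.tB.2 i1 0 (Or.inr (by simp [i1]))
  have b12 : mt a B i1 i2 ≠ 0 := h.tB.2 i1 i2 (Or.inl (by simp [i1, i2]))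
  have e01 := hent 0 i1
  have e10 := hent i1 0
  have e12 := hent i1 i2
  rw [sb_mul_left h.dA, sb_mul_right h.dA, Matrix.one_apply_ne n01, h.dA n01] at e01
  rw [sb_mul_left h.dA, sb_mul_right h.dA, Matrix.one_apply_ne n01.symm, h.dA n01.symm] at e10
  rw [sb_mul_left h.dA, sb_mul_right h.dA, Matrix.one_apply_ne n12, h.dA n12] at e12
  have f01 : z + w * (mt a A 0 0 - mt a A i1 i1) + g * (mt a A 0 0 + mt a A i1 i1) = 0 := by
    have hq : mt a B 0 i1 * (z + w * (mt a A 0 0 - mt a A i1 i1) + g * (mt a A 0 0 + mt a A i1 i1)) = 0 := by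
      linear_combination e01
    exact (mul_eq_zero.mp hq).resolve_left b01
  have f10 : z - w * (mt a A 0 0 - mt a A i1 i1) + g * (mt a A 0 0 + mt a A i1 i1) = 0 := by
    have hq : mt a B i1 0 * (z - w * (mt a A 0 0 - mt a A i1 i1) + g * (mt a A 0 0 + mt a A i1 i1)) = 0 := by
      linear_combination e10
    exact (mul_eq_zero.mp hq).resolve_left b10
  have f12 : z + w * (mt a A i1 i1 - mt a A i2 i2) + g * (mt a A i1 i1 + mt a A i2 i2) = 0 := by
    have hq : mt a B i1 i2 * (z + w * (mt a A i1 i1 - mt a A i2 i2) + g * (mt a A i1 i1 + mt a A i2 i2)) = 0 := by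
      linear_combination e12
    exact (mul_eq_zero.mp hq).resolve_left b12
  have hw0 : w = 0 := by
    have h3 : w * (mt a A 0 0 - mt a A i1 i1) = 0 := by
      have hq : (2 : K) * (w * (mt a A 0 0 - mt a A i1 i1)) = 0 := by
        linear_combination f01 - f10
      exact (mul_eq_zero.mp hq).resolve_left h2
    exact (mul_eq_zero.mp h3).resolve_right hθ
  have hg0 : g = 0 := by
    have hq : (g) * (mt a A i2 i2 - mt a A 0 0) = 0 := by
      rw [hw0] at f12 f01
      linear_combination f12 - f01
    exact (mul_eq_zero.mp hq).resolve_right hθ2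
  have hz0 : z = 0 := by
    rw [hw0, hg0] at f01
    linear_combination f01
  have e00 := hent 0 0
  have e11 := hent i1 i1
  rw [hz0, hw0, hg0, Matrix.one_apply_eq] at e00 e11
  have hy0 : y = 0 := by
    have hq : (y) * (mt a A 0 0 - mt a A i1 i1) = 0 := by
      linear_combination e00 - e11
    exact (mul_eq_zero.mp hq).resolve_right hθ
  refine ⟨?_, hy0, hz0, hw0, hg0⟩
  rw [hy0] at e00
  linear_combination e00

end

end Pool.Agent.Leo
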