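import Pool.Agent.Leo.Final
import Pool.Agent.Leo.Ratio

/-!
# The structure theorem in characteristic not two and not dividing the dimension
-/

namespace Pool.Agent.Leo

variable {K : Type*} [Field K] {V : Type*} [AddCommGroup V] [Module K V]
  {A B C : Module.End K V} {r s t : Module.End K V ≃ₗ[K] Module.End K V}

private theorem struct_flip {G : Type*} [Group G] {x y : G} (hx : x * x = 1) (hy : y * y = 1)
    (m : ℕ) : (x * y) ^ m = 1 ↔ (y * x) ^ m = 1 := by
  have key : ∀ x y : G, (x * y) ^ m = 1 → (y * x) ^ m = 1 := by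
    intro x y hxy
    have e : y * x = y * (x * y) * y⁻¹ := by group
    rw [e, conj_pow, hxy, mul_one, mul_inv_cancel]
  exact ⟨key x y, key y x⟩

/-- the structure theorem -/
theorem structure_general (h2 : (2 : K) ≠ 0) (hdim : ((Module.finrank K V : ℕ) : K) ≠ 0)
    (h : LeonardTriple A B C) (hr : IsAnti r A B)
    (hs : IsAnti s A C) (ht : IsAnti t B C) (hd : 2 ≤ Module.finrank K V) :
    (r = s ∧ s = t ∧ r * r = 1 ∧ r ≠ 1) ∨
    (r ≠ s ∧ r ≠ t ∧ s ≠ t ∧ ∃ α β γ : K, α ≠ 0 ∧ β ≠ 0 ∧ γ ≠ 0 ∧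
      C - r C = γ • (A * B - B * A) ∧ A - t A = α • (B * C - C * B) ∧
      B - s B = β • (C * A - A * C) ∧
      OrderRule A B C (r * s) (β * γ) ∧ OrderRule B A C (r * t) (α * γ) ∧
      OrderRule C A B (s * t) (α * β) ∧
      ((A * B - B * A ∈ Submodule.span K ({1, A, B, C} : Set (Module.End K V)) ∧
        ∃ f f' g g' k k' : K, KData A B C r s t f f' g g' k k' ∧
          ∀ w : List (Fin 3), wordG r s t w = 1 ↔ wordM (cartM f f' g g' k k') w = 1) ∨
      (A * B - B * A ∉ Submodule.span K ({1, A, B, C} : Set (Module.End K V)) ∧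
        3 ≤ Module.finrank K V ∧
        ∃ ω ρ σ τ : K,
          (∀ j, 1 ≤ j → 2 * j < Module.finrank K V → ω ^ j ≠ 1) ∧
          (∀ i, i + 1 < Module.finrank K V →
            ω ^ i * ρ ≠ 1 ∧ ω ^ i * σ ≠ 1 ∧ ω ^ i * τ ≠ 1) ∧
          (∀ m : ℕ, ((r * s) ^ m = 1 ↔ ω ^ m = 1 ∧ ρ ^ m = 1) ∧
            ((r * t) ^ m = 1 ↔ ω ^ m = 1 ∧ σ ^ m = 1) ∧
            ((s * t) ^ m = 1 ↔ ω ^ m = 1 ∧ τ ^ m = 1)) ∧
          ∀ m : ℕ, 0 < m → ((r * s) ^ m = 1 ∨ (r * t) ^ m = 1 ∨ (s * t) ^ m = 1) →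
            Module.finrank K V ≤ m))) := by
  obtain ⟨d, a, b, c, α, β, γ, hS⟩ := exists_setup h2 h hr hs ht
  have hfr : Module.finrank K V = d + 1 := by
    rw [Module.finrank_eq_card_basis a, Fintype.card_fin]
  have hd1 : 1 ≤ d := by omega
  rw [hfr] at hdim ⊢
  by_cases hγ : γ = 0
  · left
    obtain ⟨h3, h4⟩ := hS.degenerate hd1 hγ
    refine ⟨h3, h4, hS.lt.pAB.anti_sq hr, ?_⟩
    rintro rfl
    have h5 := hr.anti A B
    simp only [LinearEquiv.coe_one, id_eq] at h5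
    have h6 := hS.lt.pAB.indep4 hd1 h2 (x := 0) (y := 0) (z := 0) (w := 1) (by
      rw [h5]; simp)
    exact one_ne_zero h6.2.2.2
  · right
    obtain ⟨hα, hβ, h3, h4, h5⟩ := hS.nondegenerate hd1 hγ
    refine ⟨h3, h4, h5, α, β, γ, hα, hβ, hγ, hS.eC, hS.eA, hS.eB, hS.orderRule, ?_,
      hS.rot.rot.orderRule, ?_⟩
    · have := hS.swap.orderRule
      rw [neg_mul_neg] at this
      exact this
    by_cases hsp : A * B - B * A ∈ Submodule.span K ({1, A, B, C} : Set (Module.End K V))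
    · left
      refine ⟨hsp, ?_⟩
      obtain ⟨e, f, f', hC⟩ := zl_kraw hS hd1 hsp
      obtain ⟨g, g', k, k', hkd, _, _, _⟩ := hS.kdata' hdim hd1 hγ hC
      exact ⟨f, f', g, g', k, k', hkd, fun ω =>
        ⟨hS.word_trivial hd1 hγ hkd, hS.word_trivial'' hdim hd1 hγ hkd⟩⟩
    · right
      have hd2 : 2 ≤ d := by
        by_contra hlt
        have hd2 : d = 1 := by omega
        subst hd2
        obtain ⟨e, f, f', hC⟩ := hS.expr_two
        apply hsp
        have hP : A * B - B * A = (2 / γ) • C + (-(2 / γ * e)) • (1 : Module.End K V)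
            + (-(2 / γ * f)) • A + (-(2 / γ * f')) • B := by
          conv_rhs => rw [hC]
          match_scalars <;> field_simp <;> ring
        rw [hP]
        exact Submodule.add_mem _ (Submodule.add_mem _ (Submodule.add_mem _
          (Submodule.smul_mem _ _ (Submodule.subset_span (by simp)))
          (Submodule.smul_mem _ _ (Submodule.subset_span (by simp))))
          (Submodule.smul_mem _ _ (Submodule.subset_span (by simp))))
          (Submodule.smul_mem _ _ (Submodule.subset_span (by simp)))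
      obtain ⟨ω, ρ, σ, τ, g1, g3, g4, g5, g6⟩ := hS.ratio_common hd2 hγ
      have g6' := g6 hsp
      have p1 := g1.pow_eq_one hd2
      have p2 : ∀ m, (r * t) ^ m = 1 ↔ ω ^ m = 1 ∧ σ ^ m = 1 := fun m =>
        (struct_flip (hS.lt.pAB.anti_sq hr) (hS.lt.pBC.anti_sq ht) m).trans
          (g3.pow_eq_one hd2 m)
      have p3 := g4.pow_eq_one hd2
      refine ⟨hsp, by omega, ω, ρ, σ, τ, fun j hj1 hj2 => g6' j hj1 (by omega),
        fun i hi => g5 i (by omega), fun m => ⟨p1 m, p2 m, p3 m⟩, ?_⟩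
      rintro m hm (hh | hh | hh)
      · obtain ⟨q1, q2⟩ := (p1 m).1 hh
        exact dim_le_of_pow hm g6' (fun i hi => (g5 i hi).1) q1 q2
      · obtain ⟨q1, q2⟩ := (p2 m).1 hh
        exact dim_le_of_pow hm g6' (fun i hi => (g5 i hi).2.1) q1 q2
      · obtain ⟨q1, q2⟩ := (p3 m).1 hh
        exact dim_le_of_pow hm g6' (fun i hi => (g5 i hi).2.2) q1 q2

end Pool.Agent.Leo
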