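import Pool.Agent.Leo.Words
import Pool.Agent.Leo.Tits

/-!
# The orders (3, 3, 3)
-/

namespace Pool.Agent.Leo

variable {K : Type*} [Field K] {V : Type*} [AddCommGroup V] [Module K V]

private theorem xa_int : wordM (!![2, -1, 1; -1, 2, -1; 1, -1, 2] : Matrix (Fin 3) (Fin 3) ℤ)
    [0, 1, 0, 2, 0, 1, 0, 2] = 1 := by
  decide

/-- xa: the Krawtchouk case -/
theorem cart_333 [CharZero K] {f f' g g' k k' : K} (h1 : 4 * (f' * g) = 1)
    (h2 : 4 * (f * k') = 1) (h3 : 4 * (g' * k) = 1) (cyc : f * g * k = f' * g' * k')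
    (det : 1 - f' * g - g' * k - k' * f - 2 * (f * g * k) ≠ 0) :
    wordM (cartM f f' g g' k k') [0, 1, 0, 2, 0, 1, 0, 2] = 1 := by
  have hg : g ≠ 0 := by rintro rfl; simp at h1
  have hk : k ≠ 0 := by rintro rfl; simp at h3
  have hτ2 : (8 * (f * g * k) - 1) * (8 * (f * g * k) + 1) = 0 := by
    have : (8 * (f * g * k)) ^ 2 = (4 * (f' * g)) * (4 * (f * k')) * (4 * (g' * k)) := by
      rw [sq]
      nth_rewrite 2 [cyc]
      ring
    rw [h1, h2, h3] at this
    linear_combination this
  have hτ : 8 * (f * g * k) = -1 := by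
    rcases mul_eq_zero.mp hτ2 with h | h
    · exfalso
      apply det
      linear_combination (-1/4 : K) * h1 - (1/4 : K) * h2 - (1/4 : K) * h3 - (1/4 : K) * h
    · linear_combination h
  have hmap : (!![2, -1, 1; -1, 2, -1; 1, -1, 2] : Matrix (Fin 3) (Fin 3) ℤ).map
      (Int.castRingHom K) = !![2, -1, 1; -1, 2, -1; 1, -1, 2] := by
    ext i j
    fin_cases i <;> fin_cases j <;> simp

  have key : wordM (!![2, -1, 1; -1, 2, -1; 1, -1, 2] : Matrix (Fin 3) (Fin 3) K)
      [0, 1, 0, 2, 0, 1, 0, 2] = 1 := by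
    rw [← hmap, ← wordM_map, xa_int]
    simp
  let x : Fin 3 → Kˣ := ![Units.mk0 (4 * g * k) (by simp [hg, hk]),
    Units.mk0 (2 * k) (by simp [hk]), 1]
  refine (wordM_rescale (N := cartM f f' g g' k k')
    (N' := !![2, -1, 1; -1, 2, -1; 1, -1, 2]) (x := x) ?_ _).mpr key


  intro i j
  fin_cases i <;> fin_cases j <;> simp [x, cartM]
  · ring
  · linear_combination (-2 * k) * h1
  · linear_combination hτ
  · ring
  · ring
  · linear_combination (-1 : K) * h3
  · linear_combination (-4 * g * k : K) * h2 + (2 * k') * hτ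

private theorem xb_int1 : wordM (!![2, -1, -1; -1, 2, -1; -1, -1, 2] : Matrix (Fin 3) (Fin 3) ℤ)
    [0, 1, 0, 2, 0, 1, 0, 2] ≠ 1 := by
  decide

private theorem xb_int2 : wordM (!![2, -1, -1; -1, 2, -1; -1, -1, 2] : Matrix (Fin 3) (Fin 3) ℤ)
    [0, 2, 1, 0, 2, 1] ≠ 1 := by
  decide

/-- xb: two words that are not trivial in the affine Coxeter group -/
theorem affine_words (M : CoxeterMatrix (Fin 3)) (h01 : M 0 1 = 3) (h02 : M 0 2 = 3)
    (h12 : M 1 2 = 3) :
    M.toCoxeterSystem.wordProd [0, 1, 0, 2, 0, 1, 0, 2] ≠ 1 ∧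
    M.toCoxeterSystem.wordProd [0, 2, 1, 0, 2, 1] ≠ 1 := by
  set N : Matrix (Fin 3) (Fin 3) ℤ := !![2, -1, -1; -1, 2, -1; -1, -1, 2] with hN
  have h10 : M 1 0 = 3 := by rw [M.symmetric]; exact h01
  have h20 : M 2 0 = 3 := by rw [M.symmetric]; exact h02
  have h21 : M 2 1 = 3 := by rw [M.symmetric]; exact h12
  have hc : -2 * Real.cos (Real.pi / 3) = -1 := by rw [Real.cos_pi_div_three]; norm_num
  have hG : Geo M (N.map (Int.castRingHom ℝ)) := by
    refine ⟨?_, ?_, ?_, ?_⟩
    · intro i; fin_cases i <;> simp [hN]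
    · intro i j; fin_cases i <;> fin_cases j <;> simp [hN]
    · intro i j hij _
      have : M i j = 3 := by
        fin_cases i <;> fin_cases j <;> simp_all
      rw [this]
      push_cast
      rw [hc]
      fin_cases i <;> fin_cases j <;> simp_all
    · intro i j hij h0
      exfalso
      fin_cases i <;> fin_cases j <;> simp_all
  have key : ∀ ω : List (Fin 3), wordM N ω ≠ 1 → M.toCoxeterSystem.wordProd ω ≠ 1 := by
    intro ω hω h
    apply hω
    have h1 : wordM (N.map (Int.castRingHom ℝ)) ω = wordM (N.map (Int.castRingHom ℝ)) [] :=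
      hG.wordM_congr (by rw [h, CoxeterSystem.wordProd_nil])
    rw [← wordM_map, ← wordM_map] at h1
    have h2 : Function.Injective (fun A : Matrix (Fin 3) (Fin 3) ℤ =>
        A.map (Int.castRingHom ℝ)) := by
      intro A B hAB
      ext i j
      have := congrFun (congrFun hAB i) j
      simpa using this
    have h3 := h2 h1
    rw [h3]
    rfl
  exact ⟨key _ xb_int1, key _ xb_int2⟩

/-- projection to a basis vector -/
noncomputable def prj {n : ℕ} (a : Module.Basis (Fin n) K V) (i : Fin n) : Module.End K V :=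
  (a.coord i).smulRight (a i)

private theorem xc_prj {n : ℕ} (a : Module.Basis (Fin n) K V) (i : Fin n) (v : V) :
    prj a i v = a.coord i v • a i := rfl

private theorem xc_det (a : Module.Basis (Fin (2 + 1)) K V) (x : K) :
    LinearMap.det (1 + (x - 1) • prj a 1) = x := by
  rw [← LinearMap.det_toMatrix a, Matrix.det_fin_three]
  simp [LinearMap.toMatrix_apply, xc_prj]

/-- coordinates are compatible with a diagonal map -/
private theorem xc_diag {n : ℕ} {b : Module.Basis (Fin n) K V} {B : Module.End K V}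
    (hB : (LinearMap.toMatrix b b B).IsDiag) (i : Fin n) (v : V) :
    b.coord i (B v) = LinearMap.toMatrix b b B i i * b.coord i v := by
  have h1 : b.coord i (B v) = (LinearMap.toMatrix b b B).mulVec (b.repr v) i := by
    rw [LinearMap.toMatrix_mulVec_repr]; rfl
  rw [h1, Matrix.mulVec, dotProduct, Finset.sum_eq_single i]
  · rfl
  · intro j _ hj
    rw [hB (Ne.symm hj), zero_mul]
  · intro h; exact absurd (Finset.mem_univ _) h

private theorem xc_eig {n : ℕ} {b : Module.Basis (Fin n) K V} {B : Module.End K V}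
    (hB : (LinearMap.toMatrix b b B).IsDiag) (i : Fin n) :
    B (b i) = LinearMap.toMatrix b b B i i • b i := by
  apply b.repr.injective
  ext j
  have h1 : b.repr (B (b i)) j = LinearMap.toMatrix b b B j i := by
    rw [LinearMap.toMatrix_apply]
  rw [h1, map_smul, Finsupp.smul_apply, b.repr_self, smul_eq_mul]
  by_cases hj : i = j
  · subst hj; simp
  · rw [hB (fun e => hj e.symm), Finsupp.single_apply, if_neg hj, mul_zero]

/-- a common kernel vector -/
private theorem xc_ker (a c : Module.Basis (Fin (2 + 1)) K V) :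
    ∃ w : V, w ≠ 0 ∧ a.coord 1 w = 0 ∧ c.coord 1 w = 0 := by
  have : Module.Finite K V := Module.Finite.of_basis a
  have hd : Module.finrank K V = 3 := by
    rw [Module.finrank_eq_card_basis a]; simp
  have h := LinearMap.ker_ne_bot_of_finrank_lt (f := (a.coord 1).prod (c.coord 1)) (by
    rw [hd, Module.finrank_prod, Module.finrank_self]; norm_num)
  obtain ⟨w, hw, hw0⟩ := Submodule.exists_mem_ne_zero_of_ne_bot h
  have hw' : (a.coord 1 w, c.coord 1 w) = (0 : K × K) := hw
  rw [Prod.mk_eq_zero] at hw'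
  exact ⟨w, hw0, hw'.1, hw'.2⟩

/-- xc: linear algebra of the exceptional case in dimension three -/
theorem three_lin [CharZero K] {a b c : Module.Basis (Fin (2 + 1)) K V} {A B C : Module.End K V}
    (h : LT a b c A B C) {x y z κ : K} (hx : x ^ 2 + x + 1 = 0) (hy : y ^ 2 + y + 1 = 0)
    (hz : z ^ 2 + z + 1 = 0)
    (hU : (1 + (x - 1) • prj a 1) * (1 + (z - 1) • prj c 1) = κ • (1 + (y - 1) • prj b 1)) :
    prj a 1 * prj c 1 = 0 ∧ prj c 1 * prj a 1 = 0 := by
  have x3 : x ^ 3 = 1 := by linear_combination (x - 1) * hx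
  have y3 : y ^ 3 = 1 := by linear_combination (y - 1) * hy
  have three : (3 : K) ≠ 0 := by norm_num
  have x1 : x ≠ 1 := by rintro rfl; apply three; linear_combination hx
  have y1 : y ≠ 1 := by rintro rfl; apply three; linear_combination hy
  have z1 : z ≠ 1 := by rintro rfl; apply three; linear_combination hz
  have x0 : x ≠ 0 := by rintro rfl; simp at hx
  have y0 : y ≠ 0 := by rintro rfl; simp at hy
  -- the identity applied to a vector
  have key : ∀ v : V, v + ((z - 1) * c.coord 1 v) • c 1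
      + ((x - 1) * (a.coord 1 v + (z - 1) * c.coord 1 v * a.coord 1 (c 1))) • a 1
      = κ • v + (κ * (y - 1) * b.coord 1 v) • b 1 := by
    intro v
    have := LinearMap.congr_fun hU v
    simp only [Module.End.mul_apply, LinearMap.add_apply, Module.End.one_apply,
      LinearMap.smul_apply, xc_prj, map_add, map_smul, smul_smul, smul_add] at this
    rw [← this]
    module
  have ca1 : a.coord 1 (a 1) = 1 := by simp
  have cc1 : c.coord 1 (c 1) = 1 := by simp
  have cb1 : b.coord 1 (b 1) = 1 := by simp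
  have a1 : a 1 ≠ 0 := a.ne_zero 1
  have c1 : c 1 ≠ 0 := c.ne_zero 1
  have b1 : b 1 ≠ 0 := b.ne_zero 1
  -- determinants
  have det : x * z = κ ^ 3 * y := by
    have := congrArg LinearMap.det hU
    rw [map_mul, xc_det, xc_det, LinearMap.det_smul, xc_det, Module.finrank_eq_card_basis a,
      Fintype.card_fin] at this
    exact this
  -- the scalar
  obtain ⟨w, w0, wa, wc⟩ := xc_ker a c
  have hκ : κ = 1 ∨ κ * y = 1 := by
    have h1 := key w
    rw [wa, wc] at h1
    have h2 : w = κ • w + (κ * (y - 1) * b.coord 1 w) • b 1 := by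
      rw [← h1]; module
    have h3 := congrArg (b.coord 1) h2
    rw [map_add, map_smul, map_smul, cb1, smul_eq_mul, smul_eq_mul] at h3
    by_cases hg : b.coord 1 w = 0
    · left
      rw [hg, mul_zero, zero_smul, add_zero] at h2
      have h4 : (κ - 1) • w = 0 := by
        rw [sub_smul, ← h2, one_smul, sub_self]
      rcases smul_eq_zero.1 h4 with h5 | h5
      · exact sub_eq_zero.1 h5
      · exact absurd h5 w0
    · right
      apply mul_right_cancel₀ hg
      linear_combination -h3
  have κ3 : κ ^ 3 = 1 := by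
    rcases hκ with rfl | hκ
    · ring
    · have : κ ^ 3 = (κ * y) ^ 3 := by rw [mul_pow, y3, mul_one]
      rw [this, hκ, one_pow]
  rw [κ3, one_mul] at det
  have hzx : z = x := by
    have h1 : (z - x) * (z + x + 1) = 0 := by linear_combination hz - hx
    rcases mul_eq_zero.1 h1 with h2 | h2
    · exact sub_eq_zero.1 h2
    · exfalso
      apply y1
      rw [← det]
      linear_combination x * h2 - hx
  subst hzx
  have hy2 : y = z ^ 2 := by rw [← det]; ring
  rcases hκ with rfl | hκ
  · -- kappa = 1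
    exfalso
    have k1 : ∀ v : V, b.coord 1 v = 0 →
        (c.coord 1 v) • c 1 = ((z + 1) * a.coord 1 v) • a 1 := by
      intro v hv
      have h1 := key v
      rw [hv] at h1
      -- apply the coordinate `1` of `a`
      have h2 : ((z - 1) * c.coord 1 v) • c 1
          + ((z - 1) * (a.coord 1 v + (z - 1) * c.coord 1 v * a.coord 1 (c 1))) • a 1 = 0 := by
        have : v + (((z - 1) * c.coord 1 v) • c 1
          + ((z - 1) * (a.coord 1 v + (z - 1) * c.coord 1 v * a.coord 1 (c 1))) • a 1) = v + 0 := by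
          rw [← add_assoc, h1]; module
        exact add_left_cancel this
      have h3 := congrArg (a.coord 1) h2
      rw [map_add, map_smul, map_smul, ca1, map_zero, smul_eq_mul, smul_eq_mul] at h3
      have h4 : (z - 1) • ((c.coord 1 v) • c 1 - ((z + 1) * a.coord 1 v) • a 1) = 0 := by
        have h5 : (z - 1) * (a.coord 1 v + (z - 1) * c.coord 1 v * a.coord 1 (c 1))
            = -((z - 1) * ((z + 1) * a.coord 1 v)) := by
          apply mul_left_cancel₀ x0
          linear_combination (z - 1) * h3 + (a.coord 1 v) * (z - 1) * hz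
        rw [← h2, h5]; module
      rcases smul_eq_zero.1 h4 with h5 | h5
      · exact absurd (sub_eq_zero.1 h5) x1
      · exact sub_eq_zero.1 h5
    by_cases hv : ∃ v : V, b.coord 1 v = 0 ∧ a.coord 1 v ≠ 0
    · obtain ⟨v, hv1, hv2⟩ := hv
      have h1 := k1 v hv1
      have hz1 : z + 1 ≠ 0 := by
        intro h0
        have : z ^ 2 = 0 := by linear_combination hz - h0
        exact x0 (pow_eq_zero_iff (two_ne_zero) |>.1 this)
      have h2 : a 1 = (((z + 1) * a.coord 1 v)⁻¹ * c.coord 1 v) • c 1 := by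
        rw [mul_smul, h1, smul_smul, inv_mul_cancel₀ (mul_ne_zero hz1 hv2), one_smul]
      have h3 : C (a 1) = LinearMap.toMatrix c c C 1 1 • a 1 := by
        rw [h2, map_smul, xc_eig h.dC 1, smul_comm]
      apply h.aC.2 0 1 (Or.inl rfl)
      change LinearMap.toMatrix a a C 0 1 = 0
      rw [LinearMap.toMatrix_apply, h3, map_smul, Finsupp.smul_apply, a.repr_self,
        Finsupp.single_apply, if_neg (by decide), smul_zero]
    · have hv' : ∀ v : V, a.coord 1 v = b.coord 1 v * a.coord 1 (b 1) := by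
        intro v
        have h1 : b.coord 1 (v - b.coord 1 v • b 1) = 0 := by
          rw [map_sub, map_smul, cb1, smul_eq_mul, mul_one, sub_self]
        have h2 : a.coord 1 (v - b.coord 1 v • b 1) = 0 := by
          by_contra hne
          exact hv ⟨_, h1, hne⟩
        rw [map_sub, map_smul, smul_eq_mul] at h2
        exact sub_eq_zero.1 h2
      apply h.aB.2 1 0 (Or.inr rfl)
      have h1 : LinearMap.toMatrix a a B 1 0 = a.coord 1 (B (a 0)) := by
        rw [LinearMap.toMatrix_apply]; rfl
      change LinearMap.toMatrix a a B 1 0 = 0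
      rw [h1, hv', xc_diag h.dB, mul_assoc, ← hv', Module.Basis.coord_apply, a.repr_self,
        Finsupp.single_apply, if_neg (by decide), mul_zero]
  · -- kappa = x
    have hκz : κ = z := by
      rw [hy2] at hκ
      linear_combination z * hκ - κ * x3
    subst hκz
    have k1 : ∀ v : V, b.coord 1 v = 0 → v = a.coord 1 v • a 1 + c.coord 1 v • c 1 := by
      intro v hv
      have h1 := key v
      rw [hv, mul_zero, zero_smul, add_zero] at h1
      have h3 := congrArg (a.coord 1) h1
      rw [map_add, map_add, map_smul, map_smul, map_smul, ca1, smul_eq_mul, smul_eq_mul,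
        smul_eq_mul] at h3
      have h4 : (κ - 1) * c.coord 1 v * a.coord 1 (c 1) = 0 := by
        apply mul_left_cancel₀ x0
        linear_combination h3
      have h5 : (κ - 1) • (v - (a.coord 1 v • a 1 + c.coord 1 v • c 1)) = 0 := by
        have h6 : κ • v - v - (((κ - 1) * c.coord 1 v) • c 1
          + ((κ - 1) * (a.coord 1 v + (κ - 1) * c.coord 1 v * a.coord 1 (c 1))) • a 1) = 0 := by
          rw [← h1]; module
        rw [h4] at h6
        rw [← h6]; module
      rcases smul_eq_zero.1 h5 with h6 | h6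
      · exact absurd (sub_eq_zero.1 h6) x1
      · exact sub_eq_zero.1 h6
    have b10 : b.coord 1 (b 0) = 0 := by
      rw [Module.Basis.coord_apply, b.repr_self, Finsupp.single_apply, if_neg (by decide)]
    have b12 : b.coord 1 (b 2) = 0 := by
      rw [Module.Basis.coord_apply, b.repr_self, Finsupp.single_apply, if_neg (by decide)]
    have b00 : b.coord 0 (b 0) = 1 := by simp
    have b22 : b.coord 2 (b 2) = 1 := by simp
    have b02 : b.coord 0 (b 2) = 0 := by
      rw [Module.Basis.coord_apply, b.repr_self, Finsupp.single_apply, if_neg (by decide)]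
    have b20 : b.coord 2 (b 0) = 0 := by
      rw [Module.Basis.coord_apply, b.repr_self, Finsupp.single_apply, if_neg (by decide)]
    have e0 := k1 _ b10
    have e2 := k1 _ b12
    obtain ⟨p0, hp0⟩ : ∃ p, p = a.coord 1 (b 0) := ⟨_, rfl⟩
    obtain ⟨q0, hq0⟩ : ∃ p, p = c.coord 1 (b 0) := ⟨_, rfl⟩
    obtain ⟨p2, hp2⟩ : ∃ p, p = a.coord 1 (b 2) := ⟨_, rfl⟩
    obtain ⟨q2, hq2⟩ : ∃ p, p = c.coord 1 (b 2) := ⟨_, rfl⟩
    rw [← hp0, ← hq0] at e0
    rw [← hp2, ← hq2] at e2
    -- the determinant of the coordinates is not zero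
    have hΔ : p0 * q2 - p2 * q0 ≠ 0 := by
      intro h0
      have h1 : q2 • b 0 - q0 • b 2 = 0 := by
        have : q2 • b 0 - q0 • b 2 = (p0 * q2 - p2 * q0) • a 1 := by
          rw [e0, e2]; module
        rw [this, h0, zero_smul]
      have h2 := congrArg (b.coord 0) h1
      rw [map_sub, map_smul, map_smul, b00, b02, map_zero, smul_eq_mul, mul_one, smul_zero,
        sub_zero] at h2
      have h3 := congrArg (b.coord 2) h1
      rw [map_sub, map_smul, map_smul, b20, b22, map_zero, smul_eq_mul, smul_eq_mul, mul_one,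
        mul_zero, zero_sub, neg_eq_zero] at h3
      rw [h3, zero_smul, add_zero] at e0
      rw [h2, zero_smul, add_zero] at e2
      have h4 : p2 • b 0 - p0 • b 2 = 0 := by
        rw [e0, e2]; module
      have h5 := congrArg (b.coord 2) h4
      rw [map_sub, map_smul, map_smul, b20, b22, map_zero, smul_eq_mul, smul_eq_mul, mul_one,
        mul_zero, zero_sub, neg_eq_zero] at h5
      rw [h5, zero_smul] at e0
      exact b.ne_zero 0 e0
    have f0 := congrArg (b.coord 1) e0
    have f2 := congrArg (b.coord 1) e2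
    rw [b10, map_add, map_smul, map_smul, smul_eq_mul, smul_eq_mul] at f0
    rw [b12, map_add, map_smul, map_smul, smul_eq_mul, smul_eq_mul] at f2
    have ga : b.coord 1 (a 1) = 0 := by
      apply mul_left_cancel₀ hΔ
      linear_combination q0 * f2 - q2 * f0
    have gc : b.coord 1 (c 1) = 0 := by
      apply mul_left_cancel₀ hΔ
      linear_combination p2 * f0 - p0 * f2
    have fa := k1 _ ga
    have fc := k1 _ gc
    have z1 : c.coord 1 (a 1) = 0 := by
      rw [ca1, one_smul] at fa
      have : c.coord 1 (a 1) • c 1 = 0 := by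
        have h1 : a 1 + c.coord 1 (a 1) • c 1 = a 1 + 0 := by rw [← fa, add_zero]
        exact add_left_cancel h1
      exact (smul_eq_zero.1 this).resolve_right c1
    have z2 : a.coord 1 (c 1) = 0 := by
      rw [cc1, one_smul] at fc
      have : a.coord 1 (c 1) • a 1 = 0 := by
        have h1 : a.coord 1 (c 1) • a 1 + c 1 = 0 + c 1 := by rw [← fc, zero_add]
        exact add_right_cancel h1
      exact (smul_eq_zero.1 this).resolve_right a1
    constructor
    · ext v
      rw [Module.End.mul_apply, xc_prj, xc_prj, map_smul, z2, smul_zero, zero_smul]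
      rfl
    · ext v
      rw [Module.End.mul_apply, xc_prj, xc_prj, map_smul, z1, smul_zero, zero_smul]
      rfl

section
variable {a b c : Module.Basis (Fin (2 + 1)) K V} {A B C : Module.End K V}
  {r s t : Module.End K V ≃ₗ[K] Module.End K V} {α β γ : K}

private theorem xd_mat (a : Module.Basis (Fin (2 + 1)) K V) (x : K) :
    LinearMap.toMatrix a a (1 + (x - 1) • prj a 1) = Matrix.diagonal ![1, x, 1] := by
  ext i j
  rw [LinearMap.toMatrix_apply]
  fin_cases i <;> fin_cases j <;> simp [prj, Matrix.diagonal]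

/-- xd: the form of `rs` in dimension three, if it has order three and `C` is not a combination
of `1, A, B, AB - BA` -/
theorem Setup.three_form (h : Setup a b c A B C r s t α β γ) (hγ : γ ≠ 0)
    (ho : (r * s) ^ 3 = 1)
    (hk : ¬ ∃ e f f' : K, C = e • 1 + f • A + f' • B + (γ / 2) • (A * B - B * A)) :
    ∃ x : K, x ^ 2 + x + 1 = 0 ∧ ∀ X, (r * s) X =
      (1 + (x - 1) • prj a 1) * X * (1 + (x ^ 2 - 1) • prj a 1) := by
  obtain ⟨u, hu, hX⟩ := ratio_exists h.lt h.hr h.hs
  have cube := (ratio_pow hu hX 3).1 ho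
  obtain ⟨-, hβ, -, -, -⟩ := h.nondegenerate (by norm_num) hγ
  have inj := h.lt.pAB.inj
  obtain ⟨e, f, f', g, hC⟩ := h.expr
  have hg : g ≠ 0 := by
    rintro rfl
    apply hk
    refine ⟨e, f, f', ?_⟩
    rw [hC]
    simp
  have d01 : mt a A 0 0 - mt a A 1 1 ≠ 0 := by
    intro h0
    have := inj (a₁ := 0) (a₂ := 1) (sub_eq_zero.1 h0)
    exact absurd this (by decide)
  have d12 : mt a A 1 1 - mt a A 2 2 ≠ 0 := by
    intro h0
    have := inj (a₁ := 1) (a₂ := 2) (sub_eq_zero.1 h0)
    exact absurd this (by decide)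
  have d02 : mt a A 0 0 - mt a A 2 2 ≠ 0 := by
    intro h0
    have := inj (a₁ := 0) (a₂ := 2) (sub_eq_zero.1 h0)
    exact absurd this (by decide)
  have r01 := h.ratio_add hu hX (i := 0) (j := 1) (Or.inl rfl)
  have r12 := h.ratio_add hu hX (i := 1) (j := 2) (Or.inl rfl)
  have c01 := cube 0 1 rfl
  have c12 := cube 1 2 rfl
  obtain ⟨E1, E2, E3, E4⟩ := h.expr_entries hγ hu hX hC (i := 0) (j := 1) (Or.inl rfl)
  obtain ⟨F1, F2, F3, F4⟩ := h.expr_entries hγ hu hX hC (i := 1) (j := 2) (Or.inl rfl)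
  have u0 := hu 0
  have u1 := hu 1
  have u2 := hu 2
  generalize mt a A 0 0 = t0 at *
  generalize mt a A 1 1 = t1 at *
  generalize mt a A 2 2 = t2 at *
  obtain ⟨p, hp⟩ : ∃ p, p = u 0 / u 1 := ⟨_, rfl⟩
  obtain ⟨q, hq⟩ : ∃ q, q = u 1 / u 2 := ⟨_, rfl⟩
  have hp' : u 1 / u 0 = p⁻¹ := by rw [hp, inv_div]
  have hq' : u 2 / u 1 = q⁻¹ := by rw [hq, inv_div]
  have p0 : p ≠ 0 := by rw [hp]; exact div_ne_zero u0 u1
  have q0 : q ≠ 0 := by rw [hq]; exact div_ne_zero u1 u2
  rw [← hp, hp'] at r01
  rw [← hq, hq'] at r12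
  rw [← hp] at c01 E3
  rw [← hq] at c12 F3
  have aux : ∀ w d : K, w ≠ 0 → w ^ 3 = 1 → w + w⁻¹ = 2 + β * γ * d ^ 2 → d ≠ 0 →
      w ^ 2 + w + 1 = 0 ∧ β * γ * d ^ 2 = -3 := by
    intro w d w0 w3 hw hd
    have w1 : w ≠ 1 := by
      rintro rfl
      have : β * γ * d ^ 2 = 0 := by rw [inv_one] at hw; linear_combination -hw
      exact mul_ne_zero (mul_ne_zero hβ hγ) (pow_ne_zero 2 hd) this
    have h1 : w ^ 2 + w + 1 = 0 := by
      have : (w - 1) * (w ^ 2 + w + 1) = 0 := by linear_combination w3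
      exact (mul_eq_zero.1 this).resolve_left (sub_ne_zero.2 w1)
    refine ⟨h1, ?_⟩
    have h2 : w + w⁻¹ = -1 := by
      field_simp
      linear_combination h1
    linear_combination h2 - hw
  obtain ⟨P1, P2⟩ := aux p _ p0 c01 r01 d01
  obtain ⟨Q1, Q2⟩ := aux q _ q0 c12 r12 d12
  have hD : t0 - t1 = t1 - t2 := by
    have h1 : (t0 - t1 - (t1 - t2)) * (t0 - t2) = 0 := by
      apply mul_left_cancel₀ (mul_ne_zero hβ hγ)
      linear_combination P2 - Q2
    exact sub_eq_zero.1 ((mul_eq_zero.1 h1).resolve_right d02)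
  have hy : f' + g * (t1 + t2) = -(f' + g * (t0 + t1)) := by
    have h1 : (f' + g * (t0 + t1) - (f' + g * (t1 + t2)))
        * (f' + g * (t1 + t2) + (f' + g * (t0 + t1))) = 0 := by
      rw [← hD] at F4
      linear_combination E4 - F4
    have h2 : f' + g * (t0 + t1) - (f' + g * (t1 + t2)) ≠ 0 := by
      have : f' + g * (t0 + t1) - (f' + g * (t1 + t2)) = g * (t0 - t2) := by ring
      rw [this]
      exact mul_ne_zero hg d02
    exact eq_neg_of_add_eq_zero_left ((mul_eq_zero.1 h1).resolve_left h2)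
  have hpq : p * q = 1 := by
    rw [hy, ← hD] at F3
    apply mul_right_cancel₀ (mul_ne_zero E1 E2)
    linear_combination (f' + g * (t0 + t1) - γ / 2 * (t0 - t1)) * q * E3
      - (f' + g * (t0 + t1) - γ / 2 * (t0 - t1)) * F3
  have h02 : u 2 = u 0 := by
    rw [hp, hq] at hpq
    field_simp at hpq
    exact hpq.symm
  refine ⟨u 1 / u 0, ?_, fun X => ?_⟩
  · rw [hp']
    field_simp
    linear_combination P1
  · have hx3 : (u 1 / u 0) ^ 2 = u 0 / u 1 := by
      rw [hp', ← hp]
      field_simp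
      linear_combination -c01
    apply (LinearMap.toMatrix a a).injective
    rw [LinearMap.toMatrix_mul, LinearMap.toMatrix_mul, xd_mat, xd_mat, hx3]
    ext i j
    rw [Matrix.mul_diagonal, Matrix.diagonal_mul]
    have := hX X i j
    rw [mt] at this
    rw [this]
    fin_cases i <;> fin_cases j <;> simp [h02, u0, u1] <;> field_simp

private theorem xf_aux [CharZero K] {d : ℕ} {a b c : Module.Basis (Fin (d + 1)) K V}
    {A B C : Module.End K V} {r s t : Module.End K V ≃ₗ[K] Module.End K V} {α β γ : K}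
    (h : Setup a b c A B C r s t α β γ) (hd : 1 ≤ d) (hγ : γ ≠ 0) :
    (∃ e f f' : K, C = e • 1 + f • A + f' • B + (γ / 2) • (A * B - B * A)) ↔
    (∃ e f f' : K, A = e • 1 + f • B + f' • C + (α / 2) • (B * C - C * B)) := by
  constructor
  · rintro ⟨e, f, f', hC⟩
    obtain ⟨g, g', k, k', hk, -, -, -⟩ := h.kdata hd hγ hC
    obtain ⟨-, -, e', he'⟩ := h.kexpr hk
    exact ⟨e', k, k', he'⟩
  · rintro ⟨e, f, f', hA⟩
    obtain ⟨hα, -⟩ := h.nondegenerate hd hγ
    obtain ⟨g, g', k, k', hk, -, -, -⟩ := h.rot.kdata hd hα hA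
    obtain ⟨-, ⟨e', he'⟩, -⟩ := h.rot.kexpr hk
    exact ⟨e', g, g', he'⟩

private theorem xe_expand (P Q : Module.End K V) (p q : K) :
    (1 + p • P) * (1 + q • Q) = 1 + p • P + q • Q + (p * q) • (P * Q) := by
  simp only [add_mul, mul_add, one_mul, mul_one, smul_mul_smul_comm]
  abel

private theorem xe_prj_sq {n : ℕ} (a : Module.Basis (Fin n) K V) (i : Fin n) :
    prj a i * prj a i = prj a i := by
  ext v
  simp [prj]

private theorem xe_inv {n : ℕ} (a : Module.Basis (Fin n) K V) (i : Fin n) {x : K}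
    (hx : x ^ 2 + x + 1 = 0) :
    (1 + (x - 1) • prj a i) * (1 + (x ^ 2 - 1) • prj a i) = 1 := by
  rw [xe_expand, xe_prj_sq]
  have : (1 : Module.End K V) + (x - 1) • prj a i + (x ^ 2 - 1) • prj a i +
      ((x - 1) * (x ^ 2 - 1)) • prj a i = 1 + ((x ^ 2 - 1) + ((x - 1) +
      ((x - 1) * (x ^ 2 - 1)))) • prj a i := by
    module
  rw [this]
  have : (x ^ 2 - 1) + ((x - 1) + ((x - 1) * (x ^ 2 - 1))) = 0 := by
    linear_combination (x - 1) * hx
  rw [this]; simp

private theorem xe_center {Z : Module.End K V} {n : ℕ} (a : Module.Basis (Fin (n + 1)) K V)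
    (h : ∀ X : Module.End K V, Z * X = X * Z) :
    ∃ κ : K, Z = κ • 1 := by
  refine ⟨a.coord 0 (Z (a 0)), ?_⟩
  apply LinearMap.ext
  intro v
  have h1 := LinearMap.congr_fun (h ((a.coord 0).smulRight v)) (a 0)
  simp only [Module.End.mul_apply, LinearMap.smulRight_apply, Module.Basis.coord_apply,
    Module.Basis.repr_self, Finsupp.single_eq_same, one_smul] at h1
  simpa using h1

/-- xe: the exceptional case in dimension three -/
theorem Setup.three_special [CharZero K] (h : Setup a b c A B C r s t α β γ) (hγ : γ ≠ 0)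
    (h1 : (r * s) ^ 3 = 1) (h2 : (r * t) ^ 3 = 1) (h3 : (s * t) ^ 3 = 1)
    (hk : ¬ ∃ e f f' : K, C = e • 1 + f • A + f' • B + (γ / 2) • (A * B - B * A)) :
    (r * s) * (s * t) = (s * t) * (r * s) := by
  have hd : 1 ≤ 2 := by norm_num
  obtain ⟨hα, hβ, -⟩ := h.nondegenerate hd hγ
  have hk1 : ¬ ∃ e f f' : K, A = e • 1 + f • B + f' • C + (α / 2) • (B * C - C * B) :=
    fun hh => hk ((xf_aux h hd hγ).mpr hh)
  have hk2 : ¬ ∃ e f f' : K, B = e • 1 + f • C + f' • A + (β / 2) • (C * A - A * C) :=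
    fun hh => hk1 ((xf_aux h.rot hd hα).mpr hh)
  have rr : r * r = 1 := h.lt.pAB.anti_sq h.hr
  have ss : s * s = 1 := h.lt.pAC.symm.anti_sq h.hs
  have tt : t * t = 1 := h.lt.pBC.anti_sq h.ht
  have rinv : r⁻¹ = r := inv_eq_of_mul_eq_one_left rr
  have sinv : s⁻¹ = s := inv_eq_of_mul_eq_one_left ss
  have tinv : t⁻¹ = t := inv_eq_of_mul_eq_one_left tt
  have h2' : (t * r) ^ 3 = 1 := by
    have : t * r = (r * t)⁻¹ := by rw [mul_inv_rev, rinv, tinv]
    rw [this, inv_pow, h2, inv_one]
  obtain ⟨x, hx, hX⟩ := h.three_form hγ h1 hk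
  obtain ⟨y, hy, hY⟩ := h.rot.three_form hα h2' hk1
  obtain ⟨z, hz, hZ⟩ := h.rot.rot.three_form hβ h3 hk2
  set U : Module.End K V := 1 + (x - 1) • prj a 1 with hU
  set U' : Module.End K V := 1 + (x ^ 2 - 1) • prj a 1 with hU'
  set Y : Module.End K V := 1 + (y - 1) • prj b 1 with hYd
  set Y' : Module.End K V := 1 + (y ^ 2 - 1) • prj b 1 with hY'
  set W : Module.End K V := 1 + (z - 1) • prj c 1 with hW
  set W' : Module.End K V := 1 + (z ^ 2 - 1) • prj c 1 with hW'
  have hx2 : x * x ^ 2 = 1 := by linear_combination (x - 1) * hx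
  have comm : ∀ {n : ℕ} (a : Module.Basis (Fin n) K V) (i : Fin n) (p q : K),
      (1 + p • prj a i) * (1 + q • prj a i) = (1 + q • prj a i) * (1 + p • prj a i) := by
    intro n a i p q
    rw [xe_expand, xe_expand, mul_comm p q]
    abel
  have UU : U * U' = 1 := xe_inv a 1 hx
  have YY : Y * Y' = 1 := xe_inv b 1 hy
  have WW : W * W' = 1 := xe_inv c 1 hz
  have UU' : U' * U = 1 := by rw [← UU]; exact comm a 1 _ _
  have YY' : Y' * Y = 1 := by rw [← YY]; exact comm b 1 _ _
  have WW' : W' * W = 1 := by rw [← WW]; exact comm c 1 _ _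
  -- `r t` is conjugation by `Y'`
  have hrt : ∀ X, (r * t) X = Y' * X * Y := by
    intro X
    have e1 : (t * r) (Y' * X * Y) = X := by
      rw [hY]
      calc Y * (Y' * X * Y) * Y' = (Y * Y') * X * (Y * Y') := by noncomm_ring
        _ = X := by rw [YY]; simp
    have e2 : (r * t) ((t * r) (Y' * X * Y)) = Y' * X * Y := by
      have : (r * t) * (t * r) = 1 := by
        rw [mul_assoc, ← mul_assoc t, tt, one_mul, rr]
      have := LinearEquiv.congr_fun this (Y' * X * Y)
      simpa using this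
    rw [← e2, e1]
  have hrsst : (r * s) * (s * t) = r * t := by
    rw [mul_assoc, ← mul_assoc s, ss, one_mul]
  have e3 : ∀ X, (U * W) * X * (W' * U') = Y' * X * Y := by
    intro X
    rw [← hrt, ← hrsst, LinearEquiv.mul_apply, hX, hZ]
    noncomm_ring
  have e4 : ∀ X, (Y * (U * W)) * X = X * (Y * (U * W)) := by
    intro X
    have : Y * ((U * W) * X * (W' * U')) * (U * W) = Y * (Y' * X * Y) * (U * W) := by
      rw [e3 X]
    calc (Y * (U * W)) * X = (Y * (U * W)) * X * (W' * (U' * U) * W) := by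
          rw [UU', mul_one, WW', mul_one]
      _ = Y * ((U * W) * X * (W' * U')) * (U * W) := by noncomm_ring
      _ = Y * (Y' * X * Y) * (U * W) := this
      _ = (Y * Y') * X * (Y * (U * W)) := by noncomm_ring
      _ = X * (Y * (U * W)) := by rw [YY, one_mul]
  obtain ⟨κ, hκ⟩ := xe_center a e4
  have e5 : U * W = κ • Y' := by
    calc U * W = (Y' * Y) * (U * W) := by rw [YY', one_mul]
      _ = Y' * (Y * (U * W)) := by noncomm_ring
      _ = κ • Y' := by rw [hκ]; simp
  have hy2 : (y ^ 2) ^ 2 + y ^ 2 + 1 = 0 := by linear_combination (y ^ 2 - y + 1) * hy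
  obtain ⟨EF, FE⟩ := three_lin h.lt hx hy2 hz e5
  have e6 : U * W = W * U := by
    rw [hU, hW, xe_expand, xe_expand, EF, FE]
    simp only [smul_zero, add_zero]
    abel
  have e7 : W' * U' = U' * W' := by
    calc W' * U' = (U' * (W' * W) * U) * (W' * U') := by rw [WW', mul_one, UU', one_mul]
      _ = U' * W' * ((W * U) * (W' * U')) := by noncomm_ring
      _ = U' * W' * ((U * W) * (W' * U')) := by rw [e6]
      _ = U' * W' * (U * (W * W') * U') := by noncomm_ring
      _ = U' * W' := by rw [WW, mul_one, UU, mul_one]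
  apply LinearEquiv.ext
  intro X
  rw [LinearEquiv.mul_apply (r * s) (s * t), LinearEquiv.mul_apply (s * t) (r * s), hX, hZ, hX, hZ]
  calc U * (W * X * W') * U' = (U * W) * X * (W' * U') := by noncomm_ring
    _ = (W * U) * X * (U' * W') := by rw [e6, e7]
    _ = W * (U * X * U') * W' := by noncomm_ring

end

/-- xf: the Krawtchouk property does not depend on the order of the triple -/
theorem Setup.krawtchouk_rot [CharZero K] {d : ℕ} {a b c : Module.Basis (Fin (d + 1)) K V}
    {A B C : Module.End K V} {r s t : Module.End K V ≃ₗ[K] Module.End K V} {α β γ : K}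
    (h : Setup a b c A B C r s t α β γ) (hd : 1 ≤ d) (hγ : γ ≠ 0) :
    (∃ e f f' : K, C = e • 1 + f • A + f' • B + (γ / 2) • (A * B - B * A)) ↔
    (∃ e f f' : K, A = e • 1 + f • B + f' • C + (α / 2) • (B * C - C * B)) := by
  exact xf_aux h hd hγ

end Pool.Agent.Leo
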