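import Pool.Agent.Leo.Span

/-!
# Leonard triples: the three scalars, the dichotomy, the eigenvalue ratios
-/

namespace Pool.Agent.Leo

variable {K : Type*} [Field K] {V : Type*} [AddCommGroup V] [Module K V]

/-- all the data of a Leonard triple with its three antiautomorphisms and three scalars -/
structure Setup {d : ℕ} (a b c : Module.Basis (Fin (d + 1)) K V) (A B C : Module.End K V)
    (r s t : Module.End K V ≃ₗ[K] Module.End K V) (α β γ : K) : Prop where
  h2 : (2 : K) ≠ 0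
  lt : LT a b c A B C
  hr : IsAnti r A B
  hs : IsAnti s C A
  ht : IsAnti t B C
  eC : C - r C = γ • (A * B - B * A)
  eA : A - t A = α • (B * C - C * B)
  eB : B - s B = β • (C * A - A * C)

section
variable {d : ℕ} {a b c : Module.Basis (Fin (d + 1)) K V} {A B C : Module.End K V}
  {r s t : Module.End K V ≃ₗ[K] Module.End K V} {α β γ : K}

private theorem ta_tri (h : LP a b A B) (hr : IsAnti r A B) (hC : Tri a C) : Tri a (r C) := by
  obtain ⟨D, hD, hX⟩ := anti_shape h.dA h.inj hr.anti hr.fixA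
  intro i j hij
  rw [hX, hC j i hij.symm, mul_zero, zero_div]

private theorem ta_mt_sub (X Y : Module.End K V) (i j : Fin (d + 1)) :
    mt a (X - Y) i j = mt a X i j - mt a Y i j := by simp [mt]

private theorem ta_mt_add (X Y : Module.End K V) (i j : Fin (d + 1)) :
    mt a (X + Y) i j = mt a X i j + mt a Y i j := by simp [mt]

private theorem ta_mt_smul (k : K) (X : Module.End K V) (i j : Fin (d + 1)) :
    mt a (k • X) i j = k * mt a X i j := by simp [mt]

private theorem ta_sub {X Y : Module.End K V} (hX : Tri a X) (hY : Tri a Y) : Tri a (X - Y) := by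
  intro i j hij
  rw [ta_mt_sub, hX i j hij, hY i j hij, sub_zero]

private theorem ta_add {X Y : Module.End K V} (hX : Tri a X) (hY : Tri a Y) : Tri a (X + Y) := by
  intro i j hij
  rw [ta_mt_add, hX i j hij, hY i j hij, add_zero]

private theorem ta_sq (h : LP a b A B) (hr : IsAnti r A B) (X : Module.End K V) : r (r X) = X := by
  have := LinearEquiv.congr_fun (h.anti_sq hr) X
  exact this

/-- ta: existence of one scalar -/
theorem exists_scalar (h2 : (2 : K) ≠ 0) (h : LT a b c A B C) (hr : IsAnti r A B) :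
    ∃ γ : K, C - r C = γ • (A * B - B * A) := by
  apply antisym_span h2 h.pAB hr
  · rw [map_sub, ta_sq h.pAB hr, neg_sub]
  · exact ta_sub h.aC.1 (ta_tri h.pAB hr h.aC.1)
  · exact ta_sub h.bC.1 (ta_tri h.pAB.symm hr.symm h.bC.1)

private theorem td_mul_left (dA : (mt a A).IsDiag) (X : Module.End K V) (i j : Fin (d + 1)) :
    mt a (A * X) i j = mt a A i i * mt a X i j := by
  rw [mt, LinearMap.toMatrix_mul, Matrix.mul_apply, Finset.sum_eq_single i]
  · intro k _ hk
    rw [show LinearMap.toMatrix a a A i k = 0 from dA (Ne.symm hk), zero_mul]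
  · simp

private theorem td_mul_right (dA : (mt a A).IsDiag) (X : Module.End K V) (i j : Fin (d + 1)) :
    mt a (X * A) i j = mt a X i j * mt a A j j := by
  rw [mt, LinearMap.toMatrix_mul, Matrix.mul_apply, Finset.sum_eq_single j]
  · intro k _ hk
    rw [show LinearMap.toMatrix a a A k j = 0 from dA hk, mul_zero]
  · simp

/-- cyclic rotation of the setup -/
theorem Setup.rot (h : Setup a b c A B C r s t α β γ) : Setup b c a B C A t r s β γ α :=
  ⟨h.h2, h.lt.rot, h.ht, h.hr.symm.symm, h.hs, h.eA, h.eB, h.eC⟩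

/-- exchange of `A` and `B` in the setup -/
theorem Setup.swap (h : Setup a b c A B C r s t α β γ) :
    Setup b a c B A C r t s (-β) (-α) (-γ) :=
  ⟨h.h2, h.lt.swap, h.hr.symm, h.ht.symm, h.hs.symm,
    by rw [h.eC, neg_smul, ← smul_neg, neg_sub], by rw [h.eB, neg_smul, ← smul_neg, neg_sub],
    by rw [h.eA, neg_smul, ← smul_neg, neg_sub]⟩

/-- tb: `rs` is the conjugation by a diagonal map in the eigenbasis of `A` -/
theorem ratio_exists (h : LT a b c A B C) (hr : IsAnti r A B) (hs : IsAnti s C A) :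
    ∃ u : Fin (d + 1) → K, (∀ i, u i ≠ 0) ∧
      ∀ X i j, mt a ((r * s) X) i j = u i / u j * mt a X i j := by
  obtain ⟨D, hD, hX⟩ := anti_shape h.dA h.pAB.inj hr.anti hr.fixA
  obtain ⟨D', hD', hX'⟩ := anti_shape h.dA h.pAB.inj hs.anti hs.fixB
  refine ⟨fun i => D i / D' i, fun i => div_ne_zero (hD i) (hD' i), fun X i j => ?_⟩
  change mt a (r (s X)) i j = _
  rw [hX, hX']
  field_simp [hD i, hD j, hD' i, hD' j]

/-- tc: powers of `rs` -/
theorem ratio_pow {u : Fin (d + 1) → K} (hu : ∀ i, u i ≠ 0)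
    (hX : ∀ X i j, mt a ((r * s) X) i j = u i / u j * mt a X i j) (m : ℕ) :
    (r * s) ^ m = 1 ↔ ∀ i j : Fin (d + 1), (i : ℕ) + 1 = j → (u i / u j) ^ m = 1 := by
  have key : ∀ (m : ℕ) X i j, mt a (((r * s) ^ m) X) i j = (u i / u j) ^ m * mt a X i j := by
    intro m
    induction m with
    | zero => intro X i j; simp
    | succ m ih =>
      intro X i j
      rw [pow_succ', LinearEquiv.mul_apply, hX, ih, pow_succ']
      ring
  constructor
  · intro h i j _
    have h1 := key m ((LinearMap.toMatrix a a).symm (Matrix.single i j 1)) i j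
    rw [h, LinearEquiv.coe_one, id, mt, LinearEquiv.apply_symm_apply,
      Matrix.single_apply_same, mul_one] at h1
    exact h1.symm
  · intro h
    have h0 : ∀ k : ℕ, ∀ hk : k < d + 1, u ⟨k, hk⟩ ^ m = u 0 ^ m := by
      intro k
      induction k with
      | zero => intro _; rfl
      | succ k ih =>
        intro hk
        have h1 := h ⟨k, by omega⟩ ⟨k + 1, hk⟩ rfl
        rw [div_pow, div_eq_one_iff_eq (pow_ne_zero _ (hu _))] at h1
        rw [← h1, ih]
    ext1 X
    apply (LinearMap.toMatrix a a).injective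
    ext i j
    change mt a (((r * s) ^ m) X) i j = mt a X i j
    have hi : u i ^ m = u 0 ^ m := h0 i i.2
    have hj : u j ^ m = u 0 ^ m := h0 j j.2
    rw [key, div_pow, hi, hj, div_self (pow_ne_zero _ (hu _)), one_mul]

/-- td: the two entry relations -/
theorem Setup.entries (h : Setup a b c A B C r s t α β γ) {u : Fin (d + 1) → K}
    (hu : ∀ i, u i ≠ 0) (hX : ∀ X i j, mt a ((r * s) X) i j = u i / u j * mt a X i j)
    {i j : Fin (d + 1)} (hij : (i : ℕ) + 1 = j ∨ (j : ℕ) + 1 = i) :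
    (1 - u i / u j) * mt a C i j = γ * (mt a A i i - mt a A j j) * mt a B i j ∧
    (1 - u j / u i) * mt a B i j = β * (mt a A j j - mt a A i i) * mt a C i j := by
  constructor
  · have h1 := congrArg (fun X => mt a X i j) h.eC
    simp only [ta_mt_sub, ta_mt_smul] at h1
    rw [td_mul_left h.lt.dA, td_mul_right h.lt.dA] at h1
    have h3 := hX C i j
    rw [LinearEquiv.mul_apply, h.hs.fixA] at h3
    rw [h3] at h1
    linear_combination h1
  · have h1 := congrArg (fun X => mt a X i j) h.eB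
    simp only [ta_mt_sub, ta_mt_smul] at h1
    rw [td_mul_left h.lt.dA, td_mul_right h.lt.dA] at h1
    have h3 := hX (s B) i j
    rw [LinearEquiv.mul_apply, ta_sq h.lt.pAC.symm h.hs, h.hr.fixB] at h3
    have h4 : u j / u i * mt a B i j = mt a (s B) i j := by
      rw [h3]
      have := hu i
      have := hu j
      field_simp
    linear_combination h1 - h4

/-- te: the relation between the ratios and the eigenvalues of `A` -/
theorem Setup.ratio_add (h : Setup a b c A B C r s t α β γ) {u : Fin (d + 1) → K}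
    (hu : ∀ i, u i ≠ 0) (hX : ∀ X i j, mt a ((r * s) X) i j = u i / u j * mt a X i j)
    {i j : Fin (d + 1)} (hij : (i : ℕ) + 1 = j ∨ (j : ℕ) + 1 = i) :
    u i / u j + u j / u i = 2 + β * γ * (mt a A i i - mt a A j j) ^ 2 := by
  obtain ⟨h1, h3⟩ := h.entries hu hX hij
  have hB := h.lt.aB.2 i j hij
  have hC := h.lt.aC.2 i j hij
  have h4 : (u i / u j) * (u j / u i) = 1 := by
    have := hu i
    have := hu j
    field_simp
  have h5 : ((1 - u i / u j) * (1 - u j / u i) + β * γ * (mt a A i i - mt a A j j) ^ 2) *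
      (mt a C i j * mt a B i j) = 0 := by
    linear_combination (1 - u j / u i) * mt a B i j * h1 +
      γ * (mt a A i i - mt a A j j) * mt a B i j * h3
  have h6 := (mul_eq_zero.1 h5).resolve_right (mul_ne_zero hC hB)
  linear_combination h4 - h6

/-- tf: if one scalar vanishes then `r = s = t` -/
theorem Setup.degenerate (h : Setup a b c A B C r s t α β γ) (hd : 1 ≤ d) (hγ : γ = 0) :
    r = s ∧ s = t := by
  obtain ⟨u, hu, hX⟩ := ratio_exists h.lt h.hr h.hs
  have h1 : (r * s) ^ 1 = 1 := by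
    rw [ratio_pow hu hX]
    intro i j hij
    have h3 := (h.entries hu hX (Or.inl hij)).1
    rw [hγ, zero_mul, zero_mul] at h3
    have := (mul_eq_zero.1 h3).resolve_right (h.lt.aC.2 i j (Or.inl hij))
    rw [pow_one]; exact (sub_eq_zero.1 this).symm
  rw [pow_one] at h1
  have hs2 := h.lt.pAC.symm.anti_sq h.hs
  have hrs : r = s := by
    calc r = r * (s * s) := by rw [hs2, mul_one]
      _ = s := by rw [← mul_assoc, h1, one_mul]
  refine ⟨hrs, ?_⟩
  have h3 : IsAnti s B C := ⟨h.hs.anti, by rw [← hrs]; exact h.hr.fixB, h.hs.fixA⟩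
  exact h.lt.pBC.anti_unique h3 h.ht

private theorem tg_aux (h : Setup a b c A B C r s t α β γ) (hd : 1 ≤ d) (hγ : γ ≠ 0) :
    β ≠ 0 ∧ r ≠ s := by
  obtain ⟨u, hu, hX⟩ := ratio_exists h.lt h.hr h.hs
  have hij : ((⟨0, by omega⟩ : Fin (d + 1)) : ℕ) + 1 = (⟨1, by omega⟩ : Fin (d + 1)) := rfl
  obtain ⟨h1, h3⟩ := h.entries hu hX (Or.inl hij)
  have hB := h.lt.aB.2 _ _ (Or.inl hij)
  have hC := h.lt.aC.2 _ _ (Or.inl hij)
  have hD : mt a A ⟨0, by omega⟩ ⟨0, by omega⟩ - mt a A ⟨1, by omega⟩ ⟨1, by omega⟩ ≠ 0 := by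
    intro h0
    have := h.lt.pAB.inj (sub_eq_zero.1 h0)
    simp at this
  have hq : u ⟨0, by omega⟩ / u ⟨1, by omega⟩ ≠ 1 := by
    intro hq
    rw [hq, sub_self, zero_mul] at h1
    exact mul_ne_zero (mul_ne_zero hγ hD) hB h1.symm
  constructor
  · rintro rfl
    rw [zero_mul, zero_mul] at h3
    have := (mul_eq_zero.1 h3).resolve_right hB
    apply hq
    rw [sub_eq_zero, eq_comm, div_eq_one_iff_eq (hu _)] at this
    rw [this, div_self (hu _)]
  · intro hrs
    have hs2 := h.lt.pAC.symm.anti_sq h.hs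
    have h4 : (r * s) ^ 1 = 1 := by rw [hrs, pow_one, hs2]
    rw [ratio_pow hu hX] at h4
    exact hq (by simpa using h4 _ _ hij)

/-- tg: if one scalar does not vanish then none does, and `r, s, t` are distinct -/
theorem Setup.nondegenerate (h : Setup a b c A B C r s t α β γ) (hd : 1 ≤ d) (hγ : γ ≠ 0) :
    α ≠ 0 ∧ β ≠ 0 ∧ r ≠ s ∧ r ≠ t ∧ s ≠ t := by
  obtain ⟨hβ, h1⟩ := tg_aux h hd hγ
  obtain ⟨hα, h3⟩ := tg_aux h.rot.rot hd hβ
  obtain ⟨_, h4⟩ := tg_aux h.rot hd hα
  exact ⟨hα, hβ, h1, h4.symm, h3⟩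

private theorem th_half (h2 : (2 : K) ≠ 0) {X Y S T : Module.End K V} (h1 : X + Y = S)
    (h3 : X - Y = T) : X = (2⁻¹ : K) • (S + T) := by
  have h4 : (2 : K) • X = S + T := by
    rw [← h1, ← h3, two_smul]
    abel
  rw [← h4, smul_smul, inv_mul_cancel₀ h2, one_smul]

private theorem th_tri {n : ℕ} {x : Module.Basis (Fin (n + 1)) K V} {P Q : Module.End K V}
    {r : Module.End K V ≃ₗ[K] Module.End K V} (dA : (mt x P).IsDiag)
    (inj : Function.Injective (fun i : Fin (n + 1) => mt x P i i))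
    (hr : ∀ X Y, r (X * Y) = r Y * r X) (rA : r P = P) (hQ : IrredTridiag (mt x Q)) :
    Tri x (Q + r Q) := by
  obtain ⟨D, hD, hs⟩ := anti_shape dA inj hr rA
  intro i j hij
  have h1 : mt x (Q + r Q) i j = mt x Q i j + mt x (r Q) i j := by
    simp [mt, map_add]
  rw [h1, hs, hQ.1 i j hij, hQ.1 j i hij.symm]
  simp

private theorem th_sym (h : Setup a b c A B C r s t α β γ) :
    r (C + r C) = C + r C := by
  have h1 : r (r C) = C := by
    have h2 := h.lt.pAB.anti_sq h.hr
    have h3 := congrArg (fun f : Module.End K V ≃ₗ[K] Module.End K V => f C) h2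
    simpa using h3
  rw [map_add, h1, add_comm]

/-- th: `C` as a combination of `1, A, B, AB + BA, AB - BA` -/
theorem Setup.expr (h : Setup a b c A B C r s t α β γ) :
    ∃ e f f' g : K, C = e • 1 + f • A + f' • B + g • (A * B + B * A)
      + (γ / 2) • (A * B - B * A) := by
  obtain ⟨e, f, f', g, hX⟩ := sym_span h.h2 h.lt.pAB h.hr (th_sym h)
    (th_tri h.lt.dA h.lt.pAB.inj h.hr.anti h.hr.fixA h.lt.aC)
    (th_tri h.lt.dB h.lt.pAB.symm.inj h.hr.anti h.hr.fixB h.lt.bC)
  refine ⟨e / 2, f / 2, f' / 2, g / 2, ?_⟩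
  rw [th_half h.h2 hX h.eC]
  module

private theorem ti_mul_left {n : ℕ} {x : Module.Basis (Fin n) K V} {P Q : Module.End K V}
    (dP : (mt x P).IsDiag) (i j : Fin n) : mt x (P * Q) i j = mt x P i i * mt x Q i j := by
  have h1 : mt x (P * Q) = mt x P * mt x Q := by
    simp [mt, LinearMap.toMatrix_mul]
  rw [h1, Matrix.mul_apply, Finset.sum_eq_single i]
  · intro k _ hk
    rw [dP hk.symm, zero_mul]
  · intro hi
    exact absurd (Finset.mem_univ i) hi

private theorem ti_mul_right {n : ℕ} {x : Module.Basis (Fin n) K V} {P Q : Module.End K V}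
    (dP : (mt x P).IsDiag) (i j : Fin n) : mt x (Q * P) i j = mt x Q i j * mt x P j j := by
  have h1 : mt x (Q * P) = mt x Q * mt x P := by
    simp [mt, LinearMap.toMatrix_mul]
  rw [h1, Matrix.mul_apply, Finset.sum_eq_single j]
  · intro k _ hk
    rw [dP hk, mul_zero]
  · intro hi
    exact absurd (Finset.mem_univ j) hi

private theorem ti_entry {n : ℕ} {x : Module.Basis (Fin n) K V} {P Q : Module.End K V}
    (dP : (mt x P).IsDiag) {i j : Fin n} (hij : i ≠ j) (e f f' g w : K) :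
    mt x (e • 1 + f • P + f' • Q + g • (P * Q + Q * P) + w • (P * Q - Q * P)) i j
      = mt x Q i j * (f' + g * (mt x P i i + mt x P j j) + w * (mt x P i i - mt x P j j)) := by
  have h1 : mt x (e • 1 + f • P + f' • Q + g • (P * Q + Q * P) + w • (P * Q - Q * P)) i j
      = e * mt x 1 i j + f * mt x P i j + f' * mt x Q i j
        + g * (mt x (P * Q) i j + mt x (Q * P) i j)
        + w * (mt x (P * Q) i j - mt x (Q * P) i j) := by
    simp only [mt, map_add, map_sub, map_smul, Matrix.add_apply, Matrix.sub_apply,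
      Matrix.smul_apply, smul_eq_mul]
  have h3 : mt x (1 : Module.End K V) i j = 0 := by
    have : mt x (1 : Module.End K V) = 1 := by simp [mt]
    rw [this, Matrix.one_apply_ne hij]
  rw [h1, h3, dP hij, ti_mul_left dP, ti_mul_right dP]
  ring

private theorem ti_one (hr : ∀ X Y, r (X * Y) = r Y * r X) : r 1 = 1 := by
  obtain ⟨Z, hZ⟩ := r.surjective 1
  have h1 := hr Z 1
  rw [mul_one, hZ, mul_one] at h1
  exact h1.symm

private theorem ti_adj {i j : Fin (d + 1)} (hij : (i : ℕ) + 1 = j ∨ (j : ℕ) + 1 = i) :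
    i ≠ j := by
  rintro rfl
  omega

/-- ti: the ratios in terms of the coefficients -/
theorem Setup.expr_entries (h : Setup a b c A B C r s t α β γ) (hγ : γ ≠ 0)
    {u : Fin (d + 1) → K} (hu : ∀ i, u i ≠ 0) (hX : ∀ X i j, mt a ((r * s) X) i j = u i / u j * mt a X i j)
    {e f f' g : K} (hC : C = e • 1 + f • A + f' • B + g • (A * B + B * A)
      + (γ / 2) • (A * B - B * A))
    {i j : Fin (d + 1)} (hij : (i : ℕ) + 1 = j ∨ (j : ℕ) + 1 = i) :
    f' + g * (mt a A i i + mt a A j j) + γ / 2 * (mt a A i i - mt a A j j) ≠ 0 ∧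
    f' + g * (mt a A i i + mt a A j j) - γ / 2 * (mt a A i i - mt a A j j) ≠ 0 ∧
    u i / u j * (f' + g * (mt a A i i + mt a A j j) + γ / 2 * (mt a A i i - mt a A j j))
      = f' + g * (mt a A i i + mt a A j j) - γ / 2 * (mt a A i i - mt a A j j) ∧
    (f' + g * (mt a A i i + mt a A j j)) ^ 2 - γ ^ 2 / 4 * (mt a A i i - mt a A j j) ^ 2
      = γ / β := by
  set y := f' + g * (mt a A i i + mt a A j j) with hy
  set δ := mt a A i i - mt a A j j with hδ
  have hne : i ≠ j := ti_adj hij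
  have hδ0 : δ ≠ 0 := fun h0 => hne (h.lt.pAB.inj (sub_eq_zero.1 h0))
  have hB : mt a B i j ≠ 0 := h.lt.aB.2 i j hij
  have hCij : mt a C i j ≠ 0 := h.lt.aC.2 i j hij
  have e1 : mt a C i j = mt a B i j * (y + γ / 2 * δ) := by
    conv_lhs => rw [hC]
    exact ti_entry h.lt.dA hne e f f' g (γ / 2)
  have hrC : r C = e • 1 + f • A + f' • B + g • (A * B + B * A)
      + (-(γ / 2)) • (A * B - B * A) := by
    conv_lhs => rw [hC]
    simp only [map_add, map_sub, map_smul, h.hr.anti, h.hr.fixA, h.hr.fixB, ti_one h.hr.anti]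
    module
  have e2 : mt a (r C) i j = mt a B i j * (y - γ / 2 * δ) := by
    rw [hrC, ti_entry h.lt.dA hne e f f' g (-(γ / 2))]
    ring
  have e3 : mt a (r C) i j = u i / u j * mt a C i j := by
    have h1 := hX C i j
    have h4 : (r * s) C = r C := by
      rw [LinearEquiv.mul_apply, h.hs.fixA]
    rw [h4] at h1
    exact h1
  have hp : y + γ / 2 * δ ≠ 0 := fun h0 => hCij (by rw [e1, h0, mul_zero])
  have hq : u i / u j * (y + γ / 2 * δ) = y - γ / 2 * δ := by
    have h1 : mt a B i j * (u i / u j * (y + γ / 2 * δ)) = mt a B i j * (y - γ / 2 * δ) := by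
      rw [← e2, e3, e1]
      ring
    exact mul_left_cancel₀ hB h1
  have hu0 : u i / u j ≠ 0 := div_ne_zero (hu i) (hu j)
  have hm : y - γ / 2 * δ ≠ 0 := by
    rw [← hq]
    exact mul_ne_zero hu0 hp
  refine ⟨hp, hm, hq, ?_⟩
  have h5 := h.ratio_add hu hX hij
  have h6 : u i / u j = (y - γ / 2 * δ) / (y + γ / 2 * δ) := by
    rw [eq_div_iff hp]
    exact hq
  have h7 : u j / u i = (y + γ / 2 * δ) / (y - γ / 2 * δ) := by
    rw [← inv_div (u i), h6, inv_div]
  rw [← hδ, h6, h7] at h5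
  have h2 := h.h2
  have hg2 : γ / 2 * 2 = γ := div_mul_cancel₀ γ h2
  have h8 : γ = β * ((y - γ / 2 * δ) * (y + γ / 2 * δ)) := by
    have h9 : (y - γ / 2 * δ) ^ 2 + (y + γ / 2 * δ) ^ 2
        = (2 + β * γ * δ ^ 2) * ((y - γ / 2 * δ) * (y + γ / 2 * δ)) := by
      rw [div_add_div _ _ hp hm, div_eq_iff (mul_ne_zero hp hm)] at h5
      linear_combination h5
    have h11 : γ * δ ^ 2 * γ
        = γ * δ ^ 2 * (β * ((y - γ / 2 * δ) * (y + γ / 2 * δ))) := by
      have h12 : (y - γ / 2 * δ) ^ 2 + (y + γ / 2 * δ) ^ 2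
          - 2 * ((y - γ / 2 * δ) * (y + γ / 2 * δ)) = γ * δ ^ 2 * γ := by
        linear_combination δ ^ 2 * (γ / 2 * 2 + γ) * hg2
      rw [← h12, h9]
      ring
    exact mul_left_cancel₀ (mul_ne_zero hγ (pow_ne_zero 2 hδ0)) h11
  have hβ : β ≠ 0 := by
    rintro rfl
    rw [zero_mul] at h8
    exact hγ h8
  have h13 : γ ^ 2 / 4 = (γ / 2) ^ 2 := by
    rw [div_pow]
    norm_num
  rw [eq_div_iff hβ, h13]
  linear_combination -h8

/-- tj: in dimension two one can take `g = 0` -/
theorem Setup.expr_two {a b c : Module.Basis (Fin (1 + 1)) K V}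
    (h : Setup a b c A B C r s t α β γ) :
    ∃ e f f' : K, C = e • 1 + f • A + f' • B + (γ / 2) • (A * B - B * A) := by
  obtain ⟨e, f, f', hX⟩ := sym_span_two h.h2 h.lt.pAB h.hr (th_sym h)
  refine ⟨e / 2, f / 2, f' / 2, ?_⟩
  rw [th_half h.h2 hX h.eC]
  module

private theorem tk_ne_one (h : Setup a b c A B C r s t α β γ) (hγ : γ ≠ 0)
    {u : Fin (d + 1) → K} (hu : ∀ i, u i ≠ 0)
    (hX : ∀ X i j, mt a ((r * s) X) i j = u i / u j * mt a X i j)
    {i j : Fin (d + 1)} (hij : (i : ℕ) + 1 = j ∨ (j : ℕ) + 1 = i) : u i / u j ≠ 1 := by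
  intro h1
  have h3 := (h.entries hu hX hij).1
  rw [h1, sub_self, zero_mul] at h3
  have h4 : mt a A i i - mt a A j j ≠ 0 :=
    fun h0 => ti_adj hij (h.lt.pAB.inj (sub_eq_zero.1 h0))
  exact mul_ne_zero (mul_ne_zero hγ h4) (h.lt.aB.2 i j hij) h3.symm

private theorem tk_zero (h : Setup a b c A B C r s t α β γ) (hγ : γ ≠ 0)
    (ho : (r * s) ^ 2 = 1) {e f f' g : K}
    (hC : C = e • 1 + f • A + f' • B + g • (A * B + B * A) + (γ / 2) • (A * B - B * A))
    {i j : Fin (d + 1)} (hij : (i : ℕ) + 1 = j) :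
    f' + g * (mt a A i i + mt a A j j) = 0 := by
  obtain ⟨u, hu, hX⟩ := ratio_exists h.lt h.hr h.hs
  have h1 := (ratio_pow hu hX 2).1 ho i j hij
  have h3 := tk_ne_one h hγ hu hX (Or.inl hij)
  have h4 : u i / u j = -1 := by
    have h5 : (u i / u j - 1) * (u i / u j + 1) = 0 := by
      linear_combination h1
    rcases mul_eq_zero.1 h5 with h6 | h6
    · exact absurd (sub_eq_zero.1 h6) h3
    · exact eq_neg_of_add_eq_zero_left h6
  have h7 := (h.expr_entries hγ hu hX hC (Or.inl hij)).2.2.1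
  rw [h4] at h7
  have h8 : (2 : K) * (f' + g * (mt a A i i + mt a A j j)) = 0 := by
    linear_combination -h7
  exact (mul_eq_zero.1 h8).resolve_left h.h2

/-- tk: if `rs` has order two then `C` is a combination of `1, A, AB - BA` -/
theorem Setup.order_two (h : Setup a b c A B C r s t α β γ) (hd : 1 ≤ d) (hγ : γ ≠ 0)
    (ho : (r * s) ^ 2 = 1) :
    ∃ e f : K, C = e • 1 + f • A + (γ / 2) • (A * B - B * A) := by
  rcases Nat.lt_or_ge 1 d with hd2 | hd2
  · obtain ⟨e, f, f', g, hC⟩ := h.expr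
    have h1 := tk_zero h hγ ho hC (i := ⟨0, by omega⟩) (j := ⟨1, by omega⟩) rfl
    have h3 := tk_zero h hγ ho hC (i := ⟨1, by omega⟩) (j := ⟨2, by omega⟩) rfl
    have h4 : mt a A (⟨2, by omega⟩ : Fin (d + 1)) ⟨2, by omega⟩
        - mt a A (⟨0, by omega⟩ : Fin (d + 1)) ⟨0, by omega⟩ ≠ 0 := by
      intro h0
      have := h.lt.pAB.inj (sub_eq_zero.1 h0)
      rw [Fin.mk.injEq] at this
      omega
    have h5 : g * (mt a A (⟨2, by omega⟩ : Fin (d + 1)) ⟨2, by omega⟩
        - mt a A (⟨0, by omega⟩ : Fin (d + 1)) ⟨0, by omega⟩) = 0 := by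
      linear_combination h3 - h1
    have hg : g = 0 := (mul_eq_zero.1 h5).resolve_right h4
    have hf : f' = 0 := by
      rw [hg, zero_mul, add_zero] at h1
      exact h1
    refine ⟨e, f, ?_⟩
    rw [hg, hf] at hC
    rw [zero_smul, zero_smul, add_zero, add_zero] at hC
    exact hC
  · obtain rfl : d = 1 := by omega
    obtain ⟨e, f, f', hC⟩ := h.expr_two
    have hC' : C = e • 1 + f • A + f' • B + (0 : K) • (A * B + B * A)
        + (γ / 2) • (A * B - B * A) := by
      rw [zero_smul, add_zero]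
      exact hC
    have h1 := tk_zero h hγ ho hC' (i := ⟨0, by omega⟩) (j := ⟨1, by omega⟩) rfl
    rw [zero_mul, add_zero] at h1
    refine ⟨e, f, ?_⟩
    rw [h1, zero_smul, add_zero] at hC
    exact hC

private theorem tl_facts (h : Setup a b c A B C r s t α β γ) (hγ : γ ≠ 0)
    (ho : (r * s) ^ 3 = 1) {e f f' g : K}
    (hC : C = e • 1 + f • A + f' • B + g • (A * B + B * A) + (γ / 2) • (A * B - B * A))
    {i j : Fin (d + 1)} (hij : (i : ℕ) + 1 = j) :
    β * γ * (mt a A i i - mt a A j j) ^ 2 = -3 ∧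
    (f' + g * (mt a A i i + mt a A j j)) ^ 2 - γ ^ 2 / 4 * (mt a A i i - mt a A j j) ^ 2
      = γ / β := by
  obtain ⟨u, hu, hX⟩ := ratio_exists h.lt h.hr h.hs
  have h1 := (ratio_pow hu hX 3).1 ho i j hij
  have h3 := tk_ne_one h hγ hu hX (Or.inl hij)
  have hu0 : u i / u j ≠ 0 := div_ne_zero (hu i) (hu j)
  have h4 : (u i / u j) ^ 2 + u i / u j + 1 = 0 := by
    have h5 : (u i / u j - 1) * ((u i / u j) ^ 2 + u i / u j + 1) = 0 := by
      linear_combination h1
    exact (mul_eq_zero.1 h5).resolve_left (sub_ne_zero.2 h3)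
  have h6 : u i / u j + u j / u i = -1 := by
    have h7 : u j / u i = (u i / u j)⁻¹ := (inv_div _ _).symm
    rw [h7]
    have h8 : (u i / u j) * (u i / u j + (u i / u j)⁻¹) = (u i / u j) * (-1) := by
      rw [mul_add, mul_inv_cancel₀ hu0]
      linear_combination h4
    exact mul_left_cancel₀ hu0 h8
  refine ⟨?_, (h.expr_entries hγ hu hX hC (Or.inl hij)).2.2.2⟩
  have h9 := h.ratio_add hu hX (Or.inl hij)
  linear_combination h6 - h9

/-- tl: if `rs` has order three and the dimension is at least four then `g = 0` -/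
theorem Setup.order_three (h : Setup a b c A B C r s t α β γ) (hd : 3 ≤ d) (hγ : γ ≠ 0)
    (ho : (r * s) ^ 3 = 1) :
    ∃ e f f' : K, C = e • 1 + f • A + f' • B + (γ / 2) • (A * B - B * A) := by
  obtain ⟨e, f, f', g, hC⟩ := h.expr
  obtain ⟨a0, b0⟩ := tl_facts h hγ ho hC (i := ⟨0, by omega⟩) (j := ⟨1, by omega⟩) rfl
  obtain ⟨a1, b1⟩ := tl_facts h hγ ho hC (i := ⟨1, by omega⟩) (j := ⟨2, by omega⟩) rfl
  obtain ⟨a2, b2⟩ := tl_facts h hγ ho hC (i := ⟨2, by omega⟩) (j := ⟨3, by omega⟩) rfl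
  set t0 := mt a A (⟨0, by omega⟩ : Fin (d + 1)) ⟨0, by omega⟩ with ht0
  set t1 := mt a A (⟨1, by omega⟩ : Fin (d + 1)) ⟨1, by omega⟩ with ht1
  set t2 := mt a A (⟨2, by omega⟩ : Fin (d + 1)) ⟨2, by omega⟩ with ht2
  set t3 := mt a A (⟨3, by omega⟩ : Fin (d + 1)) ⟨3, by omega⟩ with ht3
  have n20 : t2 - t0 ≠ 0 := by
    intro h0
    have := h.lt.pAB.inj (sub_eq_zero.1 h0)
    rw [Fin.mk.injEq] at this
    omega
  have n31 : t3 - t1 ≠ 0 := by
    intro h0
    have := h.lt.pAB.inj (sub_eq_zero.1 h0)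
    rw [Fin.mk.injEq] at this
    omega
  have n01 : t0 - t1 ≠ 0 := by
    intro h0
    have := h.lt.pAB.inj (sub_eq_zero.1 h0)
    rw [Fin.mk.injEq] at this
    omega
  have hβγ : β * γ ≠ 0 := mul_ne_zero (h.nondegenerate (by omega) hγ).2.1 hγ
  have e0 : t0 - 2 * t1 + t2 = 0 := by
    have h1 : β * γ * ((t0 - t2) * (t0 - 2 * t1 + t2)) = 0 := by
      linear_combination a0 - a1
    have h3 := (mul_eq_zero.1 h1).resolve_left hβγ
    exact (mul_eq_zero.1 h3).resolve_left fun h0 => n20 (by linear_combination -h0)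
  have e1 : t1 - 2 * t2 + t3 = 0 := by
    have h1 : β * γ * ((t1 - t3) * (t1 - 2 * t2 + t3)) = 0 := by
      linear_combination a1 - a2
    have h3 := (mul_eq_zero.1 h1).resolve_left hβγ
    exact (mul_eq_zero.1 h3).resolve_left fun h0 => n31 (by linear_combination -h0)
  have s01 : (f' + g * (t0 + t1)) ^ 2 = (f' + g * (t1 + t2)) ^ 2 := by
    linear_combination b0 - b1 + γ ^ 2 / 4 * (t0 - t2) * e0
  have s12 : (f' + g * (t1 + t2)) ^ 2 = (f' + g * (t2 + t3)) ^ 2 := by
    linear_combination b1 - b2 + γ ^ 2 / 4 * (t1 - t3) * e1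
  have hk : g * (t3 - t1) = g * (t2 - t0) := by
    linear_combination g * (e0 + e1)
  have h7 : (2 : K) * (g * (t2 - t0)) ^ 2 = 0 := by
    have k1 : (f' + g * (t1 + t2)) = (f' + g * (t0 + t1)) + g * (t2 - t0) := by ring
    have k2 : (f' + g * (t2 + t3)) = (f' + g * (t0 + t1)) + 2 * (g * (t2 - t0)) := by
      linear_combination hk
    rw [k1] at s01 s12
    rw [k2] at s12
    linear_combination s01 - s12
  have h8 : g * (t2 - t0) = 0 := by
    have := (mul_eq_zero.1 h7).resolve_left h.h2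
    exact pow_eq_zero_iff (two_ne_zero) |>.1 this
  have hg : g = 0 := (mul_eq_zero.1 h8).resolve_right n20
  refine ⟨e, f, f', ?_⟩
  rw [hg, zero_smul, add_zero] at hC
  exact hC

end

end Pool.Agent.Leo
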