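import Pool.Agent.Leo.KType
import Pool.Agent.Leo.Refl

/-!
# Words in `r, s, t` for a triple of Krawtchouk type
-/

namespace Pool.Agent.Leo

variable {K : Type*} [Field K] {V : Type*} [AddCommGroup V] [Module K V]

section
variable {d : ℕ} {a b c : Module.Basis (Fin (d + 1)) K V} {A B C : Module.End K V}
  {r s t : Module.End K V ≃ₗ[K] Module.End K V} {α β γ : K} {f f' g g' k k' : K}

/-- wa: `1, A, B, C` are linearly independent -/
theorem Setup.indep (h : Setup a b c A B C r s t α β γ) (hd : 1 ≤ d) (hγ : γ ≠ 0)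
    (hk : KData A B C r s t f f' g g' k k') {x y z w : K}
    (hz : x • (1 : Module.End K V) + y • A + z • B + w • C = 0) :
    x = 0 ∧ y = 0 ∧ z = 0 ∧ w = 0 := by
  obtain ⟨⟨e, hC⟩, -, -⟩ := h.kexpr hk
  have h2 := h.h2
  have key : (x + w * e) • (1 : Module.End K V) + (y + w * f) • A + (z + w * f') • B
      + (w * (γ / 2)) • (A * B - B * A) = 0 := by
    have e1 : w • C = w • (e • 1 + f • A + f' • B + (γ / 2) • (A * B - B * A)) := by rw [← hC]
    rw [← hz, e1]
    module
  obtain ⟨h1, h3, h4, h5⟩ := h.lt.pAB.indep4 hd h2 key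
  have hw : w = 0 := by
    rcases mul_eq_zero.1 h5 with h6 | h6
    · exact h6
    · exact absurd h6 (div_ne_zero hγ h2)
  subst hw
  simp only [zero_mul, add_zero] at h1 h3 h4
  exact ⟨h1, h3, h4, rfl⟩

/-- wb: action of a word on the span of `1, A, B, C` (coordinates in the order `C, B, A`) -/
theorem KData.word_apply (hk : KData A B C r s t f f' g g' k k')
    (r1 : r 1 = 1) (s1 : s 1 = 1) (t1 : t 1 = 1) (rA : r A = A) (rB : r B = B)
    (sA : s A = A) (sC : s C = C) (tB : t B = B) (tC : t C = C)
    (ω : List (Fin 3)) (x : Fin 3 → K) :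
    ∃ (y : Fin 3 → K) (ε : K),
      y = (wordM (cartM f f' g g' k k') ω.reverse).transpose.mulVec x ∧
      wordG r s t ω (x 0 • C + x 1 • B + x 2 • A) = y 0 • C + y 1 • B + y 2 • A + ε • 1 := by
  induction ω with
  | nil =>
    refine ⟨x, 0, ?_, ?_⟩
    · simp [wordM]
    · simp [wordG]
  | cons i ω ih =>
    obtain ⟨y, ε, hy, hw⟩ := ih
    refine ⟨(sigM (cartM f f' g g' k k') i).transpose.mulVec y, ?_⟩
    have hM : (sigM (cartM f f' g g' k k') i).transpose.mulVec y =
        (wordM (cartM f f' g g' k k') (i :: ω).reverse).transpose.mulVec x := by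
      rw [hy, Matrix.mulVec_mulVec]
      congr 1
      unfold wordM
      rw [List.reverse_cons, List.map_append, List.prod_append, List.map_singleton,
        List.prod_singleton, Matrix.transpose_mul]
    have hG : wordG r s t (i :: ω) (x 0 • C + x 1 • B + x 2 • A) =
        (![r, s, t] i) (y 0 • C + y 1 • B + y 2 • A + ε • 1) := by
      rw [← hw]
      unfold wordG
      rw [List.map_cons, List.prod_cons]
      rfl
    obtain ⟨eC, hC⟩ := hk.eC
    obtain ⟨eB, hB⟩ := hk.eB
    obtain ⟨eA, hA⟩ := hk.eA
    have hv : ∀ q, (sigM (cartM f f' g g' k k') i).transpose.mulVec y q =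
        y q - cartM f f' g g' k k' i q * y i := by
      intro q
      simp only [Matrix.mulVec, dotProduct, Matrix.transpose_apply, sigM, Matrix.of_apply,
        Fin.sum_univ_three]
      fin_cases i <;> fin_cases q <;> simp <;> ring
    fin_cases i
    · refine ⟨ε + y 0 * eC, hM, ?_⟩
      rw [hG, hv, hv, hv]
      simp only [cartM, map_add, map_smul, Fin.zero_eta, Fin.isValue, Matrix.cons_val_zero,
        Matrix.of_apply, Matrix.cons_val', Matrix.cons_val_one, Matrix.cons_val]
      rw [hC, rA, rB, r1]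
      module
    · refine ⟨ε + y 1 * eB, hM, ?_⟩
      rw [hG, hv, hv, hv]
      simp only [cartM, map_add, map_smul, Fin.mk_one, Fin.isValue, Matrix.cons_val_zero,
        Matrix.of_apply, Matrix.cons_val', Matrix.cons_val_one, Matrix.cons_val]
      rw [hB, sA, sC, s1]
      module
    · refine ⟨ε + y 2 * eA, hM, ?_⟩
      rw [hG, hv, hv, hv]
      simp only [cartM, map_add, map_smul, Fin.reduceFinMk, Fin.isValue, Matrix.cons_val_zero,
        Matrix.of_apply, Matrix.cons_val', Matrix.cons_val_one, Matrix.cons_val]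
      rw [hA, tB, tC, t1]
      module

private theorem wc_one {r : Module.End K V ≃ₗ[K] Module.End K V}
    (hr : ∀ X Y, r (X * Y) = r Y * r X) : r 1 = 1 := by
  obtain ⟨X, hX⟩ := r.surjective 1
  have h1 := hr 1 X
  rw [one_mul, hX, one_mul] at h1
  exact h1.symm

private theorem wc_cart {R : Type*} [CommRing R] (f f' g g' k k' : R) (i : Fin 3) :
    cartM f f' g g' k k' i i = 2 := by
  fin_cases i <;> simp [cartM]

private theorem wc_rev {R : Type*} [CommRing R] {N : Matrix (Fin 3) (Fin 3) R}
    (hN : ∀ i, N i i = 2) (ω : List (Fin 3)) : wordM N ω * wordM N ω.reverse = 1 := by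
  induction ω with
  | nil => simp [wordM]
  | cons i ω ih =>
    unfold wordM at ih ⊢
    rw [List.reverse_cons, List.map_append, List.prod_append, List.map_singleton,
      List.prod_singleton, List.map_cons, List.prod_cons, mul_assoc, ← mul_assoc _ _ (sigM N i),
      ih, one_mul, sigM_sq hN]

/-- wc: a trivial word has a trivial matrix -/
theorem Setup.word_trivial (h : Setup a b c A B C r s t α β γ) (hd : 1 ≤ d) (hγ : γ ≠ 0)
    (hk : KData A B C r s t f f' g g' k k') {ω : List (Fin 3)}
    (hω : wordG r s t ω = 1) : wordM (cartM f f' g g' k k') ω = 1 := by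
  obtain ⟨-, hc⟩ : True ∧ wordM (cartM f f' g g' k k') ω.reverse = 1 := by
    refine ⟨trivial, ?_⟩
    rw [← Matrix.transpose_inj, Matrix.transpose_one]
    apply Matrix.ext_of_mulVec_single
    intro i
    obtain ⟨y, ε, hy, hw⟩ := hk.word_apply (wc_one h.hr.anti) (wc_one h.hs.anti)
      (wc_one h.ht.anti) h.hr.fixA h.hr.fixB h.hs.fixB h.hs.fixA h.ht.fixA h.ht.fixB ω
      (Pi.single i 1)
    rw [hω] at hw
    generalize (Pi.single i 1 : Fin 3 → K) = x at hy hw
    rw [← hy, Matrix.one_mulVec]
    have hz : (-ε) • (1 : Module.End K V) + (x 2 - y 2) • A + (x 1 - y 1) • B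
        + (x 0 - y 0) • C = 0 := by
      have hw' : x 0 • C + x 1 • B + x 2 • A = y 0 • C + y 1 • B + y 2 • A + ε • 1 := hw
      have e1 : (-ε) • (1 : Module.End K V) + (x 2 - y 2) • A + (x 1 - y 1) • B
        + (x 0 - y 0) • C = (x 0 • C + x 1 • B + x 2 • A) -
          (y 0 • C + y 1 • B + y 2 • A + ε • 1) := by module
      rw [e1, hw', sub_self]
    obtain ⟨-, h3, h4, h5⟩ := h.indep hd hγ hk hz
    funext j
    fin_cases j
    · exact (sub_eq_zero.1 h5).symm
    · exact (sub_eq_zero.1 h4).symm
    · exact (sub_eq_zero.1 h3).symm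
  have := wc_rev (wc_cart f f' g g' k k') ω
  rwa [hc, mul_one] at this

/-- wd: a word is an automorphism or an antiautomorphism -/
theorem wordG_mul {A' B' C' : Module.End K V} (hr : IsAnti r A B) (hs : IsAnti s C A)
    (ht : IsAnti t B C) (ω : List (Fin 3)) :
    (Even ω.length → ∀ X Y, wordG r s t ω (X * Y) = wordG r s t ω X * wordG r s t ω Y) ∧
    (¬ Even ω.length → ∀ X Y, wordG r s t ω (X * Y) = wordG r s t ω Y * wordG r s t ω X) := by
  induction ω with
  | nil =>
    refine ⟨fun _ X Y => ?_, fun hn => absurd (by simp) hn⟩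
    simp [wordG]
  | cons i ω ih =>
    have hG : ∀ X, wordG r s t (i :: ω) X = (![r, s, t] i) (wordG r s t ω X) := by
      intro X
      unfold wordG
      rw [List.map_cons, List.prod_cons]
      rfl
    have hi : ∀ X Y, (![r, s, t] i) (X * Y) = (![r, s, t] i) Y * (![r, s, t] i) X := by
      fin_cases i
      · exact hr.anti
      · exact hs.anti
      · exact ht.anti
    constructor
    · intro he X Y
      rw [List.length_cons, Nat.even_add_one] at he
      rw [hG, hG, hG, ih.2 he, hi]
    · intro he X Y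
      rw [List.length_cons, Nat.even_add_one, not_not] at he
      rw [hG, hG, hG, ih.1 he, hi]

/-- we: automorphisms and antiautomorphisms preserve the trace (only their effect on a map
that moves by a scalar is needed) -/
theorem trace_scalar [CharZero K] [Module.Finite K V] [Nontrivial V]
    (φ : Module.End K V ≃ₗ[K] Module.End K V)
    (hφ : (∀ X Y, φ (X * Y) = φ X * φ Y) ∨ (∀ X Y, φ (X * Y) = φ Y * φ X))
    {X : Module.End K V} {ε : K} (hX : φ X = X + ε • 1) : ε = 0 := by
  by_contra hε
  have h1 : φ 1 = 1 := by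
    obtain ⟨Y, hY⟩ := φ.surjective 1
    rcases hφ with hφ | hφ
    · have h1 := hφ 1 Y
      rw [one_mul, hY, mul_one] at h1
      exact h1.symm
    · have h1 := hφ 1 Y
      rw [one_mul, hY, one_mul] at h1
      exact h1.symm
  have hpow : ∀ n : ℕ, φ (X ^ n) = (φ X) ^ n := by
    intro n
    induction n with
    | zero => rw [pow_zero, pow_zero, h1]
    | succ n ih =>
      rcases hφ with hφ | hφ
      · rw [pow_succ, hφ, ih, pow_succ]
      · rw [pow_succ', hφ, ih, pow_succ]
  have hae : ∀ p : Polynomial K, Polynomial.aeval (φ X) p = φ (Polynomial.aeval X p) := by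
    intro p
    induction p using Polynomial.induction_on' with
    | add p q hp hq => rw [map_add, map_add, map_add, hp, hq]
    | monomial n c =>
      rw [Polynomial.aeval_monomial, Polynomial.aeval_monomial, ← Algebra.smul_def,
        ← Algebra.smul_def, map_smul, hpow]
  have hint : IsIntegral K X := Algebra.IsIntegral.isIntegral X
  set p := minpoly K X with hp
  have hmon : p.Monic := minpoly.monic hint
  have hpos : 0 < p.natDegree := minpoly.natDegree_pos hint
  have hdvd : p ∣ p.comp (Polynomial.X + Polynomial.C ε) := by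
    apply minpoly.dvd
    have h2 := hae p
    rw [minpoly.aeval, map_zero, hX] at h2
    rw [Polynomial.aeval_comp]
    have h3 : Polynomial.aeval X (Polynomial.X + Polynomial.C ε) = X + ε • 1 := by
      rw [map_add, Polynomial.aeval_X, Polynomial.aeval_C, Algebra.algebraMap_eq_smul_one]
    rw [h3, h2]
  have heq : p.comp (Polynomial.X + Polynomial.C ε) = p := by
    have hm2 : (p.comp (Polynomial.X + Polynomial.C ε)).Monic := hmon.comp_X_add_C ε
    have hd2 : (p.comp (Polynomial.X + Polynomial.C ε)).natDegree = p.natDegree := by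
      rw [Polynomial.natDegree_comp, Polynomial.natDegree_X_add_C, mul_one]
    exact Polynomial.eq_of_monic_of_dvd_of_natDegree_le hmon hm2 hdvd hd2.le
  have hev : ∀ n : ℕ, p.eval ((n : K) * ε) = p.eval 0 := by
    intro n
    induction n with
    | zero => simp
    | succ n ih =>
      rw [← ih]
      conv_rhs => rw [← heq]
      rw [Polynomial.eval_comp]
      congr 1
      simp
      ring
  have hc : p = Polynomial.C (p.eval 0) := by
    apply Polynomial.eq_of_infinite_eval_eq
    apply Set.Infinite.mono (s := Set.range (fun n : ℕ => (n : K) * ε))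
    · rintro _ ⟨n, rfl⟩
      show _ = _
      rw [Polynomial.eval_C]
      exact hev n
    · apply Set.infinite_range_of_injective
      intro m n hmn
      have := mul_right_cancel₀ hε hmn
      exact_mod_cast this
  rw [hc, Polynomial.natDegree_C] at hpos
  exact lt_irrefl _ hpos

/-- we': the same if the dimension is nonzero in the field -/
theorem trace_scalar' {d : ℕ} (a : Module.Basis (Fin (d + 1)) K V)
    (hdim : ((d + 1 : ℕ) : K) ≠ 0)
    (φ : Module.End K V ≃ₗ[K] Module.End K V)
    (hφ : (∀ X Y, φ (X * Y) = φ X * φ Y) ∨ (∀ X Y, φ (X * Y) = φ Y * φ X))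
    {X : Module.End K V} {ε : K} (hX : φ X = X + ε • 1) : ε = 0 := by
  classical
  have h1 : φ 1 = 1 := by
    obtain ⟨Y, hY⟩ := φ.surjective 1
    rcases hφ with hφ | hφ
    · have h1 := hφ 1 Y
      rw [one_mul, hY, mul_one] at h1
      exact h1.symm
    · have h1 := hφ 1 Y
      rw [one_mul, hY, one_mul] at h1
      exact h1.symm
  let T : Matrix (Fin (d + 1)) (Fin (d + 1)) K →ₗ[K] K :=
    (LinearMap.trace K V).comp (φ.toLinearMap.comp (LinearMap.toMatrix a a).symm.toLinearMap)
  have hT : ∀ M, T M = LinearMap.trace K V (φ ((LinearMap.toMatrix a a).symm M)) := fun _ => rfl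
  have hsy : ∀ M N, (LinearMap.toMatrix a a).symm (M * N) =
      (LinearMap.toMatrix a a).symm M * (LinearMap.toMatrix a a).symm N := by
    intro M N; simp [LinearMap.toMatrix_symm, Matrix.toLin_mul a a a, Module.End.mul_eq_comp]
  have hcomm : ∀ M N, T (M * N) = T (N * M) := by
    intro M N
    rw [hT, hT, hsy, hsy]
    rcases hφ with hφ | hφ
    · rw [hφ, hφ, LinearMap.trace_mul_comm]
    · rw [hφ, hφ, LinearMap.trace_mul_comm]
  have hoff : ∀ i j, i ≠ j → T (Matrix.single i j 1) = 0 := by
    intro i j hij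
    have e1 : Matrix.single i i (1 : K) * Matrix.single i j 1 = Matrix.single i j 1 := by
      rw [Matrix.single_mul_single_same, mul_one]
    have e2 : Matrix.single i j (1 : K) * Matrix.single i i 1 = 0 :=
      Matrix.single_mul_single_of_ne _ _ _ _ hij.symm _
    have := hcomm (Matrix.single i i 1) (Matrix.single i j 1)
    rw [e1, e2, map_zero] at this
    exact this
  have hdiag : ∀ i j, T (Matrix.single i i 1) = T (Matrix.single j j 1) := by
    intro i j
    have := hcomm (Matrix.single i j 1) (Matrix.single j i 1)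
    rwa [Matrix.single_mul_single_same, Matrix.single_mul_single_same, mul_one] at this
  have hsum : ∀ M, T M = T (Matrix.single 0 0 1) * Matrix.trace M := by
    intro M
    conv_lhs => rw [Matrix.matrix_eq_sum_single M]
    rw [map_sum, Matrix.trace, Finset.mul_sum]
    apply Finset.sum_congr rfl
    intro i _
    rw [map_sum, Finset.sum_eq_single i]
    · have e1 : Matrix.single i i (M i i) = M i i • Matrix.single i i (1 : K) := by simp
      rw [e1, map_smul, smul_eq_mul, hdiag i 0, Matrix.diag_apply, mul_comm]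
    · intro j _ hj
      have e1 : Matrix.single i j (M i j) = M i j • Matrix.single i j (1 : K) := by simp
      rw [e1, map_smul, hoff i j hj.symm, smul_zero]
    · simp
  have hfr : Module.finrank K V = d + 1 := by
    rw [Module.finrank_eq_card_basis a, Fintype.card_fin]
  have : Module.Finite K V := Module.Finite.of_basis a
  have h2 : T (Matrix.single 0 0 1) = 1 := by
    have h3 := hsum 1
    rw [Matrix.trace_one, Fintype.card_fin, hT] at h3
    have e1 : (LinearMap.toMatrix a a).symm 1 = 1 := by
      rw [LinearEquiv.symm_apply_eq, LinearMap.toMatrix_one]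
    rw [e1, h1, LinearMap.trace_one, hfr] at h3
    apply mul_right_cancel₀ hdim
    rw [← h3, one_mul]
  have h3 : ∀ Y, LinearMap.trace K V (φ Y) = LinearMap.trace K V Y := by
    intro Y
    have h4 := hsum (LinearMap.toMatrix a a Y)
    rw [hT, LinearEquiv.symm_apply_apply, h2, one_mul] at h4
    rw [h4, LinearMap.trace_eq_matrix_trace K a]
  have h4 := h3 X
  rw [hX, map_add, map_smul, LinearMap.trace_one, hfr, smul_eq_mul, add_eq_left] at h4
  exact (mul_eq_zero.1 h4).resolve_right hdim

/-- wf: a word with trivial matrix is trivial -/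
theorem Setup.word_trivial'' (hdim : ((d + 1 : ℕ) : K) ≠ 0)
    (h : Setup a b c A B C r s t α β γ) (hd : 1 ≤ d)
    (hγ : γ ≠ 0) (hk : KData A B C r s t f f' g g' k k') {ω : List (Fin 3)}
    (hω : wordM (cartM f f' g g' k k') ω = 1) : wordG r s t ω = 1 := by
  have hrev : wordM (cartM f f' g g' k k') ω.reverse = 1 := by
    have := wc_rev (wc_cart f f' g g' k k') ω
    rwa [hω, one_mul] at this
  have hmul := wordG_mul (A' := A) (B' := B) (C' := C) h.hr h.hs h.ht ω
  have hφ : (∀ X Y, wordG r s t ω (X * Y) = wordG r s t ω X * wordG r s t ω Y) ∨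
      (∀ X Y, wordG r s t ω (X * Y) = wordG r s t ω Y * wordG r s t ω X) := by
    by_cases he : Even ω.length
    · exact Or.inl (hmul.1 he)
    · exact Or.inr (hmul.2 he)
  have happ : ∀ x : Fin 3 → K, wordG r s t ω (x 0 • C + x 1 • B + x 2 • A) =
      x 0 • C + x 1 • B + x 2 • A := by
    intro x
    obtain ⟨y, ε, hy, hw⟩ := hk.word_apply (wc_one h.hr.anti) (wc_one h.hs.anti)
      (wc_one h.ht.anti) h.hr.fixA h.hr.fixB h.hs.fixB h.hs.fixA h.ht.fixA h.ht.fixB ω x
    rw [hrev, Matrix.transpose_one, Matrix.one_mulVec] at hy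
    subst hy
    have := trace_scalar' a hdim (wordG r s t ω) hφ hw
    rw [this, zero_smul, add_zero] at hw
    exact hw
  have fC : wordG r s t ω C = C := by
    have := happ ![1, 0, 0]
    simpa using this
  have fB : wordG r s t ω B = B := by
    have := happ ![0, 1, 0]
    simpa using this
  have fA : wordG r s t ω A = A := by
    have := happ ![0, 0, 1]
    simpa using this
  by_cases he : Even ω.length
  · exact h.lt.pAB.auto_eq_one _ (hmul.1 he) fA fB
  · exfalso
    have hu : wordG r s t ω = r := h.lt.pAB.anti_unique ⟨hmul.2 he, fA, fB⟩ h.hr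
    rw [hu] at fC
    have h1 := h.eC
    rw [fC, sub_self] at h1
    have h3 := h.lt.pAB.indep4 (x := 0) (y := 0) (z := 0) (w := γ) hd h.h2
      (by rw [← h1]; simp)
    exact hγ h3.2.2.2

/-- wf: a word with trivial matrix is trivial -/
theorem Setup.word_trivial' [CharZero K] (h : Setup a b c A B C r s t α β γ) (hd : 1 ≤ d)
    (hγ : γ ≠ 0) (hk : KData A B C r s t f f' g g' k k') {ω : List (Fin 3)}
    (hω : wordM (cartM f f' g g' k k') ω = 1) : wordG r s t ω = 1 :=
  h.word_trivial'' (Nat.cast_ne_zero.2 (Nat.succ_ne_zero d)) hd hγ hk hω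

end

/-- wg: from a faithful comparison of words to the Coxeter presentation -/
theorem isCoxeterTriple_of_words {G : Type*} [Group G] {r s t : G} (M : CoxeterMatrix (Fin 3))
    (hr : r * r = 1) (hs : s * s = 1) (ht : t * t = 1)
    (h01 : M 0 1 = orderOf (r * s)) (h02 : M 0 2 = orderOf (r * t))
    (h12 : M 1 2 = orderOf (s * t))
    (hw : ∀ ω : List (Fin 3), wordG r s t ω = 1 → M.toCoxeterSystem.wordProd ω = 1) :
    IsCoxeterTriple r s t := by
  have hsr : s * r = (r * s)⁻¹ := by
    rw [mul_inv_rev, inv_eq_of_mul_eq_one_right hr, inv_eq_of_mul_eq_one_right hs]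
  have htr : t * r = (r * t)⁻¹ := by
    rw [mul_inv_rev, inv_eq_of_mul_eq_one_right hr, inv_eq_of_mul_eq_one_right ht]
  have hts : t * s = (s * t)⁻¹ := by
    rw [mul_inv_rev, inv_eq_of_mul_eq_one_right hs, inv_eq_of_mul_eq_one_right ht]
  have hl : M.IsLiftable ![r, s, t] := by
    intro i j
    fin_cases i <;> fin_cases j
    · show (r * r) ^ M 0 0 = 1
      rw [hr, one_pow]
    · show (r * s) ^ M 0 1 = 1
      rw [h01, pow_orderOf_eq_one]
    · show (r * t) ^ M 0 2 = 1
      rw [h02, pow_orderOf_eq_one]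
    · show (s * r) ^ M 1 0 = 1
      rw [M.symmetric, h01, hsr, inv_pow, pow_orderOf_eq_one, inv_one]
    · show (s * s) ^ M 1 1 = 1
      rw [hs, one_pow]
    · show (s * t) ^ M 1 2 = 1
      rw [h12, pow_orderOf_eq_one]
    · show (t * r) ^ M 2 0 = 1
      rw [M.symmetric, h02, htr, inv_pow, pow_orderOf_eq_one, inv_one]
    · show (t * s) ^ M 2 1 = 1
      rw [M.symmetric, h12, hts, inv_pow, pow_orderOf_eq_one, inv_one]
    · show (t * t) ^ M 2 2 = 1
      rw [ht, one_pow]
  refine ⟨M, h01, h02, h12, M.toCoxeterSystem.lift ⟨![r, s, t], hl⟩, ?_, ?_, ?_, ?_⟩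
  · rw [injective_iff_map_eq_one]
    intro w hw1
    obtain ⟨ω, rfl⟩ := M.toCoxeterSystem.wordProd_surjective w
    apply hw
    rw [← hw1]
    unfold CoxeterSystem.wordProd wordG
    rw [map_list_prod, List.map_map]
    congr 1
    apply List.map_congr_left
    intro i _
    exact (M.toCoxeterSystem.lift_apply_simple hl i).symm
  · exact M.toCoxeterSystem.lift_apply_simple hl 0
  · exact M.toCoxeterSystem.lift_apply_simple hl 1
  · exact M.toCoxeterSystem.lift_apply_simple hl 2

/-- wh: permutations of the three generators -/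
theorem IsCoxeterTriple.perm {G : Type*} [Group G] {r s t : G} (h : IsCoxeterTriple r s t) :
    IsCoxeterTriple t r s ∧ IsCoxeterTriple r t s := by
  obtain ⟨M, h01, h02, h12, φ, hφ, f0, f1, f2⟩ := h
  have hsq : ∀ i, M.simple i * M.simple i = 1 := by
    intro i
    have := M.toCoxeterSystem.simple_mul_simple_self i
    rwa [CoxeterMatrix.toCoxeterSystem_simple] at this
  have hr : r * r = 1 := by rw [← f0, ← map_mul, hsq, map_one]
  have hs : s * s = 1 := by rw [← f1, ← map_mul, hsq, map_one]
  have ht : t * t = 1 := by rw [← f2, ← map_mul, hsq, map_one]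
  have hsr : s * r = (r * s)⁻¹ := by
    rw [mul_inv_rev, inv_eq_of_mul_eq_one_right hr, inv_eq_of_mul_eq_one_right hs]
  have htr : t * r = (r * t)⁻¹ := by
    rw [mul_inv_rev, inv_eq_of_mul_eq_one_right hr, inv_eq_of_mul_eq_one_right ht]
  have hts : t * s = (s * t)⁻¹ := by
    rw [mul_inv_rev, inv_eq_of_mul_eq_one_right hs, inv_eq_of_mul_eq_one_right ht]
  constructor
  · obtain ⟨e, e0, e1, e2⟩ : ∃ e : Fin 3 ≃ Fin 3, e.symm 0 = 2 ∧ e.symm 1 = 0 ∧ e.symm 2 = 1 :=
      ⟨(Equiv.swap 0 1).trans (Equiv.swap 0 2), by decide, by decide, by decide⟩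
    refine ⟨M.reindex e, ?_, ?_, ?_, φ.comp (M.reindexGroupEquiv e).toMonoidHom, ?_, ?_, ?_, ?_⟩
    · rw [CoxeterMatrix.reindex_apply, e0, e1, M.symmetric, h02, htr, orderOf_inv]
    · rw [CoxeterMatrix.reindex_apply, e0, e2, M.symmetric, h12, hts, orderOf_inv]
    · rw [CoxeterMatrix.reindex_apply, e1, e2, h01]
    · rw [MonoidHom.coe_comp]
      exact hφ.comp (M.reindexGroupEquiv e).injective
    · show φ (M.reindexGroupEquiv e ((M.reindex e).simple 0)) = t
      rw [CoxeterMatrix.reindexGroupEquiv_apply_simple, e0]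
      exact f2
    · show φ (M.reindexGroupEquiv e ((M.reindex e).simple 1)) = r
      rw [CoxeterMatrix.reindexGroupEquiv_apply_simple, e1]
      exact f0
    · show φ (M.reindexGroupEquiv e ((M.reindex e).simple 2)) = s
      rw [CoxeterMatrix.reindexGroupEquiv_apply_simple, e2]
      exact f1
  · let e : Equiv.Perm (Fin 3) := Equiv.swap 1 2
    refine ⟨M.reindex e, ?_, ?_, ?_, φ.comp (M.reindexGroupEquiv e).toMonoidHom, ?_, ?_, ?_, ?_⟩
    · show M 0 2 = _
      rw [h02]
    · show M 0 1 = _
      rw [h01]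
    · show M 2 1 = _
      rw [M.symmetric, h12, hts, orderOf_inv]
    · rw [MonoidHom.coe_comp]
      exact hφ.comp (M.reindexGroupEquiv e).injective
    · show φ (M.reindexGroupEquiv e ((M.reindex e).simple 0)) = r
      rw [CoxeterMatrix.reindexGroupEquiv_apply_simple]
      exact f0
    · show φ (M.reindexGroupEquiv e ((M.reindex e).simple 1)) = t
      rw [CoxeterMatrix.reindexGroupEquiv_apply_simple]
      exact f2
    · show φ (M.reindexGroupEquiv e ((M.reindex e).simple 2)) = s
      rw [CoxeterMatrix.reindexGroupEquiv_apply_simple]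
      exact f1

/-- wi: existence of a Coxeter matrix with three given orders -/
theorem exists_coxeterMatrix {p q l : ℕ} (hp : p ≠ 1) (hq : q ≠ 1) (hl : l ≠ 1) :
    ∃ M : CoxeterMatrix (Fin 3), M 0 1 = p ∧ M 0 2 = q ∧ M 1 2 = l := by
  refine ⟨⟨!![1, p, q; p, 1, l; q, l, 1], ?_, ?_, ?_⟩, rfl, rfl, rfl⟩
  · ext i j
    fin_cases i <;> fin_cases j <;> rfl
  · intro i
    fin_cases i <;> rfl
  · intro i j hij
    fin_cases i <;> fin_cases j
    · exact absurd rfl hij
    · exact hp
    · exact hq
    · exact hp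
    · exact absurd rfl hij
    · exact hl
    · exact hq
    · exact hl
    · exact absurd rfl hij

end Pool.Agent.Leo
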